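import Mathlib

/-!
Superpolynomials, superpartitions, Jack superpolynomials and the clustering ideal.
-/

namespace Pool.Agent.Lib.MP_2558e3_co

open scoped TensorProduct
open MvPolynomial

/-- Superpolynomials `K[x_1, ..., x_N] ⊗ ⋀[θ_1, ..., θ_N]`; the exterior algebra is that of `K^N`,
whose standard basis vectors are the `θ_i`. -/
abbrev SuperPoly (K : Type) [Field K] (N : ℕ) : Type :=
  MvPolynomial (Fin N) K ⊗[K] ExteriorAlgebra K (Fin N →₀ K)

/-- Superpolynomials with rational function coefficients, `K(x_1, ..., x_N) ⊗ ⋀[θ_1, ..., θ_N]`. -/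
abbrev SuperRat (K : Type) [Field K] (N : ℕ) : Type :=
  FractionRing (MvPolynomial (Fin N) K) ⊗[K] ExteriorAlgebra K (Fin N →₀ K)

section

variable {K : Type} [Field K] {N : ℕ}

/-- The embedding of superpolynomials into superpolynomials with rational coefficients. -/
noncomputable def toRat : SuperPoly K N →ₗ[K] SuperRat K N :=
  TensorProduct.map
    (IsScalarTower.toAlgHom K (MvPolynomial (Fin N) K)
      (FractionRing (MvPolynomial (Fin N) K))).toLinearMap LinearMap.id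

/-- The rational function `x_i`. -/
noncomputable def rx (K : Type) [Field K] {N : ℕ} (i : Fin N) :
    FractionRing (MvPolynomial (Fin N) K) :=
  algebraMap (MvPolynomial (Fin N) K) (FractionRing (MvPolynomial (Fin N) K)) (X i)

/-- The superpolynomial `x_i`. -/
noncomputable def xv (i : Fin N) : SuperPoly K N := X i ⊗ₜ[K] 1

/-- The superpolynomial `θ_i`. -/
noncomputable def th (i : Fin N) : SuperPoly K N :=
  1 ⊗ₜ[K] ExteriorAlgebra.ι K (Finsupp.single i 1 : Fin N →₀ K)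

/-- The operator `∂/∂x_i`. -/
noncomputable def dx (i : Fin N) : SuperPoly K N →ₗ[K] SuperPoly K N :=
  TensorProduct.map (pderiv i).toLinearMap LinearMap.id

/-- The operator `∂/∂θ_i` (left derivative), contraction with the `i`-th coordinate form. -/
noncomputable def dth (i : Fin N) : SuperPoly K N →ₗ[K] SuperPoly K N :=
  TensorProduct.map LinearMap.id
    (CliffordAlgebra.contractLeft (Finsupp.lapply i : (Fin N →₀ K) →ₗ[K] K))

/-- The action of a permutation: `x_i ↦ x_{σ i}`, `θ_i ↦ θ_{σ i}`. -/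
noncomputable def act (σ : Equiv.Perm (Fin N)) : SuperPoly K N →ₗ[K] SuperPoly K N :=
  TensorProduct.map (rename σ : MvPolynomial (Fin N) K →ₐ[K] _).toLinearMap
    (ExteriorAlgebra.map (Finsupp.lmapDomain K K σ)).toLinearMap

/-- The operator
`D = α/2 ∑_i x_i² ∂_{x_i}² + ∑_{i ≠ j} x_i x_j/(x_i - x_j) (∂_{x_i} - (θ_i - θ_j)/(x_i - x_j) ∂_{θ_i})`. -/
noncomputable def opD (α : K) (F : SuperPoly K N) : SuperRat K N :=
  (α / 2) • ∑ i : Fin N, toRat (xv i * xv i * dx i (dx i F)) +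
    ∑ i : Fin N, ∑ j ∈ Finset.univ.erase i, (rx K i * rx K j / (rx K i - rx K j)) •
      (toRat (dx i F) - (1 / (rx K i - rx K j)) • toRat ((th i - th j) * dth i F))

/-- The operator
`Δ = α ∑_i x_i θ_i ∂_{x_i} ∂_{θ_i} + ∑_{i ≠ j} (x_i θ_j + x_j θ_i)/(x_i - x_j) ∂_{θ_i}`. -/
noncomputable def opDelta (α : K) (F : SuperPoly K N) : SuperRat K N :=
  α • ∑ i : Fin N, toRat (xv i * th i * dx i (dth i F)) +
    ∑ i : Fin N, ∑ j ∈ Finset.univ.erase i, (1 / (rx K i - rx K j)) •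
      toRat ((xv i * th j + xv j * th i) * dth i F)

end

/-- Superpartitions `(Λ_1, ..., Λ_m; Λ_{m+1}, ..., Λ_N)` with `N` parts, indexed from `0`. -/
structure SPart (N : ℕ) where
  /-- the fermionic degree `m` -/
  m : ℕ
  /-- `m ≤ N` -/
  hm : m ≤ N
  /-- the parts -/
  part : Fin N → ℕ
  /-- `Λ_1 > ... > Λ_m` -/
  strict : ∀ i j : Fin N, i < j → (j : ℕ) < m → part j < part i
  /-- `Λ_{m+1} ≥ ... ≥ Λ_N` -/
  weak : ∀ i j : Fin N, i < j → m ≤ (i : ℕ) → part j ≤ part i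

/-- The decreasing rearrangement of a sequence. -/
def sortDesc {N : ℕ} (a : Fin N → ℕ) : Fin N → ℕ :=
  fun i => a (Tuple.sort (fun j => OrderDual.toDual (a j)) i)

/-- Dominance order on sequences. -/
def DomLe {N : ℕ} (u v : Fin N → ℕ) : Prop :=
  (∑ i, u i = ∑ i, v i) ∧
    ∀ n : ℕ, ∑ i ∈ Finset.univ.filter (fun i : Fin N => (i : ℕ) < n), u i ≤
      ∑ i ∈ Finset.univ.filter (fun i : Fin N => (i : ℕ) < n), v i

namespace SPart

variable {N : ℕ}

/-- `Λ^*`. -/
def star (Λ : SPart N) : Fin N → ℕ := sortDesc Λ.part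

/-- `Λ^⊛`. -/
def circ (Λ : SPart N) : Fin N → ℕ :=
  sortDesc (fun i => Λ.part i + if (i : ℕ) < Λ.m then 1 else 0)

/-- The order on superpartitions. -/
def Le (Ω Λ : SPart N) : Prop := DomLe Ω.star Λ.star ∧ DomLe Ω.circ Λ.circ

/-- `(k,r,N)`-admissibility: `Λ^⊛_i - Λ^*_{i+k} ≥ r` for `1 ≤ i ≤ N - k`. -/
def Admissible (k r : ℕ) (Λ : SPart N) : Prop :=
  ∀ i j : Fin N, (j : ℕ) = i + k → Λ.star j + r ≤ Λ.circ i

/-- The number `|Aut(Λ^s)|` of permutations of the bosonic positions preserving the parts. -/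
def aut (Λ : SPart N) : ℕ :=
  Fintype.card {σ : Equiv.Perm (Fin N) //
    (∀ i : Fin N, (i : ℕ) < Λ.m → σ i = i) ∧ ∀ i : Fin N, Λ.part (σ i) = Λ.part i}

/-- The monomial superpolynomial `m_Λ`. -/
noncomputable def mono (K : Type) [Field K] (Λ : SPart N) : SuperPoly K N :=
  (Λ.aut : K)⁻¹ • ∑ σ : Equiv.Perm (Fin N),
    act σ ((List.ofFn fun i : Fin Λ.m => (th (Fin.castLE Λ.hm i) : SuperPoly K N)).prod *
      (∏ i : Fin N, X i ^ Λ.part i) ⊗ₜ[K] 1)

end SPart

/-- `c` is the expansion of a Jack superpolynomial `P_Λ` in the monomials `m_Ω`. -/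
def IsJack {K : Type} [Field K] {N : ℕ} (α : K) (Λ : SPart N) (c : SPart N →₀ K) : Prop :=
  c Λ = 1 ∧ (∀ Ω, c Ω ≠ 0 → Ω.Le Λ) ∧
    (∃ e : K, opD α (c.sum fun Ω x => x • Ω.mono K) = e • toRat (c.sum fun Ω x => x • Ω.mono K)) ∧
    ∃ e : K, opDelta α (c.sum fun Ω x => x • Ω.mono K) =
      e • toRat (c.sum fun Ω x => x • Ω.mono K)

/-- The superpolynomial over `ℂ` obtained from an expansion by specializing `α` at `z`. -/
noncomputable def specAt {N : ℕ} (z : ℂ) (c : SPart N →₀ RatFunc ℚ) : SuperPoly ℂ N :=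
  c.sum fun Ω r => RatFunc.eval (algebraMap ℚ ℂ) z r • Ω.mono ℂ

/-- The substitution `x_1 = ... = x_{k+1}`. -/
noncomputable def collapse {N : ℕ} (k : ℕ) : SuperPoly ℂ N →ₗ[ℂ] SuperPoly ℂ N :=
  TensorProduct.map
    (rename (fun i : Fin N => if (i : ℕ) ≤ k then ⟨0, i.pos⟩ else i) :
      MvPolynomial (Fin N) ℂ →ₐ[ℂ] _).toLinearMap LinearMap.id

/-- The clustering ideal `F_N^{(k)}`: symmetric superpolynomials vanishing at
`x_1 = ... = x_{k+1}` (no vanishing condition if there are at most `k` variables). -/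
def Clust (N k : ℕ) : Set (SuperPoly ℂ N) :=
  {F | (∀ σ : Equiv.Perm (Fin N), act σ F = F) ∧ (k + 1 ≤ N → collapse k F = 0)}

end Pool.Agent.Lib.MP_2558e3_co
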