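import Mathlib

section

section

/-!
Elementary exchange operators on polynomials.
-/

namespace Pool.Agent.Lib.MP_2558e3_co

open Finset MvPolynomial

variable {N : ℕ} {R : Type*} [CommRing R]

/-- operator given on monomials -/
noncomputable def mkOp (F : (Fin N →₀ ℕ) → MvPolynomial (Fin N) R) :
    MvPolynomial (Fin N) R →ₗ[R] MvPolynomial (Fin N) R :=
  (basisMonomials (Fin N) R).constr R F

lemma mkOp_monomial_one (F : (Fin N →₀ ℕ) → MvPolynomial (Fin N) R) (e : Fin N →₀ ℕ) :
    mkOp F (monomial e 1) = F e := by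
  have : monomial e (1 : R) = basisMonomials (Fin N) R e := by
    rw [coe_basisMonomials]
  rw [this, mkOp, Module.Basis.constr_basis]

lemma mkOp_monomial (F : (Fin N →₀ ℕ) → MvPolynomial (Fin N) R) (e : Fin N →₀ ℕ) (c : R) :
    mkOp F (monomial e c) = c • F e := by
  have : monomial e c = c • monomial e (1 : R) := by
    rw [smul_monomial, smul_eq_mul, mul_one]
  rw [this, map_smul, mkOp_monomial_one]

/-- linear maps agreeing on monomials agree -/
lemma hom_ext {M : Type*} [AddCommMonoid M] [Module R M]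
    {f g : MvPolynomial (Fin N) R →ₗ[R] M}
    (h : ∀ e, f (monomial e 1) = g (monomial e 1)) : f = g := by
  apply (basisMonomials (Fin N) R).ext
  intro e
  rw [coe_basisMonomials]
  exact h e

/-- move `s` units from `i` to `j` -/
noncomputable def mv (e : Fin N →₀ ℕ) (i j : Fin N) (s : ℕ) : Fin N →₀ ℕ :=
  Finsupp.equivFunOnFinite.symm
    (fun l => if l = j then e j + s else if l = i then e i - s else e l)

lemma mv_apply (e : Fin N →₀ ℕ) (i j : Fin N) (s : ℕ) (l : Fin N) :
    mv e i j s l = if l = j then e j + s else if l = i then e i - s else e l := rfl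

lemma mv_zero (e : Fin N →₀ ℕ) (i j : Fin N) : mv e i j 0 = e := by
  ext l
  rw [mv_apply]
  split_ifs with h1 h2
  · subst h1; simp
  · subst h2; simp
  · rfl

/-- swap two variables -/
noncomputable def Ksw (i j : Fin N) : MvPolynomial (Fin N) R →ₐ[R] MvPolynomial (Fin N) R :=
  rename (Equiv.swap i j)

lemma mapDomain_swap_apply (e : Fin N →₀ ℕ) (σ : Equiv.Perm (Fin N)) (l : Fin N) :
    Finsupp.mapDomain σ e l = e (σ.symm l) := by
  rw [← Finsupp.equivMapDomain_eq_mapDomain, Finsupp.equivMapDomain_apply]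

lemma Ksw_monomial (i j : Fin N) (e : Fin N →₀ ℕ) (c : R) :
    Ksw i j (monomial e c) = monomial (Finsupp.mapDomain (Equiv.swap i j) e) c := by
  rw [Ksw, rename_monomial]

lemma mv_full {e : Fin N →₀ ℕ} {i j : Fin N} (hij : i ≠ j) (h : e j ≤ e i) :
    mv e i j (e i - e j) = Finsupp.mapDomain (Equiv.swap i j) e := by
  ext l
  rw [mv_apply, mapDomain_swap_apply, Equiv.symm_swap]
  by_cases h1 : l = j
  · subst h1
    rw [if_pos rfl, Equiv.swap_apply_right]
    omega
  · by_cases h2 : l = i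
    · subst h2
      rw [if_neg h1, if_pos rfl, Equiv.swap_apply_left]
      omega
    · rw [if_neg h1, if_neg h2, Equiv.swap_apply_of_ne_of_ne h2 h1]

/-- basic shift relation -/
lemma X_mul_mv {e : Fin N →₀ ℕ} {i j : Fin N} (hij : i ≠ j) {s : ℕ} (h : s + 1 ≤ e i) :
    (X i : MvPolynomial (Fin N) R) * monomial (mv e i j (s + 1)) 1 =
      X j * monomial (mv e i j s) 1 := by
  have key : Finsupp.single i 1 + mv e i j (s + 1) = Finsupp.single j 1 + mv e i j s := by
    ext l
    rw [Finsupp.add_apply, Finsupp.add_apply, mv_apply, mv_apply, Finsupp.single_apply,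
      Finsupp.single_apply]
    by_cases h1 : l = j
    · subst h1
      simp only [if_true, if_neg hij]
      omega
    · by_cases h2 : l = i
      · subst h2
        simp only [if_true, if_neg h1, if_neg (Ne.symm h1)]
        omega
      · simp only [if_neg h1, if_neg h2, if_neg (Ne.symm h1), if_neg (Ne.symm h2)]
  rw [X, X, monomial_mul, monomial_mul, key]

/-- Euler operator `x_i ∂_i`. -/
noncomputable def opT (i : Fin N) : MvPolynomial (Fin N) R →ₗ[R] MvPolynomial (Fin N) R :=
  mkOp (fun e => (e i : R) • monomial e 1)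

lemma opT_monomial (i : Fin N) (e : Fin N →₀ ℕ) :
    opT i (monomial e (1 : R)) = (e i : R) • monomial e 1 := mkOp_monomial_one _ _

lemma opT_eq (i : Fin N) (f : MvPolynomial (Fin N) R) : opT i f = X i * pderiv i f := by
  have : (opT i : MvPolynomial (Fin N) R →ₗ[R] MvPolynomial (Fin N) R) =
      (LinearMap.mulLeft R (X i)) ∘ₗ (pderiv i).toLinearMap := by
    apply hom_ext
    intro e
    rw [opT_monomial, LinearMap.comp_apply, LinearMap.mulLeft_apply]
    change _ = X i * pderiv i (monomial e 1)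
    rw [pderiv_monomial, X, monomial_mul, smul_monomial, smul_eq_mul]
    rcases Nat.eq_zero_or_pos (e i) with h | h
    · simp [h]
    · have key : Finsupp.single i 1 + (e - Finsupp.single i 1) = e := by
        ext l
        rw [Finsupp.add_apply, Finsupp.tsub_apply, Finsupp.single_apply]
        split_ifs with h1
        · subst h1; omega
        · omega
      rw [key]
      congr 1
      ring
  rw [this]
  rfl

/-- `A_{ij} = x_i x_j/(x_i-x_j) (∂_i - ∂_j - (1-K_ij)/(x_i-x_j))` on monomials -/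
noncomputable def opA (i j : Fin N) : MvPolynomial (Fin N) R →ₗ[R] MvPolynomial (Fin N) R :=
  mkOp (fun e => -((min (e i) (e j) : ℕ) : R) • monomial e 1
    + ∑ s ∈ Ioo 0 (e i - e j), ((e i - e j - s : ℕ) : R) • monomial (mv e i j s) 1
    + ∑ s ∈ Ioo 0 (e j - e i), ((e j - e i - s : ℕ) : R) • monomial (mv e j i s) 1)

/-- `B_{ij} = x_j/(x_i-x_j) (1-K_ij)` on monomials -/
noncomputable def opB (i j : Fin N) : MvPolynomial (Fin N) R →ₗ[R] MvPolynomial (Fin N) R :=
  mkOp (fun e => ∑ s ∈ Ioc 0 (e i - e j), monomial (mv e i j s) 1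
    - ∑ s ∈ range (e j - e i), monomial (mv e j i s) 1)

lemma opA_symm (i j : Fin N) :
    (opA i j : MvPolynomial (Fin N) R →ₗ[R] MvPolynomial (Fin N) R) = opA j i := by
  apply hom_ext
  intro e
  rw [opA, opA, mkOp_monomial_one, mkOp_monomial_one, min_comm (e i) (e j)]
  ring

/-- telescoping for `B` -/
lemma telescope_B {e : Fin N →₀ ℕ} {i j : Fin N} (hij : i ≠ j) (d : ℕ) (hd : d ≤ e i) :
    (X i - X j : MvPolynomial (Fin N) R) * ∑ s ∈ Ioc 0 d, monomial (mv e i j s) 1 =
      X j * (monomial e 1 - monomial (mv e i j d) 1) := by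
  induction d with
  | zero => simp [mv_zero]
  | succ d ih =>
    have h := ih (by omega)
    have h2 : Ioc 0 (d + 1) = insert (d + 1) (Ioc 0 d) := by
      ext x; simp only [mem_Ioc, mem_insert]; omega
    rw [h2, sum_insert (by simp), mul_add, h, sub_mul, X_mul_mv hij hd]
    ring

lemma telescope_B' {e : Fin N →₀ ℕ} {i j : Fin N} (hij : i ≠ j) (d : ℕ) (hd : d ≤ e j) :
    (X i - X j : MvPolynomial (Fin N) R) * ∑ s ∈ range d, monomial (mv e j i s) 1 =
      X j * (monomial (mv e j i d) 1 - monomial e 1) := by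
  induction d with
  | zero => simp [mv_zero]
  | succ d ih =>
    have h := ih (by omega)
    rw [sum_range_succ, mul_add, h, sub_mul, ← X_mul_mv hij.symm hd]
    ring

/-- characterization of `B`. -/
lemma opB_spec {i j : Fin N} (hij : i ≠ j) (f : MvPolynomial (Fin N) R) :
    (X i - X j) * opB i j f = X j * (f - Ksw i j f) := by
  have : (LinearMap.mulLeft R (X i - X j : MvPolynomial (Fin N) R)) ∘ₗ opB i j =
      (LinearMap.mulLeft R (X j)) ∘ₗ (LinearMap.id - (Ksw i j).toLinearMap) := by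
    apply hom_ext
    intro e
    simp only [LinearMap.comp_apply, LinearMap.mulLeft_apply, LinearMap.sub_apply,
      LinearMap.id_apply, AlgHom.toLinearMap_apply]
    rw [opB, mkOp_monomial_one, Ksw_monomial, mul_sub]
    rcases le_total (e j) (e i) with h | h
    · rw [telescope_B hij _ (by omega), mv_full hij h]
      have : e j - e i = 0 := by omega
      rw [this]; simp
    · rw [telescope_B' hij _ (by omega), mv_full hij.symm h, Equiv.swap_comm j i]
      have : e i - e j = 0 := by omega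
      rw [this]; simp; ring
  exact LinearMap.congr_fun this f

/-- telescoping for `A` -/
lemma telescope_A {e : Fin N →₀ ℕ} {i j : Fin N} (hij : i ≠ j) (d : ℕ) (hd : d ≤ e i) :
    (X i - X j : MvPolynomial (Fin N) R) *
      ∑ s ∈ Ioo 0 d, ((d - s : ℕ) : R) • monomial (mv e i j s) 1 =
      X j * (((d : R) • monomial e 1) - ∑ s ∈ range d, monomial (mv e i j s) 1) := by
  induction d with
  | zero => simp
  | succ d ih =>
    have h := ih (by omega)
    rcases Nat.eq_zero_or_pos d with h0 | h0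
    · subst h0
      have hI : Ioo 0 1 = (∅ : Finset ℕ) := by ext x; simp; omega
      simp [mv_zero, hI]
    · have e1 : ∑ s ∈ Ioo 0 (d + 1), ((d + 1 - s : ℕ) : R) • monomial (mv e i j s) (1:R) =
        ∑ s ∈ Ioo 0 d, ((d - s : ℕ) : R) • monomial (mv e i j s) 1 +
          ∑ s ∈ Ioc 0 d, monomial (mv e i j s) 1 := by
        have h2 : Ioo 0 (d + 1) = Ioc 0 d := by
          ext x; simp only [mem_Ioc, mem_Ioo]; omega
        have h3 : ∑ s ∈ Ioo 0 d, ((d - s : ℕ) : R) • monomial (mv e i j s) (1:R) =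
            ∑ s ∈ Ioc 0 d, ((d - s : ℕ) : R) • monomial (mv e i j s) 1 := by
          apply sum_subset
          · intro x; simp only [mem_Ioc, mem_Ioo]; omega
          · intro x hx hx'
            simp only [mem_Ioc, mem_Ioo, not_and, not_lt] at hx hx'
            have : d - x = 0 := by omega
            rw [this]; simp
        rw [h2, h3, ← sum_add_distrib]
        apply sum_congr rfl
        intro s hs
        rw [mem_Ioc] at hs
        have : d + 1 - s = (d - s) + 1 := by omega
        rw [this]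
        push_cast
        rw [add_smul, one_smul]
      have e2 := telescope_B (R := R) hij d (by omega : d ≤ e i)
      rw [e1, mul_add, h, e2, sum_range_succ]
      push_cast
      rw [add_smul, one_smul]
      ring

lemma sum_range_mv {e : Fin N →₀ ℕ} {i j : Fin N} (d : ℕ) :
    ∑ s ∈ range d, monomial (mv e i j s) (1 : R) + monomial (mv e i j d) 1 =
      monomial e 1 + ∑ s ∈ Ioc 0 d, monomial (mv e i j s) 1 := by
  rw [← sum_range_succ, range_eq_Ico, sum_eq_sum_Ico_succ_bot (Nat.succ_pos d), mv_zero]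
  congr 1

/-- characterization of `A`. -/
lemma opA_spec {i j : Fin N} (hij : i ≠ j) (f : MvPolynomial (Fin N) R) :
    (X i - X j) * ((X i - X j) * opA i j f) =
      (X i - X j) * (X j * opT i f - X i * opT j f) - X i * X j * (f - Ksw i j f) := by
  have key : ∀ (i j : Fin N) (hij : i ≠ j) (e : Fin N →₀ ℕ) (h : e j ≤ e i),
      (X i - X j : MvPolynomial (Fin N) R) * ((X i - X j) * opA i j (monomial e 1)) =
      (X i - X j) * (X j * opT i (monomial e 1) - X i * opT j (monomial e 1)) -
        X i * X j * (monomial e 1 - Ksw i j (monomial e 1)) := by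
    intro i j hij e h
    have hz : e j - e i = 0 := by omega
    have hmin : min (e i) (e j) = e j := min_eq_right h
    rw [opA, mkOp_monomial_one, opT_monomial, opT_monomial, Ksw_monomial, hz, hmin]
    have hI : Ioo 0 0 = (∅ : Finset ℕ) := by simp
    rw [hI, sum_empty, add_zero, mul_add, telescope_A hij _ (by omega)]
    have h1 := sum_range_mv (R := R) (e := e) (i := i) (j := j) (e i - e j)
    have h2 := telescope_B (R := R) hij (e i - e j) (by omega : e i - e j ≤ e i)
    rw [mv_full hij h] at h1 h2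
    set S := ∑ s ∈ Ioc 0 (e i - e j), monomial (mv e i j s) (1 : R)
    set S' := ∑ s ∈ range (e i - e j), monomial (mv e i j s) (1 : R)
    set m := monomial e (1 : R)
    set m' := monomial (Finsupp.mapDomain (Equiv.swap i j) e) (1 : R)
    have hS' : S' = m + S - m' := by rw [← h1]; ring
    have hd : (((e i - e j : ℕ) : R)) = (e i : R) - e j := by
      push_cast [h]; ring
    rw [hS', hd]
    simp only [smul_eq_C_mul, map_sub, neg_smul]
    linear_combination (-(X j)) * h2
  rcases eq_or_ne i j with h | _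
  · exact absurd h hij
  have : (LinearMap.mulLeft R (X i - X j : MvPolynomial (Fin N) R)) ∘ₗ
      (LinearMap.mulLeft R (X i - X j : MvPolynomial (Fin N) R)) ∘ₗ opA i j =
      (LinearMap.mulLeft R (X i - X j : MvPolynomial (Fin N) R)) ∘ₗ
        ((LinearMap.mulLeft R (X j)) ∘ₗ opT i - (LinearMap.mulLeft R (X i)) ∘ₗ opT j) -
      (LinearMap.mulLeft R (X i * X j)) ∘ₗ (LinearMap.id - (Ksw i j).toLinearMap) := by
    apply hom_ext
    intro e
    simp only [LinearMap.comp_apply, LinearMap.mulLeft_apply, LinearMap.sub_apply,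
      LinearMap.id_apply, AlgHom.toLinearMap_apply]
    rcases le_total (e j) (e i) with h | h
    · exact key i j hij e h
    · have := key j i hij.symm e h
      rw [opA_symm j i, show Ksw j i = (Ksw i j : MvPolynomial (Fin N) R →ₐ[R] _) by
        rw [Ksw, Ksw, Equiv.swap_comm]] at this
      linear_combination this
  exact LinearMap.congr_fun this f

end Pool.Agent.Lib.MP_2558e3_co
end

section

/-!
Triangularity of the operators and the order on exponents.
-/

namespace Pool.Agent.Lib.MP_2558e3_co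

open Finset MvPolynomial

variable {N : ℕ}

/-- majorization (dominance) for unsorted sequences -/
def Maj (b a : Fin N → ℕ) : Prop :=
  (∑ i, b i = ∑ i, a i) ∧ ∀ t, ∑ i, (b i - t) ≤ ∑ i, (a i - t)

/-- add one to the fermionic entries -/
def fl (I : Finset (Fin N)) (a : Fin N → ℕ) : Fin N → ℕ :=
  fun i => a i + if i ∈ I then 1 else 0

/-- weight -/
def Wt (I : Finset (Fin N)) (a : Fin N → ℕ) : ℕ := ∑ i, a i ^ 2 + ∑ i ∈ I, a i

/-- strict order on exponents -/
def Lt (I : Finset (Fin N)) (b a : Fin N → ℕ) : Prop :=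
  Maj b a ∧ Maj (fl I b) (fl I a) ∧ Wt I b < Wt I a

lemma Maj.refl (a : Fin N → ℕ) : Maj a a := ⟨rfl, fun _ => le_rfl⟩

lemma Maj.trans {a b c : Fin N → ℕ} (h1 : Maj a b) (h2 : Maj b c) : Maj a c :=
  ⟨h1.1.trans h2.1, fun t => (h1.2 t).trans (h2.2 t)⟩

lemma Lt.trans {I : Finset (Fin N)} {a b c : Fin N → ℕ} (h1 : Lt I a b) (h2 : Lt I b c) :
    Lt I a c :=
  ⟨h1.1.trans h2.1, h1.2.1.trans h2.2.1, h1.2.2.trans h2.2.2⟩

lemma sum_two {M : Type*} [AddCommMonoid M] {i j : Fin N} (hij : i ≠ j) (F : Fin N → M) :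
    ∑ l, F l = F i + (F j + ∑ l ∈ (univ.erase i).erase j, F l) := by
  rw [← add_sum_erase univ F (mem_univ i),
    ← add_sum_erase (univ.erase i) F (mem_erase.mpr ⟨hij.symm, mem_univ j⟩)]

lemma sum_rest_congr {M : Type*} [AddCommMonoid M] {i j : Fin N} {F G : Fin N → M}
    (h : ∀ l, l ≠ i → l ≠ j → F l = G l) :
    ∑ l ∈ (univ.erase i).erase j, F l = ∑ l ∈ (univ.erase i).erase j, G l := by
  apply sum_congr rfl
  intro l hl
  rw [mem_erase, mem_erase] at hl
  exact h l hl.2.1 hl.1

lemma Maj_of_move {i j : Fin N} (hij : i ≠ j) {a b : Fin N → ℕ}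
    (hrest : ∀ l, l ≠ i → l ≠ j → b l = a l) (hsum : b i + b j = a i + a j)
    (hmax : max (b i) (b j) ≤ max (a i) (a j)) : Maj b a := by
  refine ⟨?_, ?_⟩
  · rw [sum_two hij b, sum_two hij a, sum_rest_congr hrest]
    omega
  · intro t
    rw [sum_two hij (fun l => b l - t), sum_two hij (fun l => a l - t),
      sum_rest_congr (F := fun l => b l - t) (G := fun l => a l - t)
        (fun l h1 h2 => by rw [hrest l h1 h2])]
    have : b i - t + (b j - t) ≤ a i - t + (a j - t) := by omega
    omega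

lemma sum_mem_eq {M : Type*} [AddCommMonoid M] (I : Finset (Fin N)) (g : Fin N → M) :
    ∑ i ∈ I, g i = ∑ i, if i ∈ I then g i else 0 := by
  rw [← sum_filter]
  congr 1
  ext; simp

lemma Wt_eq (I : Finset (Fin N)) (a : Fin N → ℕ) :
    Wt I a = ∑ i, (a i ^ 2 + if i ∈ I then a i else 0) := by
  rw [Wt, sum_mem_eq I a, sum_add_distrib]

lemma Wt_lt_of_move {I : Finset (Fin N)} {i j : Fin N} (hij : i ≠ j) {a b : Fin N → ℕ}
    (hrest : ∀ l, l ≠ i → l ≠ j → b l = a l)
    (h : b i ^ 2 + (if i ∈ I then b i else 0) + (b j ^ 2 + if j ∈ I then b j else 0) <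
      a i ^ 2 + (if i ∈ I then a i else 0) + (a j ^ 2 + if j ∈ I then a j else 0)) :
    Wt I b < Wt I a := by
  rw [Wt_eq, Wt_eq, sum_two hij, sum_two hij (fun l => a l ^ 2 + if l ∈ I then a l else 0),
    sum_rest_congr (F := fun l => b l ^ 2 + if l ∈ I then b l else 0)
      (G := fun l => a l ^ 2 + if l ∈ I then a l else 0)
        (fun l h1 h2 => by rw [hrest l h1 h2])]
  omega

lemma Lt_of_move {I : Finset (Fin N)} {i j : Fin N} (hij : i ≠ j) {a b : Fin N → ℕ}
    (hrest : ∀ l, l ≠ i → l ≠ j → b l = a l) (hsum : b i + b j = a i + a j)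
    (hmax : max (b i) (b j) ≤ max (a i) (a j))
    (hmax' : max (fl I b i) (fl I b j) ≤ max (fl I a i) (fl I a j))
    (h : b i ^ 2 + (if i ∈ I then b i else 0) + (b j ^ 2 + if j ∈ I then b j else 0) <
      a i ^ 2 + (if i ∈ I then a i else 0) + (a j ^ 2 + if j ∈ I then a j else 0)) :
    Lt I b a := by
  refine ⟨Maj_of_move hij hrest hsum hmax, Maj_of_move hij ?_ ?_ hmax', Wt_lt_of_move hij hrest h⟩
  · intro l h1 h2
    rw [fl, fl, hrest l h1 h2]
  · rw [fl, fl, fl, fl]; omega

lemma mv_rest {e : Fin N →₀ ℕ} {i j : Fin N} {s : ℕ} (l : Fin N) (h1 : l ≠ i) (h2 : l ≠ j) :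
    mv e i j s l = e l := by
  rw [mv_apply, if_neg h2, if_neg h1]

lemma mv_left {e : Fin N →₀ ℕ} {i j : Fin N} {s : ℕ} (hij : i ≠ j) :
    mv e i j s i = e i - s := by
  rw [mv_apply, if_neg hij, if_pos rfl]

lemma mv_right {e : Fin N →₀ ℕ} {i j : Fin N} {s : ℕ} :
    mv e i j s j = e j + s := by
  rw [mv_apply, if_pos rfl]

/-- moves in the operator `A` -/
lemma Lt_mv_A {I : Finset (Fin N)} {e : Fin N →₀ ℕ} {i j : Fin N} (hij : i ≠ j) {s : ℕ}
    (hs : 0 < s) (hs' : s < e i - e j) : Lt I (mv e i j s) e := by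
  apply Lt_of_move hij (fun l h1 h2 => mv_rest l h1 h2)
  · rw [mv_left hij, mv_right]; omega
  · rw [mv_left hij, mv_right]; omega
  · rw [fl, fl, fl, fl, mv_left hij, mv_right]
    split_ifs <;> omega
  · rw [mv_left hij, mv_right]
    obtain ⟨t, ht⟩ : ∃ t, e i = e j + s + (t + 1) := ⟨e i - e j - s - 1, by omega⟩
    have h1 : e i - s = e j + (t + 1) := by omega
    obtain ⟨s', hs''⟩ : ∃ s', s = s' + 1 := ⟨s - 1, by omega⟩
    rw [h1, ht, hs'']
    split_ifs <;> nlinarith

/-- moves in the operator `B`, first kind -/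
lemma Lt_mv_B {I : Finset (Fin N)} {e : Fin N →₀ ℕ} {i j : Fin N} (hi : i ∈ I) (hj : j ∉ I)
    {s : ℕ} (hs : 0 < s) (hs' : s ≤ e i - e j) : Lt I (mv e i j s) e := by
  have hij : i ≠ j := fun h => hj (h ▸ hi)
  apply Lt_of_move hij (fun l h1 h2 => mv_rest l h1 h2)
  · rw [mv_left hij, mv_right]; omega
  · rw [mv_left hij, mv_right]; omega
  · rw [fl, fl, fl, fl, mv_left hij, mv_right, if_pos hi, if_neg hj]
    omega
  · rw [mv_left hij, mv_right, if_pos hi, if_pos hi, if_neg hj, if_neg hj]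
    obtain ⟨t, ht⟩ : ∃ t, e i = e j + s + t := ⟨e i - e j - s, by omega⟩
    have h1 : e i - s = e j + t := by omega
    obtain ⟨s', hs''⟩ : ∃ s', s = s' + 1 := ⟨s - 1, by omega⟩
    rw [h1, ht, hs'']
    nlinarith

/-- moves in the operator `B`, second kind -/
lemma Lt_mv_B' {I : Finset (Fin N)} {e : Fin N →₀ ℕ} {i j : Fin N} (hi : i ∈ I) (hj : j ∉ I)
    {s : ℕ} (hs : 0 < s) (hs' : s < e j - e i) : Lt I (mv e j i s) e := by
  have hij : i ≠ j := fun h => hj (h ▸ hi)
  apply Lt_of_move hij.symm (fun l h1 h2 => mv_rest l h1 h2)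
  · rw [mv_left hij.symm, mv_right]; omega
  · rw [mv_left hij.symm, mv_right]; omega
  · rw [fl, fl, fl, fl, mv_left hij.symm, mv_right, if_pos hi, if_neg hj]
    omega
  · rw [mv_left hij.symm, mv_right, if_pos hi, if_pos hi, if_neg hj, if_neg hj]
    obtain ⟨t, ht⟩ : ∃ t, e j = e i + s + (t + 1) := ⟨e j - e i - s - 1, by omega⟩
    have h1 : e j - s = e i + (t + 1) := by omega
    obtain ⟨s', hs''⟩ : ∃ s', s = s' + 1 := ⟨s - 1, by omega⟩
    rw [h1, ht, hs'']
    nlinarith

section Ops

variable {R : Type*} [CommRing R]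

/-- polynomials supported strictly below `a` -/
noncomputable def Low (R : Type*) [CommRing R] (I : Finset (Fin N)) (a : Fin N → ℕ) :
    Submodule R (MvPolynomial (Fin N) R) :=
  restrictSupport R {b : Fin N →₀ ℕ | Lt I b a}

lemma mem_Low {I : Finset (Fin N)} {a : Fin N → ℕ} {p : MvPolynomial (Fin N) R} :
    p ∈ Low R I a ↔ ∀ b, coeff b p ≠ 0 → Lt I b a := by
  rw [Low, mem_restrictSupport_iff]
  constructor
  · intro h b hb
    exact h (by simpa using hb)
  · intro h b hb
    exact h b (by simpa using hb)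

lemma monomial_mem_Low {I : Finset (Fin N)} {a : Fin N → ℕ} {b : Fin N →₀ ℕ} (h : Lt I b a)
    (c : R) : monomial b c ∈ Low R I a := by
  rw [mem_Low]
  intro b' hb'
  rw [coeff_monomial] at hb'
  split_ifs at hb' with h1
  · rw [← h1]; exact h
  · exact absurd rfl hb'

lemma Low_mono {I : Finset (Fin N)} {a b : Fin N → ℕ} (h : Lt I b a) :
    Low R I b ≤ Low R I a := by
  apply restrictSupport_mono
  intro c hc
  exact Lt.trans hc h

lemma opA_tri {I : Finset (Fin N)} {i j : Fin N} (hij : i ≠ j) (e : Fin N →₀ ℕ) :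
    opA i j (monomial e (1 : R)) + ((min (e i) (e j) : ℕ) : R) • monomial e 1 ∈ Low R I e := by
  rw [opA, mkOp_monomial_one]
  have : ∀ (x y z : MvPolynomial (Fin N) R), -((min (e i) (e j) : ℕ) : R) • x + y + z
      + ((min (e i) (e j) : ℕ) : R) • x = y + z := by
    intro x y z; rw [neg_smul]; abel
  rw [this]
  refine Submodule.add_mem _ (Submodule.sum_mem _ ?_) (Submodule.sum_mem _ ?_)
  · intro s hs
    rw [mem_Ioo] at hs
    exact Submodule.smul_mem _ _ (monomial_mem_Low (Lt_mv_A hij hs.1 hs.2) _)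
  · intro s hs
    rw [mem_Ioo] at hs
    exact Submodule.smul_mem _ _ (monomial_mem_Low (Lt_mv_A hij.symm hs.1 hs.2) _)

lemma opB_tri {I : Finset (Fin N)} {i j : Fin N} (hi : i ∈ I) (hj : j ∉ I) (e : Fin N →₀ ℕ) :
    opB i j (monomial e (1 : R)) + (if e i < e j then (1 : R) else 0) • monomial e 1
      ∈ Low R I e := by
  rw [opB, mkOp_monomial_one]
  have h1 : ∑ s ∈ Ioc 0 (e i - e j), monomial (mv e i j s) (1:R) ∈ Low R I e := by
    apply Submodule.sum_mem
    intro s hs
    rw [mem_Ioc] at hs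
    exact monomial_mem_Low (Lt_mv_B hi hj hs.1 hs.2) _
  rcases Nat.lt_or_ge (e i) (e j) with h | h
  · rw [if_pos h, one_smul]
    obtain ⟨d, hd⟩ : ∃ d, e j - e i = d + 1 := ⟨e j - e i - 1, by omega⟩
    rw [hd, range_eq_Ico, sum_eq_sum_Ico_succ_bot (Nat.succ_pos d), mv_zero]
    have h2 : ∑ s ∈ Ico (0 + 1) (d + 1), monomial (mv e j i s) (1:R) ∈ Low R I e := by
      apply Submodule.sum_mem
      intro s hs
      rw [mem_Ico] at hs
      exact monomial_mem_Low (Lt_mv_B' hi hj (by omega) (by omega)) _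
    have h3 := Submodule.sub_mem _ h1 h2
    convert h3 using 1
    ring
  · have h0 : e j - e i = 0 := by omega
    rw [if_neg (by omega), h0]
    simpa using h1

/-- the operator `2 D` -/
noncomputable def opD2 (α : R) : MvPolynomial (Fin N) R →ₗ[R] MvPolynomial (Fin N) R :=
  α • ∑ i, (opT i ∘ₗ opT i - opT i) + ∑ i, ∑ j ∈ univ.erase i, opA i j

/-- the operator `Δ` on the component `I` -/
noncomputable def opDel (α : R) (I : Finset (Fin N)) :
    MvPolynomial (Fin N) R →ₗ[R] MvPolynomial (Fin N) R :=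
  α • ∑ i ∈ I, opT i + ∑ i ∈ I, ∑ j ∈ univ \ I, opB i j - ((I.card.choose 2 : ℕ) : R) • LinearMap.id

/-- eigenvalue of `2 D` -/
noncomputable def evD (α : R) (e : Fin N → ℕ) : R :=
  α * ∑ i, ((e i : R) * e i - e i) - ∑ i, ∑ j ∈ univ.erase i, ((min (e i) (e j) : ℕ) : R)

/-- eigenvalue of `Δ` -/
noncomputable def evDel (α : R) (I : Finset (Fin N)) (e : Fin N → ℕ) : R :=
  α * ∑ i ∈ I, (e i : R) - ∑ i ∈ I, ∑ j ∈ univ \ I, (if e i < e j then (1 : R) else 0)
    - ((I.card.choose 2 : ℕ) : R)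

lemma opD2_tri (α : R) (I : Finset (Fin N)) (e : Fin N →₀ ℕ) :
    opD2 α (monomial e (1 : R)) - evD α e • monomial e 1 ∈ Low R I e := by
  have h : opD2 α (monomial e (1 : R)) - evD α e • monomial e 1 =
      ∑ i, ∑ j ∈ univ.erase i, (opA i j (monomial e (1 : R)) +
        ((min (e i) (e j) : ℕ) : R) • monomial e 1) := by
    rw [opD2, evD]
    simp only [LinearMap.add_apply, LinearMap.smul_apply, LinearMap.sum_apply,
      LinearMap.sub_apply, LinearMap.comp_apply, opT_monomial, map_smul, sum_add_distrib,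
      sub_smul, mul_smul, sum_smul]
    abel
  rw [h]
  refine Submodule.sum_mem _ (fun i _ => Submodule.sum_mem _ (fun j hj => ?_))
  rw [mem_erase] at hj
  exact opA_tri hj.1.symm e

lemma opDel_tri (α : R) (I : Finset (Fin N)) (e : Fin N →₀ ℕ) :
    opDel α I (monomial e (1 : R)) - evDel α I e • monomial e 1 ∈ Low R I e := by
  have h : opDel α I (monomial e (1 : R)) - evDel α I e • monomial e 1 =
      ∑ i ∈ I, ∑ j ∈ univ \ I, (opB i j (monomial e (1 : R)) +
        (if e i < e j then (1 : R) else 0) • monomial e 1) := by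
    rw [opDel, evDel]
    simp only [LinearMap.add_apply, LinearMap.smul_apply, LinearMap.sum_apply,
      LinearMap.sub_apply, LinearMap.id_apply, opT_monomial, sum_add_distrib,
      sub_smul, mul_smul, sum_smul]
    abel
  rw [h]
  refine Submodule.sum_mem _ (fun i hi => Submodule.sum_mem _ (fun j hj => ?_))
  rw [mem_sdiff] at hj
  exact opB_tri hi hj.2 e

/-- `H = 2 D + Δ` -/
noncomputable def opH (α : R) (I : Finset (Fin N)) :
    MvPolynomial (Fin N) R →ₗ[R] MvPolynomial (Fin N) R := opD2 α + opDel α I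

/-- eigenvalue of `H` -/
noncomputable def evH (α : R) (I : Finset (Fin N)) (e : Fin N → ℕ) : R := evD α e + evDel α I e

lemma opH_tri (α : R) (I : Finset (Fin N)) (e : Fin N →₀ ℕ) :
    opH α I (monomial e (1 : R)) - evH α I e • monomial e 1 ∈ Low R I e := by
  have h1 := Submodule.add_mem _ (opD2_tri α I e) (opDel_tri α I e)
  convert h1 using 1
  rw [opH, evH, LinearMap.add_apply, add_smul]
  abel

end Ops

end Pool.Agent.Lib.MP_2558e3_co
end

section

/-!
Permutation equivariance and base change.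
-/

namespace Pool.Agent.Lib.MP_2558e3_co

open Finset MvPolynomial

variable {N : ℕ} {R : Type*} [CommRing R]

lemma mapDomain_perm (σ : Equiv.Perm (Fin N)) (e : Fin N →₀ ℕ) (i : Fin N) :
    Finsupp.mapDomain σ e (σ i) = e i := by
  rw [mapDomain_swap_apply, Equiv.symm_apply_apply]

lemma mapDomain_mv (σ : Equiv.Perm (Fin N)) (e : Fin N →₀ ℕ) (i j : Fin N) (s : ℕ) :
    Finsupp.mapDomain σ (mv e i j s) = mv (Finsupp.mapDomain σ e) (σ i) (σ j) s := by
  ext l
  obtain ⟨l, rfl⟩ := σ.surjective l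
  rw [mapDomain_perm, mv_apply, mv_apply, mapDomain_perm, mapDomain_perm, mapDomain_perm]
  simp only [EmbeddingLike.apply_eq_iff_eq]

lemma rename_opT (σ : Equiv.Perm (Fin N)) (i : Fin N) (f : MvPolynomial (Fin N) R) :
    rename σ (opT i f) = opT (σ i) (rename σ f) := by
  have : (rename σ).toLinearMap ∘ₗ opT i =
      (opT (σ i) : MvPolynomial (Fin N) R →ₗ[R] _) ∘ₗ (rename σ).toLinearMap := by
    apply hom_ext
    intro e
    simp only [LinearMap.comp_apply, AlgHom.toLinearMap_apply]
    rw [opT_monomial, map_smul, rename_monomial, opT_monomial, mapDomain_perm]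
  exact LinearMap.congr_fun this f

lemma rename_opA (σ : Equiv.Perm (Fin N)) (i j : Fin N) (f : MvPolynomial (Fin N) R) :
    rename σ (opA i j f) = opA (σ i) (σ j) (rename σ f) := by
  have : (rename σ).toLinearMap ∘ₗ opA i j =
      (opA (σ i) (σ j) : MvPolynomial (Fin N) R →ₗ[R] _) ∘ₗ (rename σ).toLinearMap := by
    apply hom_ext
    intro e
    simp only [LinearMap.comp_apply, AlgHom.toLinearMap_apply]
    rw [rename_monomial, opA, opA, mkOp_monomial_one, mkOp_monomial_one]
    simp only [map_add, map_sum, map_smul, rename_monomial, mapDomain_mv, mapDomain_perm]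
  exact LinearMap.congr_fun this f

lemma rename_opB (σ : Equiv.Perm (Fin N)) (i j : Fin N) (f : MvPolynomial (Fin N) R) :
    rename σ (opB i j f) = opB (σ i) (σ j) (rename σ f) := by
  have : (rename σ).toLinearMap ∘ₗ opB i j =
      (opB (σ i) (σ j) : MvPolynomial (Fin N) R →ₗ[R] _) ∘ₗ (rename σ).toLinearMap := by
    apply hom_ext
    intro e
    simp only [LinearMap.comp_apply, AlgHom.toLinearMap_apply]
    rw [rename_monomial, opB, opB, mkOp_monomial_one, mkOp_monomial_one]
    simp only [map_sub, map_sum, rename_monomial, mapDomain_mv, mapDomain_perm]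
  exact LinearMap.congr_fun this f

lemma rename_opD2 (α : R) (σ : Equiv.Perm (Fin N)) (f : MvPolynomial (Fin N) R) :
    rename σ (opD2 α f) = opD2 α (rename σ f) := by
  rw [opD2]
  simp only [LinearMap.add_apply, LinearMap.smul_apply, LinearMap.sum_apply,
      LinearMap.sub_apply, LinearMap.comp_apply, map_add, map_smul, map_sum, map_sub,
      rename_opT, rename_opA]
  have h1 := Equiv.sum_comp σ (fun i => opT i (opT i (rename σ f)) - opT i (rename σ f))
  have h2 := Equiv.sum_comp σ (fun i => ∑ j ∈ univ.erase i, opA i j (rename σ f))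
  rw [← h1, ← h2]
  have h3 : ∀ i, ∑ j ∈ univ.erase (σ i), opA (σ i) j (rename σ f) =
      ∑ j ∈ univ.erase i, opA (σ i) (σ j) (rename σ f) := by
    intro i
    rw [show univ.erase (σ i) = (univ.erase i).map σ.toEmbedding by
      rw [map_erase]; simp, sum_map]
    rfl
  simp only [h3]

lemma rename_opDel (α : R) (I : Finset (Fin N)) (σ : Equiv.Perm (Fin N))
    (f : MvPolynomial (Fin N) R) :
    rename σ (opDel α I f) = opDel α (I.map σ.toEmbedding) (rename σ f) := by
  rw [opDel, opDel]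
  simp only [LinearMap.add_apply, LinearMap.smul_apply, LinearMap.sum_apply,
      LinearMap.sub_apply, LinearMap.id_apply, map_add, map_smul, map_sum, map_sub,
      rename_opT, rename_opB, card_map]
  have h0 : univ \ I.map σ.toEmbedding = (univ \ I).map σ.toEmbedding := by
    ext x
    simp only [mem_sdiff, mem_univ, true_and, mem_map, Equiv.coe_toEmbedding]
    constructor
    · intro h
      refine ⟨σ.symm x, fun h1 => h ⟨_, h1, by simp⟩, by simp⟩
    · rintro ⟨y, hy, rfl⟩ ⟨z, hz, hzy⟩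
      exact hy (σ.injective hzy ▸ hz)
  simp only [h0, sum_map, Equiv.coe_toEmbedding]

/-- The Young subgroup element. -/
abbrev yg (I : Finset (Fin N)) (τ : Equiv.Perm {i // i ∈ I}) (ρ : Equiv.Perm {i // ¬ i ∈ I}) :
    Equiv.Perm (Fin N) := Equiv.Perm.subtypeCongr τ ρ

lemma yg_mem_iff (I : Finset (Fin N)) (τ : Equiv.Perm {i // i ∈ I})
    (ρ : Equiv.Perm {i // ¬ i ∈ I}) (i : Fin N) : yg I τ ρ i ∈ I ↔ i ∈ I := by
  by_cases h : i ∈ I
  · rw [yg, Equiv.Perm.subtypeCongr.left_apply _ _ h]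
    simp [h]
  · rw [yg, Equiv.Perm.subtypeCongr.right_apply _ _ h]
    simp only [h, iff_false]
    exact (ρ ⟨i, h⟩).2

lemma map_yg (I : Finset (Fin N)) (τ : Equiv.Perm {i // i ∈ I})
    (ρ : Equiv.Perm {i // ¬ i ∈ I}) : I.map (yg I τ ρ).toEmbedding = I := by
  ext x
  simp only [mem_map, Equiv.coe_toEmbedding]
  constructor
  · rintro ⟨y, hy, rfl⟩
    exact (yg_mem_iff I τ ρ y).mpr hy
  · intro hx
    refine ⟨(yg I τ ρ).symm x, ?_, Equiv.apply_symm_apply _ _⟩
    rw [← yg_mem_iff I τ ρ, Equiv.apply_symm_apply]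
    exact hx

/-- polynomials antisymmetric in `I` and symmetric outside. -/
def SS (R : Type*) [CommRing R] (I : Finset (Fin N)) : Submodule R (MvPolynomial (Fin N) R) where
  carrier := {f | ∀ τ ρ, rename (yg I τ ρ) f = ((Equiv.Perm.sign τ : ℤ) : R) • f}
  add_mem' := by
    intro f g hf hg τ ρ
    rw [map_add, hf τ ρ, hg τ ρ, smul_add]
  zero_mem' := by
    intro τ ρ
    rw [map_zero, smul_zero]
  smul_mem' := by
    intro c f hf τ ρ
    rw [map_smul, hf τ ρ, smul_comm]

lemma mem_SS {I : Finset (Fin N)} {f : MvPolynomial (Fin N) R} :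
    f ∈ SS R I ↔ ∀ τ ρ, rename (yg I τ ρ) f = ((Equiv.Perm.sign τ : ℤ) : R) • f := Iff.rfl

lemma opH_mem_SS (α : R) {I : Finset (Fin N)} {f : MvPolynomial (Fin N) R} (hf : f ∈ SS R I) :
    opH α I f ∈ SS R I := by
  intro τ ρ
  rw [opH, LinearMap.add_apply, map_add, rename_opD2, rename_opDel, map_yg, hf τ ρ, map_smul,
    map_smul, smul_add]

lemma opD2_mem_SS (α : R) {I : Finset (Fin N)} {f : MvPolynomial (Fin N) R} (hf : f ∈ SS R I) :
    opD2 α f ∈ SS R I := by
  intro τ ρ
  rw [rename_opD2, hf τ ρ, map_smul]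

lemma opDel_mem_SS (α : R) {I : Finset (Fin N)} {f : MvPolynomial (Fin N) R} (hf : f ∈ SS R I) :
    opDel α I f ∈ SS R I := by
  intro τ ρ
  rw [rename_opDel, map_yg, hf τ ρ, map_smul]

/-- orbit relation on exponents -/
def Orb (I : Finset (Fin N)) (b a : Fin N → ℕ) : Prop := ∃ τ ρ, b = a ∘ (yg I τ ρ)

lemma Maj_comp {a b : Fin N → ℕ} (σ : Equiv.Perm (Fin N)) : Maj b (a ∘ σ) ↔ Maj b a := by
  unfold Maj
  rw [show ∑ i, (a ∘ σ) i = ∑ i, a i from Equiv.sum_comp σ a]
  have : ∀ t, ∑ i, ((a ∘ σ) i - t) = ∑ i, (a i - t) := fun t =>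
    Equiv.sum_comp σ (fun i => a i - t)
  simp only [this]

lemma fl_comp {I : Finset (Fin N)} {a : Fin N → ℕ} {σ : Equiv.Perm (Fin N)}
    (hσ : ∀ i, σ i ∈ I ↔ i ∈ I) : fl I (a ∘ σ) = fl I a ∘ σ := by
  ext i
  simp only [fl, Function.comp_apply, hσ]

lemma Wt_comp {I : Finset (Fin N)} {a : Fin N → ℕ} {σ : Equiv.Perm (Fin N)}
    (hσ : ∀ i, σ i ∈ I ↔ i ∈ I) : Wt I (a ∘ σ) = Wt I a := by
  rw [Wt_eq, Wt_eq, ← Equiv.sum_comp σ (fun i => a i ^ 2 + if i ∈ I then a i else 0)]
  simp only [Function.comp_apply, hσ]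

lemma Lt_comp_right {I : Finset (Fin N)} {a b : Fin N → ℕ} {σ : Equiv.Perm (Fin N)}
    (hσ : ∀ i, σ i ∈ I ↔ i ∈ I) : Lt I b (a ∘ σ) ↔ Lt I b a := by
  unfold Lt
  rw [fl_comp hσ, Maj_comp, Maj_comp, Wt_comp hσ]

lemma Maj_comp_left {a b : Fin N → ℕ} (σ : Equiv.Perm (Fin N)) : Maj (b ∘ σ) a ↔ Maj b a := by
  unfold Maj
  rw [show ∑ i, (b ∘ σ) i = ∑ i, b i from Equiv.sum_comp σ b]
  have : ∀ t, ∑ i, ((b ∘ σ) i - t) = ∑ i, (b i - t) := fun t =>
    Equiv.sum_comp σ (fun i => b i - t)
  simp only [this]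

lemma Lt_comp_left {I : Finset (Fin N)} {a b : Fin N → ℕ} {σ : Equiv.Perm (Fin N)}
    (hσ : ∀ i, σ i ∈ I ↔ i ∈ I) : Lt I (b ∘ σ) a ↔ Lt I b a := by
  unfold Lt
  rw [fl_comp hσ, Maj_comp_left, Maj_comp_left, Wt_comp hσ]

lemma evD_comp (α : R) (a : Fin N → ℕ) (σ : Equiv.Perm (Fin N)) :
    evD α (a ∘ σ) = evD α a := by
  unfold evD
  congr 1
  · congr 1
    exact Equiv.sum_comp σ (fun i => ((a i : R) * a i - a i))
  · rw [← Equiv.sum_comp σ (fun i => ∑ j ∈ univ.erase i, ((min (a i) (a j) : ℕ) : R))]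
    apply sum_congr rfl
    intro i _
    rw [show univ.erase (σ i) = (univ.erase i).map σ.toEmbedding by
      rw [map_erase]; simp, sum_map]
    rfl

lemma evDel_comp (α : R) {I : Finset (Fin N)} (a : Fin N → ℕ) {σ : Equiv.Perm (Fin N)}
    (hσ : ∀ i, σ i ∈ I ↔ i ∈ I) : evDel α I (a ∘ σ) = evDel α I a := by
  have hmap : I.map σ.toEmbedding = I := by
    ext x
    simp only [mem_map, Equiv.coe_toEmbedding]
    constructor
    · rintro ⟨y, hy, rfl⟩
      exact (hσ y).mpr hy
    · intro hx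
      refine ⟨σ.symm x, ?_, by simp⟩
      rw [← hσ]
      simpa using hx
  have hmap' : (univ \ I).map σ.toEmbedding = univ \ I := by
    ext x
    simp only [mem_map, Equiv.coe_toEmbedding, mem_sdiff, mem_univ, true_and]
    constructor
    · rintro ⟨y, hy, rfl⟩
      exact fun h => hy ((hσ y).mp h)
    · intro hx
      refine ⟨σ.symm x, ?_, by simp⟩
      rw [← hσ]
      simpa using hx
  unfold evDel
  have h1 : ∑ i ∈ I, (a i : R) = ∑ i ∈ I, ((a ∘ σ) i : R) := by
    conv_lhs => rw [← hmap, sum_map]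
    rfl
  have h2 : ∀ F : Fin N → Fin N → R, ∑ i ∈ I, ∑ j ∈ univ \ I, F i j =
      ∑ i ∈ I, ∑ j ∈ univ \ I, F (σ i) (σ j) := by
    intro F
    have h3 : ∀ i, ∑ j ∈ univ \ I, F i j = ∑ j ∈ univ \ I, F i (σ j) := by
      intro i
      conv_lhs => rw [← hmap', sum_map]
      rfl
    simp only [h3]
    have h4 := sum_map I σ.toEmbedding (fun i => ∑ j ∈ univ \ I, F i (σ j))
    rw [hmap] at h4
    exact h4
  rw [h1, h2 (fun i j => if a i < a j then (1 : R) else 0)]
  rfl

lemma evH_comp (α : R) {I : Finset (Fin N)} (a : Fin N → ℕ) {σ : Equiv.Perm (Fin N)}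
    (hσ : ∀ i, σ i ∈ I ↔ i ∈ I) : evH α I (a ∘ σ) = evH α I a := by
  rw [evH, evH, evD_comp, evDel_comp α a hσ]

lemma Orb.evH {α : R} {I : Finset (Fin N)} {a b : Fin N → ℕ} (h : Orb I b a) :
    evH α I b = evH α I a := by
  obtain ⟨τ, ρ, rfl⟩ := h
  exact evH_comp α a (yg_mem_iff I τ ρ)

lemma Orb.lt_iff {I : Finset (Fin N)} {a b c : Fin N → ℕ} (h : Orb I b a) :
    Lt I c b ↔ Lt I c a := by
  obtain ⟨τ, ρ, rfl⟩ := h
  exact Lt_comp_right (yg_mem_iff I τ ρ)

lemma Orb.Wt_eq {I : Finset (Fin N)} {a b : Fin N → ℕ} (h : Orb I b a) :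
    Wt I b = Wt I a := by
  obtain ⟨τ, ρ, rfl⟩ := h
  exact Wt_comp (yg_mem_iff I τ ρ)

lemma mapDomain_eq_comp (σ : Equiv.Perm (Fin N)) (e : Fin N →₀ ℕ) :
    (Finsupp.mapDomain σ e : Fin N → ℕ) = e ∘ σ.symm := by
  ext l
  rw [mapDomain_swap_apply]
  rfl

/-- coefficients of elements of `SS` along orbits -/
lemma coeff_SS {I : Finset (Fin N)} {f : MvPolynomial (Fin N) R} (hf : f ∈ SS R I)
    (τ : Equiv.Perm {i // i ∈ I}) (ρ : Equiv.Perm {i // ¬ i ∈ I}) (e : Fin N →₀ ℕ) :
    coeff (Finsupp.mapDomain (yg I τ ρ) e) f = ((Equiv.Perm.sign τ : ℤ) : R) * coeff e f := by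
  have h1 := hf τ ρ
  have h2 := coeff_rename_mapDomain (yg I τ ρ) (yg I τ ρ).injective f e
  rw [h1, coeff_smul, smul_eq_mul] at h2
  rw [← h2, ← mul_assoc, ← Int.cast_mul]
  have : ((Equiv.Perm.sign τ : ℤ) * (Equiv.Perm.sign τ : ℤ)) = 1 := by
    rw [← Units.val_mul, Int.units_mul_self]; rfl
  rw [this]; simp

lemma coeff_SS_zero {I : Finset (Fin N)} {f : MvPolynomial (Fin N) R} (hf : f ∈ SS R I)
    {a b : Fin N →₀ ℕ} (h : Orb I b a) (h0 : coeff a f = 0) : coeff b f = 0 := by
  obtain ⟨τ, ρ, hb⟩ := h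
  have h1 : b = Finsupp.mapDomain (yg I τ⁻¹ ρ⁻¹) a := by
    apply DFunLike.coe_injective
    rw [mapDomain_eq_comp, hb]
    congr 1
  rw [h1, coeff_SS hf, h0, mul_zero]

/-- exponents in the support are injective on `I` -/
lemma coeff_SS_inj [IsDomain R] [CharZero R] {I : Finset (Fin N)} {f : MvPolynomial (Fin N) R}
    (hf : f ∈ SS R I) {e : Fin N →₀ ℕ} (he : coeff e f ≠ 0) :
    ∀ i ∈ I, ∀ j ∈ I, i ≠ j → e i ≠ e j := by
  intro i hi j hj hij heq
  have h1 := coeff_SS hf (Equiv.swap ⟨i, hi⟩ ⟨j, hj⟩) 1 e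
  have hs : yg I (Equiv.swap ⟨i, hi⟩ ⟨j, hj⟩) 1 = Equiv.swap i j := by
    ext x
    by_cases hx : x ∈ I
    · rw [yg, Equiv.Perm.subtypeCongr.left_apply _ _ hx]
      by_cases hxi : x = i
      · subst hxi; simp
      · by_cases hxj : x = j
        · subst hxj; simp
        · rw [Equiv.swap_apply_of_ne_of_ne (a := (⟨i, hi⟩ : {i // i ∈ I})) (by simpa using hxi)
            (by simpa using hxj), Equiv.swap_apply_of_ne_of_ne hxi hxj]
    · rw [yg, Equiv.Perm.subtypeCongr.right_apply _ _ hx]
      rw [Equiv.swap_apply_of_ne_of_ne (a := i) (b := j) (by rintro rfl; exact hx hi)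
        (by rintro rfl; exact hx hj)]
      rfl
  have hm : Finsupp.mapDomain (yg I (Equiv.swap ⟨i, hi⟩ ⟨j, hj⟩) 1) e = e := by
    rw [hs]
    ext l
    rw [mapDomain_swap_apply, Equiv.symm_swap]
    by_cases h : l = i
    · subst h; rw [Equiv.swap_apply_left, heq]
    · by_cases h' : l = j
      · subst h'; rw [Equiv.swap_apply_right, heq]
      · rw [Equiv.swap_apply_of_ne_of_ne h h']
  rw [hm, Equiv.Perm.sign_swap (by simpa using hij)] at h1
  have h2 : (2 : R) * coeff e f = 0 := by
    have : ((-1 : ℤˣ) : ℤ) = -1 := rfl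
    rw [this] at h1
    push_cast at h1
    linear_combination h1
  rcases mul_eq_zero.mp h2 with h | h
  · exact two_ne_zero h
  · exact he h

section BaseChange

variable {S : Type*} [CommRing S] (φ : R →+* S)

lemma map_opT (i : Fin N) (f : MvPolynomial (Fin N) R) :
    MvPolynomial.map φ (opT i f) = opT i (MvPolynomial.map φ f) := by
  induction f using MvPolynomial.induction_on' with
  | monomial e c =>
    have : monomial e c = c • monomial e (1 : R) := by
      rw [smul_monomial, smul_eq_mul, mul_one]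
    have h2 : monomial e (φ c) = φ c • monomial e (1 : S) := by
      rw [smul_monomial, smul_eq_mul, mul_one]
    rw [opT, opT, mkOp_monomial, MvPolynomial.map_monomial, mkOp_monomial]
    simp [smul_eq_C_mul]
  | add p q hp hq => rw [map_add, map_add, hp, hq, map_add, map_add]

lemma map_opA (i j : Fin N) (f : MvPolynomial (Fin N) R) :
    MvPolynomial.map φ (opA i j f) = opA i j (MvPolynomial.map φ f) := by
  induction f using MvPolynomial.induction_on' with
  | monomial e c =>
    rw [opA, opA, mkOp_monomial, MvPolynomial.map_monomial, mkOp_monomial]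
    simp [smul_eq_C_mul]
  | add p q hp hq => rw [map_add, map_add, hp, hq, map_add, map_add]

lemma map_opB (i j : Fin N) (f : MvPolynomial (Fin N) R) :
    MvPolynomial.map φ (opB i j f) = opB i j (MvPolynomial.map φ f) := by
  induction f using MvPolynomial.induction_on' with
  | monomial e c =>
    rw [opB, opB, mkOp_monomial, MvPolynomial.map_monomial, mkOp_monomial]
    simp [smul_eq_C_mul]
  | add p q hp hq => rw [map_add, map_add, hp, hq, map_add, map_add]

lemma map_opD2 (α : R) (f : MvPolynomial (Fin N) R) :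
    MvPolynomial.map φ (opD2 α f) = opD2 (φ α) (MvPolynomial.map φ f) := by
  rw [opD2, opD2]
  simp only [LinearMap.add_apply, LinearMap.smul_apply, LinearMap.sum_apply,
      LinearMap.sub_apply, LinearMap.comp_apply, map_add, map_sum, map_sub,
      smul_eq_C_mul, map_mul, map_C, map_opT, map_opA]

lemma map_opDel (α : R) (I : Finset (Fin N)) (f : MvPolynomial (Fin N) R) :
    MvPolynomial.map φ (opDel α I f) = opDel (φ α) I (MvPolynomial.map φ f) := by
  rw [opDel, opDel]
  simp only [LinearMap.add_apply, LinearMap.smul_apply, LinearMap.sum_apply,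
      LinearMap.sub_apply, LinearMap.id_apply, map_add, map_sum, map_sub,
      smul_eq_C_mul, map_mul, map_C, map_opT, map_opB, map_natCast]

lemma map_opH (α : R) (I : Finset (Fin N)) (f : MvPolynomial (Fin N) R) :
    MvPolynomial.map φ (opH α I f) = opH (φ α) I (MvPolynomial.map φ f) := by
  rw [opH, opH, LinearMap.add_apply, LinearMap.add_apply, map_add, map_opD2, map_opDel]

lemma map_evD (α : R) (e : Fin N → ℕ) : φ (evD α e) = evD (φ α) e := by
  unfold evD
  simp

lemma map_evDel (α : R) (I : Finset (Fin N)) (e : Fin N → ℕ) :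
    φ (evDel α I e) = evDel (φ α) I e := by
  unfold evDel
  simp

lemma map_evH (α : R) (I : Finset (Fin N)) (e : Fin N → ℕ) :
    φ (evH α I e) = evH (φ α) I e := by
  rw [evH, evH, map_add, map_evD, map_evDel]

end BaseChange

end Pool.Agent.Lib.MP_2558e3_co
end
end

section

/-!
The projection argument: eigenvectors of triangular operators.
-/

namespace Pool.Agent.Lib.MP_2558e3_co

open Finset MvPolynomial

variable {N : ℕ} {R : Type*} [CommRing R]

/-- triangular operators -/
def Tri (I : Finset (Fin N)) (L : MvPolynomial (Fin N) R →ₗ[R] MvPolynomial (Fin N) R)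
    (E : (Fin N →₀ ℕ) → R) : Prop :=
  ∀ e : Fin N →₀ ℕ, L (monomial e 1) - E e • monomial e 1 ∈ Low R I e

lemma tri_opH (α : R) (I : Finset (Fin N)) : Tri I (opH α I) (fun e => evH α I e) :=
  fun e => opH_tri α I e

lemma tri_opD2 (α : R) (I : Finset (Fin N)) : Tri I (opD2 α) (fun e => evD α e) :=
  fun e => opD2_tri α I e

lemma tri_opDel (α : R) (I : Finset (Fin N)) : Tri I (opDel α I) (fun e => evDel α I e) :=
  fun e => opDel_tri α I e

lemma map_eq_sum (L : MvPolynomial (Fin N) R →ₗ[R] MvPolynomial (Fin N) R)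
    (f : MvPolynomial (Fin N) R) :
    L f = ∑ e ∈ f.support, coeff e f • L (monomial e 1) := by
  conv_lhs => rw [f.as_sum]
  rw [map_sum]
  apply sum_congr rfl
  intro e _
  rw [← map_smul, smul_monomial, smul_eq_mul, mul_one]

variable {I : Finset (Fin N)} {L : MvPolynomial (Fin N) R →ₗ[R] MvPolynomial (Fin N) R}
  {E : (Fin N →₀ ℕ) → R}

lemma Tri.coeff_top (hL : Tri I L E) {f : MvPolynomial (Fin N) R} {b : Fin N →₀ ℕ}
    (h : ∀ e, coeff e f ≠ 0 → ¬ Lt I b e) : coeff b (L f) = E b * coeff b f := by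
  classical
  have hf : coeff b f = ∑ e ∈ f.support, coeff e f * coeff b (monomial e (1 : R)) := by
    conv_lhs => rw [f.as_sum]
    rw [coeff_sum]
    apply sum_congr rfl
    intro e _
    rw [coeff_monomial, coeff_monomial]
    split_ifs <;> simp
  rw [map_eq_sum L f, coeff_sum, hf, mul_sum]
  apply sum_congr rfl
  intro e he
  rw [mem_support_iff] at he
  have h1 : coeff b (L (monomial e 1) - E e • monomial e 1) = 0 := by
    by_contra hne
    exact h e he (mem_Low.mp (hL e) b hne)
  rw [coeff_sub, coeff_smul, sub_eq_zero] at h1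
  rw [coeff_smul, h1, coeff_monomial]
  split_ifs with h2
  · subst h2
    simp only [smul_eq_mul]
    ring
  · simp

/-- closed downwards -/
def DownCl (I : Finset (Fin N)) (S : Set (Fin N →₀ ℕ)) : Prop :=
  ∀ e ∈ S, ∀ b : Fin N →₀ ℕ, Lt I b e → b ∈ S

lemma mem_restr {S : Set (Fin N →₀ ℕ)} {f : MvPolynomial (Fin N) R} :
    f ∈ restrictSupport R S ↔ ∀ b, coeff b f ≠ 0 → b ∈ S := by
  rw [mem_restrictSupport_iff]
  constructor
  · intro h b hb
    exact h (by simpa using hb)
  · intro h b hb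
    exact h b (by simpa using hb)

lemma Tri.support (hL : Tri I L E) {S : Set (Fin N →₀ ℕ)} (hS : DownCl I S)
    {f : MvPolynomial (Fin N) R} (hf : f ∈ restrictSupport R S) :
    L f ∈ restrictSupport R S := by
  rw [map_eq_sum L f]
  apply Submodule.sum_mem
  intro e he
  rw [mem_support_iff] at he
  have heS := mem_restr.mp hf e he
  apply Submodule.smul_mem
  have h1 : L (monomial e 1) = (L (monomial e 1) - E e • monomial e 1) + E e • monomial e 1 := by
    ring
  rw [h1]
  apply Submodule.add_mem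
  · rw [mem_restr]
    intro b hb
    exact hS e heS b (mem_Low.mp (hL e) b hb)
  · apply Submodule.smul_mem
    rw [mem_restr]
    intro b hb
    rw [coeff_monomial] at hb
    split_ifs at hb with h2
    · rw [← h2]; exact heS
    · exact absurd rfl hb

lemma aeval_mem {M : Submodule R (MvPolynomial (Fin N) R)}
    (hM : ∀ f ∈ M, L f ∈ M) (p : Polynomial R) {f : MvPolynomial (Fin N) R} (hf : f ∈ M) :
    Polynomial.aeval L p f ∈ M := by
  induction p using Polynomial.induction_on with
  | C a =>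
    rw [Polynomial.aeval_C, Module.algebraMap_end_apply]
    exact Submodule.smul_mem _ _ hf
  | add p q hp hq =>
    rw [map_add, LinearMap.add_apply]
    exact Submodule.add_mem _ hp hq
  | monomial n a h =>
    rw [pow_succ', ← mul_assoc, mul_comm (Polynomial.C a) Polynomial.X, mul_assoc, map_mul,
      Polynomial.aeval_X, Module.End.mul_apply]
    exact hM _ h

lemma Tri.coeff_aeval (hL : Tri I L E) {S : Set (Fin N →₀ ℕ)} (hS : DownCl I S)
    {b : Fin N →₀ ℕ} (hb : ∀ e ∈ S, ¬ Lt I b e) (p : Polynomial R)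
    {f : MvPolynomial (Fin N) R} (hf : f ∈ restrictSupport R S) :
    coeff b (Polynomial.aeval L p f) = p.eval (E b) * coeff b f := by
  induction p using Polynomial.induction_on with
  | C a =>
    rw [Polynomial.aeval_C, Module.algebraMap_end_apply, Polynomial.eval_C, coeff_smul,
      smul_eq_mul]
  | add p q hp hq =>
    rw [map_add, LinearMap.add_apply, coeff_add, hp, hq, Polynomial.eval_add, add_mul]
  | monomial n a h =>
    rw [pow_succ', ← mul_assoc, mul_comm (Polynomial.C a) Polynomial.X, mul_assoc, map_mul,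
      Polynomial.aeval_X, Module.End.mul_apply, hL.coeff_top, h]
    · simp only [Polynomial.eval_mul, Polynomial.eval_X, mul_assoc]
    intro e he
    exact hb e (mem_restr.mp (aeval_mem (fun f hf => hL.support hS hf) _ hf) e he)

/-- the annihilating polynomial -/
noncomputable def annP (E : (Fin N →₀ ℕ) → R) (S : Finset (Fin N →₀ ℕ)) : Polynomial R :=
  ∏ b ∈ S, (Polynomial.X - Polynomial.C (E b))

lemma annP_eval (E : (Fin N →₀ ℕ) → R) (S : Finset (Fin N →₀ ℕ)) (x : R) :
    (annP E S).eval x = ∏ b ∈ S, (x - E b) := by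
  rw [annP, Polynomial.eval_prod]
  simp

/-- exponents with distinct values on `I` -/
def InjOnI (I : Finset (Fin N)) (e : Fin N → ℕ) : Prop := ∀ i ∈ I, ∀ j ∈ I, i ≠ j → e i ≠ e j

lemma Tri.kill [IsDomain R] [CharZero R] (hL : Tri I L E) (hSS : ∀ f ∈ SS R I, L f ∈ SS R I)
    (a : Fin N → ℕ) (n : ℕ) :
    ∀ (S : Finset (Fin N →₀ ℕ))
      (_ : ∀ b : Fin N →₀ ℕ, Lt I b a → Wt I b < n → InjOnI I b → b ∈ S)
      (g : MvPolynomial (Fin N) R) (_ : g ∈ SS R I)
      (_ : g ∈ restrictSupport R {b : Fin N →₀ ℕ | Lt I b a ∧ Wt I b < n}),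
      Polynomial.aeval L (annP E S) g = 0 := by
  classical
  induction n with
  | zero =>
    intro S _ g _ hg
    have : g = 0 := by
      ext b
      rw [coeff_zero]
      by_contra h
      have := mem_restr.mp hg b h
      exact absurd this.2 (Nat.not_lt_zero _)
    rw [this, map_zero]
  | succ n ih =>
    intro S hS g hg1 hg2
    have hsplit : annP E S = annP E (S.filter (fun b => ¬ Wt I b = n)) *
        annP E (S.filter (fun b => Wt I b = n)) := by
      rw [annP, annP, annP, mul_comm, prod_filter_mul_prod_filter_not]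
    rw [hsplit, map_mul, Module.End.mul_apply]
    have hdown : DownCl I {b : Fin N →₀ ℕ | Lt I b a ∧ Wt I b < n + 1} := by
      intro e he b hb
      exact ⟨hb.trans he.1, hb.2.2.trans he.2⟩
    apply ih
    · intro b h1 h2 h3
      rw [mem_filter]
      exact ⟨hS b h1 (by omega) h3, by omega⟩
    · exact aeval_mem hSS _ hg1
    · rw [mem_restr]
      intro b hb
      have h1 := mem_restr.mp (aeval_mem (fun f hf => hL.support hdown hf)
        (annP E (S.filter (fun b => Wt I b = n))) hg2) b hb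
      refine ⟨h1.1, ?_⟩
      by_contra hlt
      have hWt : Wt I b = n := by
        have := h1.2
        omega
      have htop : ∀ e ∈ {b : Fin N →₀ ℕ | Lt I b a ∧ Wt I b < n + 1}, ¬ Lt I b e := by
        intro e he hbe
        have := hbe.2.2
        have := he.2
        omega
      rw [hL.coeff_aeval hdown htop _ hg2, annP_eval] at hb
      have hb2 : coeff b g ≠ 0 := right_ne_zero_of_mul hb
      have hb1 := left_ne_zero_of_mul hb
      apply hb1
      apply prod_eq_zero (i := b)
      · rw [mem_filter]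
        exact ⟨hS b h1.1 h1.2 (coeff_SS_inj hg1 hb2), hWt⟩
      · exact sub_self _

/-- the finite set of exponents strictly below `a`, injective on `I` -/
noncomputable def Below (I : Finset (Fin N)) (a : Fin N → ℕ) : Finset (Fin N →₀ ℕ) := by
  classical
  exact (finsuppAntidiag univ (∑ i, a i)).filter (fun b => Lt I b a ∧ InjOnI I b)

lemma mem_Below {a : Fin N → ℕ} {b : Fin N →₀ ℕ} :
    b ∈ Below I a ↔ Lt I b a ∧ InjOnI I b := by
  classical
  rw [Below, mem_filter]
  constructor
  · intro h; exact h.2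
  · intro h
    refine ⟨?_, h⟩
    rw [mem_finsuppAntidiag]
    exact ⟨h.1.1.1, subset_univ _⟩

lemma Tri.kill_Low [IsDomain R] [CharZero R] (hL : Tri I L E)
    (hSS : ∀ f ∈ SS R I, L f ∈ SS R I) (a : Fin N → ℕ)
    {g : MvPolynomial (Fin N) R} (hg1 : g ∈ SS R I) (hg : g ∈ Low R I a) :
    Polynomial.aeval L (annP E (Below I a)) g = 0 := by
  apply hL.kill hSS a (Wt I a) _ _ g hg1
  · rw [mem_restr]
    intro b hb
    have := mem_Low.mp hg b hb
    exact ⟨this, this.2.2⟩
  · intro b h1 _ h3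
    exact mem_Below.mpr ⟨h1, h3⟩

lemma aeval_eigen {f : MvPolynomial (Fin N) R} {x : R} (hf : L f = x • f) (p : Polynomial R) :
    Polynomial.aeval L p f = p.eval x • f := by
  induction p using Polynomial.induction_on with
  | C a =>
    rw [Polynomial.aeval_C, Module.algebraMap_end_apply, Polynomial.eval_C]
  | add p q hp hq =>
    rw [map_add, LinearMap.add_apply, hp, hq, Polynomial.eval_add, add_smul]
  | monomial n a h =>
    rw [pow_succ', ← mul_assoc, mul_comm (Polynomial.C a) Polynomial.X, mul_assoc, map_mul,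
      Polynomial.aeval_X, Module.End.mul_apply, h, map_smul, hf, smul_smul]
    congr 1
    simp only [Polynomial.eval_mul, Polynomial.eval_X]
    ring

end Pool.Agent.Lib.MP_2558e3_co
end
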