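import Pool.Agent.Lib.MP_2558e3_co.Eigen

/-!
Stability of the vanishing conditions under the operators at `α = -(k+1)`.
-/

namespace Pool.Agent.Lib.MP_2558e3_co

open Finset MvPolynomial

variable {N : ℕ} {R : Type*} [CommRing R]

/-- polynomials vanishing when `k+1` variables coincide -/
def Van (R : Type*) [CommRing R] (N k : ℕ) : Submodule R (MvPolynomial (Fin N) R) where
  carrier := {f | ∀ (g : Fin N → Fin N) (C : Finset (Fin N)), C.card = k + 1 →
    (∀ i ∈ C, ∀ j ∈ C, g i = g j) → rename g f = 0}
  add_mem' := by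
    intro f₁ f₂ h₁ h₂ g C hC hg
    rw [map_add, h₁ g C hC hg, h₂ g C hC hg, add_zero]
  zero_mem' := by
    intro g C _ _
    rw [map_zero]
  smul_mem' := by
    intro c f hf g C hC hg
    rw [map_smul, hf g C hC hg, smul_zero]

lemma mem_Van {k : ℕ} {f : MvPolynomial (Fin N) R} : f ∈ Van R N k ↔
    ∀ (g : Fin N → Fin N) (C : Finset (Fin N)), C.card = k + 1 →
    (∀ i ∈ C, ∀ j ∈ C, g i = g j) → rename g f = 0 := Iff.rfl

/-- collapse `C` to the point `c` -/
def coll (C : Finset (Fin N)) (c : Fin N) : Fin N → Fin N := fun i => if i ∈ C then c else i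

lemma coll_mem {C : Finset (Fin N)} {c i : Fin N} (h : i ∈ C) : coll C c i = c := if_pos h

lemma coll_not_mem {C : Finset (Fin N)} {c i : Fin N} (h : i ∉ C) : coll C c i = i := if_neg h

lemma mapDomain_apply_sum (g : Fin N → Fin N) (e : Fin N →₀ ℕ) (l : Fin N) :
    Finsupp.mapDomain g e l = ∑ i with g i = l, e i := by
  rw [Finsupp.mapDomain, Finsupp.sum_fintype, Finsupp.finsetSum_apply, sum_filter]
  · apply sum_congr rfl
    intro i _
    rw [Finsupp.single_apply]
  · intro i
    exact Finsupp.single_zero _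

lemma opT_rename (g : Fin N → Fin N) (l : Fin N) (f : MvPolynomial (Fin N) R) :
    opT l (rename g f) = rename g (∑ i with g i = l, opT i f) := by
  have : (opT l : MvPolynomial (Fin N) R →ₗ[R] _) ∘ₗ (rename g).toLinearMap =
      (rename g).toLinearMap ∘ₗ (∑ i with g i = l, opT i) := by
    apply hom_ext
    intro e
    simp only [LinearMap.comp_apply, AlgHom.toLinearMap_apply, LinearMap.sum_apply, opT_monomial]
    rw [rename_monomial, opT_monomial, mapDomain_apply_sum, map_sum]
    simp only [map_smul, rename_monomial]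
    rw [← sum_smul]
    push_cast
    rfl
  have h2 := LinearMap.congr_fun this f
  simp only [LinearMap.comp_apply, AlgHom.toLinearMap_apply, LinearMap.sum_apply] at h2
  exact h2

lemma single_add_mv {e : Fin N →₀ ℕ} {i j : Fin N} (hij : i ≠ j) {s : ℕ} (h : s ≤ e i) :
    Finsupp.single i s + mv e i j s = Finsupp.single j s + e := by
  ext l
  rw [Finsupp.add_apply, Finsupp.add_apply, mv_apply, Finsupp.single_apply,
    Finsupp.single_apply]
  by_cases h1 : l = j
  · subst h1
    simp only [if_true, if_neg hij]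
    omega
  · by_cases h2 : l = i
    · subst h2
      simp only [if_true, if_neg h1, if_neg (Ne.symm h1)]
      omega
    · simp only [if_neg h1, if_neg h2, if_neg (Ne.symm h1), if_neg (Ne.symm h2)]

lemma rename_mv {g : Fin N → Fin N} {e : Fin N →₀ ℕ} {i j : Fin N} (hij : i ≠ j)
    (hg : g i = g j) {s : ℕ} (h : s ≤ e i) :
    rename g (monomial (mv e i j s) (1 : R)) = rename g (monomial e 1) := by
  rw [rename_monomial, rename_monomial]
  have h1 := congrArg (Finsupp.mapDomain g) (single_add_mv hij h)
  rw [Finsupp.mapDomain_add, Finsupp.mapDomain_add, Finsupp.mapDomain_single,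
    Finsupp.mapDomain_single, hg] at h1
  rw [add_left_cancel h1]

lemma rename_opB_coll {g : Fin N → Fin N} {i j : Fin N} (hij : i ≠ j)
    (hg : g i = g j) (f : MvPolynomial (Fin N) R) :
    rename g (opB i j f) = rename g (opT i f - opT j f) := by
  have : (rename g).toLinearMap ∘ₗ (opB i j : MvPolynomial (Fin N) R →ₗ[R] _) =
      (rename g).toLinearMap ∘ₗ (opT i - opT j) := by
    apply hom_ext
    intro e
    simp only [LinearMap.comp_apply, AlgHom.toLinearMap_apply, LinearMap.sub_apply, opT_monomial]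
    rw [opB, mkOp_monomial_one, map_sub, map_sum, map_sum, map_sub, map_smul, map_smul]
    have h1 : ∑ s ∈ Ioc 0 (e i - e j), rename g (monomial (mv e i j s) (1:R)) =
        ∑ s ∈ Ioc 0 (e i - e j), rename g (monomial e 1) := by
      apply sum_congr rfl
      intro s hs
      rw [mem_Ioc] at hs
      exact rename_mv hij hg (by omega)
    have h2 : ∑ s ∈ range (e j - e i), rename g (monomial (mv e j i s) (1:R)) =
        ∑ s ∈ range (e j - e i), rename g (monomial e 1) := by
      apply sum_congr rfl
      intro s hs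
      rw [mem_range] at hs
      exact rename_mv hij.symm hg.symm (by omega)
    rw [h1, h2, sum_const, sum_const, Nat.card_Ioc, card_range, ← Nat.cast_smul_eq_nsmul R,
      ← Nat.cast_smul_eq_nsmul R, ← sub_smul, ← sub_smul]
    congr 1
    rcases le_total (e i) (e j) with h | h
    · rw [Nat.sub_eq_zero_of_le h]
      push_cast [h]
      ring
    · rw [Nat.sub_eq_zero_of_le h, Nat.sub_zero]
      push_cast [h]
      ring
  exact LinearMap.congr_fun this f

lemma two_mul_sum_sub (d : ℕ) : (2 : R) * ∑ s ∈ Ioo 0 d, ((d - s : ℕ) : R) = (d : R) * d - d := by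
  induction d with
  | zero => simp
  | succ d ih =>
    have h2 : Ioo 0 (d + 1) = Ioc 0 d := by
      ext x; simp only [mem_Ioc, mem_Ioo]; omega
    have h3 : ∑ s ∈ Ioo 0 d, ((d - s : ℕ) : R) = ∑ s ∈ Ioc 0 d, ((d - s : ℕ) : R) := by
      apply sum_subset
      · intro x; simp only [mem_Ioc, mem_Ioo]; omega
      · intro x hx hx'
        simp only [mem_Ioc, mem_Ioo, not_and, not_lt] at hx hx'
        have : d - x = 0 := by omega
        rw [this]; simp
    have h4 : ∑ s ∈ Ioc 0 d, ((d + 1 - s : ℕ) : R) = ∑ s ∈ Ioc 0 d, (((d - s : ℕ) : R) + 1) := by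
      apply sum_congr rfl
      intro s hs
      rw [mem_Ioc] at hs
      have : d + 1 - s = (d - s) + 1 := by omega
      rw [this]
      push_cast
      ring
    rw [h2, h4, sum_add_distrib, ← h3, mul_add, ih, sum_const, Nat.card_Ioc]
    push_cast
    simp
    ring

lemma rename_opA_coll {g : Fin N → Fin N} {i j : Fin N} (hij : i ≠ j)
    (hg : g i = g j) (f : MvPolynomial (Fin N) R) :
    (2 : R) • rename g (opA i j f) = rename g (opT i (opT i f) + opT j (opT j f)
      - (2 : R) • opT i (opT j f) - opT i f - opT j f) := by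
  have : (2 : R) • ((rename g).toLinearMap ∘ₗ (opA i j : MvPolynomial (Fin N) R →ₗ[R] _)) =
      (rename g).toLinearMap ∘ₗ (opT i ∘ₗ opT i + opT j ∘ₗ opT j - (2 : R) • (opT i ∘ₗ opT j)
        - opT i - opT j) := by
    apply hom_ext
    intro e
    simp only [LinearMap.comp_apply, AlgHom.toLinearMap_apply, LinearMap.sub_apply,
      LinearMap.smul_apply, LinearMap.add_apply, opT_monomial, map_smul]
    rw [opA, mkOp_monomial_one]
    simp only [map_add, map_sub, map_sum, map_smul]
    have h1 : ∑ s ∈ Ioo 0 (e i - e j), ((e i - e j - s : ℕ) : R) •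
        rename g (monomial (mv e i j s) (1:R)) =
        (∑ s ∈ Ioo 0 (e i - e j), ((e i - e j - s : ℕ) : R)) • rename g (monomial e 1) := by
      rw [sum_smul]
      apply sum_congr rfl
      intro s hs
      rw [mem_Ioo] at hs
      rw [rename_mv hij hg (by omega)]
    have h2 : ∑ s ∈ Ioo 0 (e j - e i), ((e j - e i - s : ℕ) : R) •
        rename g (monomial (mv e j i s) (1:R)) =
        (∑ s ∈ Ioo 0 (e j - e i), ((e j - e i - s : ℕ) : R)) • rename g (monomial e 1) := by
      rw [sum_smul]
      apply sum_congr rfl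
      intro s hs
      rw [mem_Ioo] at hs
      rw [rename_mv hij.symm hg.symm (by omega)]
    rw [h1, h2]
    simp only [smul_smul, ← add_smul, ← sub_smul]
    congr 1
    rw [mul_add, mul_add, two_mul_sum_sub, two_mul_sum_sub]
    rcases le_total (e i) (e j) with h | h
    · rw [Nat.sub_eq_zero_of_le h, min_eq_left h]
      push_cast [h]
      ring
    · rw [Nat.sub_eq_zero_of_le h, min_eq_right h]
      push_cast [h]
      ring
  have h2 := LinearMap.congr_fun this f
  simp only [LinearMap.comp_apply, AlgHom.toLinearMap_apply, LinearMap.sub_apply,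
    LinearMap.smul_apply, LinearMap.add_apply] at h2
  exact h2

section Stab

variable {k : ℕ} {C : Finset (Fin N)} {c : Fin N}

lemma filter_coll (hc : c ∈ C) : univ.filter (fun i => coll C c i = c) = C := by
  ext i
  rw [mem_filter]
  constructor
  · rintro ⟨_, h⟩
    by_contra hi
    rw [coll_not_mem hi] at h
    exact hi (h ▸ hc)
  · intro h
    exact ⟨mem_univ _, coll_mem h⟩

lemma filter_coll' (hc : c ∈ C) {j : Fin N} (hj : j ∉ C) :
    univ.filter (fun i => coll C c i = j) = {j} := by
  ext i
  rw [mem_filter, mem_singleton]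
  constructor
  · rintro ⟨_, h⟩
    by_cases hi : i ∈ C
    · rw [coll_mem hi] at h
      exact absurd (h ▸ hc) hj
    · rw [coll_not_mem hi] at h
      exact h
  · rintro rfl
    exact ⟨mem_univ _, coll_not_mem hj⟩

lemma ren_opT_sum (hc : c ∈ C) {f : MvPolynomial (Fin N) R} (hf : rename (coll C c) f = 0) :
    rename (coll C c) (∑ i ∈ C, opT i f) = 0 := by
  have h := opT_rename (coll C c) c f
  rw [filter_coll hc, hf, map_zero] at h
  exact h.symm

lemma ren_opT_out (hc : c ∈ C) {f : MvPolynomial (Fin N) R} (hf : rename (coll C c) f = 0)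
    {j : Fin N} (hj : j ∉ C) : rename (coll C c) (opT j f) = 0 := by
  have h := opT_rename (coll C c) j f
  rw [filter_coll' hc hj, hf, map_zero, sum_singleton] at h
  exact h.symm

lemma ren_Ksw {f : MvPolynomial (Fin N) R} (hf : f ∈ Van R N k) (hC : C.card = k + 1)
    (i j : Fin N) : rename (coll C c) (Ksw i j f) = 0 := by
  rw [Ksw, rename_rename]
  apply hf _ (C.map (Equiv.swap i j).toEmbedding)
  · rw [card_map, hC]
  · intro a ha b hb
    rw [mem_map] at ha hb
    obtain ⟨a', ha', rfl⟩ := ha
    obtain ⟨b', hb', rfl⟩ := hb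
    simp only [Equiv.coe_toEmbedding, Function.comp_apply, Equiv.swap_apply_self]
    rw [coll_mem ha', coll_mem hb']

lemma X_sub_ne {i j : Fin N} (h : i ≠ j) [Nontrivial R] :
    (X i - X j : MvPolynomial (Fin N) R) ≠ 0 := by
  rw [sub_ne_zero]
  exact fun h' => h (X_injective h')

lemma coll_ne (hc : c ∈ C) {i j : Fin N} (hij : i ≠ j) (h : i ∉ C ∨ j ∉ C) :
    coll C c i ≠ coll C c j := by
  by_cases hi : i ∈ C <;> by_cases hj : j ∈ C
  · rcases h with h | h
    · exact absurd hi h
    · exact absurd hj h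
  · rw [coll_mem hi, coll_not_mem hj]
    rintro rfl
    exact hj hc
  · rw [coll_mem hj, coll_not_mem hi]
    rintro rfl
    exact hi hc
  · rw [coll_not_mem hi, coll_not_mem hj]
    exact hij

lemma ren_opB [IsDomain R] (hc : c ∈ C) {f : MvPolynomial (Fin N) R} (hf : f ∈ Van R N k)
    (hC : C.card = k + 1) {i j : Fin N} (hij : i ≠ j) (h : i ∉ C ∨ j ∉ C) :
    rename (coll C c) (opB i j f) = 0 := by
  have h0 : rename (coll C c) f = 0 := hf _ C hC (fun a ha b hb => by
    rw [coll_mem ha, coll_mem hb])
  have h1 := congrArg (rename (coll C c)) (opB_spec hij f)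
  rw [map_mul, map_mul, map_sub, map_sub, h0, ren_Ksw hf hC, sub_zero, mul_zero, rename_X,
    rename_X] at h1
  exact (mul_eq_zero.mp h1).resolve_left (X_sub_ne (coll_ne hc hij h))

lemma ren_opA [IsDomain R] (hc : c ∈ C) {f : MvPolynomial (Fin N) R} (hf : f ∈ Van R N k)
    (hC : C.card = k + 1) {i j : Fin N} (hij : i ≠ j) (h : i ∉ C ∨ j ∉ C) :
    (X (coll C c i) - X (coll C c j)) * rename (coll C c) (opA i j f) =
      X (coll C c j) * rename (coll C c) (opT i f) -
        X (coll C c i) * rename (coll C c) (opT j f) := by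
  have h0 : rename (coll C c) f = 0 := hf _ C hC (fun a ha b hb => by
    rw [coll_mem ha, coll_mem hb])
  have h1 := congrArg (rename (coll C c)) (opA_spec hij f)
  simp only [map_mul, map_sub, h0, ren_Ksw hf hC, sub_zero, mul_zero, rename_X] at h1
  exact mul_left_cancel₀ (X_sub_ne (coll_ne hc hij h)) h1

lemma sum_split (C : Finset (Fin N)) {M : Type*} [AddCommMonoid M] (F : Fin N → M) :
    ∑ i, F i = ∑ i ∈ C, F i + ∑ i ∈ univ \ C, F i := by
  rw [add_comm, sum_sdiff (subset_univ C)]

lemma ren_opA_sum [IsDomain R] (hc : c ∈ C) {f : MvPolynomial (Fin N) R} (hf : f ∈ Van R N k)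
    (hC : C.card = k + 1) {j : Fin N} (hj : j ∉ C) :
    ∑ i ∈ C, rename (coll C c) (opA i j f) = 0 := by
  have h0 : rename (coll C c) f = 0 := hf _ C hC (fun a ha b hb => by
    rw [coll_mem ha, coll_mem hb])
  have h1 : ∀ i ∈ C, (X c - X j) * rename (coll C c) (opA i j f) =
      X j * rename (coll C c) (opT i f) := by
    intro i hi
    have hij : i ≠ j := by rintro rfl; exact hj hi
    have h := ren_opA hc hf hC hij (Or.inr hj)
    rw [coll_mem hi, coll_not_mem hj, ren_opT_out hc h0 hj, mul_zero, sub_zero] at h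
    exact h
  have hcj : c ≠ j := by rintro rfl; exact hj hc
  have h2 : (X c - X j) * ∑ i ∈ C, rename (coll C c) (opA i j f) = 0 := by
    rw [mul_sum, sum_congr rfl h1, ← mul_sum, ← map_sum, ren_opT_sum hc h0, mul_zero]
  exact (mul_eq_zero.mp h2).resolve_left (X_sub_ne hcj)

lemma ren_opA_out [IsDomain R] (hc : c ∈ C) {f : MvPolynomial (Fin N) R} (hf : f ∈ Van R N k)
    (hC : C.card = k + 1) {i j : Fin N} (hij : i ≠ j) (hi : i ∉ C) (hj : j ∉ C) :
    rename (coll C c) (opA i j f) = 0 := by
  have h0 : rename (coll C c) f = 0 := hf _ C hC (fun a ha b hb => by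
    rw [coll_mem ha, coll_mem hb])
  have h := ren_opA hc hf hC hij (Or.inr hj)
  rw [ren_opT_out hc h0 hj, ren_opT_out hc h0 hi, mul_zero, mul_zero, sub_zero] at h
  exact (mul_eq_zero.mp h).resolve_left (X_sub_ne (coll_ne hc hij (Or.inr hj)))

/-- reduction of the double sum -/
lemma double_sum {M : Type*} [AddCommMonoid M] (C : Finset (Fin N)) (F : Fin N → Fin N → M)
    (hsymm : ∀ i j, F i j = F j i) (h1 : ∀ j, j ∉ C → ∑ i ∈ C, F i j = 0)
    (h2 : ∀ i j, i ≠ j → i ∉ C → j ∉ C → F i j = 0) :
    ∑ i, ∑ j ∈ univ.erase i, F i j = ∑ i ∈ C, ∑ j ∈ C.erase i, F i j := by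
  rw [sum_split C]
  have e1 : ∀ i ∈ C, ∑ j ∈ univ.erase i, F i j =
      ∑ j ∈ C.erase i, F i j + ∑ j ∈ univ \ C, F i j := by
    intro i hi
    rw [← sum_union]
    · apply sum_congr _ (fun _ _ => rfl)
      ext x
      simp only [mem_erase, mem_univ, mem_union, mem_sdiff, true_and, and_true]
      by_cases hx : x ∈ C
      · simp [hx]
      · simp only [hx, and_false, not_false_iff, or_true, iff_true]
        rintro rfl
        exact hx hi
    · rw [disjoint_left]
      intro x hx hx'
      rw [mem_erase] at hx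
      rw [mem_sdiff] at hx'
      exact hx'.2 hx.2
  have e2 : ∀ i ∈ univ \ C, ∑ j ∈ univ.erase i, F i j = 0 := by
    intro i hi
    rw [mem_sdiff] at hi
    have e3 : ∑ j ∈ univ.erase i, F i j = ∑ j ∈ C, F i j + ∑ j ∈ (univ \ C).erase i, F i j := by
      rw [← sum_union]
      · apply sum_congr _ (fun _ _ => rfl)
        ext x
        simp only [mem_erase, mem_univ, mem_union, mem_sdiff, true_and, and_true]
        by_cases hx : x ∈ C
        · simp only [hx, not_true_eq_false, and_false, or_false, iff_true]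
          rintro rfl
          exact hi.2 hx
        · simp [hx]
      · rw [disjoint_left]
        intro x hx hx'
        rw [mem_erase, mem_sdiff] at hx'
        exact hx'.2.2 hx
    rw [e3]
    have e4 : ∑ j ∈ C, F i j = 0 := by
      rw [← h1 i hi.2]
      exact sum_congr rfl (fun j _ => hsymm i j)
    rw [e4, zero_add]
    apply sum_eq_zero
    intro j hj
    rw [mem_erase, mem_sdiff] at hj
    exact h2 i j hj.1.symm hi.2 hj.2.2
  rw [sum_congr rfl e1, sum_eq_zero e2, add_zero, sum_add_distrib]
  have e5 : ∑ i ∈ C, ∑ j ∈ univ \ C, F i j = 0 := by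
    rw [sum_comm]
    apply sum_eq_zero
    intro j hj
    rw [mem_sdiff] at hj
    exact h1 j hj.2
  rw [e5, add_zero]

theorem opD2_van [IsDomain R] [CharZero R] (hc : c ∈ C) {f : MvPolynomial (Fin N) R}
    (hf : f ∈ Van R N k) (hC : C.card = k + 1) :
    rename (coll C c) (opD2 (-((k : R) + 1)) f) = 0 := by
  have h0 : rename (coll C c) f = 0 := hf _ C hC (fun a ha b hb => by
    rw [coll_mem ha, coll_mem hb])
  have hT : ∑ i ∈ C, rename (coll C c) (opT i f) = 0 := by
    rw [← map_sum]; exact ren_opT_sum hc h0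
  have hTT : ∑ i ∈ C, ∑ j ∈ C, rename (coll C c) (opT i (opT j f)) = 0 := by
    have : rename (coll C c) (∑ j ∈ C, opT j f) = 0 := ren_opT_sum hc h0
    have h := ren_opT_sum hc this
    rw [map_sum] at h
    simp only [map_sum] at h
    exact h
  have hA : ∑ i, ∑ j ∈ univ.erase i, rename (coll C c) (opA i j f) =
      ∑ i ∈ C, ∑ j ∈ C.erase i, rename (coll C c) (opA i j f) :=
    double_sum C (fun i j => rename (coll C c) (opA i j f))
      (fun i j => by rw [opA_symm]) (fun j hj => ren_opA_sum hc hf hC hj)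
      (fun i j hij hi hj => ren_opA_out hc hf hC hij hi hj)
  have hA2 : (2 : R) • ∑ i ∈ C, ∑ j ∈ C.erase i, rename (coll C c) (opA i j f) =
      (2 : R) • (((k : R) + 1) • ∑ i ∈ C, rename (coll C c) (opT i (opT i f))) := by
    have g1 : ∀ i ∈ C, ∑ j ∈ C.erase i, (2 : R) • rename (coll C c) (opA i j f) =
        ∑ j ∈ C, (rename (coll C c) (opT i (opT i f)) + rename (coll C c) (opT j (opT j f))
          - (2 : R) • rename (coll C c) (opT i (opT j f)) - rename (coll C c) (opT i f)
          - rename (coll C c) (opT j f)) + (2 : R) • rename (coll C c) (opT i f) := by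
      intro i hi
      rw [← add_sum_erase C _ hi]
      have g2 : ∀ j ∈ C.erase i, (2 : R) • rename (coll C c) (opA i j f) =
          rename (coll C c) (opT i (opT i f)) + rename (coll C c) (opT j (opT j f))
          - (2 : R) • rename (coll C c) (opT i (opT j f)) - rename (coll C c) (opT i f)
          - rename (coll C c) (opT j f) := by
        intro j hj
        rw [mem_erase] at hj
        rw [rename_opA_coll hj.1.symm (by rw [coll_mem hi, coll_mem hj.2])]
        simp only [map_add, map_sub, map_smul]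
      rw [sum_congr rfl g2]
      module
    rw [smul_sum]
    simp only [smul_sum]
    rw [sum_congr rfl g1, sum_add_distrib]
    simp only [sum_add_distrib, sum_sub_distrib, sum_const, ← smul_sum, hT, hTT, hC]
    simp only [← Nat.cast_smul_eq_nsmul R]
    push_cast
    module
  have key : (2 : R) • rename (coll C c) (opD2 (-((k : R) + 1)) f) = 0 := by
    rw [opD2]
    simp only [LinearMap.add_apply, LinearMap.smul_apply, LinearMap.sum_apply,
      LinearMap.sub_apply, LinearMap.comp_apply, map_add, map_smul, map_sum, map_sub]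
    rw [hA, smul_add, hA2, sum_split C]
    have e1 : ∑ i ∈ univ \ C, (rename (coll C c) (opT i (opT i f)) -
        rename (coll C c) (opT i f)) = 0 := by
      apply sum_eq_zero
      intro i hi
      rw [mem_sdiff] at hi
      rw [ren_opT_out hc (ren_opT_out hc h0 hi.2) hi.2, ren_opT_out hc h0 hi.2, sub_zero]
    rw [e1, sum_sub_distrib, hT]
    module
  rw [smul_eq_zero] at key
  exact key.resolve_left two_ne_zero

theorem opDel_van [IsDomain R] (hc : c ∈ C) (I : Finset (Fin N)) {f : MvPolynomial (Fin N) R}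
    (hf : f ∈ Van R N k) (hC : C.card = k + 1) :
    rename (coll C c) (opDel (-((k : R) + 1)) I f) = 0 := by
  have h0 : rename (coll C c) f = 0 := hf _ C hC (fun a ha b hb => by
    rw [coll_mem ha, coll_mem hb])
  have hT : ∑ i ∈ C, rename (coll C c) (opT i f) = 0 := by
    rw [← map_sum]; exact ren_opT_sum hc h0
  have hTI : ∑ i ∈ I, rename (coll C c) (opT i f) =
      ∑ i ∈ I ∩ C, rename (coll C c) (opT i f) := by
    symm
    apply sum_subset inter_subset_left
    intro i hi hi'
    have : i ∉ C := fun h => hi' (mem_inter.mpr ⟨hi, h⟩)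
    exact ren_opT_out hc h0 this
  have hB : ∑ i ∈ I, ∑ j ∈ univ \ I, rename (coll C c) (opB i j f) =
      ∑ i ∈ I ∩ C, ∑ j ∈ C \ I, rename (coll C c) (opT i f - opT j f) := by
    symm
    rw [← sum_subset (inter_subset_left (s₁ := I) (s₂ := C))]
    · apply sum_congr rfl
      intro i hi
      rw [mem_inter] at hi
      have hsub : C \ I ⊆ univ \ I := sdiff_subset_sdiff (subset_univ _) (Subset.refl _)
      rw [← sum_subset hsub]
      · apply sum_congr rfl
        intro j hj
        rw [mem_sdiff] at hj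
        have hij : i ≠ j := by rintro rfl; exact hj.2 hi.1
        rw [rename_opB_coll hij (by rw [coll_mem hi.2, coll_mem hj.1])]
      · intro j hj hj'
        rw [mem_sdiff] at hj hj'
        have hij : i ≠ j := by rintro rfl; exact hj.2 hi.1
        exact ren_opB hc hf hC hij (Or.inr (fun h => hj' ⟨h, hj.2⟩))
    · intro i hi hi'
      have : i ∉ C := fun h => hi' (mem_inter.mpr ⟨hi, h⟩)
      apply sum_eq_zero
      intro j hj
      rw [mem_sdiff] at hj
      have hij : i ≠ j := by rintro rfl; exact hj.2 hi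
      exact ren_opB hc hf hC hij (Or.inl this)
  have hsplit : ∑ i ∈ I ∩ C, rename (coll C c) (opT i f) +
      ∑ i ∈ C \ I, rename (coll C c) (opT i f) = 0 := by
    rw [← hT, inter_comm, sum_inter_add_sum_sdiff]
  have hcard : ((I ∩ C).card : R) + ((C \ I).card : R) = (k : R) + 1 := by
    rw [inter_comm, ← Nat.cast_add, card_inter_add_card_sdiff, hC]
    push_cast
    rfl
  rw [opDel]
  simp only [LinearMap.add_apply, LinearMap.smul_apply, LinearMap.sum_apply,
      LinearMap.sub_apply, LinearMap.id_apply, map_add, map_smul, map_sum, map_sub]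
  rw [h0, smul_zero, sub_zero, hTI, hB]
  simp only [map_sub, sum_sub_distrib, sum_const, ← Nat.cast_smul_eq_nsmul R]
  rw [← smul_sum]
  have e1 : ∑ i ∈ C \ I, rename (coll C c) (opT i f) =
    - ∑ i ∈ I ∩ C, rename (coll C c) (opT i f) := eq_neg_of_add_eq_zero_right hsplit
  rw [e1, ← hcard]
  module

theorem opH_mem_Van [IsDomain R] [CharZero R] (I : Finset (Fin N))
    {f : MvPolynomial (Fin N) R} (hf : f ∈ Van R N k) :
    opH (-((k : R) + 1)) I f ∈ Van R N k := by
  intro g C hC hg
  obtain ⟨c, hc⟩ : C.Nonempty := by rw [← card_pos, hC]; omega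
  have hcomp : g = g ∘ coll C c := by
    ext i
    by_cases hi : i ∈ C
    · rw [Function.comp_apply, coll_mem hi, hg i hi c hc]
    · rw [Function.comp_apply, coll_not_mem hi]
  rw [hcomp, ← rename_rename, opH, LinearMap.add_apply, map_add (rename (coll C c)),
    opD2_van hc hf hC, opDel_van hc I hf hC, add_zero, map_zero]

end Stab

end Pool.Agent.Lib.MP_2558e3_co
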