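import Mathlib
import Pool.Agent.Lib.MP_2558e3_co.Eigen
import Pool.Agent.Lib.MP_2558e3_co.Defs
import Pool.Agent.Lib.MP_2558e3_co.Van

section

section

/-!
Combinatorics of sorted sequences: the separation theorem.
-/

namespace Pool.Agent.Lib.MP_2558e3_co

open Finset

/-- Partial sums of the difference of two sequences. -/
def cc (l u : ℕ → ℕ) (r : ℕ) : ℤ := ∑ p ∈ range r, ((l p : ℤ) - u p)

@[simp] lemma cc_zero (l u : ℕ → ℕ) : cc l u 0 = 0 := by simp [cc]

lemma cc_succ (l u : ℕ → ℕ) (r : ℕ) : cc l u (r + 1) = cc l u r + ((l r : ℤ) - u r) := by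
  rw [cc, sum_range_succ, ← cc]

lemma abel (l u : ℕ → ℕ) (X : ℕ → ℤ) (N : ℕ) :
    ∑ q ∈ range N, ((l q : ℤ) - u q) * X q =
      cc l u N * X N + ∑ q ∈ range N, cc l u (q + 1) * (X q - X (q + 1)) := by
  induction N with
  | zero => simp
  | succ n ih =>
    rw [sum_range_succ, ih, sum_range_succ, cc_succ]
    ring

/-- the quadratic form `2 Φ`. -/
def Phi (k N : ℕ) (l : ℕ → ℕ) : ℤ :=
  (k + 1) * ∑ p ∈ range N, ((l p : ℤ) * (l p - 1)) + 2 * ∑ p ∈ range N, (p : ℤ) * l p

/-- number of indices with value `v` -/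
def cnt (N : ℕ) (l : ℕ → ℕ) (v : ℕ) : ℤ := ∑ p ∈ range N, if l p = v then 1 else 0

/-- gamma -/
def gam (N : ℕ) (l u : ℕ → ℕ) (v : ℕ) : ℤ :=
  ∑ q ∈ range N, if v ≤ l q then ((l q : ℤ) - u q) else 0

/-- the number of entries at least `v` -/
def ev (N : ℕ) (l : ℕ → ℕ) (v : ℕ) : ℕ := ((range N).filter (fun q => v ≤ l q)).card

lemma filter_eq_range {N : ℕ} {l : ℕ → ℕ} (hl : ∀ p q, p ≤ q → q < N → l q ≤ l p) (v : ℕ) :
    (range N).filter (fun q => v ≤ l q) = range (ev N l v) := by
  -- initial segment
  have hinit : ∀ q ∈ (range N).filter (fun q => v ≤ l q), ∀ p ≤ q,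
      p ∈ (range N).filter (fun q => v ≤ l q) := by
    intro q hq p hp
    simp only [mem_filter, mem_range] at hq ⊢
    exact ⟨lt_of_le_of_lt hp hq.1, hq.2.trans (hl p q hp hq.1)⟩
  ext q
  simp only [mem_range]
  constructor
  · intro hq
    by_contra hcon
    rw [not_lt] at hcon
    have hsub : range (q + 1) ⊆ (range N).filter (fun q => v ≤ l q) := by
      intro p hp
      exact hinit q hq p (Nat.lt_succ_iff.mp (mem_range.mp hp))
    have := card_le_card hsub
    rw [card_range] at this
    unfold ev at hcon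
    omega
  · intro hq
    by_contra hcon
    have hsub : (range N).filter (fun q => v ≤ l q) ⊆ range q := by
      intro p hp
      rw [mem_range]
      by_contra hpq
      rw [not_lt] at hpq
      exact hcon (hinit p hp q hpq)
    have := card_le_card hsub
    rw [card_range] at this
    unfold ev at hq
    omega

lemma gam_eq {N : ℕ} {l u : ℕ → ℕ} (hl : ∀ p q, p ≤ q → q < N → l q ≤ l p) (v : ℕ) :
    gam N l u v = cc l u (ev N l v) := by
  unfold gam cc
  rw [← sum_filter, filter_eq_range hl]

lemma ev_le (N : ℕ) (l : ℕ → ℕ) (v : ℕ) : ev N l v ≤ N := by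
  unfold ev
  exact (card_filter_le _ _).trans (by simp)

lemma lt_ev_iff {N : ℕ} {l : ℕ → ℕ} (hl : ∀ p q, p ≤ q → q < N → l q ≤ l p) (v q : ℕ) :
    q < ev N l v ↔ q < N ∧ v ≤ l q := by
  have := filter_eq_range hl v
  have h2 : q ∈ (range N).filter (fun q => v ≤ l q) ↔ q ∈ range (ev N l v) := by rw [this]
  simpa using h2.symm

/-- The fundamental identity. -/
lemma phi_identity (k N M : ℕ) (l u : ℕ → ℕ)
    (hl : ∀ p q, p ≤ q → q < N → l q ≤ l p)
    (hM : ∀ q < N, l q ≤ M) (h0 : cc l u N = 0) :
    2 * (Phi k N l - Phi k N u) =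
      2 * ((k + 1) * ∑ q ∈ range N, cc l u (q + 1) * ((u q : ℤ) - u (q + 1)))
      + 2 * ∑ v ∈ range M, gam N l u (v + 1) * (k + 1 - cnt N l (v + 1) - cnt N l v)
      + ∑ q ∈ range N, ∑ p ∈ range N,
          (if l p = l q then ((if p < q then (1:ℤ) else 0) - (if q < p then 1 else 0)) else 0) *
            ((u p : ℤ) - u q) := by
  have hsum0 : ∑ q ∈ range N, ((l q : ℤ) - u q) = 0 := h0
  -- T1
  have hT1 : ∑ q ∈ range N, ((l q : ℤ) - u q) * u q =
      ∑ q ∈ range N, cc l u (q + 1) * ((u q : ℤ) - u (q + 1)) := by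
    have := abel l u (fun q => (u q : ℤ)) N
    rw [h0] at this
    simpa using this
  -- Sigma2
  have hS2 : ∑ q ∈ range N, ((l q : ℤ) - u q) * l q = ∑ v ∈ range M, gam N l u (v + 1) := by
    unfold gam
    rw [sum_comm]
    apply sum_congr rfl
    intro q hq
    have hq' := hM q (mem_range.mp hq)
    rw [← sum_filter, sum_const, nsmul_eq_mul]
    have : (filter (fun v => v + 1 ≤ l q) (range M)) = range (l q) := by
      ext v; simp only [mem_filter, mem_range]; omega
    rw [this, card_range]
    ring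
  -- Sigma1
  have hS1 : ∑ q ∈ range N, ((l q : ℤ) - u q) *
      (∑ p ∈ range N, ((if l p < l q then (1:ℤ) else 0) + (if l p ≤ l q then 1 else 0))) =
      ∑ v ∈ range M, gam N l u (v + 1) * (cnt N l (v + 1) + cnt N l v) := by
    have key : ∀ q ∈ range N,
        (∑ p ∈ range N, ((if l p < l q then (1:ℤ) else 0) + (if l p ≤ l q then 1 else 0))) =
        cnt N l 0 + ∑ v ∈ range M, (if v + 1 ≤ l q then (cnt N l (v + 1) + cnt N l v) else 0) := by
      intro q hq
      have hq' := hM q (mem_range.mp hq)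
      have e1 : ∑ v ∈ range M, (if v + 1 ≤ l q then (cnt N l (v + 1) + cnt N l v) else 0)
          = ∑ v ∈ range M, ∑ p ∈ range N,
            (if v + 1 ≤ l q then ((if l p = v + 1 then (1:ℤ) else 0)
              + (if l p = v then 1 else 0)) else 0) := by
        apply sum_congr rfl
        intro v _
        split_ifs with h
        · unfold cnt
          rw [← sum_add_distrib]
        · simp
      rw [e1, sum_comm]
      unfold cnt
      rw [← sum_add_distrib]
      apply sum_congr rfl
      intro p hp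
      have hp' := hM p (mem_range.mp hp)
      -- sum over v of indicator
      have e2 : ∑ v ∈ range M, (if v + 1 ≤ l q then ((if l p = v + 1 then (1:ℤ) else 0)
              + (if l p = v then 1 else 0)) else 0) =
          (∑ v ∈ range M, if v + 1 = l p then (if l p ≤ l q then (1:ℤ) else 0) else 0) +
          (∑ v ∈ range M, if v = l p then (if l p < l q then (1:ℤ) else 0) else 0) := by
        rw [← sum_add_distrib]
        apply sum_congr rfl
        intro v _
        split_ifs <;> first | rfl | omega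
      rw [e2]
      have e3 : (∑ v ∈ range M, if v = l p then (if l p < l q then (1:ℤ) else 0) else 0) =
          (if l p < l q then (1:ℤ) else 0) := by
        rw [sum_ite_eq' (range M) (l p)]
        split_ifs with h1 h2 <;> first | rfl | (exfalso; simp only [mem_range] at h1; omega)
      have e4 : (∑ v ∈ range M, if v + 1 = l p then (if l p ≤ l q then (1:ℤ) else 0) else 0) =
          (if l p = 0 then 0 else (if l p ≤ l q then (1:ℤ) else 0)) := by
        rcases Nat.eq_zero_or_pos (l p) with h | h
        · simp [h]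
        · obtain ⟨w, hw⟩ := Nat.exists_eq_succ_of_ne_zero (by omega : l p ≠ 0)
          have : ∀ v ∈ range M, (if v + 1 = l p then (if l p ≤ l q then (1:ℤ) else 0) else 0) =
              if v = w then (if l p ≤ l q then (1:ℤ) else 0) else 0 := by
            intro v _
            have : (v + 1 = l p) ↔ (v = w) := by omega
            simp only [this]
          rw [sum_congr rfl this, sum_ite_eq' (range M) w]
          have hw' : w ∈ range M := by simp only [mem_range]; omega
          simp only [hw', if_true]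
          have : l p ≠ 0 := by omega
          simp [this]
      rw [e3, e4]
      by_cases h0 : l p = 0
      · simp only [h0, if_true]
        have : (0:ℕ) ≤ l q := Nat.zero_le _
        simp only [this, if_true]
        split_ifs <;> ring
      · simp only [h0, if_false]
        split_ifs <;> ring
    calc ∑ q ∈ range N, ((l q : ℤ) - u q) *
      (∑ p ∈ range N, ((if l p < l q then (1:ℤ) else 0) + (if l p ≤ l q then 1 else 0)))
        = ∑ q ∈ range N, (((l q : ℤ) - u q) * cnt N l 0 + ∑ v ∈ range M,
          ((if v + 1 ≤ l q then ((l q : ℤ) - u q) else 0) * (cnt N l (v + 1) + cnt N l v))) := by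
          apply sum_congr rfl
          intro q hq
          rw [key q hq, mul_add, mul_sum]
          congr 1
          apply sum_congr rfl
          intro v _
          split_ifs <;> ring
      _ = _ := by
          rw [sum_add_distrib, ← sum_mul, hsum0, zero_mul, zero_add, sum_comm]
          apply sum_congr rfl
          intro v _
          unfold gam
          rw [sum_mul]
  -- position identity
  have hpos : ∀ q ∈ range N, 2 * (q : ℤ) - (N - 1) =
      ∑ p ∈ range N, ((if p < q then (1:ℤ) else 0) - (if q < p then 1 else 0)) := by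
    intro q hq
    have hq' := mem_range.mp hq
    rw [sum_sub_distrib, ← sum_filter, ← sum_filter, sum_const, sum_const]
    have a1 : filter (fun p => p < q) (range N) = range q := by
      ext p; simp only [mem_filter, mem_range]; omega
    have a2 : filter (fun p => q < p) (range N) = Ioo q N := by
      ext p; simp only [mem_filter, mem_range, mem_Ioo]; omega
    rw [a1, a2, card_range, Nat.card_Ioo]
    simp only [nsmul_eq_mul, mul_one]
    have : ((N - q - 1 : ℕ) : ℤ) = N - q - 1 := by omega
    rw [this]; ring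
  have hpair : ∀ q ∈ range N, ∀ p ∈ range N,
      ((if p < q then (1:ℤ) else 0) - (if q < p then 1 else 0)) =
      1 - ((if l p < l q then (1:ℤ) else 0) + (if l p ≤ l q then 1 else 0)) +
      (if l p = l q then ((if p < q then (1:ℤ) else 0) - (if q < p then 1 else 0)) else 0) := by
    intro q hq p hp
    have hq' := mem_range.mp hq
    have hp' := mem_range.mp hp
    rcases lt_trichotomy p q with h | h | h
    · have := hl p q h.le hq'
      have h3 : ¬ q < p := by omega
      simp only [h, h3, if_true, if_false]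
      rcases this.lt_or_eq with h2 | h2
      · have a1 : ¬ l p < l q := by omega
        have a2 : ¬ l p ≤ l q := by omega
        have a3 : ¬ l p = l q := by omega
        simp [a1, a2, a3]
      · have a1 : ¬ l p < l q := by omega
        have a2 : l p ≤ l q := by omega
        have a3 : l p = l q := by omega
        simp [a3]
    · subst h; simp
    · have := hl q p h.le hp'
      have h3 : ¬ p < q := by omega
      simp only [h, h3, if_true, if_false]
      rcases this.lt_or_eq with h2 | h2
      · have a1 : l p < l q := by omega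
        have a2 : l p ≤ l q := by omega
        have a3 : ¬ l p = l q := by omega
        simp [a1, a2, a3]
      · have a3 : l p = l q := by omega
        simp [a3]
  -- main computation for the position term
  set e : ℕ → ℕ → ℤ := fun p q =>
    (if l p = l q then ((if p < q then (1:ℤ) else 0) - (if q < p then 1 else 0)) else 0) with he
  have hanti : ∀ p q, e p q = - e q p := by
    intro p q
    simp only [he]
    by_cases h : l p = l q
    · simp only [h, if_true]; ring
    · have h' : ¬ l q = l p := fun h' => h h'.symm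
      simp [h, h']
  have hT3 : 2 * ∑ q ∈ range N, ((l q : ℤ) - u q) * ∑ p ∈ range N, e p q =
      ∑ q ∈ range N, ∑ p ∈ range N, e p q * ((u p : ℤ) - u q) := by
    have h1 : ∑ q ∈ range N, ((l q : ℤ) - u q) * ∑ p ∈ range N, e p q =
        ∑ q ∈ range N, ∑ p ∈ range N, e p q * ((l q : ℤ) - u q) := by
      apply sum_congr rfl; intro q _
      rw [mul_sum]
      apply sum_congr rfl; intro p _; ring
    have h2 : ∑ q ∈ range N, ∑ p ∈ range N, e p q * ((l q : ℤ) - u q) =
        - ∑ q ∈ range N, ∑ p ∈ range N, e p q * ((l p : ℤ) - u p) := by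
      rw [sum_comm, ← sum_neg_distrib]
      apply sum_congr rfl; intro q _
      rw [← sum_neg_distrib]
      apply sum_congr rfl; intro p _
      rw [hanti q p]; ring
    have h3 : 2 * ∑ q ∈ range N, ((l q : ℤ) - u q) * ∑ p ∈ range N, e p q =
        ∑ q ∈ range N, ∑ p ∈ range N, e p q * ((l q : ℤ) - u q) -
        ∑ q ∈ range N, ∑ p ∈ range N, e p q * ((l p : ℤ) - u p) := by
      rw [h1]
      linarith [h2]
    rw [h3, ← sum_sub_distrib]
    apply sum_congr rfl; intro q _
    rw [← sum_sub_distrib]
    apply sum_congr rfl; intro p _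
    have : e p q * ((l p : ℤ) - l q) = 0 := by
      simp only [he]
      by_cases h : l p = l q
      · simp [h]
      · simp [h]
    linarith [this, mul_sub (e p q) (l p : ℤ) (l q)]
  have hP : 2 * ∑ q ∈ range N, (q : ℤ) * ((l q : ℤ) - u q) =
      - (∑ q ∈ range N, ((l q : ℤ) - u q) *
      (∑ p ∈ range N, ((if l p < l q then (1:ℤ) else 0) + (if l p ≤ l q then 1 else 0))))
      + ∑ q ∈ range N, ((l q : ℤ) - u q) * ∑ p ∈ range N, e p q := by
    have h1 : 2 * ∑ q ∈ range N, (q : ℤ) * ((l q : ℤ) - u q) =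
        ∑ q ∈ range N, ((l q : ℤ) - u q) * (2 * (q:ℤ) - (N - 1)) := by
      have : ∑ q ∈ range N, ((l q : ℤ) - u q) * (2 * (q:ℤ) - (N - 1)) =
          2 * ∑ q ∈ range N, (q : ℤ) * ((l q : ℤ) - u q)
            - (N - 1) * ∑ q ∈ range N, ((l q : ℤ) - u q) := by
        rw [mul_sum, mul_sum, ← sum_sub_distrib]
        apply sum_congr rfl; intro q _; ring
      rw [this, hsum0]; ring
    have h2 : ∑ q ∈ range N, ((l q : ℤ) - u q) * (2 * (q:ℤ) - (N - 1)) =
        ∑ q ∈ range N, ((l q : ℤ) - u q) * (N -
          (∑ p ∈ range N, ((if l p < l q then (1:ℤ) else 0) + (if l p ≤ l q then 1 else 0)))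
          + ∑ p ∈ range N, e p q) := by
      apply sum_congr rfl
      intro q hq
      rw [hpos q hq]
      congr 1
      rw [sum_congr rfl (hpair q hq), sum_add_distrib, sum_sub_distrib]
      simp [he]
    rw [h1, h2]
    have h4 : ∀ q, ((l q : ℤ) - u q) * (N -
          (∑ p ∈ range N, ((if l p < l q then (1:ℤ) else 0) + (if l p ≤ l q then 1 else 0)))
          + ∑ p ∈ range N, e p q) = N * ((l q : ℤ) - u q) - ((l q : ℤ) - u q) *
          (∑ p ∈ range N, ((if l p < l q then (1:ℤ) else 0) + (if l p ≤ l q then 1 else 0)))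
          + ((l q : ℤ) - u q) * ∑ p ∈ range N, e p q := by
      intro q; ring
    simp_rw [h4]
    rw [sum_add_distrib, sum_sub_distrib, ← mul_sum, hsum0]
    ring
  -- assemble
  have hPhi : Phi k N l - Phi k N u =
      (k + 1) * (∑ q ∈ range N, ((l q : ℤ) - u q) * l q + ∑ q ∈ range N, ((l q : ℤ) - u q) * u q)
      + 2 * ∑ q ∈ range N, (q : ℤ) * ((l q : ℤ) - u q) := by
    unfold Phi
    have a1 : ∑ p ∈ range N, ((l p : ℤ) * (l p - 1)) - ∑ p ∈ range N, ((u p : ℤ) * (u p - 1)) =
        (∑ q ∈ range N, ((l q : ℤ) - u q) * l q + ∑ q ∈ range N, ((l q : ℤ) - u q) * u q)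
        - ∑ q ∈ range N, ((l q : ℤ) - u q) := by
      rw [← sum_sub_distrib, ← sum_add_distrib, ← sum_sub_distrib]
      apply sum_congr rfl; intro q _; ring
    have a2 : ∑ q ∈ range N, (q : ℤ) * ((l q : ℤ) - u q) =
        ∑ p ∈ range N, (p : ℤ) * l p - ∑ p ∈ range N, (p : ℤ) * u p := by
      rw [← sum_sub_distrib]
      apply sum_congr rfl; intro q _; ring
    rw [hsum0] at a1
    rw [a2]
    linear_combination (k + 1 : ℤ) * a1
  have hT2 : ∑ v ∈ range M, gam N l u (v + 1) * (k + 1 - cnt N l (v + 1) - cnt N l v) =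
      (k + 1) * ∑ v ∈ range M, gam N l u (v + 1) -
      ∑ v ∈ range M, gam N l u (v + 1) * (cnt N l (v + 1) + cnt N l v) := by
    rw [mul_sum, ← sum_sub_distrib]
    apply sum_congr rfl; intro v _; ring
  rw [hPhi, hP, hS1, hS2, hT1, hT2]
  linear_combination hT3


/-- the three nonnegative terms -/
lemma phi_terms (k N M : ℕ) (l u : ℕ → ℕ)
    (hl : ∀ p q, p ≤ q → q < N → l q ≤ l p)
    (hu : ∀ p q, p ≤ q → q < N → u q ≤ u p)
    (hc : ∀ r, r ≤ N → 0 ≤ cc l u r) (h0 : cc l u N = 0)
    (hn : ∀ v, cnt N l (v + 1) + cnt N l v ≤ k + 1) :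
    (∀ q ∈ range N, 0 ≤ cc l u (q + 1) * ((u q : ℤ) - u (q + 1))) ∧
    (∀ v ∈ range M, 0 ≤ gam N l u (v + 1) * (k + 1 - cnt N l (v + 1) - cnt N l v)) ∧
    (∀ q ∈ range N, ∀ p ∈ range N, 0 ≤
          (if l p = l q then ((if p < q then (1:ℤ) else 0) - (if q < p then 1 else 0)) else 0) *
            ((u p : ℤ) - u q)) := by
  refine ⟨?_, ?_, ?_⟩
  · intro q hq
    have hq' := mem_range.mp hq
    rcases Nat.lt_or_ge (q + 1) N with h | h
    · have := hu q (q + 1) (by omega) h
      exact mul_nonneg (hc _ h.le) (by omega)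
    · have : q + 1 = N := by omega
      rw [this, h0]; simp
  · intro v _
    rw [gam_eq hl]
    have := hn v
    exact mul_nonneg (hc _ (ev_le _ _ _)) (by linarith)
  · intro q hq p hp
    have hq' := mem_range.mp hq
    have hp' := mem_range.mp hp
    by_cases h : l p = l q
    · simp only [h, if_true]
      rcases lt_trichotomy p q with h1 | h1 | h1
      · have := hu p q h1.le hq'
        have h3 : ¬ q < p := by omega
        simp only [h1, h3, if_true, if_false]
        have : (0:ℤ) ≤ (u p : ℤ) - u q := by omega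
        linarith
      · subst h1; simp
      · have := hu q p h1.le hp'
        have h3 : ¬ p < q := by omega
        simp only [h1, h3, if_true, if_false]
        have : (0:ℤ) ≤ (u q : ℤ) - u p := by omega
        linarith
    · simp [h]

lemma phi_le (k N : ℕ) (l u : ℕ → ℕ)
    (hl : ∀ p q, p ≤ q → q < N → l q ≤ l p)
    (hu : ∀ p q, p ≤ q → q < N → u q ≤ u p)
    (hc : ∀ r, r ≤ N → 0 ≤ cc l u r) (h0 : cc l u N = 0)
    (hn : ∀ v, cnt N l (v + 1) + cnt N l v ≤ k + 1) :
    Phi k N u ≤ Phi k N l := by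
  obtain ⟨h1, h2, h3⟩ := phi_terms k N (∑ q ∈ range N, l q) l u hl hu hc h0 hn
  have hid := phi_identity k N (∑ q ∈ range N, l q) l u hl
    (fun q hq => single_le_sum (f := l) (fun _ _ => Nat.zero_le _) (mem_range.mpr hq)) h0
  have t1 := sum_nonneg h1
  have t2 := sum_nonneg h2
  have t3 := sum_nonneg (fun q hq => sum_nonneg (h3 q hq))
  have t1' : (0:ℤ) ≤ 2 * ((k + 1) * ∑ q ∈ range N, cc l u (q + 1) * ((u q : ℤ) - u (q + 1))) := by
    positivity
  linarith

lemma phi_eq (k N : ℕ) (l u : ℕ → ℕ)
    (hl : ∀ p q, p ≤ q → q < N → l q ≤ l p)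
    (hu : ∀ p q, p ≤ q → q < N → u q ≤ u p)
    (hc : ∀ r, r ≤ N → 0 ≤ cc l u r) (h0 : cc l u N = 0)
    (hn : ∀ v, cnt N l (v + 1) + cnt N l v ≤ k + 1)
    (heq : Phi k N l ≤ Phi k N u) :
    (∀ r, r + 1 < N → 0 < cc l u (r + 1) → u (r + 1) = u r) ∧
    (∀ v, 0 < cc l u (ev N l (v + 1)) → cnt N l (v + 1) + cnt N l v = k + 1) ∧
    (∀ p q, p < q → q < N → l p = l q → u p = u q) := by
  set M := ∑ q ∈ range N, l q with hM
  obtain ⟨h1, h2, h3⟩ := phi_terms k N M l u hl hu hc h0 hn
  have hlM : ∀ q < N, l q ≤ M := fun q hq =>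
    single_le_sum (f := l) (fun _ _ => Nat.zero_le _) (mem_range.mpr hq)
  have hid := phi_identity k N M l u hl hlM h0
  have t1 := sum_nonneg h1
  have t2 := sum_nonneg h2
  have t3 := sum_nonneg (fun q hq => sum_nonneg (h3 q hq))
  have hk : (0:ℤ) < k + 1 := by positivity
  have t1' : (0:ℤ) ≤ (k + 1) * ∑ q ∈ range N, cc l u (q + 1) * ((u q : ℤ) - u (q + 1)) := by
    positivity
  have e1 : ∑ q ∈ range N, cc l u (q + 1) * ((u q : ℤ) - u (q + 1)) = 0 := by
    have : (k + 1 : ℤ) * ∑ q ∈ range N, cc l u (q + 1) * ((u q : ℤ) - u (q + 1)) = 0 := by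
      linarith
    rcases mul_eq_zero.mp this with h | h
    · omega
    · exact h
  have e2 : ∑ v ∈ range M, gam N l u (v + 1) * (k + 1 - cnt N l (v + 1) - cnt N l v) = 0 := by
    linarith
  have e3 : ∑ q ∈ range N, ∑ p ∈ range N,
          (if l p = l q then ((if p < q then (1:ℤ) else 0) - (if q < p then 1 else 0)) else 0) *
            ((u p : ℤ) - u q) = 0 := by
    linarith
  rw [sum_eq_zero_iff_of_nonneg h1] at e1
  rw [sum_eq_zero_iff_of_nonneg h2] at e2
  rw [sum_eq_zero_iff_of_nonneg (fun q hq => sum_nonneg (h3 q hq))] at e3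
  refine ⟨?_, ?_, ?_⟩
  · intro r hr hpos
    have := e1 r (mem_range.mpr (by omega))
    rcases mul_eq_zero.mp this with h | h
    · omega
    · omega
  · intro v hpos
    by_cases hv : v < M
    · have := e2 v (mem_range.mpr hv)
      rw [gam_eq hl] at this
      rcases mul_eq_zero.mp this with h | h
      · omega
      · linarith
    · -- then no entry is at least v+1
      have : ev N l (v + 1) = 0 := by
        unfold ev
        rw [card_eq_zero, filter_eq_empty_iff]
        intro q hq
        have := hlM q (mem_range.mp hq)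
        omega
      rw [this] at hpos
      simp at hpos
  · intro p q hpq hq hlpq
    have hq' : q ∈ range N := mem_range.mpr hq
    have hp' : p ∈ range N := mem_range.mpr (by omega)
    have h4 := e3 q hq'
    rw [sum_eq_zero_iff_of_nonneg (h3 q hq')] at h4
    have h5 := h4 p hp'
    have h6 : ¬ q < p := by omega
    simp only [hlpq, hpq, h6, if_true, if_false] at h5
    omega

end Pool.Agent.Lib.MP_2558e3_co
end

section

/-!
The separation theorem for sorted key sequences.
-/

namespace Pool.Agent.Lib.MP_2558e3_co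

open Finset

/-- number of keys equal to `w`. -/
def kc (N : ℕ) (κ : ℕ → ℕ) (w : ℕ) : ℕ := ((range N).filter (fun p => κ p = w)).card

/-- number of keys in the window `2j, 2j+1, 2j+2`. -/
def win (N : ℕ) (κ : ℕ → ℕ) (j : ℕ) : ℕ :=
  ((range N).filter (fun p => 2 * j ≤ κ p ∧ κ p ≤ 2 * j + 2)).card

lemma kc_odd_le {N : ℕ} {κ : ℕ → ℕ}
    (hodd : ∀ p q, p < q → q < N → κ p = κ q → κ p % 2 = 0) {w : ℕ} (hw : w % 2 = 1) :
    kc N κ w ≤ 1 := by
  unfold kc
  rw [card_le_one]
  intro a ha b hb
  simp only [mem_filter, mem_range] at ha hb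
  by_contra hab
  rcases Nat.lt_or_gt_of_ne hab with h | h
  · have := hodd a b h hb.1 (ha.2.trans hb.2.symm)
    omega
  · have := hodd b a h ha.1 (hb.2.trans ha.2.symm)
    omega

lemma cnt_star {N : ℕ} {κ : ℕ → ℕ} (v : ℕ) :
    cnt N (fun p => κ p / 2) (v + 1) + cnt N (fun p => κ p / 2) v =
      (win N κ v : ℤ) + kc N κ (2 * v + 3) := by
  unfold cnt win kc
  rw [← sum_add_distrib, card_filter, card_filter]
  push_cast
  rw [← sum_add_distrib]
  apply sum_congr rfl
  intro p _
  have : (κ p / 2 = v + 1 ↔ κ p = 2 * v + 2 ∨ κ p = 2 * v + 3) := by omega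
  have h2 : (κ p / 2 = v ↔ κ p = 2 * v ∨ κ p = 2 * v + 1) := by omega
  simp only [this, h2]
  split_ifs <;> first | rfl | omega

lemma cnt_circ {N : ℕ} {κ : ℕ → ℕ} (v : ℕ) :
    cnt N (fun p => (κ p + 1) / 2) (v + 1) + cnt N (fun p => (κ p + 1) / 2) v =
      (win N κ v : ℤ) + (if v = 0 then 0 else kc N κ (2 * v - 1)) := by
  unfold cnt win kc
  rw [← sum_add_distrib, card_filter, card_filter]
  rcases Nat.eq_zero_or_pos v with h | h
  · subst h
    simp only [if_true]
    push_cast
    rw [add_zero]
    apply sum_congr rfl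
    intro p _
    split_ifs <;> first | rfl | omega
  · have h' : v ≠ 0 := by omega
    simp only [h', if_false]
    push_cast
    rw [← sum_add_distrib]
    apply sum_congr rfl
    intro p _
    split_ifs <;> first | rfl | omega

/-- An interval around a point where `c` is positive. -/
lemma exists_interval {N : ℕ} {c : ℕ → ℤ} (h0 : c 0 = 0) (hN : c N = 0)
    (hc : ∀ r, r ≤ N → 0 ≤ c r) {r : ℕ} (hr : r ≤ N) (hpos : 0 < c r) :
    ∃ r₀ r₁, r₀ < r ∧ r < r₁ ∧ r₁ ≤ N ∧ c r₀ = 0 ∧ c r₁ = 0 ∧
      ∀ s, r₀ < s → s < r₁ → 0 < c s := by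
  classical
  -- r₁ : least index ≥ r with c = 0
  have hex : ∃ s, r ≤ s ∧ s ≤ N ∧ c s = 0 := ⟨N, hr, le_rfl, hN⟩
  have hex' : ∃ t, t ≤ r ∧ c (r - t) = 0 := ⟨r, le_rfl, by simpa using h0⟩
  refine ⟨r - Nat.find hex', Nat.find hex, ?_, ?_, ?_, ?_, ?_, ?_⟩
  · have h := Nat.find_spec hex'
    have : Nat.find hex' ≠ 0 := by
      intro h'
      rw [h'] at h
      simp at h
      omega
    have := h.1
    omega
  · have h := Nat.find_spec hex
    rcases h.1.lt_or_eq with h1 | h1
    · exact h1
    · rw [← h1] at h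
      omega
  · exact (Nat.find_spec hex).2.1
  · exact (Nat.find_spec hex').2
  · exact (Nat.find_spec hex).2.2
  · intro s hs1 hs2
    have hsN : s ≤ N := by have := (Nat.find_spec hex).2.1; omega
    rcases (hc s hsN).lt_or_eq with h | h
    · exact h
    · exfalso
      rcases Nat.lt_or_ge s r with h1 | h1
      · have : r - s < Nat.find hex' := by omega
        exact Nat.find_min hex' this ⟨by omega, by rw [show r - (r - s) = s by omega]; exact h.symm⟩
      · exact Nat.find_min hex hs2 ⟨h1, hsN, h.symm⟩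

lemma const_on {N : ℕ} {l u : ℕ → ℕ} {r₀ r₁ : ℕ} (hr₁ : r₁ ≤ N)
    (h1 : ∀ r, r + 1 < N → 0 < cc l u (r + 1) → u (r + 1) = u r)
    (hpos : ∀ s, r₀ < s → s < r₁ → 0 < cc l u s) :
    ∀ p, r₀ ≤ p → p < r₁ → u p = u r₀ := by
  intro p
  induction p with
  | zero => intro h _; have : r₀ = 0 := by omega
            rw [this]
  | succ p ih =>
    intro h1' h2'
    rcases h1'.lt_or_eq with h | h
    · rw [h1 p (by omega) (hpos (p + 1) h h2')]
      exact ih (by omega) (by omega)
    · rw [h]

/-- The separation theorem. -/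
theorem separation (k N : ℕ) (κ κ' : ℕ → ℕ)
    (hκ : ∀ p q, p ≤ q → q < N → κ q ≤ κ p)
    (hκ' : ∀ p q, p ≤ q → q < N → κ' q ≤ κ' p)
    (hodd : ∀ p q, p < q → q < N → κ p = κ q → κ p % 2 = 0)
    (hodd' : ∀ p q, p < q → q < N → κ' p = κ' q → κ' p % 2 = 0)
    (hadm : ∀ j, win N κ j ≤ k)
    (hs : ∀ r, r ≤ N → 0 ≤ cc (fun p => κ p / 2) (fun p => κ' p / 2) r)
    (hsN : cc (fun p => κ p / 2) (fun p => κ' p / 2) N = 0)
    (hc : ∀ r, r ≤ N → 0 ≤ cc (fun p => (κ p + 1) / 2) (fun p => (κ' p + 1) / 2) r)
    (hcN : cc (fun p => (κ p + 1) / 2) (fun p => (κ' p + 1) / 2) N = 0)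
    (heq : Phi k N (fun p => κ p / 2) + Phi k N (fun p => (κ p + 1) / 2) ≤
      Phi k N (fun p => κ' p / 2) + Phi k N (fun p => (κ' p + 1) / 2)) :
    ∀ p, p < N → κ p = κ' p := by
  set l : ℕ → ℕ := fun p => κ p / 2 with hl_def
  set u : ℕ → ℕ := fun p => κ' p / 2 with hu_def
  set l' : ℕ → ℕ := fun p => (κ p + 1) / 2 with hl'_def
  set u' : ℕ → ℕ := fun p => (κ' p + 1) / 2 with hu'_def
  have hl : ∀ p q, p ≤ q → q < N → l q ≤ l p := fun p q h1 h2 =>
    Nat.div_le_div_right (hκ p q h1 h2)
  have hu : ∀ p q, p ≤ q → q < N → u q ≤ u p := fun p q h1 h2 =>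
    Nat.div_le_div_right (hκ' p q h1 h2)
  have hl' : ∀ p q, p ≤ q → q < N → l' q ≤ l' p := fun p q h1 h2 =>
    Nat.div_le_div_right (Nat.add_le_add_right (hκ p q h1 h2) 1)
  have hu' : ∀ p q, p ≤ q → q < N → u' q ≤ u' p := fun p q h1 h2 =>
    Nat.div_le_div_right (Nat.add_le_add_right (hκ' p q h1 h2) 1)
  have hn : ∀ v, cnt N l (v + 1) + cnt N l v ≤ k + 1 := by
    intro v
    rw [cnt_star]
    have := hadm v
    have := kc_odd_le hodd (w := 2 * v + 3) (by omega)
    omega
  have hn' : ∀ v, cnt N l' (v + 1) + cnt N l' v ≤ k + 1 := by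
    intro v
    rw [cnt_circ]
    have := hadm v
    split_ifs with h
    · omega
    · have := kc_odd_le hodd (w := 2 * v - 1) (by omega)
      omega
  have hle1 := phi_le k N l u hl hu hs hsN hn
  have hle2 := phi_le k N l' u' hl' hu' hc hcN hn'
  obtain ⟨a1, a2, a3⟩ := phi_eq k N l u hl hu hs hsN hn (by linarith)
  obtain ⟨b1, b2, -⟩ := phi_eq k N l' u' hl' hu' hc hcN hn' (by linarith)
  -- a window of size k+1 for star forces a fermion
  have hferm : ∀ v, cnt N l (v + 1) + cnt N l v = k + 1 → ∃ p, p < N ∧ κ p = 2 * v + 3 := by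
    intro v h
    rw [cnt_star] at h
    have := hadm v
    have h2 : 0 < kc N κ (2 * v + 3) := by omega
    unfold kc at h2
    rw [card_pos] at h2
    obtain ⟨p, hp⟩ := h2
    simp only [mem_filter, mem_range] at hp
    exact ⟨p, hp⟩
  have hferm' : ∀ v, cnt N l' (v + 1) + cnt N l' v = k + 1 →
      0 < v ∧ ∃ p, p < N ∧ κ p = 2 * v - 1 := by
    intro v h
    rw [cnt_circ] at h
    have := hadm v
    split_ifs at h with hv
    · omega
    · have h2 : 0 < kc N κ (2 * v - 1) := by omega
      unfold kc at h2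
      rw [card_pos] at h2
      obtain ⟨p, hp⟩ := h2
      simp only [mem_filter, mem_range] at hp
      exact ⟨by omega, p, hp⟩
  -- difference between circ and star partial sums
  have hdiff : ∀ r, cc l' u' r = cc l u r + ∑ p ∈ range r, (((κ p % 2 : ℕ) : ℤ) - (κ' p % 2 : ℕ)) := by
    intro r
    unfold cc
    rw [← sum_add_distrib]
    apply sum_congr rfl
    intro p _
    simp only [hl_def, hu_def, hl'_def, hu'_def]
    omega
  -- Part I
  have hpart1 : ∀ r, r ≤ N → cc l u r = 0 := by
    intro r hr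
    by_contra hne
    have hpos : 0 < cc l u r := lt_of_le_of_ne (hs r hr) (Ne.symm hne)
    obtain ⟨r₀, r₁, hr0, hr1, hr1N, hz0, hz1, hin⟩ :=
      exists_interval (cc_zero l u) hsN hs hr hpos
    have hconst := const_on hr1N a1 hin
    set w := u r₀ with hw
    have hvgt : w < l r₀ := by
      have h1 := hin (r₀ + 1) (by omega) (by omega)
      rw [cc_succ, hz0] at h1
      omega
    obtain ⟨r₂, hr₂⟩ : ∃ r₂, r₁ = r₂ + 1 := ⟨r₁ - 1, by omega⟩
    have hvlt : l r₂ < w := by
      have h1 := hin r₂ (by omega) (by omega)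
      have h2 := hz1
      rw [hr₂, cc_succ] at h2
      have h3 := hconst r₂ (by omega) (by omega)
      rw [← h3]
      omega
    -- start of block
    have hstart : ∀ p, p < r₀ → l r₀ < l p := by
      intro p hp
      rcases (hl p r₀ hp.le (by omega)).lt_or_eq with h | h
      · exact h
      · exfalso
        obtain ⟨r', hr'⟩ : ∃ r', r₀ = r' + 1 := ⟨r₀ - 1, by omega⟩
        have h1 : l r' = l r₀ := by
          have := hl p r' (by omega) (by omega)
          have := hl r' r₀ (by omega) (by omega)
          omega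
        have h2 := a3 r' r₀ (by omega) (by omega) h1
        have h3 := hs r' (by omega)
        have h4 : cc l u r₀ = cc l u r' + ((l r' : ℤ) - u r') := by rw [hr', cc_succ]
        rw [hz0] at h4
        rw [← hw] at h2
        omega
    -- a fermion with value v in the interval for each v with w ≤ v... 
    have hfer : ∀ v, w < v + 1 → v + 1 ≤ l r₀ → v ≠ 0 ∨ True → 
        (∃ p, r₀ ≤ p ∧ p < r₁ ∧ κ p = 2 * v + 3 ∧ True) ∨ l r₂ ≥ v + 1 := by
      intro v hv1 hv2 _
      by_cases hcase : v + 1 ≤ l r₂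
      · right; exact hcase
      · left
        have e1 : r₀ < ev N l (v + 1) := (lt_ev_iff hl (v + 1) r₀).mpr ⟨by omega, hv2⟩
        have e2 : ev N l (v + 1) < r₁ := by
          by_contra hcon
          rw [not_lt] at hcon
          have := (lt_ev_iff hl (v + 1) r₂).mp (by omega)
          omega
        obtain ⟨p, hpN, hp⟩ := hferm v (a2 v (hin _ e1 e2))
        have hlp : l p = v + 1 := by simp only [hl_def]; omega
        refine ⟨p, ?_, ?_, hp, trivial⟩
        · by_contra hcon
          rw [not_le] at hcon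
          have := hstart p hcon
          omega
        · by_contra hcon
          rw [not_lt] at hcon
          have := hl r₂ p (by omega) hpN
          omega
    -- two fermions
    obtain ⟨v, hv⟩ : ∃ v, l r₀ = v + 1 := ⟨l r₀ - 1, by omega⟩
    have hf1 := hfer v (by omega) (by omega) (Or.inr trivial)
    have hf1' : ∃ p, r₀ ≤ p ∧ p < r₁ ∧ κ p = 2 * v + 3 := by
      rcases hf1 with ⟨p, h1, h2, h3, _⟩ | h
      · exact ⟨p, h1, h2, h3⟩
      · omega
    obtain ⟨v', hv'⟩ : ∃ v', v = v' + 1 := ⟨v - 1, by omega⟩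
    have hf2' : ∃ p, r₀ ≤ p ∧ p < r₁ ∧ κ p = 2 * v' + 3 := by
      rcases Nat.lt_or_ge w (v' + 1) with hw1 | hw1
      · rcases hfer v' hw1 (by omega) (Or.inr trivial) with ⟨p, h1, h2, h3, _⟩ | h
        · exact ⟨p, h1, h2, h3⟩
        · omega
      · -- w = v' + 1 = v ; value w
        have hwv : w = v' + 1 := by omega
        have e1 : r₀ < ev N l (v' + 1) := (lt_ev_iff hl (v' + 1) r₀).mpr ⟨by omega, by omega⟩
        have e2 : ev N l (v' + 1) < r₁ := by
          by_contra hcon
          rw [not_lt] at hcon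
          have := (lt_ev_iff hl (v' + 1) r₂).mp (by omega)
          omega
        obtain ⟨p, hpN, hp⟩ := hferm v' (a2 v' (hin _ e1 e2))
        have hlp : l p = v' + 1 := by simp only [hl_def]; omega
        refine ⟨p, ?_, ?_, hp⟩
        · by_contra hcon
          rw [not_le] at hcon
          have := hstart p hcon
          omega
        · by_contra hcon
          rw [not_lt] at hcon
          have := hl r₂ p (by omega) hpN
          omega
    obtain ⟨p1, hp1a, hp1b, hp1c⟩ := hf1'
    obtain ⟨p2, hp2a, hp2b, hp2c⟩ := hf2'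
    have hp12 : p1 ≠ p2 := by
      intro h; rw [h] at hp1c; omega
    -- sums over the interval
    have hsplit : ∀ g : ℕ → ℤ, ∑ p ∈ range r₁, g p = ∑ p ∈ range r₀, g p + ∑ p ∈ Ico r₀ r₁, g p := by
      intro g
      rw [sum_range_add_sum_Ico g (by omega : r₀ ≤ r₁)]
    have hx : (2:ℤ) ≤ ∑ p ∈ Ico r₀ r₁, ((κ p % 2 : ℕ) : ℤ) := by
      have hsub : ({p1, p2} : Finset ℕ) ⊆ Ico r₀ r₁ := by
        intro p hp
        simp only [mem_insert, mem_singleton] at hp
        rw [mem_Ico]
        rcases hp with h | h <;> subst h <;> omega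
      have := sum_le_sum_of_subset_of_nonneg (f := fun p => ((κ p % 2 : ℕ) : ℤ)) hsub
        (fun i _ _ => by positivity)
      rw [sum_pair hp12] at this
      have e1 : κ p1 % 2 = 1 := by omega
      have e2 : κ p2 % 2 = 1 := by omega
      rw [e1, e2] at this
      push_cast at this ⊢
      linarith
    have hy : ∑ p ∈ Ico r₀ r₁, ((κ' p % 2 : ℕ) : ℤ) ≤ 1 := by
      have h1 : ∀ p ∈ Ico r₀ r₁, ((κ' p % 2 : ℕ) : ℤ) = if κ' p = 2 * w + 1 then 1 else 0 := by
        intro p hp
        rw [mem_Ico] at hp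
        have := hconst p hp.1 hp.2
        have h2 : κ' p / 2 = w := this
        split_ifs <;> omega
      rw [sum_congr rfl h1, ← sum_filter, sum_const, nsmul_eq_mul, mul_one]
      have h2 : (filter (fun p => κ' p = 2 * w + 1) (Ico r₀ r₁)).card ≤ kc N κ' (2 * w + 1) := by
        unfold kc
        apply card_le_card
        intro p hp
        simp only [mem_filter, mem_Ico, mem_range] at hp ⊢
        exact ⟨by omega, hp.2⟩
      have h3 := kc_odd_le hodd' (w := 2 * w + 1) (by omega)
      exact_mod_cast h2.trans h3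
    have hd1 : 0 < cc l' u' r₁ := by
      have e1 := hdiff r₁
      have e0 := hdiff r₀
      have e2 := hc r₀ (by omega)
      rw [hsplit, sum_sub_distrib (s := Ico r₀ r₁)] at e1
      rw [hz1] at e1
      rw [hz0] at e0
      linarith
    have hr1N' : r₁ < N := by
      rcases hr1N.lt_or_eq with h | h
      · exact h
      · rw [h, hcN] at hd1
        omega
    have h5 := b1 r₂ (by omega) (by rw [← hr₂]; exact hd1)
    rw [← hr₂] at h5
    have h6 := hconst r₂ (by omega) (by omega)
    have h7 := hs (r₁ + 1) (by omega)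
    rw [cc_succ, hz1] at h7
    have h8 := hl r₂ r₁ (by omega) hr1N'
    have h9 : l r₁ = l r₂ ∧ u r₁ + 1 = w := by
      simp only [hu'_def] at h5
      simp only [hu_def] at h6 h7 ⊢
      omega
    have h10 := a3 r₂ r₁ (by omega) hr1N' h9.1.symm
    omega
  have hlu : ∀ p, p < N → l p = u p := by
    intro p hp
    have h1 := hpart1 (p + 1) (by omega)
    rw [cc_succ, hpart1 p (by omega)] at h1
    omega
  -- Part II
  have hpart2 : ∀ r, r ≤ N → cc l' u' r = 0 := by
    intro r hr
    by_contra hne
    have hpos : 0 < cc l' u' r := lt_of_le_of_ne (hc r hr) (Ne.symm hne)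
    obtain ⟨r₀, r₁, hr0, hr1, hr1N, hz0, hz1, hin⟩ :=
      exists_interval (cc_zero l' u') hcN hc hr hpos
    have hconst := const_on hr1N b1 hin
    set w := u' r₀ with hw
    have hvgt : w < l' r₀ := by
      have h1 := hin (r₀ + 1) (by omega) (by omega)
      rw [cc_succ, hz0] at h1
      omega
    obtain ⟨r₂, hr₂⟩ : ∃ r₂, r₁ = r₂ + 1 := ⟨r₁ - 1, by omega⟩
    have hvlt : l' r₂ < w := by
      have h1 := hin r₂ (by omega) (by omega)
      have h2 := hz1
      rw [hr₂, cc_succ] at h2
      have h3 := hconst r₂ (by omega) (by omega)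
      rw [← h3]
      omega
    have h3 := hconst r₂ (by omega) (by omega)
    have e1 := hlu r₀ (by omega)
    have e2 := hlu r₂ (by omega)
    simp only [hl_def, hu_def] at e1 e2
    simp only [hl'_def] at hvgt hvlt
    simp only [hu'_def] at hw h3
    have k1 : κ r₀ = 2 * w + 1 := by omega
    have k2 : κ r₂ + 2 = 2 * w := by omega
    have k3 : κ' r₂ + 1 = 2 * w := by omega
    -- value w + 1 in circ
    have f1 : r₀ < ev N l' (w + 1) := (lt_ev_iff hl' (w + 1) r₀).mpr ⟨by omega, by
      simp only [hl'_def]; omega⟩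
    have f2 : ev N l' (w + 1) < r₁ := by
      by_contra hcon
      rw [not_lt] at hcon
      have := (lt_ev_iff hl' (w + 1) r₂).mp (by omega)
      simp only [hl'_def] at this
      omega
    obtain ⟨hwpos, p, hpN, hp⟩ := hferm' w (b2 w (hin _ f1 f2))
    -- p lies strictly between r₀ and r₂
    have g1 : r₀ < p := by
      by_contra hcon
      rw [not_lt] at hcon
      have := hκ p r₀ hcon (by omega)
      omega
    have g2 : p < r₂ := by
      by_contra hcon
      rw [not_lt] at hcon
      have := hκ r₂ p hcon hpN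
      omega
    have g3 := hconst p (by omega) (by omega)
    have g4 := hlu p hpN
    simp only [hl_def, hu_def] at g4
    simp only [hu'_def] at g3
    have g5 : κ' p + 1 = 2 * w := by omega
    have := hodd' p r₂ g2 (by omega) (by omega)
    omega
  intro p hp
  have h1 := hlu p hp
  have h2 := hpart2 (p + 1) (by omega)
  rw [cc_succ, hpart2 p (by omega)] at h2
  simp only [hl_def, hu_def] at h1
  simp only [hl'_def, hu'_def] at h2
  omega

end Pool.Agent.Lib.MP_2558e3_co
end
end

section

section

/-!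
Facts on the exterior algebra of `K^N`.
-/

namespace Pool.Agent.Lib.MP_2558e3_co

open Finset

variable {K : Type} [Field K] {N : ℕ}

/-- exterior algebra of `K^N` -/
abbrev EA (K : Type) [Field K] (N : ℕ) : Type := ExteriorAlgebra K (Fin N →₀ K)

/-- basis vector -/
noncomputable abbrev ee (K : Type) [Field K] {N : ℕ} (i : Fin N) : Fin N →₀ K :=
  Finsupp.single i 1

/-- `θ_i` -/
noncomputable abbrev te (K : Type) [Field K] {N : ℕ} (i : Fin N) : EA K N :=
  ExteriorAlgebra.ι K (ee K i)

/-- contraction -/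
noncomputable abbrev ct (i : Fin N) : EA K N →ₗ[K] EA K N :=
  CliffordAlgebra.contractLeft (Finsupp.lapply i : (Fin N →₀ K) →ₗ[K] K)

/-- permutation action -/
noncomputable abbrev pe (K : Type) [Field K] {N : ℕ} (σ : Equiv.Perm (Fin N)) :
    EA K N →ₐ[K] EA K N :=
  ExteriorAlgebra.map (Finsupp.lmapDomain K K σ)

lemma funLeft_ee (σ : Equiv.Perm (Fin N)) (i : Fin N) :
    Finsupp.lmapDomain K K σ (ee K i) = ee K (σ i) := by
  rw [Finsupp.lmapDomain_apply, ee, Finsupp.mapDomain_single]

lemma pe_te (σ : Equiv.Perm (Fin N)) (i : Fin N) : pe K σ (te K i) = te K (σ i) := by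
  rw [pe, te, ExteriorAlgebra.map_apply_ι, funLeft_ee]

lemma ct_mul (i : Fin N) (v : Fin N →₀ K) (ω : EA K N) :
    ct i (ExteriorAlgebra.ι K v * ω) = v i • ω - ExteriorAlgebra.ι K v * ct i ω :=
  CliffordAlgebra.contractLeft_ι_mul _ v ω

lemma ct_one (i : Fin N) : ct i (1 : EA K N) = 0 :=
  CliffordAlgebra.contractLeft_one _ _

lemma ct_te_mul (i j : Fin N) (ω : EA K N) :
    ct i (te K j * ω) = (if i = j then (1 : K) else 0) • ω - te K j * ct i ω := by
  rw [te, ct_mul, ee, Finsupp.single_apply, if_congr (@eq_comm _ j i) rfl rfl]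

lemma iota_anti (v w : Fin N →₀ K) : ExteriorAlgebra.ι K v * ExteriorAlgebra.ι K w =
    - (ExteriorAlgebra.ι K w * ExteriorAlgebra.ι K v) :=
  eq_neg_of_add_eq_zero_left (ExteriorAlgebra.ι_add_mul_swap v w)

lemma iota_sq (v : Fin N →₀ K) : ExteriorAlgebra.ι K v * ExteriorAlgebra.ι K v = 0 :=
  ExteriorAlgebra.ι_sq_zero v

/-- induction by left multiplication -/
lemma ea_induction {P : EA K N → Prop} (h1 : P 1) (hadd : ∀ x y, P x → P y → P (x + y))
    (hsmul : ∀ (c : K) x, P x → P (c • x))
    (hmul : ∀ (v : Fin N →₀ K) x, P x → P (ExteriorAlgebra.ι K v * x)) (x : EA K N) : P x := by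
  apply CliffordAlgebra.left_induction (P := P)
  · intro r
    rw [Algebra.algebraMap_eq_smul_one]
    exact hsmul r 1 h1
  · intro x y hx hy
    exact hadd x y hx hy
  · intro x v hx
    exact hmul v x hx

/-- the number operator -/
lemma num_mul (i j : Fin N) (ω : EA K N) : te K i * ct i (te K j * ω) =
    (if i = j then (1 : K) else 0) • (te K j * ω) + te K j * (te K i * ct i ω) := by
  rw [ct_te_mul, mul_sub, mul_smul_comm, ← mul_assoc, ← mul_assoc, te, te,
    iota_anti (ee K i) (ee K j)]
  split_ifs with h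
  · subst h; simp
  · simp

/-- product of thetas along a list -/
noncomputable def tl (K : Type) [Field K] {N : ℕ} (l : List (Fin N)) : EA K N :=
  (l.map (te K)).prod

lemma num_tl (i : Fin N) (l : List (Fin N)) :
    te K i * ct i (tl K l) = (l.count i : K) • tl K l := by
  induction l with
  | nil => simp [tl]
  | cons j l ih =>
    have h1 : tl K (j :: l) = te K j * tl K l := by simp [tl]
    rw [h1, num_mul, ih, List.count_cons, mul_smul_comm, ← add_smul]
    congr 1
    by_cases h : i = j
    · subst h; simp; ring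
    · have : ¬ j = i := fun h' => h h'.symm
      simp [h, this]

/-- swap formula -/
lemma swap_formula {i j : Fin N} (hij : i ≠ j) (ω : EA K N) :
    pe K (Equiv.swap i j) ω = ω - (te K i - te K j) * (ct i ω - ct j ω) := by
  have hv : ∀ v : Fin N →₀ K, Finsupp.lmapDomain K K (Equiv.swap i j) v =
      v - (v i - v j) • (ee K i - ee K j) := by
    intro v
    ext l
    have h0 : Finsupp.lmapDomain K K (Equiv.swap i j) v l = v (Equiv.swap i j l) := by
      rw [Finsupp.lmapDomain_apply]
      conv_lhs => rw [← Equiv.swap_apply_self i j l]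
      exact Finsupp.mapDomain_apply (Equiv.swap i j).injective v (Equiv.swap i j l)
    rw [h0, Finsupp.sub_apply, Finsupp.smul_apply, Finsupp.sub_apply,
      ee, ee, Finsupp.single_apply, Finsupp.single_apply]
    simp only [eq_comm (b := l)]
    by_cases h1 : l = i
    · subst h1
      rw [Equiv.swap_apply_left, if_pos rfl, if_neg hij]
      simp
    · by_cases h2 : l = j
      · subst h2
        rw [Equiv.swap_apply_right, if_neg h1, if_pos rfl]
        simp
      · rw [Equiv.swap_apply_of_ne_of_ne h1 h2, if_neg h1, if_neg h2]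
        simp
  induction ω using ea_induction with
  | h1 => rw [map_one, ct_one, ct_one, sub_zero, mul_zero, sub_zero]
  | hadd x y hx hy =>
    rw [map_add, hx, hy, map_add, map_add]
    noncomm_ring
  | hsmul c x hx =>
    rw [map_smul, hx, map_smul, map_smul, ← smul_sub, mul_smul_comm, smul_sub]
  | hmul v x hx =>
    have e1 : te K i - te K j = ExteriorAlgebra.ι K (ee K i - ee K j) := by
      rw [te, te, map_sub]
    rw [e1] at hx ⊢
    rw [map_mul, hx, ct_mul, ct_mul, pe, ExteriorAlgebra.map_apply_ι, hv, map_sub, map_smul]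
    generalize hd : ct i x - ct j x = d
    generalize ht : ExteriorAlgebra.ι K (ee K i - ee K j) = t
    have e2 : v i • x - ExteriorAlgebra.ι K v * ct i x -
        (v j • x - ExteriorAlgebra.ι K v * ct j x) =
        (v i - v j) • x - ExteriorAlgebra.ι K v * d := by
      rw [← hd, mul_sub, sub_smul]
      abel
    rw [e2]
    have e3 : ExteriorAlgebra.ι K v * t = - (t * ExteriorAlgebra.ι K v) := by
      rw [← ht]; exact iota_anti _ _
    have e4 : t * t = 0 := by rw [← ht]; exact iota_sq _
    have e5 : ExteriorAlgebra.ι K v * (t * d) = - (t * (ExteriorAlgebra.ι K v * d)) := by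
      rw [← mul_assoc, e3, neg_mul, mul_assoc]
    have e6 : t * (t * d) = 0 := by rw [← mul_assoc, e4, zero_mul]
    rw [sub_mul, mul_sub, mul_sub, smul_mul_assoc, smul_mul_assoc, e5, e6, mul_sub,
      mul_smul_comm, smul_zero]
    abel

/-- basis of the exterior algebra -/
noncomputable def bE (K : Type) [Field K] (N : ℕ) : Module.Basis (Finset (Fin N)) K (EA K N) :=
  (Finsupp.basisSingleOne : Module.Basis (Fin N) K (Fin N →₀ K)).ExteriorAlgebra

lemma bE_apply {n : ℕ} {S : Finset (Fin N)} (hS : S.card = n) :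
    bE K N S = ExteriorAlgebra.ιMulti K n (fun p => ee K (S.orderEmbOfFin hS p)) := by
  rw [bE, ExteriorAlgebra.basis_apply_ofCard _ hS, ExteriorAlgebra.ιMulti_family]
  congr 1

lemma iotaMulti_eq_tl {n : ℕ} (f : Fin n → Fin N) :
    ExteriorAlgebra.ιMulti K n (fun p => ee K (f p)) = tl K (List.ofFn f) := by
  rw [ExteriorAlgebra.ιMulti_apply, tl, List.map_ofFn]
  rfl

lemma num_bE (i : Fin N) (S : Finset (Fin N)) :
    te K i * ct i (bE K N S) = (if i ∈ S then (1 : K) else 0) • bE K N S := by
  rw [bE_apply (rfl : S.card = S.card), iotaMulti_eq_tl, num_tl]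
  congr 1
  have hnd : (List.ofFn (fun p => S.orderEmbOfFin (rfl : S.card = S.card) p)).Nodup := by
    rw [List.nodup_ofFn]
    exact (S.orderEmbOfFin rfl).injective
  have hmem : i ∈ List.ofFn (fun p => S.orderEmbOfFin (rfl : S.card = S.card) p) ↔ i ∈ S := by
    rw [List.mem_ofFn, ← Set.mem_range, Finset.range_orderEmbOfFin]
    simp
  split_ifs with h
  · rw [List.count_eq_one_of_mem hnd (hmem.mpr h)]; simp
  · rw [List.count_eq_zero_of_not_mem (fun h' => h (hmem.mp h'))]; simp

lemma iotaMulti_perm {n : ℕ} {S : Finset (Fin N)} (hS : S.card = n) (f : Fin n → Fin N)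
    (π : Equiv.Perm (Fin n)) (h : ∀ p, f p = S.orderEmbOfFin hS (π p)) :
    ExteriorAlgebra.ιMulti K n (fun p => ee K (f p)) = Equiv.Perm.sign π • bE K N S := by
  rw [bE_apply hS]
  have h1 := (ExteriorAlgebra.ιMulti K n).map_perm
    (fun p => ee K (S.orderEmbOfFin hS p)) π
  rw [← h1]
  congr 1
  funext p
  rw [h, Function.comp_apply]

lemma exists_perm_emb {n : ℕ} {S : Finset (Fin N)} (hS : S.card = n) (f : Fin n → Fin N)
    (hf : Function.Injective f) (hfS : ∀ p, f p ∈ S) :
    ∃ π : Equiv.Perm (Fin n), ∀ p, f p = S.orderEmbOfFin hS (π p) := by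
  let g : Fin n → Fin n := fun p => (S.orderIsoOfFin hS).symm ⟨f p, hfS p⟩
  have hg : ∀ p, S.orderEmbOfFin hS (g p) = f p := by
    intro p
    rw [← Finset.coe_orderIsoOfFin_apply]
    simp only [g, OrderIso.apply_symm_apply]
  have hginj : Function.Injective g := by
    intro p q hpq
    apply hf
    rw [← hg p, ← hg q, hpq]
  refine ⟨Equiv.ofBijective g (Finite.injective_iff_bijective.mp hginj), fun p => ?_⟩
  rw [Equiv.ofBijective_apply, hg]

lemma pe_bE_eq (σ : Equiv.Perm (Fin N)) {n : ℕ} {S : Finset (Fin N)} (hS : S.card = n) :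
    pe K σ (bE K N S) = ExteriorAlgebra.ιMulti K n (fun p => ee K (σ (S.orderEmbOfFin hS p))) := by
  rw [bE_apply hS, iotaMulti_eq_tl, iotaMulti_eq_tl, tl, tl, map_list_prod, List.map_map,
    List.map_ofFn, List.map_ofFn]
  congr 2
  funext p
  simp only [Function.comp_apply, pe_te]

/-- sign attached to a permutation and a subset -/
lemma pe_bE (σ : Equiv.Perm (Fin N)) (S : Finset (Fin N)) :
    ∃ ε : ℤˣ, pe K σ (bE K N S) = ε • bE K N (S.map σ.toEmbedding) := by
  have hS : (S.map σ.toEmbedding).card = S.card := card_map _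
  obtain ⟨π, hπ⟩ := exists_perm_emb hS (fun p => σ (S.orderEmbOfFin rfl p))
    (σ.injective.comp (S.orderEmbOfFin rfl).injective)
    (fun p => mem_map_of_mem _ (S.orderEmbOfFin_mem rfl p))
  refine ⟨Equiv.Perm.sign π, ?_⟩
  rw [pe_bE_eq σ rfl]
  exact iotaMulti_perm hS _ π hπ

lemma pe_yg (I : Finset (Fin N)) (τ : Equiv.Perm {i // i ∈ I}) (ρ : Equiv.Perm {i // ¬ i ∈ I}) :
    pe K (yg I τ ρ) (bE K N I) = Equiv.Perm.sign τ • bE K N I := by
  rw [pe_bE_eq _ (rfl : I.card = I.card)]
  let e := (I.orderIsoOfFin (rfl : I.card = I.card)).toEquiv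
  let π : Equiv.Perm (Fin I.card) := (e.trans τ).trans e.symm
  have hπ : ∀ p, yg I τ ρ (I.orderEmbOfFin rfl p) = I.orderEmbOfFin rfl (π p) := by
    intro p
    have h1 : I.orderEmbOfFin rfl p ∈ I := I.orderEmbOfFin_mem rfl p
    rw [yg, Equiv.Perm.subtypeCongr.left_apply _ _ h1]
    rw [← Finset.coe_orderIsoOfFin_apply I rfl (π p)]
    have h2 : I.orderIsoOfFin rfl (π p) = τ (e p) := by
      change e (π p) = τ (e p)
      simp [π]
    rw [h2]
    rfl
  rw [iotaMulti_perm rfl _ π hπ]
  congr 1
  exact Equiv.Perm.sign_symm_trans_trans τ e.symm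

/-- the first `m` indices -/
def In (N m : ℕ) : Finset (Fin N) := univ.filter (fun i : Fin N => (i : ℕ) < m)

lemma mem_In {m : ℕ} {i : Fin N} : i ∈ In N m ↔ (i : ℕ) < m := by
  rw [In, mem_filter]
  simp

lemma card_In {m : ℕ} (hm : m ≤ N) : (In N m).card = m := by
  have : In N m = univ.map (Fin.castLEEmb hm) := by
    ext i
    rw [mem_In, mem_map]
    constructor
    · intro h
      exact ⟨⟨i, h⟩, mem_univ _, Fin.ext rfl⟩
    · rintro ⟨j, _, rfl⟩
      exact j.2
  rw [this, card_map, card_univ, Fintype.card_fin]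

lemma bE_In {m : ℕ} (hm : m ≤ N) :
    bE K N (In N m) = (List.ofFn fun i : Fin m => te K (Fin.castLE hm i)).prod := by
  rw [bE_apply (card_In hm), iotaMulti_eq_tl, tl, List.map_ofFn]
  have h : (In N m).orderEmbOfFin (card_In hm) = Fin.castLEOrderEmb hm := by
    symm
    apply DFunLike.coe_injective
    apply Finset.orderEmbOfFin_unique
    · intro x
      rw [mem_In]
      exact x.2
    · exact (Fin.castLEOrderEmb hm).strictMono
  rw [h]
  rfl

end Pool.Agent.Lib.MP_2558e3_co
end

section

/-!
Components of superpolynomials.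
-/

namespace Pool.Agent.Lib.MP_2558e3_co

open scoped TensorProduct
open Finset MvPolynomial

variable {K : Type} [Field K] {N : ℕ}

section General

variable (A : Type) [CommRing A] [Algebra K A]

/-- component of an element of `A ⊗ ⋀` -/
noncomputable def cmp (S : Finset (Fin N)) : A ⊗[K] EA K N →ₗ[A] A :=
  (Algebra.TensorProduct.basis A (bE K N)).coord S

variable {A}

lemma cmp_tmul (S : Finset (Fin N)) (a : A) (ω : EA K N) :
    cmp A S (a ⊗ₜ[K] ω) = (bE K N).repr ω S • a := by
  rw [cmp, Module.Basis.coord_apply, Algebra.TensorProduct.basis_repr_tmul, Finsupp.smul_apply,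
    Finsupp.mapRange_apply, smul_eq_mul, Algebra.smul_def, mul_comm]

lemma cmp_ext {F G : A ⊗[K] EA K N} (h : ∀ S, cmp A S F = cmp A S G) : F = G :=
  (Algebra.TensorProduct.basis A (bE K N)).ext_elem h

lemma cmp_map {A' : Type} [CommRing A'] [Algebra K A'] (φ : A →ₗ[K] A')
    (L : EA K N →ₗ[K] EA K N) (S S' : Finset (Fin N)) (c : K)
    (h : ∀ ω, (bE K N).repr (L ω) S = c * (bE K N).repr ω S') (F : A ⊗[K] EA K N) :
    cmp A' S (TensorProduct.map φ L F) = c • φ (cmp A S' F) := by
  induction F using TensorProduct.induction_on with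
  | zero => simp
  | tmul a ω =>
    rw [TensorProduct.map_tmul, cmp_tmul, cmp_tmul, h, map_smul, mul_smul]
  | add x y hx hy => rw [map_add, map_add, hx, hy, map_add, map_add, smul_add]

lemma cmp_map_id {A' : Type} [CommRing A'] [Algebra K A'] (φ : A →ₗ[K] A')
    (S : Finset (Fin N)) (F : A ⊗[K] EA K N) :
    cmp A' S (TensorProduct.map φ LinearMap.id F) = φ (cmp A S F) := by
  rw [cmp_map φ LinearMap.id S S 1 (fun ω => by simp) F, one_smul]

end General

/-- linear functionals agreeing on the basis agree -/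
lemma repr_ext {L L' : EA K N →ₗ[K] EA K N} {S S' : Finset (Fin N)} {c : K}
    (h : ∀ T, (bE K N).repr (L (bE K N T)) S = c * (bE K N).repr (L' (bE K N T)) S') (ω : EA K N) :
    (bE K N).repr (L ω) S = c * (bE K N).repr (L' ω) S' := by
  have h1 : ((bE K N).coord S) ∘ₗ L = c • (((bE K N).coord S') ∘ₗ L') := by
    apply (bE K N).ext
    intro T
    simpa using h T
  have := LinearMap.congr_fun h1 ω
  simpa using this

lemma repr_bE (S T : Finset (Fin N)) : (bE K N).repr (bE K N S) T = if S = T then 1 else 0 := by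
  rw [Module.Basis.repr_self, Finsupp.single_apply]

/-- the sign of `σ` on `S` -/
noncomputable def eps (K : Type) [Field K] {N : ℕ} (σ : Equiv.Perm (Fin N))
    (S : Finset (Fin N)) : ℤˣ := (pe_bE (K := K) σ S).choose

lemma pe_bE' (σ : Equiv.Perm (Fin N)) (S : Finset (Fin N)) :
    pe K σ (bE K N S) = ((eps K σ S : ℤ) : K) • bE K N (S.map σ.toEmbedding) := by
  have h := (pe_bE (K := K) σ S).choose_spec
  rw [h, Units.smul_def, ← Int.cast_smul_eq_zsmul K]
  rfl

lemma eps_sq (σ : Equiv.Perm (Fin N)) (S : Finset (Fin N)) :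
    ((eps K σ S : ℤ) : K) * ((eps K σ S : ℤ) : K) = 1 := by
  rw [← Int.cast_mul, ← Units.val_mul, Int.units_mul_self]
  simp

lemma repr_pe (σ : Equiv.Perm (Fin N)) (S : Finset (Fin N)) (ω : EA K N) :
    (bE K N).repr (pe K σ ω) (S.map σ.toEmbedding) =
      ((eps K σ S : ℤ) : K) * (bE K N).repr ω S := by
  apply repr_ext (L := (pe K σ).toLinearMap) (L' := LinearMap.id)
  intro T
  rw [AlgHom.toLinearMap_apply, LinearMap.id_apply, pe_bE', map_smul, Finsupp.smul_apply,
    repr_bE, repr_bE, smul_eq_mul]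
  by_cases h : T = S
  · rw [h, if_pos rfl, if_pos rfl]
  · rw [if_neg h, if_neg (fun h' => h (Finset.map_injective _ h'))]
    simp

/-- the number operator -/
noncomputable def numL (K : Type) [Field K] {N : ℕ} (i j : Fin N) : EA K N →ₗ[K] EA K N :=
  LinearMap.mulLeft K (te K i) ∘ₗ ct j

lemma numL_apply (i j : Fin N) (ω : EA K N) : numL K i j ω = te K i * ct j ω := rfl

lemma repr_num (i : Fin N) (S : Finset (Fin N)) (ω : EA K N) :
    (bE K N).repr (numL K i i ω) S = (if i ∈ S then (1 : K) else 0) * (bE K N).repr ω S := by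
  apply repr_ext (L := numL K i i) (L' := LinearMap.id)
  intro T
  rw [numL_apply, num_bE, LinearMap.id_apply, map_smul, Finsupp.smul_apply, repr_bE, smul_eq_mul]
  by_cases h : T = S
  · rw [h]
  · rw [if_neg h, mul_zero, mul_zero]

lemma ct_ct (i : Fin N) (ω : EA K N) : ct i (ct i ω) = 0 :=
  CliffordAlgebra.contractLeft_contractLeft _ _

lemma ct_bE_not_mem {i : Fin N} {T : Finset (Fin N)} (h : i ∉ T) : ct i (bE K N T) = 0 := by
  have h1 := num_bE (K := K) i T
  rw [if_neg h, zero_smul] at h1
  have h2 := congrArg (ct i) h1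
  rw [ct_te_mul, if_pos rfl, one_smul, ct_ct, mul_zero, sub_zero, map_zero] at h2
  exact h2

lemma hop_bE {i j : Fin N} (hij : i ≠ j) (T : Finset (Fin N)) : te K j * ct i (bE K N T) =
    if i ∈ T ∧ j ∉ T then pe K (Equiv.swap i j) (bE K N T) else 0 := by
  by_cases hi : i ∈ T
  · by_cases hj : j ∈ T
    · rw [if_neg (fun h => h.2 hj)]
      have h1 := num_bE (K := K) j T
      rw [if_pos hj, one_smul] at h1
      rw [← h1, ct_te_mul, if_neg hij, zero_smul, zero_sub, mul_neg, ← mul_assoc, te, iota_sq,
        zero_mul, neg_zero]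
    · rw [if_pos ⟨hi, hj⟩, swap_formula hij, ct_bE_not_mem hj, sub_zero, sub_mul]
      have h1 := num_bE (K := K) i T
      rw [if_pos hi, one_smul] at h1
      rw [h1]
      abel
  · rw [if_neg (fun h => hi h.1), ct_bE_not_mem hi, mul_zero]

lemma repr_hop {i j : Fin N} (hij : i ≠ j) (S : Finset (Fin N)) (ω : EA K N) :
    (bE K N).repr (numL K j i ω) S =
      (if j ∈ S ∧ i ∉ S then (1 : K) else 0) * (bE K N).repr (pe K (Equiv.swap i j) ω) S := by
  apply repr_ext (L := numL K j i) (L' := (pe K (Equiv.swap i j)).toLinearMap)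
  intro T
  rw [numL_apply, hop_bE hij, AlgHom.toLinearMap_apply, pe_bE']
  by_cases h : T.map (Equiv.swap i j).toEmbedding = S
  · have h1 : j ∈ S ↔ i ∈ T := by
      rw [← h, mem_map]
      constructor
      · rintro ⟨x, hx, hxj⟩
        have : x = i := by
          rw [Equiv.coe_toEmbedding] at hxj
          apply (Equiv.swap i j).injective
          rw [hxj, Equiv.swap_apply_left]
        rw [← this]; exact hx
      · intro hi
        exact ⟨i, hi, Equiv.swap_apply_left i j⟩
    have h2 : i ∈ S ↔ j ∈ T := by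
      rw [← h, mem_map]
      constructor
      · rintro ⟨x, hx, hxj⟩
        have : x = j := by
          rw [Equiv.coe_toEmbedding] at hxj
          apply (Equiv.swap i j).injective
          rw [hxj, Equiv.swap_apply_right]
        rw [← this]; exact hx
      · intro hi
        exact ⟨j, hi, Equiv.swap_apply_right i j⟩
    simp only [h1, h2]
    split_ifs <;> simp
  · have e1 : (bE K N).repr (((eps K (Equiv.swap i j) T : ℤ) : K) •
        bE K N (T.map (Equiv.swap i j).toEmbedding)) S = 0 := by
      rw [map_smul, Finsupp.smul_apply, repr_bE, if_neg h, smul_zero]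
    rw [e1, mul_zero]
    split_ifs
    · exact e1
    · simp

end Pool.Agent.Lib.MP_2558e3_co
end

section

/-!
Components of the operators.
-/

namespace Pool.Agent.Lib.MP_2558e3_co

open scoped TensorProduct
open Finset MvPolynomial

variable {K : Type} [Field K] {N : ℕ}

/-- polynomial component -/
noncomputable abbrev cm (S : Finset (Fin N)) :
    SuperPoly K N →ₗ[MvPolynomial (Fin N) K] MvPolynomial (Fin N) K :=
  cmp (MvPolynomial (Fin N) K) S

/-- rational component -/
noncomputable abbrev cr (S : Finset (Fin N)) :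
    SuperRat K N →ₗ[FractionRing (MvPolynomial (Fin N) K)] FractionRing (MvPolynomial (Fin N) K) :=
  cmp (FractionRing (MvPolynomial (Fin N) K)) S

/-- the embedding of polynomials in rational functions -/
noncomputable abbrev am (K : Type) [Field K] (N : ℕ) :
    MvPolynomial (Fin N) K →+* FractionRing (MvPolynomial (Fin N) K) :=
  algebraMap (MvPolynomial (Fin N) K) (FractionRing (MvPolynomial (Fin N) K))

lemma cr_toRat (S : Finset (Fin N)) (F : SuperPoly K N) :
    cr S (toRat F) = am K N (cm S F) := by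
  rw [toRat, cmp_map_id]
  rfl

lemma toRat_injective : Function.Injective (toRat : SuperPoly K N → SuperRat K N) := by
  intro F G h
  apply cmp_ext
  intro S
  have := congrArg (cr S) h
  rw [cr_toRat, cr_toRat] at this
  exact IsFractionRing.injective _ _ this

lemma cm_dx (S : Finset (Fin N)) (i : Fin N) (F : SuperPoly K N) :
    cm S (dx i F) = pderiv i (cm S F) := by
  rw [dx, cmp_map_id]
  rfl

lemma cm_act (σ : Equiv.Perm (Fin N)) (S : Finset (Fin N)) (F : SuperPoly K N) :
    cm (S.map σ.toEmbedding) (act σ F) = ((eps K σ S : ℤ) : K) • rename σ (cm S F) := by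
  exact cmp_map (rename σ : MvPolynomial (Fin N) K →ₐ[K] MvPolynomial (Fin N) K).toLinearMap
    (pe K σ).toLinearMap (S.map σ.toEmbedding) S ((eps K σ S : ℤ) : K) (repr_pe σ S) F

lemma xv_mul (i : Fin N) (F : SuperPoly K N) :
    xv i * F = (X i : MvPolynomial (Fin N) K) • F := by
  induction F using TensorProduct.induction_on with
  | zero => simp
  | tmul a ω =>
    rw [xv, Algebra.TensorProduct.tmul_mul_tmul, one_mul, TensorProduct.smul_tmul', smul_eq_mul]
  | add x y hx hy => rw [mul_add, hx, hy, smul_add]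

lemma cm_xv_mul (S : Finset (Fin N)) (i : Fin N) (F : SuperPoly K N) :
    cm S (xv i * F) = X i * cm S F := by
  rw [xv_mul, map_smul, smul_eq_mul]

lemma th_mul_dth (i j : Fin N) (F : SuperPoly K N) :
    th i * dth j F = TensorProduct.map LinearMap.id (numL K i j) F := by
  induction F using TensorProduct.induction_on with
  | zero => simp
  | tmul a ω =>
    rw [dth, TensorProduct.map_tmul, th, Algebra.TensorProduct.tmul_mul_tmul, one_mul,
      TensorProduct.map_tmul]
    rfl
  | add x y hx hy => rw [map_add, mul_add, hx, hy, map_add]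

lemma cm_num (S : Finset (Fin N)) (i : Fin N) (F : SuperPoly K N) :
    cm S (th i * dth i F) = (if i ∈ S then (1 : K) else 0) • cm S F := by
  rw [th_mul_dth, cmp_map _ _ S S _ (repr_num i S)]
  rfl

/-- symmetric superpolynomials -/
def IsSym (F : SuperPoly K N) : Prop := ∀ σ : Equiv.Perm (Fin N), act σ F = F

lemma act_swap_id {F : SuperPoly K N} (hF : IsSym F) (i j : Fin N) :
    TensorProduct.map LinearMap.id (pe K (Equiv.swap i j)).toLinearMap F =
      TensorProduct.map (rename (Equiv.swap i j) : MvPolynomial (Fin N) K →ₐ[K] _).toLinearMap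
        LinearMap.id F := by
  have h := hF (Equiv.swap i j)
  have h2 := congrArg (TensorProduct.map
    (rename (Equiv.swap i j) : MvPolynomial (Fin N) K →ₐ[K] _).toLinearMap
        (LinearMap.id : EA K N →ₗ[K] EA K N)) h
  rw [← h2, act, ← LinearMap.comp_apply, ← TensorProduct.map_comp]
  congr 2
  ext f
  simp only [LinearMap.id_apply, LinearMap.comp_apply, AlgHom.toLinearMap_apply, rename_rename]
  have : (Equiv.swap i j : Fin N → Fin N) ∘ Equiv.swap i j = id := by
    ext x; simp
  rw [this, rename_id_apply]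

lemma cmp_map2 (L L' : EA K N →ₗ[K] EA K N) (S S' : Finset (Fin N)) (c : K)
    (h : ∀ ω, (bE K N).repr (L ω) S = c * (bE K N).repr (L' ω) S') (F : SuperPoly K N) :
    cm S (TensorProduct.map LinearMap.id L F) = c • cm S' (TensorProduct.map LinearMap.id L' F) := by
  induction F using TensorProduct.induction_on with
  | zero => simp
  | tmul a ω =>
    rw [TensorProduct.map_tmul, TensorProduct.map_tmul, cmp_tmul, cmp_tmul, h, mul_smul]
  | add x y hx hy => rw [map_add, map_add, hx, hy, map_add, map_add, smul_add]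

lemma cm_hop {F : SuperPoly K N} (hF : IsSym F) (S : Finset (Fin N)) {i j : Fin N}
    (hij : i ≠ j) : cm S (th j * dth i F) =
      (if j ∈ S ∧ i ∉ S then (1 : K) else 0) • Ksw i j (cm S F) := by
  rw [th_mul_dth, cmp_map2 (numL K j i) (pe K (Equiv.swap i j)).toLinearMap S S _
    (repr_hop hij S), act_swap_id hF, cmp_map_id]
  rfl

lemma sum_pairs_eq {M : Type*} [AddCommMonoid M] (G : Fin N → Fin N → M) :
    ∑ i, ∑ j ∈ univ.erase i, G i j = ∑ i, ∑ j, if i = j then 0 else G i j := by
  apply sum_congr rfl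
  intro i _
  rw [← add_sum_erase univ (fun j => if i = j then 0 else G i j) (mem_univ i), if_pos rfl,
    zero_add]
  apply sum_congr rfl
  intro j hj
  rw [mem_erase] at hj
  rw [if_neg hj.1.symm]

lemma sum_pairs_swap {M : Type*} [AddCommMonoid M] (G : Fin N → Fin N → M) :
    ∑ i, ∑ j ∈ univ.erase i, G i j = ∑ i, ∑ j ∈ univ.erase i, G j i := by
  rw [sum_pairs_eq, sum_pairs_eq, sum_comm]
  apply sum_congr rfl
  intro i _
  apply sum_congr rfl
  intro j _
  simp only [eq_comm]

lemma sum_pairs_congr {M : Type*} [AddCommMonoid M] {G H : Fin N → Fin N → M}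
    (h : ∀ i j, i ≠ j → G i j = H i j) :
    ∑ i, ∑ j ∈ univ.erase i, G i j = ∑ i, ∑ j ∈ univ.erase i, H i j := by
  apply sum_congr rfl
  intro i _
  apply sum_congr rfl
  intro j hj
  rw [mem_erase] at hj
  exact h i j hj.1.symm

lemma sum_pairs_restrict {M : Type*} [AddCommMonoid M] (S : Finset (Fin N))
    (G : Fin N → Fin N → M) : ∑ i ∈ S, ∑ j ∈ univ \ S, G i j =
      ∑ i, ∑ j ∈ univ.erase i, if i ∈ S ∧ j ∉ S then G i j else 0 := by
  rw [sum_pairs_eq, sum_split S (fun i => ∑ j, if i = j then 0 else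
    if i ∈ S ∧ j ∉ S then G i j else 0)]
  rw [sum_eq_zero (s := univ \ S), add_zero]
  · apply sum_congr rfl
    intro i hi
    rw [sum_split S (fun j => if i = j then 0 else if i ∈ S ∧ j ∉ S then G i j else 0)]
    rw [sum_eq_zero (s := S), zero_add]
    · apply sum_congr rfl
      intro j hj
      rw [mem_sdiff] at hj
      rw [if_neg (by rintro rfl; exact hj.2 hi), if_pos ⟨hi, hj.2⟩]
    · intro j hj
      rw [ite_eq_left_iff]
      intro _
      rw [if_neg (fun h => h.2 hj)]
  · intro i hi
    rw [mem_sdiff] at hi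
    apply sum_eq_zero
    intro j _
    rw [ite_eq_left_iff]
    intro _
    rw [if_neg (fun h => hi.2 h.1)]

lemma two_sum_pairs {M : Type*} [AddCommGroup M] [Module K M] (G : Fin N → Fin N → M) :
    (2 : K) • ∑ i, ∑ j ∈ univ.erase i, G i j =
      ∑ i, ∑ j ∈ univ.erase i, (G i j + G j i) := by
  rw [two_smul]
  simp only [sum_add_distrib]
  congr 1
  exact sum_pairs_swap G

lemma swap_tensor {i j : Fin N} (hij : i ≠ j) (F : SuperPoly K N) :
    (th i - th j) * dth i F + (th j - th i) * dth j F =
      F - TensorProduct.map LinearMap.id (pe K (Equiv.swap i j)).toLinearMap F := by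
  induction F using TensorProduct.induction_on with
  | zero => simp
  | tmul a ω =>
    rw [sub_mul, sub_mul, dth, dth, TensorProduct.map_tmul, TensorProduct.map_tmul, th, th,
      Algebra.TensorProduct.tmul_mul_tmul, Algebra.TensorProduct.tmul_mul_tmul,
      Algebra.TensorProduct.tmul_mul_tmul, Algebra.TensorProduct.tmul_mul_tmul,
      TensorProduct.map_tmul]
    simp only [one_mul, LinearMap.id_apply]
    rw [← TensorProduct.tmul_sub, ← TensorProduct.tmul_sub, ← TensorProduct.tmul_sub,
      ← TensorProduct.tmul_add, AlgHom.toLinearMap_apply, swap_formula hij]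
    congr 1
    simp only [sub_mul, mul_sub]
    abel
  | add x y hx hy =>
    rw [map_add, map_add, map_add, mul_add, mul_add]
    calc _ = ((th i - th j) * dth i x + (th j - th i) * dth j x) +
        ((th i - th j) * dth i y + (th j - th i) * dth j y) := by abel
      _ = _ := by rw [hx, hy]; abel

lemma cm_swap {F : SuperPoly K N} (hF : IsSym F) (S : Finset (Fin N)) {i j : Fin N}
    (hij : i ≠ j) : cm S ((th i - th j) * dth i F) + cm S ((th j - th i) * dth j F) =
      cm S F - Ksw i j (cm S F) := by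
  rw [← map_add, swap_tensor hij, map_sub, act_swap_id hF, cmp_map_id]
  rfl

lemma rx_sub_ne {i j : Fin N} (h : i ≠ j) : (rx K i - rx K j) ≠ 0 := by
  rw [rx, rx, ← map_sub]
  intro h0
  have h1 := (map_eq_zero_iff (am K N) (IsFractionRing.injective _ _)).mp h0
  exact X_sub_ne h h1

lemma pderiv_X_mul (i : Fin N) (f : MvPolynomial (Fin N) K) :
    opT i (opT i f) - opT i f = X i * (X i * pderiv i (pderiv i f)) := by
  simp only [opT_eq]
  rw [Derivation.leibniz, pderiv_X_self]
  simp only [smul_eq_mul]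
  ring

lemma am_opA {i j : Fin N} (hij : i ≠ j) (f : MvPolynomial (Fin N) K) :
    am K N (opA i j f) = (rx K i * rx K j / (rx K i - rx K j)) *
      (am K N (pderiv i f) - am K N (pderiv j f)) -
      (rx K i * rx K j / (rx K i - rx K j)) * (1 / (rx K i - rx K j)) *
        (am K N f - am K N (Ksw i j f)) := by
  have h := congrArg (am K N) (opA_spec hij f)
  simp only [map_mul, map_sub, opT_eq] at h
  have hne := rx_sub_ne (K := K) hij
  change (rx K i - rx K j) * ((rx K i - rx K j) * am K N (opA i j f)) =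
    (rx K i - rx K j) * (rx K j * (rx K i * am K N (pderiv i f)) -
      rx K i * (rx K j * am K N (pderiv j f))) -
      rx K i * rx K j * (am K N f - am K N (Ksw i j f)) at h
  field_simp
  linear_combination h

lemma am_opB {i j : Fin N} (hij : i ≠ j) (f : MvPolynomial (Fin N) K) :
    am K N (opB i j f) = (rx K j / (rx K i - rx K j)) * (am K N f - am K N (Ksw i j f)) := by
  have h := congrArg (am K N) (opB_spec hij f)
  simp only [map_mul, map_sub] at h
  have hne := rx_sub_ne (K := K) hij
  change (rx K i - rx K j) * am K N (opB i j f) =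
    rx K j * (am K N f - am K N (Ksw i j f)) at h
  field_simp
  linear_combination h

lemma am_smul (c : K) (f : MvPolynomial (Fin N) K) : am K N (c • f) = c • am K N f := by
  rw [Algebra.smul_def, Algebra.smul_def, map_mul, ← IsScalarTower.algebraMap_apply]

/-- component of `D F` for symmetric `F` -/
theorem cr_opD [CharZero K] {F : SuperPoly K N} (hF : IsSym F) (α : K) (S : Finset (Fin N)) :
    (2 : K) • cr S (opD α F) = am K N (opD2 α (cm S F)) := by
  rw [opD, map_add, smul_add, map_sum]
  simp only [map_sum]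
  have h1 : (2 : K) • cr S ((α / 2) • ∑ i : Fin N, toRat (xv i * xv i * dx i (dx i F))) =
      am K N (α • ∑ i, (opT i (opT i (cm S F)) - opT i (cm S F))) := by
    rw [LinearMap.map_smul_of_tower, smul_smul, mul_div_cancel₀ _ (two_ne_zero), map_sum,
      am_smul, map_sum]
    congr 1
    apply sum_congr rfl
    intro i _
    rw [cr_toRat, mul_assoc, cm_xv_mul, cm_xv_mul, cm_dx, cm_dx, pderiv_X_mul]
  have h2 : (2 : K) • ∑ i : Fin N, ∑ j ∈ univ.erase i,
      cr S ((rx K i * rx K j / (rx K i - rx K j)) •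
      (toRat (dx i F) - (1 / (rx K i - rx K j)) • toRat ((th i - th j) * dth i F))) =
      am K N (∑ i, ∑ j ∈ univ.erase i, opA i j (cm S F)) := by
    rw [two_sum_pairs, map_sum]
    simp only [map_sum]
    apply sum_pairs_congr
    intro i j hij
    rw [map_smul, map_smul, map_sub, map_sub, map_smul, map_smul, cr_toRat, cr_toRat, cr_toRat,
      cr_toRat, cm_dx, cm_dx, am_opA hij]
    have h3 := congrArg (am K N) (cm_swap hF S hij)
    rw [map_add, map_sub] at h3
    simp only [smul_eq_mul]
    have hne := rx_sub_ne (K := K) hij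
    have hne' := rx_sub_ne (K := K) hij.symm
    rw [← h3]
    have e2 : rx K j - rx K i = - (rx K i - rx K j) := by ring
    rw [e2, div_neg, div_neg]
    field_simp
    ring
  rw [h1, h2, ← map_add]
  congr 1
  rw [opD2]
  simp only [LinearMap.add_apply, LinearMap.smul_apply, LinearMap.sum_apply,
      LinearMap.sub_apply, LinearMap.comp_apply]

lemma th_dx_dth (i : Fin N) (F : SuperPoly K N) :
    th i * dx i (dth i F) = TensorProduct.map (pderiv i).toLinearMap (numL K i i) F := by
  induction F using TensorProduct.induction_on with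
  | zero => simp
  | tmul a ω =>
    rw [dth, TensorProduct.map_tmul, dx, TensorProduct.map_tmul, th,
      Algebra.TensorProduct.tmul_mul_tmul, one_mul, TensorProduct.map_tmul]
    rfl
  | add x y hx hy => rw [map_add, map_add, mul_add, hx, hy, map_add]

lemma cm_th_dx_dth (S : Finset (Fin N)) (i : Fin N) (F : SuperPoly K N) :
    cm S (th i * dx i (dth i F)) = (if i ∈ S then (1 : K) else 0) • pderiv i (cm S F) := by
  rw [th_dx_dth, cmp_map _ _ S S _ (repr_num i S)]
  rfl

lemma count_pairs {M : Type*} [AddCommMonoid M] (S : Finset (Fin N)) (c : M) :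
    ∑ i, ∑ j ∈ univ.erase i, (if i ∈ S ∧ j ∈ S then c else 0) =
      (S.card * (S.card - 1)) • c := by
  have h1 : ∀ i, ∑ j ∈ univ.erase i, (if i ∈ S ∧ j ∈ S then c else 0) =
      if i ∈ S then (S.card - 1) • c else 0 := by
    intro i
    split_ifs with hi
    · simp only [hi, true_and]
      rw [← sum_filter, sum_const]
      congr 1
      rw [← card_erase_of_mem hi]
      congr 1
      ext j
      simp only [mem_filter, mem_erase, mem_univ, and_true]
    · simp [hi]
  simp only [h1]
  rw [← sum_mem_eq, sum_const, smul_smul]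

lemma cm_term (S : Finset (Fin N)) (i j : Fin N) (F : SuperPoly K N) :
    cm S ((xv i * th j + xv j * th i) * dth i F) =
      X i * cm S (th j * dth i F) + X j * cm S (th i * dth i F) := by
  rw [add_mul, map_add, mul_assoc, mul_assoc, cm_xv_mul, cm_xv_mul]

lemma Ksw_comm (i j : Fin N) (f : MvPolynomial (Fin N) K) : Ksw i j f = Ksw j i f := by
  rw [Ksw, Ksw, Equiv.swap_comm]

/-- component of `Δ F` for symmetric `F` -/
theorem cr_opDelta [CharZero K] {F : SuperPoly K N} (hF : IsSym F) (α : K)
    (S : Finset (Fin N)) : cr S (opDelta α F) = am K N (opDel α S (cm S F)) := by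
  rw [opDelta, map_add, map_sum]
  simp only [map_sum]
  have h1 : cr S (α • ∑ i : Fin N, toRat (xv i * th i * dx i (dth i F))) =
      am K N (α • ∑ i ∈ S, opT i (cm S F)) := by
    rw [LinearMap.map_smul_of_tower, map_sum, am_smul, map_sum, sum_mem_eq S]
    congr 1
    apply sum_congr rfl
    intro i _
    rw [cr_toRat, mul_assoc, cm_xv_mul, cm_th_dx_dth, opT_eq]
    split_ifs <;> simp
  have h2 : ∑ i : Fin N, ∑ j ∈ univ.erase i, cr S ((1 / (rx K i - rx K j)) •
      toRat ((xv i * th j + xv j * th i) * dth i F)) =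
      am K N (∑ i ∈ S, ∑ j ∈ univ \ S, opB i j (cm S F) -
        ((S.card.choose 2 : ℕ) : K) • cm S F) := by
    have e1 : (2 : K) • ∑ i : Fin N, ∑ j ∈ univ.erase i, cr S ((1 / (rx K i - rx K j)) •
      toRat ((xv i * th j + xv j * th i) * dth i F)) =
      (2 : K) • am K N (∑ i ∈ S, ∑ j ∈ univ \ S, opB i j (cm S F) -
        ((S.card.choose 2 : ℕ) : K) • cm S F) := by
      rw [map_sub, smul_sub, map_sum]
      simp only [map_sum]
      rw [sum_pairs_restrict S (fun i j => am K N (opB i j (cm S F))), two_sum_pairs,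
        two_sum_pairs]
      have e2 : (2 : K) • am K N (((S.card.choose 2 : ℕ) : K) • cm S F) =
          ∑ i, ∑ j ∈ univ.erase i, (if i ∈ S ∧ j ∈ S then am K N (cm S F) else 0) := by
        rw [count_pairs, am_smul, smul_smul, ← Nat.cast_smul_eq_nsmul K]
        congr 1
        have h5 : 2 * (S.card.choose 2) = S.card * (S.card - 1) := by
          rw [Nat.choose_two_right]
          exact Nat.mul_div_cancel' (Nat.even_mul_pred_self _).two_dvd
        rw [← h5]
        push_cast
        rfl
      rw [e2, ← sum_sub_distrib]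
      simp only [← sum_sub_distrib]
      apply sum_pairs_congr
      intro i j hij
      have hne := rx_sub_ne (K := K) hij
      have e3 : rx K j - rx K i = - (rx K i - rx K j) := by ring
      rw [map_smul, map_smul, cr_toRat, cr_toRat, cm_term, cm_term,
        cm_hop hF S hij, cm_hop hF S hij.symm, cm_num, cm_num, am_opB hij, am_opB hij.symm,
        Ksw_comm j i, e3]
      simp only [smul_eq_mul, map_add, map_mul, am_smul]
      have e4 : am K N (X i) = rx K i := rfl
      have e5 : am K N (X j) = rx K j := rfl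
      rw [e4, e5]
      by_cases hi : i ∈ S <;> by_cases hj : j ∈ S <;>
        simp only [hi, hj, and_self, not_true_eq_false, not_false_eq_true, and_false, false_and,
          if_true, if_false, one_smul, zero_smul, mul_zero, add_zero, zero_add, sub_zero] <;>
        first
        | (field_simp; ring)
        | (field_simp)
        | ring
    exact smul_right_injective _ (two_ne_zero (α := K)) e1
  rw [h1, h2, ← map_add]
  congr 1
  rw [opDel]
  simp only [LinearMap.add_apply, LinearMap.smul_apply, LinearMap.sum_apply,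
      LinearMap.sub_apply, LinearMap.id_apply]
  abel

end Pool.Agent.Lib.MP_2558e3_co
end
end
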