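import Pool.Agent.Lib.MP_2558e3_co.Upper

/-!
Construction of elements of the vanishing ideal with prescribed leading exponent.
-/

namespace Pool.Agent.Lib.MP_2558e3_co

open Finset MvPolynomial

variable {N : ℕ}

/-- sorting permutation of the keys -/
noncomputable def srt (I : Finset (Fin N)) (a : Fin N → ℕ) : Equiv.Perm (Fin N) :=
  Tuple.sort (fun i => OrderDual.toDual (key I a i))

lemma key_srt (I : Finset (Fin N)) (a : Fin N → ℕ) {p q : Fin N} (h : p ≤ q) :
    key I a (srt I a q) ≤ key I a (srt I a p) :=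
  Tuple.monotone_sort (fun i => OrderDual.toDual (key I a i)) h

/-- position in the sorted order -/
noncomputable def pos (I : Finset (Fin N)) (a : Fin N → ℕ) (i : Fin N) : ℕ := (srt I a).symm i

lemma pos_lt (I : Finset (Fin N)) (a : Fin N → ℕ) (i : Fin N) : pos I a i < N :=
  ((srt I a).symm i).2

lemma pos_inj {I : Finset (Fin N)} {a : Fin N → ℕ} {i j : Fin N} (h : pos I a i = pos I a j) :
    i = j := (srt I a).symm.injective (Fin.ext h)

lemma pos_srt (I : Finset (Fin N)) (a : Fin N → ℕ) (p : Fin N) : pos I a (srt I a p) = p := by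
  rw [pos, Equiv.symm_apply_apply]

lemma key_anti {I : Finset (Fin N)} {a : Fin N → ℕ} {i j : Fin N} (h : pos I a i ≤ pos I a j) :
    key I a j ≤ key I a i := by
  have := key_srt I a (p := (srt I a).symm i) (q := (srt I a).symm j) h
  rwa [Equiv.apply_symm_apply, Equiv.apply_symm_apply] at this

/-- the gap condition from the window condition -/
lemma gap {k : ℕ} {I : Finset (Fin N)} {a : Fin N → ℕ} (hadm : ∀ j, wcard I a j ≤ k)
    {i j : Fin N} (h : pos I a i + k ≤ pos I a j) : 2 * a j + 3 ≤ key I a i := by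
  by_contra hcon
  rw [not_le] at hcon
  have h1 : ((Finset.Icc ((srt I a).symm i) ((srt I a).symm j)).map (srt I a).toEmbedding).card ≤
      wcard I a (a j) := by
    apply card_le_card
    intro l hl
    rw [mem_map] at hl
    obtain ⟨p, hp, rfl⟩ := hl
    rw [mem_Icc] at hp
    rw [mem_filter]
    refine ⟨mem_univ _, ?_⟩
    have e1 := key_srt I a hp.1
    have e2 := key_srt I a hp.2
    rw [Equiv.apply_symm_apply] at e1 e2
    have e3 : 2 * a j ≤ key I a j := by unfold key; omega
    simp only [Equiv.coe_toEmbedding]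
    omega
  rw [card_map, Fin.card_Icc] at h1
  have h2 := hadm (a j)
  have h3 : (((srt I a).symm i : Fin N) : ℕ) + k ≤ ((srt I a).symm j : Fin N) := h
  omega

lemma step {k : ℕ} {I : Finset (Fin N)} {a : Fin N → ℕ} (hadm : ∀ j, wcard I a j ≤ k)
    (n : ℕ) : ∀ {i j : Fin N}, pos I a j = pos I a i + (n + 1) * k →
      a j + (n + 1) + 1 ≤ fl I a i := by
  have base : ∀ {i j : Fin N}, pos I a i + k ≤ pos I a j → a j + 2 ≤ fl I a i := by
    intro i j h
    have h1 := gap hadm h
    unfold key at h1
    unfold fl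
    split_ifs at h1 ⊢ <;> omega
  induction n with
  | zero =>
    intro i j h
    have := base (i := i) (j := j) (by rw [h]; simp)
    omega
  | succ n ih =>
    intro i j h
    have h1 : pos I a j = pos I a i + k + (n + 1) * k := by rw [h]; ring
    have hlt : pos I a i + k < N := by
      have := pos_lt I a j
      have h2 : 0 ≤ (n + 1) * k := Nat.zero_le _
      omega
    have hl : pos I a (srt I a ⟨pos I a i + k, hlt⟩) = pos I a i + k := pos_srt I a _
    have h2 := ih (i := srt I a ⟨pos I a i + k, hlt⟩) (j := j) (by rw [hl, h1])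
    have h3 := base (i := i) (j := srt I a ⟨pos I a i + k, hlt⟩) hl.ge
    have h4 : fl I a (srt I a ⟨pos I a i + k, hlt⟩) ≤ a (srt I a ⟨pos I a i + k, hlt⟩) + 1 := by
      unfold fl; split_ifs <;> omega
    omega

/-- colour -/
noncomputable def cl (k : ℕ) (I : Finset (Fin N)) (a : Fin N → ℕ) (i : Fin N) : ℕ :=
  pos I a i % k

/-- staircase -/
noncomputable def del (k : ℕ) (I : Finset (Fin N)) (a : Fin N → ℕ) (i : Fin N) : ℕ :=
  (N - 1 - pos I a i) / k

lemma del_step {k : ℕ} (hk : 1 ≤ k) {I : Finset (Fin N)} {a : Fin N → ℕ} {i j : Fin N} {n : ℕ}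
    (h : pos I a j = pos I a i + n * k) : del k I a i = del k I a j + n := by
  unfold del
  have h1 := pos_lt I a j
  have h2 : N - 1 - pos I a i = N - 1 - pos I a j + n * k := by omega
  rw [h2, Nat.add_mul_div_right _ _ (by omega)]

lemma exists_step {k : ℕ} {I : Finset (Fin N)} {a : Fin N → ℕ} {i j : Fin N}
    (hcl : cl k I a i = cl k I a j) (h : pos I a i < pos I a j) :
    ∃ n, pos I a j = pos I a i + (n + 1) * k := by
  have h1 : k ∣ pos I a j - pos I a i := (Nat.modEq_iff_dvd' h.le).mp hcl
  obtain ⟨m, hm⟩ := h1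
  rcases Nat.eq_zero_or_pos m with h0 | h0
  · subst h0; simp at hm; omega
  · obtain ⟨n, rfl⟩ : ∃ n, m = n + 1 := ⟨m - 1, by omega⟩
    refine ⟨n, ?_⟩
    rw [mul_comm] at hm
    omega

lemma del_le {k : ℕ} (hk : 1 ≤ k) {I : Finset (Fin N)} {a : Fin N → ℕ}
    (hadm : ∀ j, wcard I a j ≤ k) (i : Fin N) : del k I a i ≤ a i := by
  rcases Nat.eq_zero_or_pos (del k I a i) with h0 | h0
  · omega
  · obtain ⟨m, hm⟩ : ∃ m, del k I a i = m + 1 := ⟨del k I a i - 1, by omega⟩
    have h1 : (m + 1) * k ≤ N - 1 - pos I a i := by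
      rw [← hm]; exact Nat.div_mul_le_self _ _
    have h2 := pos_lt I a i
    have hlt : pos I a i + (m + 1) * k < N := by omega
    have hl : pos I a (srt I a ⟨_, hlt⟩) = pos I a i + (m + 1) * k := pos_srt I a _
    have h3 := step hadm m hl
    have h4 : fl I a i ≤ a i + 1 := by unfold fl; split_ifs <;> omega
    omega

/-- reduced exponent -/
noncomputable def kap (k : ℕ) (I : Finset (Fin N)) (a : Fin N → ℕ) (i : Fin N) : ℕ :=
  a i - del k I a i

section Main

variable {k : ℕ} {I : Finset (Fin N)} {a : Fin N → ℕ}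

lemma kap_add (hk : 1 ≤ k) (hadm : ∀ j, wcard I a j ≤ k) (i : Fin N) :
    kap k I a i + del k I a i = a i := by
  have := del_le hk hadm i
  unfold kap
  omega

lemma main_step (hk : 1 ≤ k) (hadm : ∀ j, wcard I a j ≤ k) {i j : Fin N}
    (hcl : cl k I a i = cl k I a j) (h : pos I a i < pos I a j) :
    kap k I a j + 1 ≤ fl I (kap k I a) i ∧ del k I a j < del k I a i := by
  obtain ⟨n, hn⟩ := exists_step hcl h
  have h1 := del_step hk hn
  have h2 := step hadm n hn
  have h3 := kap_add hk hadm i
  have h4 := kap_add hk hadm j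
  unfold fl at h2 ⊢
  constructor <;> omega

lemma CA_del (hk : 1 ≤ k) (hadm : ∀ j, wcard I a j ≤ k) :
    CA (cl k I a) (pos I a) (del k I a) := by
  intro i j hcl hp
  rcases hp.lt_or_eq with h | h
  · exact (main_step hk hadm hcl h).2.le
  · rw [pos_inj h]

lemma CA_kap (hk : 1 ≤ k) (hadm : ∀ j, wcard I a j ≤ k) :
    CA (cl k I a) (pos I a) (kap k I a) := by
  intro i j hcl hp
  rcases hp.lt_or_eq with h | h
  · have := (main_step hk hadm hcl h).1
    unfold fl at this
    split_ifs at this <;> omega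
  · rw [pos_inj h]

lemma CA_flkap (hk : 1 ≤ k) (hadm : ∀ j, wcard I a j ≤ k) :
    CA (cl k I a) (pos I a) (fl I (kap k I a)) := by
  intro i j hcl hp
  rcases hp.lt_or_eq with h | h
  · have := (main_step hk hadm hcl h).1
    have h2 : fl I (kap k I a) j ≤ kap k I a j + 1 := by unfold fl; split_ifs <;> omega
    omega
  · rw [pos_inj h]

lemma CA_g (hk : 1 ≤ k) (hadm : ∀ j, wcard I a j ≤ k) :
    CA (cl k I a) (pos I a) (fun i => kap k I a i + fl I (kap k I a) i) := by
  intro i j hcl hp
  exact Nat.add_le_add (CA_kap hk hadm i j hcl hp) (CA_flkap hk hadm i j hcl hp)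

/-- the exponent attached to a permutation -/
noncomputable def dw (k : ℕ) (I : Finset (Fin N)) (a : Fin N → ℕ) (w : Equiv.Perm (Fin N)) :
    Fin N →₀ ℕ := Finsupp.equivFunOnFinite.symm (fun i => kap k I a i + del k I a (w i))

lemma dw_apply (w : Equiv.Perm (Fin N)) (i : Fin N) :
    dw k I a w i = kap k I a i + del k I a (w i) := rfl

lemma dw_maj (hk : 1 ≤ k) (hadm : ∀ j, wcard I a j ≤ k) {w : Equiv.Perm (Fin N)}
    (hw : ∀ i, cl k I a (w i) = cl k I a i) : Maj (dw k I a w) a := by
  refine ⟨?_, ?_⟩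
  · simp only [dw_apply]
    rw [sum_add_distrib, Equiv.sum_comp w (del k I a), ← sum_add_distrib]
    exact sum_congr rfl (fun i _ => kap_add hk hadm i)
  · intro t
    simp only [dw_apply]
    refine (rearr_maj (CA_kap hk hadm) (CA_del hk hadm) hw t).trans (le_of_eq ?_)
    exact sum_congr rfl (fun i _ => by rw [kap_add hk hadm i])

lemma dw_maj' (hk : 1 ≤ k) (hadm : ∀ j, wcard I a j ≤ k) {w : Equiv.Perm (Fin N)}
    (hw : ∀ i, cl k I a (w i) = cl k I a i) : Maj (fl I (dw k I a w)) (fl I a) := by
  have e1 : ∀ w i, fl I (dw k I a w) i = fl I (kap k I a) i + del k I a (w i) := by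
    intro w i
    unfold fl
    rw [dw_apply]
    omega
  have e2 : ∀ i, fl I a i = fl I (kap k I a) i + del k I a i := by
    intro i
    have := kap_add hk hadm i
    unfold fl
    omega
  refine ⟨?_, ?_⟩
  · simp only [e1, e2]
    rw [sum_add_distrib, Equiv.sum_comp w (del k I a), ← sum_add_distrib]
  · intro t
    simp only [e1, e2]
    exact rearr_maj (CA_flkap hk hadm) (CA_del hk hadm) hw t

lemma Wt_dw (w : Equiv.Perm (Fin N)) : Wt I (dw k I a w) =
    ∑ i, (kap k I a i ^ 2 + if i ∈ I then kap k I a i else 0) + ∑ i, del k I a i ^ 2 +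
      ∑ i, (kap k I a i + fl I (kap k I a) i) * del k I a (w i) := by
  rw [← Equiv.sum_comp w (fun i => del k I a i ^ 2), Wt_eq, ← sum_add_distrib, ← sum_add_distrib]
  apply sum_congr rfl
  intro i _
  rw [dw_apply]
  unfold fl
  split_ifs <;> ring

/-- rigidity of the leading exponents -/
lemma rigid (hk : 1 ≤ k) (hadm : ∀ j, wcard I a j ≤ k) (hinj : InjOnI I a)
    {w : Equiv.Perm (Fin N)} (hw : ∀ i, cl k I a (w i) = cl k I a i)
    {τ : Equiv.Perm {i // i ∈ I}} {ρ : Equiv.Perm {i // ¬ i ∈ I}}
    (h : ∀ i, dw k I a w i = a (yg I τ ρ i)) : w = yg I τ 1 := by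
  have hW : Wt I (dw k I a w) = Wt I (dw k I a 1) := by
    have e1 : (dw k I a w : Fin N → ℕ) = a ∘ yg I τ ρ := funext h
    have e2 : (dw k I a 1 : Fin N → ℕ) = a := by
      ext i
      rw [dw_apply]
      exact kap_add hk hadm i
    rw [e1, e2]
    exact Wt_comp (yg_mem_iff I τ ρ)
  rw [Wt_dw, Wt_dw] at hW
  have hsum : ∑ i, (kap k I a i + fl I (kap k I a) i) * del k I a (w i) =
      ∑ i, (kap k I a i + fl I (kap k I a) i) * del k I a i := by
    have : ∀ i, del k I a ((1 : Equiv.Perm (Fin N)) i) = del k I a i := fun i => rfl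
    simp only [this] at hW
    omega
  have hg := rearr_eq (CA_g hk hadm) (CA_del hk hadm)
    (fun i j h1 h2 => (main_step hk hadm h1 h2).2) hw hsum
  have hcase : ∀ i, w i = i ∨ (i ∈ I ∧ w i ∈ I ∧ kap k I a (w i) = kap k I a i) := by
    intro i
    by_cases hwi : w i = i
    · left; exact hwi
    · right
      have h1 := hg i
      have hne : pos I a (w i) ≠ pos I a i := fun h => hwi (pos_inj h)
      have hh : ∀ i j, cl k I a i = cl k I a j → pos I a i < pos I a j →
          kap k I a i + fl I (kap k I a) i = kap k I a j + fl I (kap k I a) j →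
          i ∈ I ∧ j ∈ I ∧ kap k I a i = kap k I a j := by
        intro i j h1 h2 h3
        have h4 := (main_step hk hadm h1 h2).1
        have h5 := CA_kap hk hadm i j h1 h2.le
        have h6 := CA_flkap hk hadm i j h1 h2.le
        have h7 : kap k I a i = kap k I a j := by omega
        have h8 : fl I (kap k I a) i = fl I (kap k I a) j := by omega
        have h9 : i ∈ I := by
          by_contra hi
          unfold fl at h4
          rw [if_neg hi] at h4
          omega
        have h10 : j ∈ I := by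
          by_contra hj
          unfold fl at h8
          rw [if_neg hj, if_pos h9] at h8
          omega
        exact ⟨h9, h10, h7⟩
      rcases lt_or_gt_of_ne hne with h2 | h2
      · have := hh (w i) i (hw i) h2 h1
        exact ⟨this.2.1, this.1, this.2.2⟩
      · have := hh i (w i) (hw i).symm h2 h1.symm
        exact ⟨this.1, this.2.1, this.2.2.symm⟩
  have ha : ∀ i, a (yg I τ ρ i) = a (w i) := by
    intro i
    rw [← h i, dw_apply, ← kap_add hk hadm (w i)]
    rcases hcase i with h1 | h1
    · rw [h1]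
    · rw [h1.2.2]
  ext i
  by_cases hi : i ∈ I
  · have hwi : w i ∈ I := by
      rcases hcase i with h1 | h1
      · rw [h1]; exact hi
      · exact h1.2.1
    have h1 : yg I τ ρ i = w i := by
      by_contra hne
      exact hinj _ ((yg_mem_iff I τ ρ i).mpr hi) _ hwi hne (ha i)
    rw [← h1, yg, yg, Equiv.Perm.subtypeCongr.left_apply _ _ hi,
      Equiv.Perm.subtypeCongr.left_apply _ _ hi]
  · have h1 : w i = i := by
      rcases hcase i with h1 | h1
      · exact h1
      · exact absurd h1.1 hi
    rw [h1, yg, Equiv.Perm.subtypeCongr.right_apply _ _ hi]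
    rfl

end Main

end Pool.Agent.Lib.MP_2558e3_co
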