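import Pool.Agent.Lib.MP_2558e3_co.Constr
import Pool.Agent.Lib.MP_2558e3_co.Bridge2

section

section

/-!
The polynomial attached to an admissible exponent.
-/

namespace Pool.Agent.Lib.MP_2558e3_co

open Finset MvPolynomial

variable {N : ℕ} {R : Type*} [CommRing R]

lemma yg_mul (I : Finset (Fin N)) (τ τ' : Equiv.Perm {i // i ∈ I})
    (ρ ρ' : Equiv.Perm {i // ¬ i ∈ I}) : yg I τ' ρ' * yg I τ ρ = yg I (τ' * τ) (ρ' * ρ) := by
  have := (Equiv.Perm.subtypeCongrHom (fun i : Fin N => i ∈ I)).map_mul (τ', ρ') (τ, ρ)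
  exact this.symm

/-- sign as an element of a ring -/
abbrev sg (R : Type*) [CommRing R] {α : Type*} [Fintype α] [DecidableEq α]
    (σ : Equiv.Perm α) : R := ((Equiv.Perm.sign σ : ℤ) : R)

lemma sg_mul {α : Type*} [Fintype α] [DecidableEq α] (σ τ : Equiv.Perm α) :
    sg R (σ * τ) = sg R σ * sg R τ := by
  rw [sg, sg, sg, Equiv.Perm.sign_mul, Units.val_mul, Int.cast_mul]

lemma sg_mul_self {α : Type*} [Fintype α] [DecidableEq α] (σ : Equiv.Perm α) :
    sg R σ * sg R σ = 1 := by
  rw [sg, ← Int.cast_mul, ← Units.val_mul, Int.units_mul_self]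
  simp

/-- antisymmetrization over the Young subgroup -/
noncomputable def asym (I : Finset (Fin N)) (h : MvPolynomial (Fin N) R) :
    MvPolynomial (Fin N) R :=
  ∑ τ : Equiv.Perm {i // i ∈ I}, ∑ ρ : Equiv.Perm {i // ¬ i ∈ I}, sg R τ • rename (yg I τ ρ) h

lemma asym_mem_SS (I : Finset (Fin N)) (h : MvPolynomial (Fin N) R) : asym I h ∈ SS R I := by
  intro τ' ρ'
  rw [asym, map_sum, smul_sum]
  rw [← Equiv.sum_comp (Equiv.mulLeft τ') (fun τ => (((Equiv.Perm.sign τ' : ℤ) : R) •
    ∑ ρ : Equiv.Perm {i // ¬ i ∈ I}, sg R τ • rename (yg I τ ρ) h))]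
  apply sum_congr rfl
  intro τ _
  rw [map_sum, smul_sum]
  rw [← Equiv.sum_comp (Equiv.mulLeft ρ') (fun ρ => (((Equiv.Perm.sign τ' : ℤ) : R) •
    (sg R ((Equiv.mulLeft τ') τ) • rename (yg I ((Equiv.mulLeft τ') τ) ρ) h)))]
  apply sum_congr rfl
  intro ρ _
  rw [map_smul, rename_rename, Equiv.coe_mulLeft, Equiv.coe_mulLeft, smul_smul, sg_mul,
    ← mul_assoc]
  have e1 : ((Equiv.Perm.sign τ' : ℤ) : R) * sg R τ' = 1 := sg_mul_self τ'
  rw [e1, one_mul, ← yg_mul, Equiv.Perm.coe_mul]

lemma rename_mem_Van {k : ℕ} {f : MvPolynomial (Fin N) R} (hf : f ∈ Van R N k)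
    (σ : Equiv.Perm (Fin N)) : rename σ f ∈ Van R N k := by
  intro g C hC hg
  rw [rename_rename]
  apply hf _ (C.map σ.symm.toEmbedding)
  · rw [card_map, hC]
  · intro x hx y hy
    rw [mem_map] at hx hy
    obtain ⟨x', hx', rfl⟩ := hx
    obtain ⟨y', hy', rfl⟩ := hy
    simp only [Equiv.coe_toEmbedding, Function.comp_apply, Equiv.apply_symm_apply]
    exact hg x' hx' y' hy'

lemma asym_mem_Van {k : ℕ} (I : Finset (Fin N)) {h : MvPolynomial (Fin N) R}
    (hh : h ∈ Van R N k) : asym I h ∈ Van R N k :=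
  Submodule.sum_mem _ (fun _ _ => Submodule.sum_mem _ (fun _ _ =>
    Submodule.smul_mem _ _ (rename_mem_Van hh _)))

/-- colour preserving permutations -/
noncomputable def Wc (k : ℕ) (I : Finset (Fin N)) (a : Fin N → ℕ) :
    Finset (Equiv.Perm (Fin N)) := by
  classical
  exact univ.filter (fun w => ∀ i, cl k I a (w i) = cl k I a i)

lemma mem_Wc {k : ℕ} {I : Finset (Fin N)} {a : Fin N → ℕ} {w : Equiv.Perm (Fin N)} :
    w ∈ Wc k I a ↔ ∀ i, cl k I a (w i) = cl k I a i := by
  classical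
  rw [Wc, mem_filter]
  simp

/-- exponent of the alternant -/
noncomputable def dexp (k : ℕ) (I : Finset (Fin N)) (a : Fin N → ℕ) (w : Equiv.Perm (Fin N)) :
    Fin N →₀ ℕ := Finsupp.equivFunOnFinite.symm (fun i => del k I a (w i))

/-- alternant -/
noncomputable def alt (R : Type*) [CommRing R] (k : ℕ) (I : Finset (Fin N)) (a : Fin N → ℕ) :
    MvPolynomial (Fin N) R :=
  ∑ w ∈ Wc k I a, sg R w • monomial (dexp k I a w) 1

/-- the basic polynomial -/
noncomputable def bas (R : Type*) [CommRing R] (k : ℕ) (I : Finset (Fin N)) (a : Fin N → ℕ) :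
    MvPolynomial (Fin N) R :=
  ∑ w ∈ Wc k I a, sg R w • monomial (dw k I a w) 1

lemma bas_eq (k : ℕ) (I : Finset (Fin N)) (a : Fin N → ℕ) :
    bas R k I a = monomial (Finsupp.equivFunOnFinite.symm (kap k I a)) 1 * alt R k I a := by
  rw [bas, alt, mul_sum]
  apply sum_congr rfl
  intro w _
  have h : dw k I a w = Finsupp.equivFunOnFinite.symm (kap k I a) + dexp k I a w := by
    ext i
    rfl
  rw [mul_smul_comm, monomial_mul, one_mul, h]

lemma alt_swap {k : ℕ} {I : Finset (Fin N)} {a : Fin N → ℕ} {i j : Fin N} (hij : i ≠ j)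
    (hcl : cl k I a i = cl k I a j) :
    rename (Equiv.swap i j) (alt R k I a) = - alt R k I a := by
  rw [alt, map_sum, ← sum_neg_distrib]
  apply sum_equiv (Equiv.mulRight (Equiv.swap i j))
  · intro w
    rw [mem_Wc, mem_Wc]
    have hc : ∀ l, cl k I a (Equiv.swap i j l) = cl k I a l := by
      intro l
      by_cases h1 : l = i
      · subst h1; rw [Equiv.swap_apply_left, hcl]
      · by_cases h2 : l = j
        · subst h2; rw [Equiv.swap_apply_right, hcl]
        · rw [Equiv.swap_apply_of_ne_of_ne h1 h2]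
    constructor
    · intro h l
      simp only [Equiv.coe_mulRight, Equiv.Perm.coe_mul, Function.comp_apply]
      rw [h, hc]
    · intro h l
      have := h (Equiv.swap i j l)
      simp only [Equiv.coe_mulRight, Equiv.Perm.coe_mul, Function.comp_apply,
        Equiv.swap_apply_self] at this
      rw [this, hc]
  · intro w _
    rw [map_smul, rename_monomial, Equiv.coe_mulRight, sg_mul]
    have e1 : sg R (Equiv.swap i j) = -1 := by
      rw [sg, Equiv.Perm.sign_swap hij]; simp
    have e2 : Finsupp.mapDomain (Equiv.swap i j) (dexp k I a w) =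
        dexp k I a (w * Equiv.swap i j) := by
      ext l
      rw [mapDomain_swap_apply, Equiv.symm_swap]
      rfl
    rw [e1, e2]
    simp

lemma bas_mem_Van [IsDomain R] [CharZero R] {k : ℕ} (hk : 1 ≤ k) (I : Finset (Fin N))
    (a : Fin N → ℕ) : bas R k I a ∈ Van R N k := by
  intro g C hC hg
  -- pigeonhole
  obtain ⟨i, hi, j, hj, hij, hcl⟩ : ∃ i ∈ C, ∃ j ∈ C, i ≠ j ∧ cl k I a i = cl k I a j := by
    apply exists_ne_map_eq_of_card_lt_of_maps_to (t := range k)
    · rw [card_range, hC]; omega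
    · intro i _
      rw [coe_range]
      exact Nat.mod_lt _ (by omega)
  have h1 : rename g (alt R k I a) = 0 := by
    have h2 : rename g (rename (Equiv.swap i j) (alt R k I a)) = rename g (alt R k I a) := by
      rw [rename_rename]
      congr 2
      ext l
      rw [Function.comp_apply]
      by_cases h1 : l = i
      · subst h1; rw [Equiv.swap_apply_left, hg l hi j hj]
      · by_cases h2 : l = j
        · subst h2; rw [Equiv.swap_apply_right, hg i hi l hj]
        · rw [Equiv.swap_apply_of_ne_of_ne h1 h2]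
    rw [alt_swap hij hcl, map_neg] at h2
    have h3 : (2 : MvPolynomial (Fin N) R) * rename g (alt R k I a) = 0 := by
      linear_combination -h2
    exact (mul_eq_zero.mp h3).resolve_left two_ne_zero
  rw [bas_eq, map_mul, h1, mul_zero]

lemma coeff_asym_bas (k : ℕ) (I : Finset (Fin N)) (a : Fin N → ℕ) (b : Fin N →₀ ℕ) :
    coeff b (asym I (bas R k I a)) = ∑ τ : Equiv.Perm {i // i ∈ I},
      ∑ ρ : Equiv.Perm {i // ¬ i ∈ I}, ∑ w ∈ Wc k I a,
        if Finsupp.mapDomain (yg I τ ρ) (dw k I a w) = b then sg R τ * sg R w else 0 := by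
  rw [asym, coeff_sum]
  apply sum_congr rfl
  intro τ _
  rw [coeff_sum]
  apply sum_congr rfl
  intro ρ _
  rw [coeff_smul, bas, map_sum, coeff_sum, smul_eq_mul, mul_sum]
  apply sum_congr rfl
  intro w _
  rw [map_smul, rename_monomial, coeff_smul, coeff_monomial, smul_eq_mul]
  split_ifs <;> simp

/-- The sign of a permutation does not depend on the chosen instances. -/
theorem sign_indep {A : Type*} (d1 d2 : DecidableEq A) (f1 f2 : Fintype A) (s : Equiv.Perm A) :
    @Equiv.Perm.sign A d1 f1 s = @Equiv.Perm.sign A d2 f2 s := by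
  have h1 : d1 = d2 := Subsingleton.elim _ _
  have h2 : f1 = f2 := Subsingleton.elim _ _
  subst h1
  subst h2
  rfl

/-- existence of elements of the vanishing ideal with leading exponent `a` -/
theorem exists_van {K : Type*} [Field K] [CharZero K] {k : ℕ} (hk : 1 ≤ k)
    {I : Finset (Fin N)} {a : Fin N →₀ ℕ} (hinj : InjOnI I a) (hadm : ∀ j, wcard I a j ≤ k) :
    ∃ f ∈ SS K I, f ∈ Van K N k ∧ coeff a f = 1 ∧
      ∀ b : Fin N →₀ ℕ, coeff b f ≠ 0 → Orb I b a ∨ Lt I b a := by
  classical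
  set F := asym I (bas K k I a) with hF
  have hFSS : F ∈ SS K I := asym_mem_SS I _
  have hFV : F ∈ Van K N k := asym_mem_Van I (bas_mem_Van hk I a)
  have hsupp : ∀ b : Fin N →₀ ℕ, coeff b F ≠ 0 → Orb I b a ∨ Lt I b a := by
    intro b hb
    rw [hF, coeff_asym_bas] at hb
    obtain ⟨τ, _, hb⟩ := exists_ne_zero_of_sum_ne_zero hb
    obtain ⟨ρ, _, hb⟩ := exists_ne_zero_of_sum_ne_zero hb
    obtain ⟨w, hw, hb⟩ := exists_ne_zero_of_sum_ne_zero hb
    rw [mem_Wc] at hw
    have hbe : Finsupp.mapDomain (yg I τ ρ) (dw k I a w) = b := by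
      by_contra hne
      rw [if_neg hne] at hb
      exact hb rfl
    have hbc : (dw k I a w : Fin N → ℕ) = b ∘ yg I τ ρ := by
      ext i
      rw [← hbe, Function.comp_apply, mapDomain_perm]
    have h1 := dw_maj hk hadm hw
    have h2 := dw_maj' hk hadm hw
    rw [hbc] at h1 h2
    rw [fl_comp (yg_mem_iff I τ ρ)] at h2
    rw [Maj_comp_left] at h1 h2
    rcases (Wt_le_of_Maj h1 h2).lt_or_eq with h3 | h3
    · right; exact ⟨h1, h2, h3⟩
    · left; exact orb_of_Maj h1 h2 h3
  -- the coefficient at `a`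
  have hterm : ∀ (τ : Equiv.Perm {i // i ∈ I}) (ρ : Equiv.Perm {i // ¬ i ∈ I}),
      ∀ w ∈ Wc k I a, (if Finsupp.mapDomain (yg I τ ρ) (dw k I a w) = a
        then sg K τ * sg K w else 0) =
      (((if Finsupp.mapDomain (yg I τ ρ) (dw k I a w) = a then 1 else 0 : ℕ)) : K) := by
    intro τ ρ w hw
    rw [mem_Wc] at hw
    split_ifs with h
    · have h1 : ∀ i, dw k I a w i = a (yg I τ ρ i) := by
        intro i
        rw [← mapDomain_perm (yg I τ ρ) (dw k I a w) i, h]
      have h2 := rigid hk hadm hinj hw h1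
      have h3 : Equiv.Perm.sign w = Equiv.Perm.sign τ := by
        rw [h2, yg, Equiv.Perm.sign_subtypeCongr, map_one, mul_one]
        exact sign_indep _ _ _ _ τ
      have h4 : sg K w = sg K τ := by rw [sg, sg, h3]
      rw [h4, sg_mul_self]; simp
    · simp
  have hcoeff : coeff a F = ((∑ τ : Equiv.Perm {i // i ∈ I},
      ∑ ρ : Equiv.Perm {i // ¬ i ∈ I}, ∑ w ∈ Wc k I a,
        (if Finsupp.mapDomain (yg I τ ρ) (dw k I a w) = a then 1 else 0) : ℕ) : K) := by
    rw [hF, coeff_asym_bas]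
    push_cast
    apply sum_congr rfl
    intro τ _
    apply sum_congr rfl
    intro ρ _
    apply sum_congr rfl
    intro w hw
    have := hterm τ ρ w hw
    push_cast at this
    exact this
  have hpos : coeff a F ≠ 0 := by
    rw [hcoeff, Nat.cast_ne_zero]
    apply Nat.pos_iff_ne_zero.mp
    apply sum_pos' (fun _ _ => Nat.zero_le _) ⟨1, mem_univ _, ?_⟩
    apply sum_pos' (fun _ _ => Nat.zero_le _) ⟨1, mem_univ _, ?_⟩
    apply sum_pos' (fun _ _ => Nat.zero_le _) ⟨1, mem_Wc.mpr (fun _ => rfl), ?_⟩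
    rw [if_pos]
    · exact Nat.one_pos
    · have h1 : yg I 1 1 = 1 := Equiv.Perm.subtypeCongr.refl
      rw [h1]
      ext i
      have h2 := mapDomain_perm (1 : Equiv.Perm (Fin N)) (dw k I a 1) i
      have h3 : (1 : Equiv.Perm (Fin N)) i = i := rfl
      rw [h3] at h2
      rw [h2, dw_apply]
      exact kap_add hk hadm i
  refine ⟨(coeff a F)⁻¹ • F, Submodule.smul_mem _ _ hFSS, Submodule.smul_mem _ _ hFV, ?_, ?_⟩
  · rw [coeff_smul, smul_eq_mul, inv_mul_cancel₀ hpos]
  · intro b hb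
    rw [coeff_smul] at hb
    exact hsupp b (right_ne_zero_of_mul hb)

end Pool.Agent.Lib.MP_2558e3_co
end

section

/-!
Link between the eigenvalues and the separation theorem.
-/

namespace Pool.Agent.Lib.MP_2558e3_co

open Finset MvPolynomial

variable {N : ℕ}

lemma partial_of_maj {A B : ℕ → ℕ} (hA : ∀ p q, p ≤ q → q < N → A q ≤ A p)
    (h : ∀ t, ∑ p ∈ range N, (B p - t) ≤ ∑ p ∈ range N, (A p - t)) {r : ℕ} (hr : r ≤ N) :
    ∑ p ∈ range r, B p ≤ ∑ p ∈ range r, A p := by
  rcases Nat.eq_zero_or_pos r with h0 | h0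
  · subst h0; simp
  · obtain ⟨s, rfl⟩ : ∃ s, r = s + 1 := ⟨r - 1, by omega⟩
    set t := A s with ht
    have h1 : ∑ p ∈ range (s + 1), A p = ∑ p ∈ range N, (A p - t) + (s + 1) * t := by
      have e1 : ∑ p ∈ range N, (A p - t) = ∑ p ∈ range (s + 1), (A p - t) := by
        symm
        apply sum_subset
        · intro x hx
          rw [mem_range] at *
          omega
        · intro x hx hx'
          rw [mem_range] at *
          have := hA s x (by omega) (by omega)
          omega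
      rw [e1]
      have e2 : (s + 1) * t = ∑ p ∈ range (s + 1), t := by
        rw [sum_const, card_range, smul_eq_mul]
      rw [e2, ← sum_add_distrib]
      apply sum_congr rfl
      intro x hx
      rw [mem_range] at hx
      have := hA x s (by omega) (by omega)
      omega
    have h2 : ∑ p ∈ range (s + 1), B p ≤ ∑ p ∈ range (s + 1), (B p - t) + (s + 1) * t := by
      have e2 : (s + 1) * t = ∑ p ∈ range (s + 1), t := by
        rw [sum_const, card_range, smul_eq_mul]
      rw [e2, ← sum_add_distrib]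
      apply sum_le_sum
      intro x _
      omega
    have h3 : ∑ p ∈ range (s + 1), (B p - t) ≤ ∑ p ∈ range N, (B p - t) := by
      apply sum_le_sum_of_subset
      intro x hx
      rw [mem_range] at *
      omega
    have := h t
    omega

lemma maj_of_partial {A B : ℕ → ℕ} (hB : ∀ p q, p ≤ q → q < N → B q ≤ B p)
    (h : ∀ r, r ≤ N → ∑ p ∈ range r, B p ≤ ∑ p ∈ range r, A p) (t : ℕ) :
    ∑ p ∈ range N, (B p - t) ≤ ∑ p ∈ range N, (A p - t) := by
  set r := ev N B (t + 1) with hr
  have hrN : r ≤ N := ev_le N B (t + 1)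
  have hfil := filter_eq_range hB (t + 1)
  have h1 : ∑ p ∈ range N, (B p - t) = ∑ p ∈ range r, (B p - t) := by
    symm
    apply sum_subset
    · intro x hx
      rw [mem_range] at *
      omega
    · intro x hx hx'
      rw [← hfil, mem_filter] at hx'
      have : ¬ (t + 1 ≤ B x) := fun h => hx' ⟨hx, h⟩
      omega
  have h2 : ∑ p ∈ range r, (B p - t) + r * t = ∑ p ∈ range r, B p := by
    have e2 : r * t = ∑ p ∈ range r, t := by
      rw [sum_const, card_range, smul_eq_mul]
    rw [e2, ← sum_add_distrib]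
    apply sum_congr rfl
    intro x hx
    rw [← hfil, mem_filter] at hx
    omega
  have h3 : ∑ p ∈ range r, A p ≤ ∑ p ∈ range r, (A p - t) + r * t := by
    have e2 : r * t = ∑ p ∈ range r, t := by
      rw [sum_const, card_range, smul_eq_mul]
    rw [e2, ← sum_add_distrib]
    apply sum_le_sum
    intro x _
    omega
  have h4 : ∑ p ∈ range r, (A p - t) ≤ ∑ p ∈ range N, (A p - t) := by
    apply sum_le_sum_of_subset
    intro x hx
    rw [mem_range] at *
    omega
  have := h r hrN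
  omega

/-- sorted keys -/
noncomputable def skey (I : Finset (Fin N)) (a : Fin N → ℕ) (p : ℕ) : ℕ :=
  if h : p < N then key I a (srt I a ⟨p, h⟩) else 0

lemma skey_lt {I : Finset (Fin N)} {a : Fin N → ℕ} {p : ℕ} (h : p < N) :
    skey I a p = key I a (srt I a ⟨p, h⟩) := by
  rw [skey, dif_pos h]

lemma sum_skey {M : Type*} [AddCommMonoid M] (I : Finset (Fin N)) (a : Fin N → ℕ)
    (F : ℕ → M) : ∑ p ∈ range N, F (skey I a p) = ∑ i, F (key I a i) := by
  rw [sum_range, ← Equiv.sum_comp (srt I a) (fun i => F (key I a i))]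
  apply sum_congr rfl
  intro p _
  rw [skey_lt p.2]

lemma sum_skey_star {M : Type*} [AddCommMonoid M] (I : Finset (Fin N)) (a : Fin N → ℕ)
    (F : ℕ → M) : ∑ p ∈ range N, F (skey I a p / 2) = ∑ i, F (a i) := by
  rw [sum_skey I a (fun x => F (x / 2))]
  apply sum_congr rfl
  intro i _
  rw [key_div]

lemma sum_skey_circ {M : Type*} [AddCommMonoid M] (I : Finset (Fin N)) (a : Fin N → ℕ)
    (F : ℕ → M) : ∑ p ∈ range N, F ((skey I a p + 1) / 2) = ∑ i, F (fl I a i) := by
  rw [sum_skey I a (fun x => F ((x + 1) / 2))]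
  apply sum_congr rfl
  intro i _
  rw [key_div']

lemma skey_anti (I : Finset (Fin N)) (a : Fin N → ℕ) (p q : ℕ) (h : p ≤ q) (hq : q < N) :
    skey I a q ≤ skey I a p := by
  rw [skey_lt hq, skey_lt (lt_of_le_of_lt h hq)]
  exact key_srt I a h

lemma skey_odd {I : Finset (Fin N)} {a : Fin N → ℕ} (ha : InjOnI I a) (p q : ℕ) (h : p < q)
    (hq : q < N) (heq : skey I a p = skey I a q) : skey I a p % 2 = 0 := by
  have hp : p < N := h.trans hq
  rw [skey_lt hp, skey_lt hq] at heq
  rw [skey_lt hp]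
  by_contra hne
  set i := srt I a ⟨p, hp⟩ with hi
  set j := srt I a ⟨q, hq⟩ with hj
  have hij : i ≠ j := by
    intro h1
    have := (srt I a).injective h1
    simp only [Fin.mk.injEq] at this
    omega
  unfold key at heq hne
  have hiI : i ∈ I := by
    by_contra h1
    rw [if_neg h1] at hne
    omega
  rw [if_pos hiI] at heq
  have hjI : j ∈ I := by
    by_contra h1
    rw [if_neg h1] at heq
    omega
  rw [if_pos hjI] at heq
  exact ha i hiI j hjI hij (by omega)

lemma win_skey (I : Finset (Fin N)) (a : Fin N → ℕ) (j : ℕ) :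
    win N (skey I a) j = wcard I a j := by
  unfold win wcard
  rw [card_filter, card_filter,
    sum_skey I a (fun x => if 2 * j ≤ x ∧ x ≤ 2 * j + 2 then 1 else 0)]

lemma maj_star {I : Finset (Fin N)} {a b : Fin N → ℕ} (h : Maj b a) (t : ℕ) :
    ∑ p ∈ range N, (skey I b p / 2 - t) ≤ ∑ p ∈ range N, (skey I a p / 2 - t) := by
  rw [sum_skey_star I b (fun x => x - t), sum_skey_star I a (fun x => x - t)]
  exact h.2 t

lemma maj_circ {I : Finset (Fin N)} {a b : Fin N → ℕ} (h : Maj (fl I b) (fl I a)) (t : ℕ) :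
    ∑ p ∈ range N, ((skey I b p + 1) / 2 - t) ≤ ∑ p ∈ range N, ((skey I a p + 1) / 2 - t) := by
  rw [sum_skey_circ I b (fun x => x - t), sum_skey_circ I a (fun x => x - t)]
  exact h.2 t

lemma sum_min {A : ℕ → ℕ} (M : ℕ) (hA : ∀ p q, p ≤ q → q < M → A q ≤ A p) :
    ∑ p ∈ range M, ∑ q ∈ range M, ((min (A p) (A q) : ℕ) : ℤ) =
      ∑ p ∈ range M, (2 * (p : ℤ) + 1) * A p := by
  induction M with
  | zero => simp
  | succ M ih =>
    have h1 : ∀ p ∈ range M, ((min (A p) (A M) : ℕ) : ℤ) = A M := by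
      intro p hp
      rw [mem_range] at hp
      rw [min_eq_right (hA p M hp.le (Nat.lt_succ_self M))]
    have h2 : ∀ p ∈ range M, ((min (A M) (A p) : ℕ) : ℤ) = A M := by
      intro p hp
      rw [min_comm]
      exact h1 p hp
    rw [sum_range_succ, sum_congr rfl (fun p _ => sum_range_succ _ M), sum_add_distrib,
      ih (fun p q h1 h2 => hA p q h1 (h2.trans (Nat.lt_succ_self M))), sum_congr rfl h1,
      sum_range_succ (fun q => ((min (A M) (A q) : ℕ) : ℤ)), sum_congr rfl h2, sum_range_succ,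
      sum_const, card_range, min_self, nsmul_eq_mul]
    ring

/-- full double sum of minima -/
def Smin (a : Fin N → ℕ) : ℤ := ∑ i, ∑ j, ((min (a i) (a j) : ℕ) : ℤ)

lemma Smin_star (I : Finset (Fin N)) (a : Fin N → ℕ) :
    Smin a = ∑ p ∈ range N, (2 * (p : ℤ) + 1) * ((skey I a p / 2 : ℕ) : ℤ) := by
  rw [← sum_min N (fun p q h1 h2 => Nat.div_le_div_right (skey_anti I a p q h1 h2))]
  have h1 : ∀ x : ℕ, ∑ q ∈ range N, ((min x (skey I a q / 2) : ℕ) : ℤ) =
      ∑ j, ((min x (a j) : ℕ) : ℤ) := fun x =>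
    sum_skey_star I a (fun y => ((min x y : ℕ) : ℤ))
  simp only [h1]
  exact (sum_skey_star I a (fun x => ∑ j, ((min x (a j) : ℕ) : ℤ))).symm

lemma Smin_circ (I : Finset (Fin N)) (a : Fin N → ℕ) :
    Smin (fl I a) = ∑ p ∈ range N, (2 * (p : ℤ) + 1) * (((skey I a p + 1) / 2 : ℕ) : ℤ) := by
  rw [← sum_min N (fun p q h1 h2 => Nat.div_le_div_right
    (Nat.add_le_add_right (skey_anti I a p q h1 h2) 1))]
  have h1 : ∀ x : ℕ, ∑ q ∈ range N, ((min x ((skey I a q + 1) / 2) : ℕ) : ℤ) =
      ∑ j, ((min x (fl I a j) : ℕ) : ℤ) := fun x =>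
    sum_skey_circ I a (fun y => ((min x y : ℕ) : ℤ))
  simp only [h1]
  exact (sum_skey_circ I a (fun x => ∑ j, ((min x (fl I a j) : ℕ) : ℤ))).symm

/-- number of inversions-like pairs -/
def ninv (I : Finset (Fin N)) (a : Fin N → ℕ) : ℤ :=
  ∑ i ∈ I, ∑ j ∈ univ \ I, (if a i < a j then (1 : ℤ) else 0)

lemma sum_compl_eq {M : Type*} [AddCommMonoid M] (I : Finset (Fin N)) (g : Fin N → M) :
    ∑ i ∈ univ \ I, g i = ∑ i, if i ∈ I then 0 else g i := by
  rw [sum_split I (fun i => if i ∈ I then 0 else g i)]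
  rw [sum_eq_zero (s := I), zero_add]
  · apply sum_congr rfl
    intro i hi
    rw [mem_sdiff] at hi
    rw [if_neg hi.2]
  · intro i hi
    rw [if_pos hi]

lemma Smin_fl (I : Finset (Fin N)) (a : Fin N → ℕ) :
    Smin (fl I a) = Smin a + (I.card : ℤ) ^ 2 + 2 * ninv I a := by
  have h1 : ninv I a = ∑ i, ∑ j, (if i ∈ I then (if j ∈ I then 0 else
      (if a i < a j then (1 : ℤ) else 0)) else 0) := by
    unfold ninv
    rw [sum_mem_eq I]
    apply sum_congr rfl
    intro i _
    split_ifs with hi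
    · rw [sum_compl_eq]
    · rw [sum_const_zero]
  have h2 : ninv I a = ∑ i, ∑ j, (if j ∈ I then (if i ∈ I then 0 else
      (if a j < a i then (1 : ℤ) else 0)) else 0) := by
    rw [h1, sum_comm]
  have h3 : (I.card : ℤ) ^ 2 = ∑ i : Fin N, ∑ j : Fin N,
      (if i ∈ I then (if j ∈ I then (1 : ℤ) else 0) else 0) := by
    have : (I.card : ℤ) = ∑ j : Fin N, (if j ∈ I then (1 : ℤ) else 0) := by
      rw [← sum_mem_eq I]; simp
    rw [pow_two]
    conv_lhs => rw [this, sum_mul]
    apply sum_congr rfl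
    intro i _
    split_ifs
    · rw [one_mul, ← this]
    · simp
  rw [two_mul]
  conv_rhs => rw [h3]; arg 2; arg 1; rw [h1]
  rw [h2]
  unfold Smin
  simp only [← sum_add_distrib]
  apply sum_congr rfl
  intro i _
  apply sum_congr rfl
  intro j _
  unfold fl
  split_ifs <;> (push_cast; omega)

lemma Phi_star (k : ℕ) (I : Finset (Fin N)) (a : Fin N → ℕ) :
    Phi k N (fun p => skey I a p / 2) =
      (k + 1) * ∑ i, ((a i : ℤ) * (a i - 1)) + Smin a - ∑ i, (a i : ℤ) := by
  unfold Phi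
  rw [Smin_star I a, sum_skey_star I a (fun x => (x : ℤ) * (x - 1)),
    ← sum_skey_star I a (fun x => (x : ℤ))]
  simp only [add_mul, one_mul, sum_add_distrib, mul_assoc, ← mul_sum]
  ring

lemma Phi_circ (k : ℕ) (I : Finset (Fin N)) (a : Fin N → ℕ) :
    Phi k N (fun p => (skey I a p + 1) / 2) =
      (k + 1) * ∑ i, ((fl I a i : ℤ) * (fl I a i - 1)) + Smin (fl I a) - ∑ i, (fl I a i : ℤ) := by
  unfold Phi
  rw [Smin_circ I a, sum_skey_circ I a (fun x => (x : ℤ) * (x - 1)),
    ← sum_skey_circ I a (fun x => (x : ℤ))]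
  simp only [add_mul, one_mul, sum_add_distrib, mul_assoc, ← mul_sum]
  ring

lemma sum_erase_min (a : Fin N → ℕ) :
    ∑ i, ∑ j ∈ univ.erase i, ((min (a i) (a j) : ℕ) : ℤ) = Smin a - ∑ i, (a i : ℤ) := by
  unfold Smin
  rw [← sum_sub_distrib]
  apply sum_congr rfl
  intro i _
  rw [← add_sum_erase univ (fun j => ((min (a i) (a j) : ℕ) : ℤ)) (mem_univ i), min_self]
  ring

lemma two_evH (k : ℕ) (I : Finset (Fin N)) (a : Fin N → ℕ) :
    2 * evH (-((k : ℤ) + 1)) I a = -(Phi k N (fun p => skey I a p / 2) +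
      Phi k N (fun p => (skey I a p + 1) / 2)) := by
  rw [Phi_star, Phi_circ, Smin_fl]
  have h1 : ∑ i, ((fl I a i : ℤ) * (fl I a i - 1)) =
      ∑ i, ((a i : ℤ) * (a i - 1)) + 2 * ∑ i ∈ I, (a i : ℤ) := by
    rw [sum_mem_eq I, mul_sum, ← sum_add_distrib]
    apply sum_congr rfl
    intro i _
    unfold fl
    split_ifs
    · push_cast; ring
    · push_cast; ring
  have h2 : ∑ i, (fl I a i : ℤ) = ∑ i, (a i : ℤ) + I.card := by
    have : (I.card : ℤ) = ∑ j : Fin N, (if j ∈ I then (1 : ℤ) else 0) := by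
      rw [← sum_mem_eq I]; simp
    rw [this, ← sum_add_distrib]
    apply sum_congr rfl
    intro i _
    unfold fl
    push_cast
    rfl
  have h3 : (2 : ℤ) * ((I.card.choose 2 : ℕ) : ℤ) = (I.card : ℤ) ^ 2 - I.card := by
    have h4 := Nat.choose_two_right I.card
    have h5 : 2 * (I.card.choose 2) = I.card * (I.card - 1) := by
      rw [h4]
      exact Nat.mul_div_cancel' (Nat.even_mul_pred_self _).two_dvd
    rcases Nat.eq_zero_or_pos I.card with h0 | h0
    · rw [h0]; simp
    · obtain ⟨m, hm⟩ : ∃ m, I.card = m + 1 := ⟨I.card - 1, by omega⟩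
      rw [hm] at h5 ⊢
      have h6 : ((2 * ((m + 1).choose 2) : ℕ) : ℤ) = ((m + 1) * (m + 1 - 1) : ℕ) := by rw [h5]
      push_cast at h6
      rw [h6]
      simp
      ring
  unfold evH evD evDel
  rw [sum_erase_min, h1, h2]
  have h4 : ∑ i, ((a i : ℤ) * a i - a i) = ∑ i, ((a i : ℤ) * (a i - 1)) := by
    apply sum_congr rfl
    intro i _
    ring
  rw [h4]
  unfold ninv
  linear_combination -h3

/-- separation of eigenvalues at `-(k+1)` -/
theorem sep_int {k : ℕ} {I : Finset (Fin N)} {a b : Fin N → ℕ} (ha : InjOnI I a)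
    (hb : InjOnI I b) (hadm : ∀ j, wcard I a j ≤ k) (hlt : Lt I b a) :
    evH (-((k : ℤ) + 1)) I b ≠ evH (-((k : ℤ) + 1)) I a := by
  intro heq
  have hstar : ∀ p q, p ≤ q → q < N → skey I a q / 2 ≤ skey I a p / 2 := fun p q h1 h2 =>
    Nat.div_le_div_right (skey_anti I a p q h1 h2)
  have hcirc : ∀ p q, p ≤ q → q < N → (skey I a q + 1) / 2 ≤ (skey I a p + 1) / 2 :=
    fun p q h1 h2 => Nat.div_le_div_right (Nat.add_le_add_right (skey_anti I a p q h1 h2) 1)
  have hcc : ∀ (A B : ℕ → ℕ) (r : ℕ), cc A B r =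
      (∑ p ∈ range r, A p : ℕ) - (∑ p ∈ range r, B p : ℕ) := by
    intro A B r
    unfold cc
    push_cast
    rw [sum_sub_distrib]
  have key := separation k N (skey I a) (skey I b) (skey_anti I a) (skey_anti I b)
    (skey_odd ha) (skey_odd hb) (fun j => by rw [win_skey]; exact hadm j)
    (fun r hr => by
      rw [hcc]
      have := partial_of_maj hstar (maj_star hlt.1) hr
      omega)
    (by
      rw [hcc, sum_skey_star I a (fun x => x), sum_skey_star I b (fun x => x), hlt.1.1]
      simp)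
    (fun r hr => by
      rw [hcc]
      have := partial_of_maj hcirc (maj_circ hlt.2.1) hr
      omega)
    (by
      rw [hcc, sum_skey_circ I a (fun x => x), sum_skey_circ I b (fun x => x), hlt.2.1.1]
      simp)
    (by
      have h1 := two_evH k I a
      have h2 := two_evH k I b
      rw [heq] at h2
      linarith)
  have hW : Wt I a = Wt I b := by
    have h1 := two_Wt I a
    have h2 := two_Wt I b
    have h3 : ∑ i, a i ^ 2 = ∑ i, b i ^ 2 := by
      rw [← sum_skey_star I a (fun x => x ^ 2), ← sum_skey_star I b (fun x => x ^ 2)]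
      apply sum_congr rfl
      intro p hp
      rw [key p (mem_range.mp hp)]
    have h4 : ∑ i, fl I a i ^ 2 = ∑ i, fl I b i ^ 2 := by
      rw [← sum_skey_circ I a (fun x => x ^ 2), ← sum_skey_circ I b (fun x => x ^ 2)]
      apply sum_congr rfl
      intro p hp
      rw [key p (mem_range.mp hp)]
    omega
  have := hlt.2.2
  omega

/-- separation of eigenvalues over a ring of characteristic zero -/
theorem sep_ring {R : Type*} [CommRing R] [CharZero R] {k : ℕ} {I : Finset (Fin N)}
    {a b : Fin N → ℕ} (ha : InjOnI I a)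
    (hb : InjOnI I b) (hadm : ∀ j, wcard I a j ≤ k) (hlt : Lt I b a) :
    evH (-((k : R) + 1)) I b ≠ evH (-((k : R) + 1)) I a := by
  have h1 := map_evH (Int.castRingHom R) (-((k : ℤ) + 1)) I a
  have h2 := map_evH (Int.castRingHom R) (-((k : ℤ) + 1)) I b
  have h3 : (Int.castRingHom R) (-((k : ℤ) + 1)) = -((k : R) + 1) := by simp
  rw [h3] at h1 h2
  rw [← h1, ← h2]
  intro h
  exact sep_int ha hb hadm hlt (Int.cast_injective h)

lemma evH_diff {R : Type*} [CommRing R] (I : Finset (Fin N)) (e : Fin N → ℕ) :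
    evH (1 : R) I e - evH (0 : R) I e = (Wt I e : R) - ((∑ i, e i : ℕ) : R) := by
  unfold evH evD evDel Wt
  push_cast
  rw [sum_sub_distrib]
  simp only [← pow_two]
  ring

/-- generic separation: over polynomials in `α` -/
theorem sep_generic {I : Finset (Fin N)} {a b : Fin N → ℕ} (hlt : Lt I b a) :
    evH (Polynomial.X : Polynomial ℚ) I b ≠ evH (Polynomial.X : Polynomial ℚ) I a := by
  intro h
  have h0 := congrArg (Polynomial.evalRingHom (0 : ℚ)) h
  have h1 := congrArg (Polynomial.evalRingHom (1 : ℚ)) h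
  rw [map_evH, map_evH] at h0 h1
  simp only [Polynomial.coe_evalRingHom, Polynomial.eval_X] at h0 h1
  have e1 := evH_diff (R := ℚ) I a
  have e2 := evH_diff (R := ℚ) I b
  rw [h0, h1, e1, hlt.1.1] at e2
  have h2 : (Wt I a : ℚ) = Wt I b := by linarith
  have h3 : Wt I a = Wt I b := by exact_mod_cast h2
  have := hlt.2.2
  omega

end Pool.Agent.Lib.MP_2558e3_co
end

section

/-!
Specialization of the eigenvectors and the basis theorem on components.
-/

namespace Pool.Agent.Lib.MP_2558e3_co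

open Finset MvPolynomial

variable {N : ℕ} {R : Type*} [CommRing R]

/-- polynomials in `SS` with leading exponent `a` -/
def Lead (I : Finset (Fin N)) (a : Fin N →₀ ℕ) (f : MvPolynomial (Fin N) R) : Prop :=
  f ∈ SS R I ∧ coeff a f = 1 ∧ ∀ b : Fin N →₀ ℕ, coeff b f ≠ 0 → Orb I b a ∨ Lt I b a

lemma lead_sub {I : Finset (Fin N)} {a : Fin N →₀ ℕ} {f g : MvPolynomial (Fin N) R}
    (hf : Lead I a f) (hg : Lead I a g) : f - g ∈ SS R I ∧ f - g ∈ Low R I a := by
  have h1 : f - g ∈ SS R I := Submodule.sub_mem _ hf.1 hg.1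
  refine ⟨h1, ?_⟩
  rw [mem_Low]
  intro b hb
  have h2 : Orb I b a ∨ Lt I b a := by
    rw [coeff_sub] at hb
    by_cases h : coeff b f = 0
    · rw [h, zero_sub] at hb
      exact hg.2.2 b (by simpa using hb)
    · exact hf.2.2 b h
  rcases h2 with h | h
  · exfalso
    apply hb
    apply coeff_SS_zero h1 h
    rw [coeff_sub, hf.2.1, hg.2.1, sub_self]
  · exact h

lemma map_mem_SS {S : Type*} [CommRing S] (φ : R →+* S) {I : Finset (Fin N)}
    {f : MvPolynomial (Fin N) R} (hf : f ∈ SS R I) : MvPolynomial.map φ f ∈ SS S I := by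
  intro τ ρ
  rw [← map_rename, hf τ ρ, smul_eq_C_mul, smul_eq_C_mul, map_mul, map_C]
  simp

lemma map_mem_Van {S : Type*} [CommRing S] (φ : R →+* S) {k : ℕ}
    {f : MvPolynomial (Fin N) R} (hf : f ∈ Van R N k) : MvPolynomial.map φ f ∈ Van S N k := by
  intro g C hC hg
  rw [← map_rename, hf g C hC hg, map_zero]

lemma map_lead {S : Type*} [CommRing S] (φ : R →+* S) {I : Finset (Fin N)} {a : Fin N →₀ ℕ}
    {f : MvPolynomial (Fin N) R} (hf : Lead I a f) : Lead I a (MvPolynomial.map φ f) := by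
  refine ⟨map_mem_SS φ hf.1, ?_, ?_⟩
  · rw [coeff_map, hf.2.1, map_one]
  · intro b hb
    rw [coeff_map] at hb
    exact hf.2.2 b (fun h => hb (by rw [h, map_zero]))

/-- symmetrized monomials -/
lemma exists_mon {K : Type*} [Field K] [CharZero K] {I : Finset (Fin N)} {a : Fin N →₀ ℕ}
    (hinj : InjOnI I a) :
    ∃ f ∈ SS K I, coeff a f = 1 ∧ ∀ b : Fin N →₀ ℕ, coeff b f ≠ 0 → Orb I b a := by
  classical
  set F : MvPolynomial (Fin N) K := asym I (monomial a 1) with hF
  have hFSS : F ∈ SS K I := asym_mem_SS I _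
  have hco : ∀ b : Fin N →₀ ℕ, coeff b F = ∑ τ : Equiv.Perm {i // i ∈ I},
      ∑ ρ : Equiv.Perm {i // ¬ i ∈ I},
        if Finsupp.mapDomain (yg I τ ρ) a = b then sg K τ else 0 := by
    intro b
    rw [hF, asym, coeff_sum]
    apply sum_congr rfl
    intro τ _
    rw [coeff_sum]
    apply sum_congr rfl
    intro ρ _
    rw [coeff_smul, rename_monomial, coeff_monomial, smul_eq_mul]
    split_ifs <;> simp
  have hsupp : ∀ b : Fin N →₀ ℕ, coeff b F ≠ 0 → Orb I b a := by
    intro b hb
    rw [hco] at hb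
    obtain ⟨τ, _, hb⟩ := exists_ne_zero_of_sum_ne_zero hb
    obtain ⟨ρ, _, hb⟩ := exists_ne_zero_of_sum_ne_zero hb
    have hbe : Finsupp.mapDomain (yg I τ ρ) a = b := by
      by_contra hne
      rw [if_neg hne] at hb
      exact hb rfl
    apply Orb.symm
    refine ⟨τ, ρ, ?_⟩
    ext i
    rw [← hbe, Function.comp_apply, mapDomain_perm]
  have hterm : ∀ (τ : Equiv.Perm {i // i ∈ I}) (ρ : Equiv.Perm {i // ¬ i ∈ I}),
      (if Finsupp.mapDomain (yg I τ ρ) a = a then sg K τ else 0) =
      (((if Finsupp.mapDomain (yg I τ ρ) a = a then 1 else 0 : ℕ)) : K) := by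
    intro τ ρ
    split_ifs with h
    · have h1 : τ = 1 := by
        ext i
        by_contra hne
        have h2 : a (yg I τ ρ i) = a i := by
          rw [← mapDomain_perm (yg I τ ρ) a i, h]
        rw [yg, Equiv.Perm.subtypeCongr.left_apply _ _ i.2] at h2
        exact hinj _ (τ i).2 _ i.2 (fun h3 => hne (by
          rw [Equiv.Perm.coe_one, id]
          exact congrArg Fin.val h3)) h2
      rw [h1, sg]
      simp
    · simp
  have hcoeff : coeff a F = ((∑ τ : Equiv.Perm {i // i ∈ I},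
      ∑ ρ : Equiv.Perm {i // ¬ i ∈ I},
        (if Finsupp.mapDomain (yg I τ ρ) a = a then 1 else 0) : ℕ) : K) := by
    rw [hco]
    push_cast
    apply sum_congr rfl
    intro τ _
    apply sum_congr rfl
    intro ρ _
    have := hterm τ ρ
    push_cast at this
    exact this
  have hpos : coeff a F ≠ 0 := by
    rw [hcoeff, Nat.cast_ne_zero]
    apply Nat.pos_iff_ne_zero.mp
    apply sum_pos' (fun _ _ => Nat.zero_le _) ⟨1, mem_univ _, ?_⟩
    apply sum_pos' (fun _ _ => Nat.zero_le _) ⟨1, mem_univ _, ?_⟩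
    rw [if_pos]
    · exact Nat.one_pos
    · have h1 : yg I 1 1 = 1 := Equiv.Perm.subtypeCongr.refl
      rw [h1]
      ext i
      exact mapDomain_perm (1 : Equiv.Perm (Fin N)) a i
  refine ⟨(coeff a F)⁻¹ • F, Submodule.smul_mem _ _ hFSS, ?_, ?_⟩
  · rw [coeff_smul, smul_eq_mul, inv_mul_cancel₀ hpos]
  · intro b hb
    rw [coeff_smul] at hb
    exact hsupp b (right_ne_zero_of_mul hb)

/-- the projection polynomial applied to `f` -/
noncomputable def proj (α : R) (I : Finset (Fin N)) (a : Fin N → ℕ)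
    (f : MvPolynomial (Fin N) R) : MvPolynomial (Fin N) R :=
  Polynomial.aeval (opH α I) (annP (fun e : Fin N →₀ ℕ => evH α I e) (Below I a)) f

/-- the product of eigenvalue differences -/
noncomputable def dif (α : R) (I : Finset (Fin N)) (a : Fin N → ℕ) : R :=
  ∏ b ∈ Below I a, (evH α I a - evH α I b)

lemma map_aeval {S : Type*} [CommRing S] (φ : R →+* S) (α : R) (I : Finset (Fin N))
    (p : Polynomial R) (f : MvPolynomial (Fin N) R) :
    MvPolynomial.map φ (Polynomial.aeval (opH α I) p f) =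
      Polynomial.aeval (opH (φ α) I) (p.map φ) (MvPolynomial.map φ f) := by
  induction p using Polynomial.induction_on with
  | C a =>
    rw [Polynomial.aeval_C, Module.algebraMap_end_apply, Polynomial.map_C, Polynomial.aeval_C,
      Module.algebraMap_end_apply, smul_eq_C_mul, smul_eq_C_mul, map_mul, map_C]
  | add p q hp hq =>
    rw [map_add, LinearMap.add_apply, map_add, hp, hq, Polynomial.map_add, map_add,
      LinearMap.add_apply]
  | monomial n a h =>
    rw [pow_succ', ← mul_assoc, mul_comm (Polynomial.C a) Polynomial.X, mul_assoc, map_mul,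
      Polynomial.aeval_X, Module.End.mul_apply, map_opH, h,
      Polynomial.map_mul φ (p := Polynomial.X), Polynomial.map_X, map_mul, Polynomial.aeval_X,
      Module.End.mul_apply]

lemma map_proj {S : Type*} [CommRing S] (φ : R →+* S) (α : R) (I : Finset (Fin N))
    (a : Fin N → ℕ) (f : MvPolynomial (Fin N) R) :
    MvPolynomial.map φ (proj α I a f) = proj (φ α) I a (MvPolynomial.map φ f) := by
  rw [proj, proj, map_aeval]
  congr 2
  rw [annP, annP, Polynomial.map_prod]
  apply prod_congr rfl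
  intro b _
  rw [Polynomial.map_sub, Polynomial.map_X, Polynomial.map_C, map_evH]

lemma map_dif {S : Type*} [CommRing S] (φ : R →+* S) (α : R) (I : Finset (Fin N))
    (a : Fin N → ℕ) : φ (dif α I a) = dif (φ α) I a := by
  rw [dif, dif, map_prod]
  apply prod_congr rfl
  intro b _
  rw [map_sub, map_evH, map_evH]

lemma proj_congr [IsDomain R] [CharZero R] (α : R) {I : Finset (Fin N)} {a : Fin N →₀ ℕ}
    {f g : MvPolynomial (Fin N) R} (hf : Lead I a f) (hg : Lead I a g) :
    proj α I a f = proj α I a g := by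
  rw [← sub_eq_zero, proj, proj, ← map_sub]
  have h := lead_sub hf hg
  exact (tri_opH α I).kill_Low (fun f hf => opH_mem_SS α hf) a h.1 h.2

lemma lead_eigenvalue {I : Finset (Fin N)} {a : Fin N →₀ ℕ}
    {L : MvPolynomial (Fin N) R →ₗ[R] MvPolynomial (Fin N) R} {E : (Fin N →₀ ℕ) → R}
    (hL : Tri I L E) {f : MvPolynomial (Fin N) R} (hf : Lead I a f) {x : R}
    (he : L f = x • f) : x = E a := by
  have h1 := hL.coeff_top (f := f) (b := a) (by
    intro e he' hlt
    rcases hf.2.2 e he' with h | h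
    · have h2 := hlt.2.2
      rw [h.Wt_eq] at h2
      exact lt_irrefl _ h2
    · have h2 := hlt.2.2
      have h3 := h.2.2
      omega)
  rw [he, coeff_smul, hf.2.1] at h1
  simpa using h1

lemma proj_eigen {α : R} {I : Finset (Fin N)} {a : Fin N →₀ ℕ}
    {f : MvPolynomial (Fin N) R} (he : opH α I f = evH α I a • f) :
    proj α I a f = dif α I a • f := by
  rw [proj, aeval_eigen he, annP_eval, dif]

lemma dif_ne_zero_adm [IsDomain R] [CharZero R] {k : ℕ} {I : Finset (Fin N)} {a : Fin N → ℕ}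
    (ha : InjOnI I a) (hadm : ∀ j, wcard I a j ≤ k) : dif (-((k : R) + 1)) I a ≠ 0 := by
  rw [dif, prod_ne_zero_iff]
  intro b hb
  rw [mem_Below] at hb
  rw [sub_ne_zero]
  exact (sep_ring ha hb.2 hadm hb.1).symm

lemma dif_ne_zero_generic {I : Finset (Fin N)} {a : Fin N → ℕ} :
    dif (Polynomial.X : Polynomial ℚ) I a ≠ 0 := by
  rw [dif, prod_ne_zero_iff]
  intro b hb
  rw [mem_Below] at hb
  rw [sub_ne_zero]
  exact (sep_generic hb.1).symm

lemma proj_mem_Van [IsDomain R] [CharZero R] {k : ℕ} {I : Finset (Fin N)} {a : Fin N → ℕ}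
    {f : MvPolynomial (Fin N) R} (hf : f ∈ Van R N k) : proj (-((k : R) + 1)) I a f ∈ Van R N k :=
  aeval_mem (fun _ hf => opH_mem_Van I hf) _ hf

lemma proj_mem_SS [IsDomain R] [CharZero R] {α : R} {I : Finset (Fin N)} {a : Fin N → ℕ}
    {f : MvPolynomial (Fin N) R} (hf : f ∈ SS R I) : proj α I a f ∈ SS R I :=
  aeval_mem (fun _ hf => opH_mem_SS α hf) _ hf

/-- the specialization theorem on components -/
theorem spec_main {k : ℕ} (hk : 1 ≤ k) {I : Finset (Fin N)} {a : Fin N →₀ ℕ}
    (hinj : InjOnI I a) (hadm : ∀ j, wcard I a j ≤ k)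
    {P : MvPolynomial (Fin N) (RatFunc ℚ)} (hP : Lead I a P) {x : RatFunc ℚ}
    (he : opH (RatFunc.X : RatFunc ℚ) I P = x • P) :
    ∃ D : Polynomial ℚ, D.eval (-((k : ℚ) + 1)) ≠ 0 ∧
      ∃ p₀ : MvPolynomial (Fin N) ℚ, Lead I a p₀ ∧ p₀ ∈ Van ℚ N k ∧
        ∀ b : Fin N →₀ ℕ, ∃ r : Polynomial ℚ,
          algebraMap (Polynomial ℚ) (RatFunc ℚ) D * coeff b P =
            algebraMap (Polynomial ℚ) (RatFunc ℚ) r ∧
          coeff b p₀ = r.eval (-((k : ℚ) + 1)) / D.eval (-((k : ℚ) + 1)) := by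
  classical
  obtain ⟨m, hmSS, hm1, hmsupp⟩ := exists_mon (K := ℚ) hinj
  have hm : Lead I a m := ⟨hmSS, hm1, fun b hb => Or.inl (hmsupp b hb)⟩
  set φ : Polynomial ℚ →+* RatFunc ℚ := algebraMap (Polynomial ℚ) (RatFunc ℚ) with hφ
  set ψ : Polynomial ℚ →+* ℚ := Polynomial.evalRingHom (-((k : ℚ) + 1)) with hψ
  set m₁ : MvPolynomial (Fin N) (Polynomial ℚ) := MvPolynomial.map Polynomial.C m with hm₁
  have hm₁L : Lead I a m₁ := map_lead _ hm
  set q := proj (Polynomial.X : Polynomial ℚ) I a m₁ with hq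
  set D := dif (Polynomial.X : Polynomial ℚ) I a with hD
  have hφX : φ Polynomial.X = RatFunc.X := RatFunc.algebraMap_X
  have hψX : ψ Polynomial.X = -((k : ℚ) + 1) := by
    rw [hψ, Polynomial.coe_evalRingHom, Polynomial.eval_X]
  have hDψ : ψ D ≠ 0 := by
    rw [hD, map_dif, hψX]
    exact dif_ne_zero_adm hinj hadm
  have hqP : MvPolynomial.map φ q = φ D • P := by
    rw [hq, map_proj, hφX, hD, map_dif, hφX,
      proj_congr (RatFunc.X : RatFunc ℚ) (map_lead φ hm₁L) hP]
    apply proj_eigen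
    rw [he]
    rw [lead_eigenvalue (tri_opH (RatFunc.X : RatFunc ℚ) I) hP he]
  have hcoef : ∀ b, φ D * coeff b P = φ (coeff b q) := by
    intro b
    rw [← coeff_map, hqP, coeff_smul, smul_eq_mul]
  have hinjφ : Function.Injective φ := IsFractionRing.injective (Polynomial ℚ) (RatFunc ℚ)
  -- the specialization lies in the vanishing ideal
  have hqV : MvPolynomial.map ψ q ∈ Van ℚ N k := by
    obtain ⟨f, hfSS, hfV, hf1, hfsupp⟩ := exists_van (K := ℚ) hk hinj hadm
    have hf : Lead I a f := ⟨hfSS, hf1, hfsupp⟩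
    rw [hq, map_proj, hψX, proj_congr _ (map_lead ψ hm₁L) hf]
    exact proj_mem_Van hfV
  have hqSS : MvPolynomial.map ψ q ∈ SS ℚ I := map_mem_SS ψ (proj_mem_SS hm₁L.1)
  have hqa : coeff a q = D := by
    apply hinjφ
    rw [← hcoef a, hP.2.1, mul_one]
  refine ⟨D, hDψ, (ψ D)⁻¹ • MvPolynomial.map ψ q, ⟨Submodule.smul_mem _ _ hqSS, ?_, ?_⟩,
    Submodule.smul_mem _ _ hqV, ?_⟩
  · rw [coeff_smul, coeff_map, hqa, smul_eq_mul, inv_mul_cancel₀ hDψ]
  · intro b hb
    rw [coeff_smul, coeff_map] at hb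
    apply hP.2.2
    intro h0
    have h1 := hcoef b
    rw [h0, mul_zero] at h1
    have h2 : coeff b q = 0 := hinjφ (by rw [← h1, map_zero])
    rw [h2, map_zero, smul_zero] at hb
    exact hb rfl
  · intro b
    refine ⟨coeff b q, hcoef b, ?_⟩
    rw [coeff_smul, coeff_map, smul_eq_mul, inv_mul_eq_div]
    rfl

/-- the spanning theorem on components -/
theorem span_main {K : Type*} [Field K] [CharZero K] {k : ℕ} {I : Finset (Fin N)}
    (p : (Fin N →₀ ℕ) → MvPolynomial (Fin N) K)
    (hp : ∀ a : Fin N →₀ ℕ, Decr I a → (∀ j, wcard I a j ≤ k) →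
      Lead I a (p a) ∧ p a ∈ Van K N k) (n : ℕ) :
    ∀ f ∈ SS K I, f ∈ Van K N k → (∀ b : Fin N →₀ ℕ, coeff b f ≠ 0 → Wt I b < n) →
      f ∈ Submodule.span K (p '' {a | Decr I a ∧ ∀ j, wcard I a j ≤ k}) := by
  classical
  induction n with
  | zero =>
    intro f _ _ h
    have : f = 0 := by
      ext b
      rw [coeff_zero]
      by_contra hb
      exact absurd (h b hb) (Nat.not_lt_zero _)
    rw [this]
    exact Submodule.zero_mem _
  | succ n ih =>
    intro f hf hV h
    set A : Finset (Fin N →₀ ℕ) :=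
      f.support.filter (fun a : Fin N →₀ ℕ => Decr I a ∧ Wt I a = n) with hA
    have hadm : ∀ a ∈ A, Decr I a ∧ ∀ j, wcard I a j ≤ k := by
      intro a ha
      rw [hA, mem_filter, mem_support_iff] at ha
      refine ⟨ha.2.1, ?_⟩
      apply upper hf hV ha.1
      intro b hb
      have := h b hb
      rw [ha.2.2]
      omega
    have hsum : f = (f - ∑ a ∈ A, coeff a f • p a) + ∑ a ∈ A, coeff a f • p a := by ring
    rw [hsum]
    apply Submodule.add_mem
    · have hSS : f - ∑ a ∈ A, coeff a f • p a ∈ SS K I := by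
        apply Submodule.sub_mem _ hf
        apply Submodule.sum_mem
        intro a ha
        exact Submodule.smul_mem _ _ (hp a (hadm a ha).1 (hadm a ha).2).1.1
      have hVV : f - ∑ a ∈ A, coeff a f • p a ∈ Van K N k := by
        apply Submodule.sub_mem _ hV
        apply Submodule.sum_mem
        intro a ha
        exact Submodule.smul_mem _ _ (hp a (hadm a ha).1 (hadm a ha).2).2
      have hWle : ∀ b : Fin N →₀ ℕ, coeff b (f - ∑ a ∈ A, coeff a f • p a) ≠ 0 → Wt I b ≤ n := by
        intro b hb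
        by_contra hcon
        apply hb
        rw [coeff_sub, coeff_sum]
        have h1 : coeff b f = 0 := by
          by_contra h2
          have := h b h2
          omega
        rw [h1, zero_sub, neg_eq_zero]
        apply sum_eq_zero
        intro a ha
        rw [coeff_smul]
        have h3 : coeff b (p a) = 0 := by
          by_contra h2
          have hWa : Wt I a = n := by
            rw [hA, mem_filter] at ha
            exact ha.2.2
          rcases (hp a (hadm a ha).1 (hadm a ha).2).1.2.2 b h2 with h4 | h4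
          · rw [h4.Wt_eq] at hcon
            omega
          · have := h4.2.2
            omega
        rw [h3, smul_zero]
      apply ih _ hSS hVV
      intro b hb
      apply lt_of_le_of_ne (hWle b hb)
      intro hWb
      -- pass to the decreasing representative
      obtain ⟨d, hd, hdb⟩ := exists_decr (coeff_SS_inj hSS hb)
      set d' : Fin N →₀ ℕ := Finsupp.equivFunOnFinite.symm d with hd'
      have hdd : (d' : Fin N → ℕ) = d := rfl
      have hWd : Wt I d' = n := by
        rw [hdd, hdb.Wt_eq, hWb]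
      have hcd : coeff d' (f - ∑ a ∈ A, coeff a f • p a) ≠ 0 := by
        intro h0
        apply hb
        apply coeff_SS_zero hSS (a := d')
        · rw [hdd]; exact hdb.symm
        · exact h0
      apply hcd
      rw [coeff_sub, coeff_sum]
      have hterm : ∀ a ∈ A, coeff d' (coeff a f • p a) = if a = d' then coeff d' f else 0 := by
        intro a ha
        have h5 := hp a (hadm a ha).1 (hadm a ha).2
        rw [coeff_smul, smul_eq_mul]
        split_ifs with h6
        · rw [← h6, h5.1.2.1, mul_one]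
        · have h3 : coeff d' (p a) = 0 := by
            by_contra h2
            have hWa : Wt I a = n := by
              rw [hA, mem_filter] at ha
              exact ha.2.2
            rcases h5.1.2.2 d' h2 with h4 | h4
            · have := Decr.eq_of_orb (hadm a ha).1 hd h4
              exact h6 (DFunLike.coe_injective this).symm
            · have := h4.2.2
              omega
          rw [h3, mul_zero]
      rw [sum_congr rfl hterm, sum_ite_eq']
      split_ifs with h6
      · rw [sub_self]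
      · rw [sub_zero]
        by_contra h7
        apply h6
        rw [hA, mem_filter, mem_support_iff]
        exact ⟨h7, hd, hWd⟩
    · apply Submodule.sum_mem
      intro a ha
      apply Submodule.smul_mem
      apply Submodule.subset_span
      exact ⟨a, hadm a ha, rfl⟩

end Pool.Agent.Lib.MP_2558e3_co
end
end

section

section

/-!
Symmetric superpolynomials and their components.
-/

namespace Pool.Agent.Lib.MP_2558e3_co

open scoped TensorProduct
open Finset MvPolynomial

variable {K : Type} [Field K] {N : ℕ}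

lemma eps_yg (I : Finset (Fin N)) (τ : Equiv.Perm {i // i ∈ I}) (ρ : Equiv.Perm {i // ¬ i ∈ I}) :
    ((eps K (yg I τ ρ) I : ℤ) : K) = ((Equiv.Perm.sign τ : ℤ) : K) := by
  have h1 := pe_bE' (K := K) (yg I τ ρ) I
  have h2 := pe_yg (K := K) I τ ρ
  rw [h1, map_yg, Units.smul_def, ← Int.cast_smul_eq_zsmul K] at h2
  have h3 : (((eps K (yg I τ ρ) I : ℤ) : K) - ((Equiv.Perm.sign τ : ℤ) : K)) • bE K N I = 0 := by
    rw [sub_smul, sub_eq_zero]
    exact h2
  rcases smul_eq_zero.mp h3 with h | h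
  · exact sub_eq_zero.mp h
  · exact absurd h ((bE K N).ne_zero I)

lemma cm_sym {F : SuperPoly K N} (hF : IsSym F) (σ : Equiv.Perm (Fin N)) (S : Finset (Fin N)) :
    cm (S.map σ.toEmbedding) F = ((eps K σ S : ℤ) : K) • rename σ (cm S F) := by
  conv_lhs => rw [← hF σ]
  exact cm_act σ S F

lemma cm_mem_SS {F : SuperPoly K N} (hF : IsSym F) (I : Finset (Fin N)) : cm I F ∈ SS K I := by
  intro τ ρ
  have h1 := cm_sym hF (yg I τ ρ) I
  rw [map_yg, eps_yg] at h1
  conv_rhs => rw [h1]
  rw [smul_smul]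
  have h2 : ((Equiv.Perm.sign τ : ℤ) : K) * ((Equiv.Perm.sign τ : ℤ) : K) = 1 := sg_mul_self τ
  rw [h2, one_smul]

/-- transitivity on subsets of the same size -/
lemma exists_map_eq {S T : Finset (Fin N)} (h : S.card = T.card) :
    ∃ σ : Equiv.Perm (Fin N), S.map σ.toEmbedding = T := by
  classical
  have e : ∀ (U : Finset (Fin N)) (v : Bool), (univ.filter (fun i => decide (i ∈ U) = v)).card =
      if v then U.card else N - U.card := by
    intro U v
    cases v with
    | true =>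
      rw [if_pos rfl]
      congr 1
      ext i
      simp
    | false =>
      rw [if_neg (by simp)]
      have : univ.filter (fun i => decide (i ∈ U) = false) = Uᶜ := by
        ext i
        simp
      rw [this, card_compl, Fintype.card_fin]
  obtain ⟨σ, hσ⟩ := exists_perm_of_card (fun i => decide (i ∈ S)) (fun i => decide (i ∈ T))
    (fun v => by rw [e, e, h])
  refine ⟨σ, ?_⟩
  ext x
  rw [mem_map]
  constructor
  · rintro ⟨y, hy, rfl⟩
    have := hσ y
    simp only [Equiv.coe_toEmbedding]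
    rw [decide_eq_decide] at this
    exact this.mp hy
  · intro hx
    refine ⟨σ.symm x, ?_, Equiv.apply_symm_apply _ _⟩
    have := hσ (σ.symm x)
    rw [Equiv.apply_symm_apply, decide_eq_decide] at this
    exact this.mpr hx

lemma card_le_N (S : Finset (Fin N)) : S.card ≤ N := by
  have := card_le_univ S
  rwa [Fintype.card_fin] at this

/-- every component comes from the standard one -/
lemma cm_from_In {F : SuperPoly K N} (hF : IsSym F) (S : Finset (Fin N)) :
    ∃ σ : Equiv.Perm (Fin N), (In N S.card).map σ.toEmbedding = S ∧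
      cm S F = ((eps K σ (In N S.card) : ℤ) : K) • rename σ (cm (In N S.card) F) := by
  obtain ⟨σ, hσ⟩ := exists_map_eq (S := In N S.card) (T := S) (card_In (card_le_N S))
  refine ⟨σ, hσ, ?_⟩
  have := cm_sym hF σ (In N S.card)
  rwa [hσ] at this

lemma sym_eq_zero {F : SuperPoly K N} (hF : IsSym F)
    (h : ∀ m, m ≤ N → cm (In N m) F = 0) : F = 0 := by
  apply cmp_ext
  intro S
  obtain ⟨σ, _, h1⟩ := cm_from_In hF S
  rw [map_zero]
  change cm S F = 0
  rw [h1, h _ (card_le_N S), map_zero, smul_zero]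

/-- exponent of a superpartition -/
noncomputable def SPart.ex (Λ : SPart N) : Fin N →₀ ℕ := Finsupp.equivFunOnFinite.symm Λ.part

lemma SPart.coe_ex (Λ : SPart N) : (Λ.ex : Fin N → ℕ) = Λ.part := rfl

lemma SPart.decr (Λ : SPart N) : Decr (In N Λ.m) Λ.part := by
  refine ⟨?_, ?_⟩
  · intro i _ j hj hij
    rw [mem_In] at hj
    exact Λ.strict i j hij hj
  · intro i hi j _ hij
    rw [mem_In, not_lt] at hi
    exact Λ.weak i j hij hi

/-- superpartition from a decreasing exponent -/
def SPart.mk' (m : ℕ) (hm : m ≤ N) (a : Fin N → ℕ) (h : Decr (In N m) a) : SPart N where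
  m := m
  hm := hm
  part := a
  strict := fun i j hij hj => h.1 i (mem_In.mpr (lt_trans hij hj)) j (mem_In.mpr hj) hij
  weak := fun i j hij hi => h.2 i (fun h' => by rw [mem_In] at h'; omega) j
    (fun h' => by rw [mem_In] at h'; have : (i : ℕ) < j := hij; omega) hij

lemma SPart.ext' {Λ Ω : SPart N} (h1 : Λ.m = Ω.m) (h2 : Λ.part = Ω.part) : Λ = Ω := by
  cases Λ
  cases Ω
  simp only at h1 h2
  subst h1
  subst h2
  rfl

/-- coefficient functional -/
noncomputable def cf (Λ : SPart N) (F : SuperPoly K N) : K := coeff Λ.ex (cm (In N Λ.m) F)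

lemma cf_add (Λ : SPart N) (F G : SuperPoly K N) : cf Λ (F + G) = cf Λ F + cf Λ G := by
  rw [cf, map_add, coeff_add]; rfl

lemma cf_smul (Λ : SPart N) (c : K) (F : SuperPoly K N) : cf Λ (c • F) = c * cf Λ F := by
  rw [cf, LinearMap.map_smul_of_tower, coeff_smul]; rfl

lemma eq_zero_of_cf [CharZero K] {F : SuperPoly K N} (hF : IsSym F)
    (h : ∀ Λ : SPart N, cf Λ F = 0) : F = 0 := by
  apply sym_eq_zero hF
  intro m hm
  apply SS_eq_zero (cm_mem_SS hF _)
  intro a ha
  have h1 := h (SPart.mk' m hm a ha)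
  have h2 : (SPart.mk' m hm a ha).ex = a := by
    ext i
    rfl
  rw [cf, h2] at h1
  exact h1

lemma IsSym.add {F G : SuperPoly K N} (hF : IsSym F) (hG : IsSym G) : IsSym (F + G) := by
  intro σ
  rw [map_add, hF σ, hG σ]

lemma IsSym.smul {F : SuperPoly K N} (c : K) (hF : IsSym F) : IsSym (c • F) := by
  intro σ
  rw [map_smul, hF σ]

lemma IsSym.sub {F G : SuperPoly K N} (hF : IsSym F) (hG : IsSym G) : IsSym (F - G) := by
  intro σ
  rw [map_sub, hF σ, hG σ]

lemma IsSym.zero : IsSym (0 : SuperPoly K N) := fun _ => map_zero _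

lemma IsSym.sum {ι : Type*} (s : Finset ι) (F : ι → SuperPoly K N)
    (h : ∀ i ∈ s, IsSym (F i)) : IsSym (∑ i ∈ s, F i) := by
  intro σ
  rw [map_sum]
  exact sum_congr rfl (fun i hi => h i hi σ)

lemma act_act (σ τ : Equiv.Perm (Fin N)) (F : SuperPoly K N) :
    act σ (act τ F) = act (σ * τ) F := by
  apply cmp_ext
  intro S
  obtain ⟨T, rfl⟩ : ∃ T : Finset (Fin N), T.map (σ * τ).toEmbedding = S :=
    ⟨S.map (σ * τ).symm.toEmbedding, by
      ext x
      simp⟩
  have h1 : T.map (σ * τ).toEmbedding = (T.map τ.toEmbedding).map σ.toEmbedding := by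
    rw [map_map]
    rfl
  have h2 : pe K (σ * τ) (bE K N T) = pe K σ (pe K τ (bE K N T)) := by
    rw [pe_bE_eq _ rfl, pe_bE_eq _ rfl, iotaMulti_eq_tl, iotaMulti_eq_tl, tl, tl, map_list_prod,
      List.map_map, List.map_ofFn, List.map_ofFn]
    congr 2
    funext p
    simp only [Function.comp_apply, pe_te]
    rfl
  have h3 : ((eps K (σ * τ) T : ℤ) : K) =
      ((eps K σ (T.map τ.toEmbedding) : ℤ) : K) * ((eps K τ T : ℤ) : K) := by
    rw [pe_bE', pe_bE', map_smul, pe_bE', ← h1, smul_smul] at h2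
    have h4 : (((eps K (σ * τ) T : ℤ) : K) - ((eps K τ T : ℤ) : K) *
        ((eps K σ (T.map τ.toEmbedding) : ℤ) : K)) • bE K N (T.map (σ * τ).toEmbedding) = 0 := by
      rw [sub_smul, sub_eq_zero]
      exact h2
    rcases smul_eq_zero.mp h4 with h | h
    · rw [sub_eq_zero.mp h, mul_comm]
    · exact absurd h ((bE K N).ne_zero _)
  change cm (T.map (σ * τ).toEmbedding) (act σ (act τ F)) =
    cm (T.map (σ * τ).toEmbedding) (act (σ * τ) F)
  rw [cm_act (σ * τ), h3]
  conv_lhs => rw [h1]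
  rw [cm_act, cm_act, map_smul, smul_smul, rename_rename, Equiv.Perm.coe_mul]

lemma base_eq (Λ : SPart N) :
    ((List.ofFn fun i : Fin Λ.m => (th (Fin.castLE Λ.hm i) : SuperPoly K N)).prod *
      (∏ i : Fin N, X i ^ Λ.part i) ⊗ₜ[K] 1) = (monomial Λ.ex 1) ⊗ₜ[K] bE K N (In N Λ.m) := by
  have h1 : (List.ofFn fun i : Fin Λ.m => (th (Fin.castLE Λ.hm i) : SuperPoly K N)).prod =
      1 ⊗ₜ[K] bE K N (In N Λ.m) := by
    rw [bE_In Λ.hm]
    have h2 := map_list_prod (Algebra.TensorProduct.includeRight :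
      EA K N →ₐ[K] MvPolynomial (Fin N) K ⊗[K] EA K N)
      (List.ofFn fun i : Fin Λ.m => te K (Fin.castLE Λ.hm i))
    rw [List.map_ofFn] at h2
    exact h2.symm
  have h3 : (∏ i : Fin N, X i ^ Λ.part i : MvPolynomial (Fin N) K) = monomial Λ.ex 1 := by
    rw [monomial_eq, map_one, one_mul, Finsupp.prod_fintype]
    · rfl
    · intro i
      exact pow_zero _
  rw [h1, h3, Algebra.TensorProduct.tmul_mul_tmul, one_mul, mul_one]

lemma act_base (Λ : SPart N) (σ : Equiv.Perm (Fin N)) :
    act σ ((monomial Λ.ex (1 : K)) ⊗ₜ[K] bE K N (In N Λ.m)) =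
      (monomial (Finsupp.mapDomain σ Λ.ex) (1 : K)) ⊗ₜ[K] pe K σ (bE K N (In N Λ.m)) := by
  rw [act, TensorProduct.map_tmul, AlgHom.toLinearMap_apply, AlgHom.toLinearMap_apply,
    rename_monomial]

lemma mono_eq (Λ : SPart N) : Λ.mono K = (Λ.aut : K)⁻¹ • ∑ σ : Equiv.Perm (Fin N),
    (monomial (Finsupp.mapDomain σ Λ.ex) (1 : K)) ⊗ₜ[K] pe K σ (bE K N (In N Λ.m)) := by
  rw [SPart.mono]
  simp only [base_eq, act_base]

lemma mono_sym (Λ : SPart N) : IsSym (Λ.mono K) := by
  intro τ
  rw [SPart.mono, map_smul, map_sum]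
  congr 1
  simp only [act_act]
  exact Equiv.sum_comp (Equiv.mulLeft τ) (fun σ => act σ _)

lemma cm_pe_zero {σ : Equiv.Perm (Fin N)} {S T : Finset (Fin N)} (h : S.map σ.toEmbedding ≠ T)
    (f : MvPolynomial (Fin N) K) : cm T (f ⊗ₜ[K] pe K σ (bE K N S)) = 0 := by
  rw [cmp_tmul, pe_bE', map_smul, Finsupp.smul_apply, repr_bE, if_neg h, smul_zero, zero_smul]

lemma cm_mono_ne (Λ : SPart N) {m : ℕ} (hm : m ≤ N) (h : m ≠ Λ.m) :
    cm (In N m) (Λ.mono K) = 0 := by
  rw [mono_eq, LinearMap.map_smul_of_tower, map_sum, sum_eq_zero, smul_zero]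
  intro σ _
  apply cm_pe_zero
  intro h1
  have h2 := congrArg card h1
  rw [card_map, card_In Λ.hm, card_In hm] at h2
  exact h h2.symm

lemma exists_yg {I : Finset (Fin N)} {σ : Equiv.Perm (Fin N)} (h : I.map σ.toEmbedding = I) :
    ∃ τ ρ, σ = yg I τ ρ := by
  have h1 : ∀ i, i ∈ I ↔ σ i ∈ I := by
    intro i
    constructor
    · intro hi
      rw [← h]
      exact mem_map_of_mem _ hi
    · intro hi
      rw [← h, mem_map] at hi
      obtain ⟨j, hj, hji⟩ := hi
      rw [← σ.injective hji]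
      exact hj
  refine ⟨σ.subtypePerm (fun i => (h1 i).symm), σ.subtypePerm (fun i => not_congr (h1 i).symm), ?_⟩
  ext i
  by_cases hi : i ∈ I
  · rw [yg, Equiv.Perm.subtypeCongr.left_apply _ _ hi]
    rfl
  · rw [yg, Equiv.Perm.subtypeCongr.right_apply _ _ hi]
    rfl

/-- terms of the component of `m_Λ` -/
lemma cm_term_mono (Λ : SPart N) (σ : Equiv.Perm (Fin N)) (b : Fin N →₀ ℕ)
    (hne : coeff b (cm (In N Λ.m) ((monomial (Finsupp.mapDomain σ Λ.ex) (1 : K)) ⊗ₜ[K]
      pe K σ (bE K N (In N Λ.m)))) ≠ 0) :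
    ∃ τ ρ, σ = yg (In N Λ.m) τ ρ ∧ Finsupp.mapDomain σ Λ.ex = b := by
  by_cases h : (In N Λ.m).map σ.toEmbedding = In N Λ.m
  · obtain ⟨τ, ρ, hσ⟩ := exists_yg h
    refine ⟨τ, ρ, hσ, ?_⟩
    by_contra hb
    apply hne
    rw [cmp_tmul, coeff_smul, coeff_monomial, if_neg hb, smul_zero]
  · exfalso
    apply hne
    rw [cm_pe_zero h, coeff_zero]

lemma cm_mono_supp (Λ : SPart N) (b : Fin N →₀ ℕ)
    (hne : coeff b (cm (In N Λ.m) (Λ.mono K)) ≠ 0) : Orb (In N Λ.m) b Λ.part := by
  rw [mono_eq, LinearMap.map_smul_of_tower, map_sum, coeff_smul, coeff_sum] at hne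
  have h1 := right_ne_zero_of_mul hne
  obtain ⟨σ, _, h2⟩ := exists_ne_zero_of_sum_ne_zero h1
  obtain ⟨τ, ρ, hσ, hb⟩ := cm_term_mono Λ σ b h2
  apply Orb.symm
  refine ⟨τ, ρ, ?_⟩
  ext i
  rw [← hb, Function.comp_apply, ← hσ, mapDomain_perm]
  rfl

lemma cf_mono_self [CharZero K] (Λ : SPart N) : cf Λ (Λ.mono K) = 1 := by
  classical
  rw [cf, mono_eq, LinearMap.map_smul_of_tower, map_sum, coeff_smul, coeff_sum]
  have hterm : ∀ σ : Equiv.Perm (Fin N),
      coeff Λ.ex (cm (In N Λ.m) ((monomial (Finsupp.mapDomain σ Λ.ex) (1 : K)) ⊗ₜ[K]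
        pe K σ (bE K N (In N Λ.m)))) =
      if ((∀ i : Fin N, (i : ℕ) < Λ.m → σ i = i) ∧ ∀ i : Fin N, Λ.part (σ i) = Λ.part i)
        then 1 else 0 := by
    intro σ
    split_ifs with h
    · have h1 : (In N Λ.m).map σ.toEmbedding = In N Λ.m := by
        ext x
        rw [mem_map]
        constructor
        · rintro ⟨y, hy, rfl⟩
          rw [Equiv.coe_toEmbedding, h.1 y (mem_In.mp hy)]
          exact hy
        · intro hx
          exact ⟨x, hx, h.1 x (mem_In.mp hx)⟩
      obtain ⟨τ, ρ, hσ⟩ := exists_yg h1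
      have h2 : τ = 1 := by
        ext i
        have h3 := h.1 i (mem_In.mp i.2)
        rw [hσ, yg, Equiv.Perm.subtypeCongr.left_apply _ _ i.2] at h3
        rw [Equiv.Perm.coe_one, id]
        exact congrArg Fin.val h3
      have h4 : Finsupp.mapDomain σ Λ.ex = Λ.ex := by
        ext l
        obtain ⟨l, rfl⟩ := σ.surjective l
        rw [mapDomain_perm]
        exact (h.2 l).symm
      rw [cmp_tmul, h4, coeff_smul, coeff_monomial, if_pos rfl, hσ, pe_yg, h2]
      simp
    · by_contra hne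
      apply h
      obtain ⟨τ, ρ, hσ, hb⟩ := cm_term_mono Λ σ Λ.ex hne
      have h5 : ∀ i, Λ.part (σ i) = Λ.part i := by
        intro i
        have h6 := mapDomain_perm σ Λ.ex i
        rw [hb] at h6
        exact h6
      refine ⟨?_, h5⟩
      intro i hi
      by_contra hne2
      have hi' : i ∈ In N Λ.m := mem_In.mpr hi
      have hσi : σ i ∈ In N Λ.m := by rw [hσ]; exact (yg_mem_iff _ τ ρ i).mpr hi'
      exact Λ.decr.inj _ hσi _ hi' hne2 (h5 i)
  simp only [hterm]
  rw [← sum_filter, sum_const, nsmul_eq_mul, mul_one]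
  have h7 : (univ.filter (fun σ : Equiv.Perm (Fin N) => (∀ i : Fin N, (i : ℕ) < Λ.m → σ i = i) ∧
      ∀ i : Fin N, Λ.part (σ i) = Λ.part i)).card = Λ.aut := by
    rw [SPart.aut, Fintype.card_subtype]
  rw [h7, smul_eq_mul, inv_mul_cancel₀]
  rw [Nat.cast_ne_zero, SPart.aut]
  have : Nonempty {σ : Equiv.Perm (Fin N) //
    (∀ i : Fin N, (i : ℕ) < Λ.m → σ i = i) ∧ ∀ i : Fin N, Λ.part (σ i) = Λ.part i} :=
    ⟨1, fun _ _ => rfl, fun _ => rfl⟩
  exact Fintype.card_ne_zero

lemma cf_mono_ne {Λ Ω : SPart N} (h : Ω ≠ Λ) : cf Ω (Λ.mono K) = 0 := by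
  rw [cf]
  by_cases hm : Ω.m = Λ.m
  · by_contra hne
    rw [hm] at hne
    have h1 := cm_mono_supp Λ Ω.ex hne
    have h2 : Decr (In N Λ.m) Ω.part := by rw [← hm]; exact Ω.decr
    have h3 := Decr.eq_of_orb Λ.decr h2 h1
    exact h (SPart.ext' hm h3)
  · rw [cm_mono_ne Λ Ω.hm hm, coeff_zero]

end Pool.Agent.Lib.MP_2558e3_co
end

section

/-!
Dominance order and admissibility in terms of exponents.
-/

namespace Pool.Agent.Lib.MP_2558e3_co

open Finset MvPolynomial

variable {N : ℕ}

lemma sortDesc_anti (a : Fin N → ℕ) : Antitone (sortDesc a) := by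
  intro x y hxy
  exact Tuple.monotone_sort (fun j => OrderDual.toDual (a j)) hxy

lemma sortDesc_eq (a : Fin N → ℕ) (i : Fin N) :
    sortDesc a i = a (Tuple.sort (fun j => OrderDual.toDual (a j)) i) := rfl

/-- extension by zero to naturals -/
def ext0 (u : Fin N → ℕ) (p : ℕ) : ℕ := if h : p < N then u ⟨p, h⟩ else 0

lemma sum_ext0 (u : Fin N → ℕ) (F : ℕ → ℕ) : ∑ p ∈ range N, F (ext0 u p) = ∑ i, F (u i) := by
  rw [sum_range]
  apply sum_congr rfl
  intro p _
  rw [ext0, dif_pos p.2]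

lemma sum_sortDesc (a : Fin N → ℕ) (F : ℕ → ℕ) : ∑ i, F (sortDesc a i) = ∑ i, F (a i) :=
  Equiv.sum_comp (Tuple.sort (fun j => OrderDual.toDual (a j))) (fun i => F (a i))

lemma sum_partial (u : Fin N → ℕ) (n : ℕ) (hn : n ≤ N) :
    ∑ i ∈ univ.filter (fun i : Fin N => (i : ℕ) < n), u i = ∑ p ∈ range n, ext0 u p := by
  have h1 : ∑ i ∈ univ.filter (fun i : Fin N => (i : ℕ) < n), u i =
      ∑ p ∈ range N, if p < n then ext0 u p else 0 := by
    rw [sum_filter, sum_range]
    apply sum_congr rfl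
    intro p _
    rw [ext0, dif_pos p.2]
  rw [h1, ← sum_filter]
  apply sum_congr _ (fun _ _ => rfl)
  ext p
  rw [mem_filter, mem_range, mem_range]
  omega

lemma ext0_anti {u : Fin N → ℕ} (hu : Antitone u) (p q : ℕ) (h : p ≤ q) (hq : q < N) :
    ext0 u q ≤ ext0 u p := by
  rw [ext0, ext0, dif_pos hq, dif_pos (lt_of_le_of_lt h hq)]
  exact hu h

lemma domLe_iff {u v : Fin N → ℕ} (hu : Antitone u) (hv : Antitone v) :
    DomLe u v ↔ Maj u v := by
  constructor
  · rintro ⟨h1, h2⟩
    refine ⟨h1, fun t => ?_⟩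
    rw [← sum_ext0 u (fun x => x - t), ← sum_ext0 v (fun x => x - t)]
    apply maj_of_partial (ext0_anti hu)
    intro r hr
    rw [← sum_partial u r hr, ← sum_partial v r hr]
    exact h2 r
  · rintro ⟨h1, h2⟩
    refine ⟨h1, fun n => ?_⟩
    rcases le_total n N with hn | hn
    · rw [sum_partial u n hn, sum_partial v n hn]
      apply partial_of_maj (ext0_anti hv) _ hn
      intro t
      rw [sum_ext0 u (fun x => x - t), sum_ext0 v (fun x => x - t)]
      exact h2 t
    · have e : univ.filter (fun i : Fin N => (i : ℕ) < n) = univ := by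
        ext i
        simp only [mem_filter, mem_univ, true_and, iff_true]
        exact lt_of_lt_of_le i.2 hn
      rw [e]
      exact h1.le

lemma maj_sortDesc {a b : Fin N → ℕ} : Maj (sortDesc b) (sortDesc a) ↔ Maj b a := by
  unfold Maj
  rw [sum_sortDesc a (fun x => x), sum_sortDesc b (fun x => x)]
  have h : ∀ t, (∑ i, (sortDesc b i - t) ≤ ∑ i, (sortDesc a i - t)) ↔
      (∑ i, (b i - t) ≤ ∑ i, (a i - t)) := by
    intro t
    rw [sum_sortDesc a (fun x => x - t), sum_sortDesc b (fun x => x - t)]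
  simp only [h]

lemma dom_sortDesc {a b : Fin N → ℕ} : DomLe (sortDesc b) (sortDesc a) ↔ Maj b a := by
  rw [domLe_iff (sortDesc_anti b) (sortDesc_anti a), maj_sortDesc]

lemma circ_eq (Λ : SPart N) : Λ.circ = sortDesc (fl (In N Λ.m) Λ.part) := by
  rw [SPart.circ]
  congr 1
  ext i
  unfold fl
  simp only [mem_In]

lemma sum_fl (I : Finset (Fin N)) (a : Fin N → ℕ) : ∑ i, fl I a i = ∑ i, a i + I.card := by
  have : I.card = ∑ j : Fin N, (if j ∈ I then 1 else 0) := by
    rw [← sum_mem_eq I]; simp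
  rw [this, ← sum_add_distrib]
  rfl

lemma SPart.le_iff {Ω Λ : SPart N} : Ω.Le Λ ↔ Ω.m = Λ.m ∧ Maj Ω.part Λ.part ∧
    Maj (fl (In N Ω.m) Ω.part) (fl (In N Λ.m) Λ.part) := by
  unfold SPart.Le
  rw [circ_eq, circ_eq, SPart.star, SPart.star, dom_sortDesc, dom_sortDesc]
  constructor
  · rintro ⟨h1, h2⟩
    refine ⟨?_, h1, h2⟩
    have e1 := h1.1
    have e2 := h2.1
    rw [sum_fl, sum_fl, card_In Ω.hm, card_In Λ.hm] at e2
    omega
  · rintro ⟨_, h1, h2⟩
    exact ⟨h1, h2⟩

lemma SPart.le_cases {Ω Λ : SPart N} (h : Ω.Le Λ) :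
    Ω.m = Λ.m ∧ (Ω = Λ ∨ Lt (In N Λ.m) Ω.part Λ.part) := by
  rw [SPart.le_iff] at h
  obtain ⟨hm, h1, h2⟩ := h
  refine ⟨hm, ?_⟩
  rw [hm] at h2
  rcases (Wt_le_of_Maj h1 h2).lt_or_eq with h3 | h3
  · right; exact ⟨h1, h2, h3⟩
  · left
    apply SPart.ext' hm
    apply Decr.eq_of_orb Λ.decr
    · rw [← hm]; exact Ω.decr
    · exact orb_of_Maj h1 h2 h3

lemma SPart.le_of_lt {Ω Λ : SPart N} (hm : Ω.m = Λ.m) (h : Lt (In N Λ.m) Ω.part Λ.part) :
    Ω.Le Λ := by
  rw [SPart.le_iff]
  refine ⟨hm, h.1, ?_⟩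
  rw [hm]
  exact h.2.1

lemma SPart.le_refl (Λ : SPart N) : Λ.Le Λ := by
  rw [SPart.le_iff]
  exact ⟨rfl, Maj.refl _, Maj.refl _⟩

/-- sorted star and circ in terms of sorted keys -/
lemma sorted_star (I : Finset (Fin N)) (a : Fin N → ℕ) (p : Fin N) :
    sortDesc a p = a (srt I a p) := by
  have h1 : Antitone (fun p => a (srt I a p)) := by
    intro x y hxy
    have := key_srt I a hxy
    have e1 := key_div I a (srt I a x)
    have e2 := key_div I a (srt I a y)
    simp only
    omega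
  have h2 := antitone_perm_eq (sortDesc_anti a) h1
    ((srt I a).trans (Tuple.sort (fun j => OrderDual.toDual (a j))).symm) (fun i => by
      rw [sortDesc_eq]
      simp)
  exact (congrFun h2 p).symm

lemma sorted_circ (I : Finset (Fin N)) (a : Fin N → ℕ) (p : Fin N) :
    sortDesc (fl I a) p = fl I a (srt I a p) := by
  have h1 : Antitone (fun p => fl I a (srt I a p)) := by
    intro x y hxy
    have := key_srt I a hxy
    have e1 := key_div' I a (srt I a x)
    have e2 := key_div' I a (srt I a y)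
    simp only
    omega
  have h2 := antitone_perm_eq (sortDesc_anti (fl I a)) h1
    ((srt I a).trans (Tuple.sort (fun j => OrderDual.toDual (fl I a j))).symm) (fun i => by
      rw [sortDesc_eq]
      simp)
  exact (congrFun h2 p).symm

/-- admissibility in terms of windows -/
lemma adm_iff {k : ℕ} (Λ : SPart N) :
    Λ.Admissible k 2 ↔ ∀ j, wcard (In N Λ.m) Λ.part j ≤ k := by
  set I := In N Λ.m with hI
  set a := Λ.part with ha
  have hstar : ∀ p, Λ.star p = a (srt I a p) := fun p => sorted_star I a p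
  have hcirc : ∀ p, Λ.circ p = fl I a (srt I a p) := fun p => by
    rw [circ_eq]; exact sorted_circ I a p
  constructor
  · intro h j
    by_contra hcon
    rw [not_le] at hcon
    -- the set of sorted positions in the window
    set W := univ.filter (fun p : Fin N => 2 * j ≤ key I a (srt I a p) ∧
      key I a (srt I a p) ≤ 2 * j + 2) with hW
    have hWc : W.card = wcard I a j := by
      have : W.map (srt I a).toEmbedding =
          univ.filter (fun i => 2 * j ≤ key I a i ∧ key I a i ≤ 2 * j + 2) := by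
        ext i
        rw [mem_map, mem_filter]
        constructor
        · rintro ⟨p, hp, rfl⟩
          rw [hW, mem_filter] at hp
          exact ⟨mem_univ _, hp.2⟩
        · rintro ⟨_, hi⟩
          refine ⟨(srt I a).symm i, ?_, Equiv.apply_symm_apply _ _⟩
          rw [hW, mem_filter, Equiv.apply_symm_apply]
          exact ⟨mem_univ _, hi⟩
      rw [wcard, ← this, card_map]
    have hne : W.Nonempty := by rw [← card_pos]; omega
    set p := W.min' hne with hp
    set q := W.max' hne with hq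
    have hpW := W.min'_mem hne
    have hqW := W.max'_mem hne
    rw [← hp] at hpW
    rw [← hq] at hqW
    have hsub : W ⊆ Finset.Icc p q := by
      intro x hx
      rw [mem_Icc]
      exact ⟨W.min'_le x hx, W.le_max' x hx⟩
    have hcard := card_le_card hsub
    rw [Fin.card_Icc] at hcard
    have hpq : (p : ℕ) + k ≤ q := by omega
    have hlt : (p : ℕ) + k < N := lt_of_le_of_lt hpq q.2
    have h1 := h p ⟨(p : ℕ) + k, hlt⟩ rfl
    rw [hstar, hcirc] at h1
    have h2 : key I a (srt I a q) ≤ key I a (srt I a ⟨(p : ℕ) + k, hlt⟩) := key_srt I a hpq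
    rw [hW, mem_filter] at hpW hqW
    have e1 := key_div I a (srt I a ⟨(p : ℕ) + k, hlt⟩)
    have e2 := key_div' I a (srt I a p)
    omega
  · intro h i j hij
    rw [hstar, hcirc]
    have h1 := gap h (i := srt I a i) (j := srt I a j) (by
      rw [pos_srt, pos_srt, hij])
    have e2 := key_div' I a (srt I a i)
    omega

end Pool.Agent.Lib.MP_2558e3_co
end

section

/-!
The basis theorem for the clustering ideal.
-/

namespace Pool.Agent.Lib.MP_2558e3_co

open scoped TensorProduct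
open Finset MvPolynomial

variable {K : Type} [Field K] {N : ℕ}

/-- the superpolynomial with expansion `c` -/
noncomputable abbrev pol (c : SPart N →₀ K) : SuperPoly K N := c.sum fun Ω x => x • Ω.mono K

lemma pol_sym (c : SPart N →₀ K) : IsSym (pol c) :=
  IsSym.sum _ _ (fun Ω _ => (mono_sym Ω).smul _)

lemma cf_sum {ι : Type*} (Λ : SPart N) (s : Finset ι) (F : ι → SuperPoly K N) :
    cf Λ (∑ i ∈ s, F i) = ∑ i ∈ s, cf Λ (F i) := by
  rw [cf, map_sum, coeff_sum]
  rfl

lemma cf_pol [CharZero K] (c : SPart N →₀ K) (Ω : SPart N) : cf Ω (pol c) = c Ω := by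
  classical
  rw [pol, Finsupp.sum, cf_sum]
  have h : ∀ Ω' ∈ c.support, cf Ω (c Ω' • Ω'.mono K) = if Ω' = Ω then c Ω else 0 := by
    intro Ω' _
    rw [cf_smul]
    split_ifs with h
    · rw [h, cf_mono_self, mul_one]
    · rw [cf_mono_ne (fun h' => h h'.symm), mul_zero]
  rw [sum_congr rfl h, sum_ite_eq']
  split_ifs with h1
  · rfl
  · rw [Finsupp.mem_support_iff, not_not] at h1
    exact h1.symm

lemma pol_cm_ne (c : SPart N →₀ K) {Λ : SPart N} (hc : ∀ Ω, c Ω ≠ 0 → Ω.Le Λ) {m : ℕ}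
    (hm : m ≤ N) (hne : m ≠ Λ.m) : cm (In N m) (pol c) = 0 := by
  rw [pol, Finsupp.sum, map_sum]
  apply sum_eq_zero
  intro Ω hΩ
  rw [Finsupp.mem_support_iff] at hΩ
  have h1 := (SPart.le_cases (hc Ω hΩ)).1
  rw [LinearMap.map_smul_of_tower, cm_mono_ne Ω hm (by rw [h1]; exact hne), smul_zero]

lemma Orb.lt_left {I : Finset (Fin N)} {a b c : Fin N → ℕ} (h : Orb I b a) :
    Lt I b c ↔ Lt I a c := by
  obtain ⟨τ, ρ, rfl⟩ := h
  exact Lt_comp_left (yg_mem_iff I τ ρ)

lemma pol_lead [CharZero K] (c : SPart N →₀ K) {Λ : SPart N} (h1 : c Λ = 1)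
    (hc : ∀ Ω, c Ω ≠ 0 → Ω.Le Λ) : Lead (In N Λ.m) Λ.ex (cm (In N Λ.m) (pol c)) := by
  refine ⟨cm_mem_SS (pol_sym c) _, ?_, ?_⟩
  · have := cf_pol c Λ
    rw [h1] at this
    exact this
  · intro b hb
    rw [pol, Finsupp.sum, map_sum, coeff_sum] at hb
    obtain ⟨Ω, hΩ, h2⟩ := exists_ne_zero_of_sum_ne_zero hb
    rw [Finsupp.mem_support_iff] at hΩ
    rw [LinearMap.map_smul_of_tower, coeff_smul] at h2
    have h3 := right_ne_zero_of_mul h2
    obtain ⟨hm, h4⟩ := SPart.le_cases (hc Ω hΩ)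
    rw [← hm] at h3
    have h5 := cm_mono_supp Ω b h3
    rw [hm] at h5
    rcases h4 with h4 | h4
    · left
      rw [h4] at h5
      exact h5
    · right
      exact h5.lt_left.mpr h4

lemma am_injective : Function.Injective (am K N) := IsFractionRing.injective _ _

lemma eigD_iff [CharZero K] {F : SuperPoly K N} (hF : IsSym F) (α e : K) :
    opD α F = e • toRat F ↔ ∀ S, opD2 α (cm S F) = (2 * e) • cm S F := by
  constructor
  · intro h S
    have h1 := cr_opD hF α S
    rw [h, LinearMap.map_smul_of_tower, cr_toRat, smul_smul, ← am_smul] at h1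
    exact (am_injective h1).symm
  · intro h
    apply cmp_ext
    intro S
    change cr S (opD α F) = cr S (e • toRat F)
    have h1 := cr_opD hF α S
    rw [h S, am_smul, mul_smul] at h1
    rw [LinearMap.map_smul_of_tower, cr_toRat]
    exact smul_right_injective _ (two_ne_zero (α := K)) h1

lemma eigDelta_iff [CharZero K] {F : SuperPoly K N} (hF : IsSym F) (α e : K) :
    opDelta α F = e • toRat F ↔ ∀ S, opDel α S (cm S F) = e • cm S F := by
  constructor
  · intro h S
    have h1 := cr_opDelta hF α S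
    rw [h, LinearMap.map_smul_of_tower, cr_toRat, ← am_smul] at h1
    exact (am_injective h1).symm
  · intro h
    apply cmp_ext
    intro S
    change cr S (opDelta α F) = cr S (e • toRat F)
    rw [cr_opDelta hF α S, h S, am_smul, LinearMap.map_smul_of_tower, cr_toRat]

lemma jack_eigen [CharZero K] {α : K} {Λ : SPart N} {c : SPart N →₀ K} (h : IsJack α Λ c) :
    ∃ x : K, opH α (In N Λ.m) (cm (In N Λ.m) (pol c)) = x • cm (In N Λ.m) (pol c) := by
  obtain ⟨_, _, ⟨e₁, h1⟩, ⟨e₂, h2⟩⟩ := h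
  have h3 := (eigD_iff (pol_sym c) α e₁).mp h1 (In N Λ.m)
  have h4 := (eigDelta_iff (pol_sym c) α e₂).mp h2 (In N Λ.m)
  refine ⟨2 * e₁ + e₂, ?_⟩
  rw [opH, LinearMap.add_apply, h3, h4, add_smul]

instance : CharZero (RatFunc ℚ) := algebraRat.charZero _

/-- uniqueness of Jack superpolynomials -/
theorem jack_unique {Λ : SPart N} {c c' : SPart N →₀ RatFunc ℚ} (h : IsJack RatFunc.X Λ c)
    (h' : IsJack RatFunc.X Λ c') : c = c' := by
  obtain ⟨x, hx⟩ := jack_eigen h
  obtain ⟨x', hx'⟩ := jack_eigen h'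
  have hL := pol_lead c h.1 h.2.1
  have hL' := pol_lead c' h'.1 h'.2.1
  have e1 := lead_eigenvalue (tri_opH (RatFunc.X : RatFunc ℚ) (In N Λ.m)) hL hx
  have e2 := lead_eigenvalue (tri_opH (RatFunc.X : RatFunc ℚ) (In N Λ.m)) hL' hx'
  rw [e1] at hx
  rw [e2] at hx'
  have h1 := proj_eigen hx
  have h2 := proj_eigen hx'
  rw [proj_congr _ hL hL', h2] at h1
  have hd : dif (RatFunc.X : RatFunc ℚ) (In N Λ.m) Λ.ex ≠ 0 := by
    have h3 := map_dif (algebraMap (Polynomial ℚ) (RatFunc ℚ)) Polynomial.X (In N Λ.m) Λ.ex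
    rw [RatFunc.algebraMap_X] at h3
    rw [← h3]
    intro h4
    have := (map_eq_zero_iff _ (IsFractionRing.injective (Polynomial ℚ) (RatFunc ℚ))).mp h4
    exact dif_ne_zero_generic this
  have h5 : cm (In N Λ.m) (pol c') = cm (In N Λ.m) (pol c) := by
    have h6 : dif (RatFunc.X : RatFunc ℚ) (In N Λ.m) Λ.ex •
        (cm (In N Λ.m) (pol c') - cm (In N Λ.m) (pol c)) = 0 := by
      rw [smul_sub, h1, sub_self]
    rcases smul_eq_zero.mp h6 with h7 | h7
    · exact absurd h7 hd
    · exact sub_eq_zero.mp h7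
  ext Ω
  by_cases hm : Ω.m = Λ.m
  · rw [← cf_pol c, ← cf_pol c', cf, cf, hm, h5]
  · have z : ∀ d : SPart N →₀ RatFunc ℚ, (∀ Ω, d Ω ≠ 0 → Ω.Le Λ) → d Ω = 0 := by
      intro d hd
      by_contra hne
      exact hm (SPart.le_cases (hd Ω hne)).1
    rw [z c h.2.1, z c' h'.2.1]

end Pool.Agent.Lib.MP_2558e3_co
end
end
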