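import Pool.Agent.Lib.MP_2558e3_co.Bridge2
import Pool.Agent.Lib.MP_2558e3_co.Main

section

/-!
Commutativity of the two operators.
-/

namespace Pool.Agent.Lib.MP_2558e3_co

open Finset MvPolynomial

variable {K : Type} [Field K] {N : ℕ}

/-- simultaneous eigenvector of the Euler operators -/
def Eig (g : MvPolynomial (Fin N) K) (u : Fin N → K) : Prop := ∀ a, opT a g = u a • g

lemma eig_monomial (e : Fin N →₀ ℕ) : Eig (monomial e (1 : K)) (fun a => (e a : K)) :=
  fun a => opT_monomial a e

lemma Eig.ksw {g : MvPolynomial (Fin N) K} {u : Fin N → K} (h : Eig g u) (p q : Fin N) :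
    Eig (Ksw p q g) (fun a => u (Equiv.swap p q a)) := by
  intro a
  have h1 := rename_opT (Equiv.swap p q) (Equiv.swap p q a) g
  rw [Equiv.swap_apply_self, h, map_smul] at h1
  exact h1.symm

/-- cast of scalars -/
noncomputable abbrev sc (K : Type) [Field K] (N : ℕ) : K →+* FractionRing (MvPolynomial (Fin N) K) :=
  algebraMap K (FractionRing (MvPolynomial (Fin N) K))

lemma Eig.am {g : MvPolynomial (Fin N) K} {u : Fin N → K} (h : Eig g u) (a : Fin N) :
    am K N (opT a g) = sc K N (u a) * am K N g := by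
  rw [h a, am_smul, Algebra.smul_def]

lemma opT_mul (p : Fin N) (f g : MvPolynomial (Fin N) K) :
    opT p (f * g) = opT p f * g + f * opT p g := by
  rw [opT_eq, opT_eq, opT_eq, Derivation.leibniz]
  simp only [smul_eq_mul]
  ring

lemma opT_X_self (p : Fin N) : opT p (X p : MvPolynomial (Fin N) K) = X p := by
  rw [opT_eq, pderiv_X_self, mul_one]

lemma opT_X_ne {p q : Fin N} (h : q ≠ p) : opT p (X q : MvPolynomial (Fin N) K) = 0 := by
  rw [opT_eq, pderiv_X_of_ne h, mul_zero]

lemma am_A {p q : Fin N} (h : p ≠ q) (g : MvPolynomial (Fin N) K) :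
    am K N (opA p q g) = (rx K q * am K N (opT p g) - rx K p * am K N (opT q g)) /
      (rx K p - rx K q) - rx K p * rx K q / (rx K p - rx K q) ^ 2 *
        (am K N g - am K N (Ksw p q g)) := by
  have h1 := congrArg (am K N) (opA_spec h g)
  simp only [map_mul, map_sub] at h1
  have hne := rx_sub_ne (K := K) h
  change (rx K p - rx K q) * ((rx K p - rx K q) * am K N (opA p q g)) =
    (rx K p - rx K q) * (rx K q * am K N (opT p g) -
      rx K p * am K N (opT q g)) -
      rx K p * rx K q * (am K N g - am K N (Ksw p q g)) at h1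
  field_simp
  linear_combination h1

lemma am_TB_left {p q : Fin N} (h : p ≠ q) (g : MvPolynomial (Fin N) K) :
    am K N (opT p (opB p q g)) = (rx K q * (am K N (opT p g) - am K N (opT p (Ksw p q g))) -
      rx K p * am K N (opB p q g)) / (rx K p - rx K q) := by
  have h1 := congrArg (opT p) (opB_spec h g)
  rw [opT_mul, opT_mul, map_sub, map_sub, opT_X_self, opT_X_ne h.symm] at h1
  have h2 := congrArg (am K N) h1
  simp only [map_mul, map_sub, map_add, map_zero] at h2
  have hne := rx_sub_ne (K := K) h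
  change (rx K p - 0) * am K N (opB p q g) + (rx K p - rx K q) * am K N (opT p (opB p q g)) =
    0 * (am K N g - am K N (Ksw p q g)) +
      rx K q * (am K N (opT p g) - am K N (opT p (Ksw p q g))) at h2
  field_simp
  linear_combination h2

lemma am_TB_right {p q : Fin N} (h : p ≠ q) (g : MvPolynomial (Fin N) K) :
    am K N (opT q (opB p q g)) = (rx K q * (am K N (opT q g) - am K N (opT q (Ksw p q g))) +
      rx K q * (am K N g - am K N (Ksw p q g)) +
      rx K q * am K N (opB p q g)) / (rx K p - rx K q) := by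
  have h1 := congrArg (opT q) (opB_spec h g)
  rw [opT_mul, opT_mul, map_sub, map_sub, opT_X_self, opT_X_ne h] at h1
  have h2 := congrArg (am K N) h1
  simp only [map_mul, map_sub, map_add, map_zero] at h2
  have hne := rx_sub_ne (K := K) h
  change (0 - rx K q) * am K N (opB p q g) + (rx K p - rx K q) * am K N (opT q (opB p q g)) =
    rx K q * (am K N g - am K N (Ksw p q g)) +
      rx K q * (am K N (opT q g) - am K N (opT q (Ksw p q g))) at h2
  field_simp
  linear_combination h2

lemma am_TB_other {p q a : Fin N} (h : p ≠ q) (hp : p ≠ a) (hq : q ≠ a)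
    (g : MvPolynomial (Fin N) K) :
    am K N (opT a (opB p q g)) = rx K q * (am K N (opT a g) - am K N (opT a (Ksw p q g))) /
      (rx K p - rx K q) := by
  have h1 := congrArg (opT a) (opB_spec h g)
  rw [opT_mul, opT_mul, map_sub, map_sub, opT_X_ne hp, opT_X_ne hq] at h1
  have h2 := congrArg (am K N) h1
  simp only [map_mul, map_sub, map_add, map_zero] at h2
  have hne := rx_sub_ne (K := K) h
  change (0 - 0) * am K N (opB p q g) + (rx K p - rx K q) * am K N (opT a (opB p q g)) =
    0 * (am K N g - am K N (Ksw p q g)) +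
      rx K q * (am K N (opT a g) - am K N (opT a (Ksw p q g))) at h2
  field_simp
  linear_combination h2

lemma Ksw_opB (p q r s : Fin N) (g : MvPolynomial (Fin N) K) :
    Ksw p q (opB r s g) = opB (Equiv.swap p q r) (Equiv.swap p q s) (Ksw p q g) :=
  rename_opB (Equiv.swap p q) r s g

lemma Ksw_opA (p q r s : Fin N) (g : MvPolynomial (Fin N) K) :
    Ksw p q (opA r s g) = opA (Equiv.swap p q r) (Equiv.swap p q s) (Ksw p q g) :=
  rename_opA (Equiv.swap p q) r s g

lemma Ksw_Ksw (p q : Fin N) (g : MvPolynomial (Fin N) K) : Ksw p q (Ksw p q g) = g := by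
  rw [Ksw, rename_rename]
  have : (Equiv.swap p q : Fin N → Fin N) ∘ Equiv.swap p q = id := by
    ext x; simp
  rw [this, rename_id_apply]

/-- two-body commutation -/
lemma comm_two {i j : Fin N} (h : i ≠ j) (f : MvPolynomial (Fin N) K) :
    opA i j (opB i j f) = opB i j (opA i j f) := by
  have key : (opA i j : MvPolynomial (Fin N) K →ₗ[K] _) ∘ₗ opB i j = opB i j ∘ₗ opA i j := by
    apply hom_ext
    intro e
    simp only [LinearMap.comp_apply]
    apply (IsFractionRing.injective (MvPolynomial (Fin N) K) (FractionRing (MvPolynomial (Fin N) K)))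
    have hE := eig_monomial (K := K) e
    generalize (monomial e (1 : K)) = g at hE
    have hE1 := hE.ksw i j
    rw [am_A h, am_opB h (opA i j g), am_TB_left h, am_TB_right h, Ksw_opB, Ksw_opA,
      Equiv.swap_apply_left, Equiv.swap_apply_right, am_opB h, am_opB h.symm, am_A h, am_A h.symm,
      Ksw_comm j i, Ksw_Ksw, hE.am, hE.am, hE1.am, hE1.am, Equiv.swap_apply_left,
      Equiv.swap_apply_right]
    have hne := rx_sub_ne (K := K) h
    have e3 : rx K j - rx K i = - (rx K i - rx K j) := by ring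
    rw [e3]
    field_simp
    ring
  exact LinearMap.congr_fun key f

lemma three_id {F : Type*} [Field F] (x y z a b c G G1 G2 G3 G4 G5 : F) (hxy : x - y ≠ 0)
    (hxz : x - z ≠ 0) (hyz : y - z ≠ 0) :
    ((y * ((z * (a * G - c * G2) - x * (z / (x - z) * (G - G2))) / (x - z)) -
      x * (z * (b * G - b * G2) / (x - z))) / (x - y) -
      x * y / (x - y) ^ 2 * (z / (x - z) * (G - G2) - z / (y - z) * (G1 - G4)))
    - (z / (x - z) * (((y * a - x * b) * G / (x - y) - x * y / (x - y) ^ 2 * (G - G1)) -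
      ((y * a - z * b) * G2 / (z - y) - z * y / (z - y) ^ 2 * (G2 - G5))))
    + ((z * ((y * (a * G - b * G1) - x * (y / (x - y) * (G - G1))) / (x - y)) -
      x * (y * (c * G - c * G1) / (x - y))) / (x - z) -
      x * z / (x - z) ^ 2 * (y / (x - y) * (G - G1) - y / (z - y) * (G2 - G5)))
    - (y / (x - y) * (((z * a - x * c) * G / (x - z) - x * z / (x - z) ^ 2 * (G - G2)) -
      ((z * a - y * c) * G1 / (y - z) - y * z / (y - z) ^ 2 * (G1 - G4))))
    + ((z * ((y * (b * G - a * G1) + y * (G - G1) + y * (y / (x - y) * (G - G1))) / (x - y)) -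
      y * (y * (c * G - c * G1) / (x - y))) / (y - z) -
      y * z / (y - z) ^ 2 * (y / (x - y) * (G - G1) - z / (x - z) * (G3 - G4)))
    - (y / (x - y) * (((z * b - y * c) * G / (y - z) - y * z / (y - z) ^ 2 * (G - G3)) -
      ((z * b - x * c) * G1 / (x - z) - x * z / (x - z) ^ 2 * (G1 - G5))))
    + ((z * (z * (b * G - b * G2) / (x - z)) -
      y * ((z * (c * G - a * G2) + z * (G - G2) + z * (z / (x - z) * (G - G2))) / (x - z))) / (y - z) -
      y * z / (y - z) ^ 2 * (z / (x - z) * (G - G2) - y / (x - y) * (G3 - G5)))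
    - (z / (x - z) * (((z * b - y * c) * G / (y - z) - y * z / (y - z) ^ 2 * (G - G3)) -
      ((x * b - y * c) * G2 / (y - x) - y * x / (y - x) ^ 2 * (G2 - G4)))) = 0 := by
  have e1 : z - y = -(y - z) := by ring
  have e2 : y - x = -(x - y) := by ring
  rw [e1, e2]
  field_simp
  ring

lemma kk1 {i j l : Fin N} (hij : i ≠ j) (hil : i ≠ l) (hjl : j ≠ l)
    (g : MvPolynomial (Fin N) K) : Ksw j l (Ksw i j g) = Ksw i j (Ksw i l g) := by
  rw [Ksw, Ksw, Ksw, rename_rename, rename_rename]
  congr 2
  ext x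
  simp only [Function.comp_apply, Equiv.swap_apply_def]
  split_ifs <;> simp_all

lemma kk2 {i j l : Fin N} (hij : i ≠ j) (hil : i ≠ l) (hjl : j ≠ l)
    (g : MvPolynomial (Fin N) K) : Ksw j l (Ksw i l g) = Ksw i l (Ksw i j g) := by
  rw [Ksw, Ksw, Ksw, rename_rename, rename_rename]
  congr 2
  ext x
  simp only [Function.comp_apply, Equiv.swap_apply_def]
  split_ifs <;> simp_all

lemma kk3 {i j l : Fin N} (hij : i ≠ j) (hil : i ≠ l) (hjl : j ≠ l)
    (g : MvPolynomial (Fin N) K) : Ksw i j (Ksw j l g) = Ksw i l (Ksw i j g) := by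
  rw [Ksw, Ksw, Ksw, rename_rename, rename_rename]
  congr 2
  ext x
  simp only [Function.comp_apply, Equiv.swap_apply_def]
  split_ifs <;> simp_all

lemma kk4 {i j l : Fin N} (hij : i ≠ j) (hil : i ≠ l) (hjl : j ≠ l)
    (g : MvPolynomial (Fin N) K) : Ksw i l (Ksw j l g) = Ksw i j (Ksw i l g) := by
  rw [Ksw, Ksw, Ksw, rename_rename, rename_rename]
  congr 2
  ext x
  simp only [Function.comp_apply, Equiv.swap_apply_def]
  split_ifs <;> simp_all

set_option linter.unusedSimpArgs false in
/-- three-body commutation -/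
lemma comm_three {i j l : Fin N} (hij : i ≠ j) (hil : i ≠ l) (hjl : j ≠ l)
    (f : MvPolynomial (Fin N) K) :
    opA i j (opB i l f) - opB i l (opA i j f) + opA i l (opB i j f) - opB i j (opA i l f) +
    opA j l (opB i j f) - opB i j (opA j l f) + opA j l (opB i l f) - opB i l (opA j l f) = 0 := by
  have key : (opA i j : MvPolynomial (Fin N) K →ₗ[K] _) ∘ₗ opB i l - opB i l ∘ₗ opA i j +
      opA i l ∘ₗ opB i j - opB i j ∘ₗ opA i l + opA j l ∘ₗ opB i j - opB i j ∘ₗ opA j l +
      opA j l ∘ₗ opB i l - opB i l ∘ₗ opA j l = 0 := by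
    apply hom_ext
    intro e
    simp only [LinearMap.comp_apply, LinearMap.add_apply, LinearMap.sub_apply,
      LinearMap.zero_apply]
    apply (IsFractionRing.injective (MvPolynomial (Fin N) K) (FractionRing (MvPolynomial (Fin N) K)))
    have hE := eig_monomial (K := K) e
    generalize (monomial e (1 : K)) = g at hE
    have hE1 := hE.ksw i j
    have hE2 := hE.ksw i l
    have hxy := rx_sub_ne (K := K) hij
    have hxz := rx_sub_ne (K := K) hil
    have hyz := rx_sub_ne (K := K) hjl
    have sij_l : Equiv.swap i j l = l := Equiv.swap_apply_of_ne_of_ne hil.symm hjl.symm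
    have sil_j : Equiv.swap i l j = j := Equiv.swap_apply_of_ne_of_ne hij.symm hjl
    have sjl_i : Equiv.swap j l i = i := Equiv.swap_apply_of_ne_of_ne hij hil
    have t1 : am K N (opA i j (opB i l g)) =
      ((rx K j * ((rx K l * (sc K N (e i) * am K N g - sc K N (e l) * am K N (Ksw i l g)) - rx K i * (rx K l / (rx K i - rx K l) * (am K N g - am K N (Ksw i l g)))) / (rx K i - rx K l)) - rx K i * (rx K l * (sc K N (e j) * am K N g - sc K N (e j) * am K N (Ksw i l g)) / (rx K i - rx K l))) / (rx K i - rx K j) - rx K i * rx K j / (rx K i - rx K j) ^ 2 * (rx K l / (rx K i - rx K l) * (am K N g - am K N (Ksw i l g)) - rx K l / (rx K j - rx K l) * (am K N (Ksw i j g) - am K N (Ksw i j (Ksw i l g))))) := by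
      simp only [am_A hij, am_TB_left hil, am_TB_other hil hij hjl.symm, am_opB hil, Ksw_opB, am_opB hjl, kk1 hij hil hjl,
        hE.am, hE1.am, hE2.am, Equiv.swap_apply_left, Equiv.swap_apply_right, sij_l, sil_j, sjl_i]
    have t2 : am K N (opB i l (opA i j g)) =
      (rx K l / (rx K i - rx K l) * (((rx K j * sc K N (e i) - rx K i * sc K N (e j)) * am K N g / (rx K i - rx K j) - rx K i * rx K j / (rx K i - rx K j) ^ 2 * (am K N g - am K N (Ksw i j g))) - ((rx K j * sc K N (e i) - rx K l * sc K N (e j)) * am K N (Ksw i l g) / (rx K l - rx K j) - rx K l * rx K j / (rx K l - rx K j) ^ 2 * (am K N (Ksw i l g) - am K N (Ksw i l (Ksw i j g)))))) := by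
      simp only [am_opB hil, am_A hij, Ksw_opA, am_A hjl.symm, Ksw_comm l j, kk2 hij hil hjl,
        hE.am, hE1.am, hE2.am, Equiv.swap_apply_left, Equiv.swap_apply_right, sij_l, sil_j, sjl_i]
      ring
    have t3 : am K N (opA i l (opB i j g)) =
      ((rx K l * ((rx K j * (sc K N (e i) * am K N g - sc K N (e j) * am K N (Ksw i j g)) - rx K i * (rx K j / (rx K i - rx K j) * (am K N g - am K N (Ksw i j g)))) / (rx K i - rx K j)) - rx K i * (rx K j * (sc K N (e l) * am K N g - sc K N (e l) * am K N (Ksw i j g)) / (rx K i - rx K j))) / (rx K i - rx K l) - rx K i * rx K l / (rx K i - rx K l) ^ 2 * (rx K j / (rx K i - rx K j) * (am K N g - am K N (Ksw i j g)) - rx K j / (rx K l - rx K j) * (am K N (Ksw i l g) - am K N (Ksw i l (Ksw i j g))))) := by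
      simp only [am_A hil, am_TB_left hij, am_TB_other hij hil hjl, am_opB hij, Ksw_opB, am_opB hjl.symm, Ksw_comm l j, kk2 hij hil hjl,
        hE.am, hE1.am, hE2.am, Equiv.swap_apply_left, Equiv.swap_apply_right, sij_l, sil_j, sjl_i]
    have t4 : am K N (opB i j (opA i l g)) =
      (rx K j / (rx K i - rx K j) * (((rx K l * sc K N (e i) - rx K i * sc K N (e l)) * am K N g / (rx K i - rx K l) - rx K i * rx K l / (rx K i - rx K l) ^ 2 * (am K N g - am K N (Ksw i l g))) - ((rx K l * sc K N (e i) - rx K j * sc K N (e l)) * am K N (Ksw i j g) / (rx K j - rx K l) - rx K j * rx K l / (rx K j - rx K l) ^ 2 * (am K N (Ksw i j g) - am K N (Ksw i j (Ksw i l g)))))) := by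
      simp only [am_opB hij, am_A hil, Ksw_opA, am_A hjl, kk1 hij hil hjl,
        hE.am, hE1.am, hE2.am, Equiv.swap_apply_left, Equiv.swap_apply_right, sij_l, sil_j, sjl_i]
      ring
    have t5 : am K N (opA j l (opB i j g)) =
      ((rx K l * ((rx K j * (sc K N (e j) * am K N g - sc K N (e i) * am K N (Ksw i j g)) + rx K j * (am K N g - am K N (Ksw i j g)) + rx K j * (rx K j / (rx K i - rx K j) * (am K N g - am K N (Ksw i j g)))) / (rx K i - rx K j)) - rx K j * (rx K j * (sc K N (e l) * am K N g - sc K N (e l) * am K N (Ksw i j g)) / (rx K i - rx K j))) / (rx K j - rx K l) - rx K j * rx K l / (rx K j - rx K l) ^ 2 * (rx K j / (rx K i - rx K j) * (am K N g - am K N (Ksw i j g)) - rx K l / (rx K i - rx K l) * (am K N (Ksw j l g) - am K N (Ksw i j (Ksw i l g))))) := by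
      simp only [am_A hjl, am_TB_right hij, am_TB_other hij hil hjl, am_opB hij, Ksw_opB, am_opB hil, kk4 hij hil hjl,
        hE.am, hE1.am, hE2.am, Equiv.swap_apply_left, Equiv.swap_apply_right, sij_l, sil_j, sjl_i]
    have t6 : am K N (opB i j (opA j l g)) =
      (rx K j / (rx K i - rx K j) * (((rx K l * sc K N (e j) - rx K j * sc K N (e l)) * am K N g / (rx K j - rx K l) - rx K j * rx K l / (rx K j - rx K l) ^ 2 * (am K N g - am K N (Ksw j l g))) - ((rx K l * sc K N (e j) - rx K i * sc K N (e l)) * am K N (Ksw i j g) / (rx K i - rx K l) - rx K i * rx K l / (rx K i - rx K l) ^ 2 * (am K N (Ksw i j g) - am K N (Ksw i l (Ksw i j g)))))) := by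
      simp only [am_opB hij, am_A hjl, Ksw_opA, am_A hil,
        hE.am, hE1.am, hE2.am, Equiv.swap_apply_left, Equiv.swap_apply_right, sij_l, sil_j, sjl_i]
      ring
    have t7 : am K N (opA j l (opB i l g)) =
      ((rx K l * (rx K l * (sc K N (e j) * am K N g - sc K N (e j) * am K N (Ksw i l g)) / (rx K i - rx K l)) - rx K j * ((rx K l * (sc K N (e l) * am K N g - sc K N (e i) * am K N (Ksw i l g)) + rx K l * (am K N g - am K N (Ksw i l g)) + rx K l * (rx K l / (rx K i - rx K l) * (am K N g - am K N (Ksw i l g)))) / (rx K i - rx K l))) / (rx K j - rx K l) - rx K j * rx K l / (rx K j - rx K l) ^ 2 * (rx K l / (rx K i - rx K l) * (am K N g - am K N (Ksw i l g)) - rx K j / (rx K i - rx K j) * (am K N (Ksw j l g) - am K N (Ksw i l (Ksw i j g))))) := by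
      simp only [am_A hjl, am_TB_right hil, am_TB_other hil hij hjl.symm, am_opB hil, Ksw_opB, am_opB hij, kk3 hij hil hjl,
        hE.am, hE1.am, hE2.am, Equiv.swap_apply_left, Equiv.swap_apply_right, sij_l, sil_j, sjl_i]
    have t8 : am K N (opB i l (opA j l g)) =
      (rx K l / (rx K i - rx K l) * (((rx K l * sc K N (e j) - rx K j * sc K N (e l)) * am K N g / (rx K j - rx K l) - rx K j * rx K l / (rx K j - rx K l) ^ 2 * (am K N g - am K N (Ksw j l g))) - ((rx K i * sc K N (e j) - rx K j * sc K N (e l)) * am K N (Ksw i l g) / (rx K j - rx K i) - rx K j * rx K i / (rx K j - rx K i) ^ 2 * (am K N (Ksw i l g) - am K N (Ksw i j (Ksw i l g)))))) := by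
      simp only [am_opB hil, am_A hjl, Ksw_opA, am_A hij.symm, Ksw_comm j i,
        hE.am, hE1.am, hE2.am, Equiv.swap_apply_left, Equiv.swap_apply_right, sij_l, sil_j, sjl_i]
      ring
    have h0 := three_id (rx K i) (rx K j) (rx K l) (sc K N (e i)) (sc K N (e j)) (sc K N (e l))
      (am K N g) (am K N (Ksw i j g)) (am K N (Ksw i l g)) (am K N (Ksw j l g))
      (am K N (Ksw i j (Ksw i l g))) (am K N (Ksw i l (Ksw i j g))) hxy hxz hyz
    rw [map_sub, map_add, map_sub, map_add, map_sub, map_add, map_sub, map_zero, t1, t2, t3, t4,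
      t5, t6, t7, t8]
    exact h0
  have h2 := LinearMap.congr_fun key f
  simpa using h2

end Pool.Agent.Lib.MP_2558e3_co
end

section

/-!
Commutativity of `2 D` and `Δ`.
-/

namespace Pool.Agent.Lib.MP_2558e3_co

open Finset MvPolynomial

variable {K : Type} [Field K] {N : ℕ}

/-- endomorphisms of the polynomial ring -/
abbrev EN (K : Type) [Field K] (N : ℕ) : Type := Module.End K (MvPolynomial (Fin N) K)

lemma end_ext {f g : EN K N} (h : ∀ e, f (monomial e 1) = g (monomial e 1)) : f = g := hom_ext h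

/-- commutator -/
noncomputable def cmt (A B : EN K N) : EN K N := A * B - B * A

lemma cmt_def (A B : EN K N) : cmt A B = A * B - B * A := rfl

lemma cmt_add_left (A A' B : EN K N) : cmt (A + A') B = cmt A B + cmt A' B := by
  simp only [cmt_def, add_mul, mul_add]
  abel

lemma cmt_add_right (A B B' : EN K N) : cmt A (B + B') = cmt A B + cmt A B' := by
  simp only [cmt_def, add_mul, mul_add]
  abel

lemma cmt_sub_left (A A' B : EN K N) : cmt (A - A') B = cmt A B - cmt A' B := by
  simp only [cmt_def, sub_mul, mul_sub]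
  abel

lemma cmt_smul_left (c : K) (A B : EN K N) : cmt (c • A) B = c • cmt A B := by
  simp only [cmt_def, smul_mul_assoc, mul_smul_comm, smul_sub]

lemma cmt_smul_right (c : K) (A B : EN K N) : cmt A (c • B) = c • cmt A B := by
  simp only [cmt_def, smul_mul_assoc, mul_smul_comm, smul_sub]

lemma cmt_sum_left {ι : Type*} (s : Finset ι) (A : ι → EN K N) (B : EN K N) :
    cmt (∑ i ∈ s, A i) B = ∑ i ∈ s, cmt (A i) B := by
  simp only [cmt_def, sum_mul, mul_sum, sum_sub_distrib]

lemma cmt_sum_right {ι : Type*} (s : Finset ι) (A : EN K N) (B : ι → EN K N) :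
    cmt A (∑ i ∈ s, B i) = ∑ i ∈ s, cmt A (B i) := by
  simp only [cmt_def, sum_mul, mul_sum, sum_sub_distrib]

lemma lie_c1 {i j : Fin N} (h : i ≠ j) : cmt (opA i j : EN K N) (opB i j : EN K N) = 0 := by
  rw [cmt_def, sub_eq_zero]
  apply LinearMap.ext
  intro f
  exact comm_two h f

lemma lie_c2 {i j l : Fin N} (hij : i ≠ j) (hil : i ≠ l) (hjl : j ≠ l) :
    cmt (opA i j : EN K N) (opB i l : EN K N) + cmt (opA i l : EN K N) (opB i j : EN K N) +
      cmt (opA j l : EN K N) (opB i j : EN K N) + cmt (opA j l : EN K N) (opB i l : EN K N) = 0 := by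
  apply LinearMap.ext
  intro f
  simp only [cmt_def, LinearMap.add_apply, LinearMap.sub_apply, Module.End.mul_apply,
    LinearMap.zero_apply]
  have := comm_three hij hil hjl f
  rw [← this]
  abel

set_option linter.unusedSimpArgs false in
lemma lie_c3 {i j p q : Fin N} (hij : i ≠ j) (hpq : p ≠ q) (hip : i ≠ p) (hiq : i ≠ q)
    (hjp : j ≠ p) (hjq : j ≠ q) : cmt (opA p q : EN K N) (opB i j : EN K N) = 0 := by
  rw [cmt_def, sub_eq_zero]
  apply end_ext
  intro e
  simp only [Module.End.mul_apply]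
  apply (IsFractionRing.injective (MvPolynomial (Fin N) K) (FractionRing (MvPolynomial (Fin N) K)))
  have hE := eig_monomial (K := K) e
  generalize (monomial e (1 : K)) = g at hE
  have hE1 := hE.ksw i j
  have hxy := rx_sub_ne (K := K) hij
  have hpq' := rx_sub_ne (K := K) hpq
  have s1 : Equiv.swap i j p = p := Equiv.swap_apply_of_ne_of_ne hip.symm hjp.symm
  have s2 : Equiv.swap i j q = q := Equiv.swap_apply_of_ne_of_ne hiq.symm hjq.symm
  have s3 : Equiv.swap p q i = i := Equiv.swap_apply_of_ne_of_ne hip hiq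
  have s4 : Equiv.swap p q j = j := Equiv.swap_apply_of_ne_of_ne hjp hjq
  have hk : Ksw i j (Ksw p q g) = Ksw p q (Ksw i j g) := by
    rw [Ksw, Ksw, rename_rename, rename_rename]
    congr 2
    ext x
    simp only [Function.comp_apply, Equiv.swap_apply_def]
    split_ifs <;> simp_all
  simp only [am_A hpq, am_TB_other hij hip hjp, am_TB_other hij hiq hjq, am_opB hij, Ksw_opB,
    Ksw_opA, s1, s2, s3, s4, hk, hE.am, hE1.am]
  field_simp
  ring

lemma lie_T_B {i j l : Fin N} (hli : l ≠ i) (hlj : l ≠ j) :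
    cmt (opT l : EN K N) (opB i j : EN K N) = 0 := by
  rw [cmt_def, sub_eq_zero]
  apply end_ext
  intro e
  simp only [Module.End.mul_apply, opT_monomial, map_smul]
  rw [opB, mkOp_monomial_one, map_sub, map_sum, map_sum, smul_sub, smul_sum, smul_sum]
  congr 1
  · apply sum_congr rfl
    intro s _
    rw [opT_monomial, mv_rest l hli hlj]
  · apply sum_congr rfl
    intro s _
    rw [opT_monomial, mv_rest l hlj hli]

lemma lie_A_T {i j l : Fin N} (hli : l ≠ i) (hlj : l ≠ j) :
    cmt (opA i j : EN K N) (opT l : EN K N) = 0 := by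
  rw [cmt_def, sub_eq_zero]
  apply end_ext
  intro e
  simp only [Module.End.mul_apply, opT_monomial, map_smul]
  rw [opA, mkOp_monomial_one, map_add, map_add, map_sum, map_sum, map_smul, smul_add, smul_add,
    smul_sum, smul_sum, opT_monomial]
  congr 1
  · congr 1
    · rw [smul_comm]
    · apply sum_congr rfl
      intro s _
      rw [map_smul, opT_monomial, mv_rest l hli hlj, smul_comm]
  · apply sum_congr rfl
    intro s _
    rw [map_smul, opT_monomial, mv_rest l hlj hli, smul_comm]

lemma lie_T_T (l m : Fin N) : cmt (opT l : EN K N) (opT m : EN K N) = 0 := by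
  rw [cmt_def, sub_eq_zero]
  apply end_ext
  intro e
  simp only [Module.End.mul_apply, opT_monomial, map_smul]
  rw [smul_comm]

lemma lie_c4 {i j : Fin N} (hij : i ≠ j) :
    cmt (opT i * opT i - opT i : EN K N) (opB i j : EN K N) +
      cmt (opT j * opT j - opT j : EN K N) (opB i j : EN K N) +
      (2 : K) • cmt (opA i j : EN K N) (opT i : EN K N) = 0 := by
  apply end_ext
  intro e
  simp only [cmt_def, LinearMap.add_apply, LinearMap.sub_apply, Module.End.mul_apply,
    LinearMap.zero_apply, LinearMap.smul_apply, opT_monomial, map_smul, ← sub_smul, smul_smul]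
  rcases le_total (e j) (e i) with h | h
  · have hB : opB i j (monomial e (1 : K)) =
        ∑ s ∈ Ioc 0 (e i - e j), monomial (mv e i j s) (1 : K) := by
      rw [opB, mkOp_monomial_one, Nat.sub_eq_zero_of_le h]
      simp
    have hA : opA i j (monomial e (1 : K)) = -((min (e i) (e j) : ℕ) : K) • monomial e 1 +
        ∑ s ∈ Ioc 0 (e i - e j), ((e i - e j - s : ℕ) : K) • monomial (mv e i j s) (1 : K) := by
      rw [opA, mkOp_monomial_one, Nat.sub_eq_zero_of_le h]
      have h3 : ∑ s ∈ Ioo 0 (e i - e j), ((e i - e j - s : ℕ) : K) •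
          monomial (mv e i j s) (1 : K) =
          ∑ s ∈ Ioc 0 (e i - e j), ((e i - e j - s : ℕ) : K) • monomial (mv e i j s) (1 : K) := by
        apply sum_subset
        · intro x; simp only [mem_Ioc, mem_Ioo]; omega
        · intro x hx hx'
          simp only [mem_Ioc, mem_Ioo, not_and, not_lt] at hx hx'
          have : e i - e j - x = 0 := by omega
          rw [this]; simp
      rw [h3]
      simp
    rw [hA, hB]
    simp only [map_add, map_sum, map_smul, opT_monomial, smul_add, smul_sum, smul_smul]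
    have key : ∀ x ∈ Ioc 0 (e i - e j),
        (((mv e i j x i : ℕ) : K) * ((mv e i j x i : ℕ) : K)) • monomial (mv e i j x) (1 : K) -
        ((mv e i j x i : ℕ) : K) • monomial (mv e i j x) (1 : K) -
        ((e i : K) * (e i : K) - (e i : K)) • monomial (mv e i j x) (1 : K) +
        ((((mv e i j x j : ℕ) : K) * ((mv e i j x j : ℕ) : K)) • monomial (mv e i j x) (1 : K) -
        ((mv e i j x j : ℕ) : K) • monomial (mv e i j x) (1 : K) -
        ((e j : K) * (e j : K) - (e j : K)) • monomial (mv e i j x) (1 : K)) +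
        (2 : K) • (((e i : K) * ((e i - e j - x : ℕ) : K)) • monomial (mv e i j x) (1 : K) -
        (((e i - e j - x : ℕ) : K) * ((mv e i j x i : ℕ) : K)) • monomial (mv e i j x) (1 : K)) =
        0 := by
      intro x hx
      rw [mem_Ioc] at hx
      rw [mv_left hij, mv_right]
      have e1 : ((e i - x : ℕ) : K) = (e i : K) - x := by
        rw [Nat.cast_sub (by omega)]
      have e2 : ((e i - e j - x : ℕ) : K) = (e i : K) - e j - x := by
        rw [Nat.cast_sub (by omega), Nat.cast_sub h]
      rw [e1, e2]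
      push_cast
      simp only [← sub_smul, ← add_smul, smul_smul]
      rw [smul_eq_zero]
      left
      ring
    have h4 := sum_eq_zero key
    simp only [sum_add_distrib, sum_sub_distrib, ← smul_sum] at h4
    rw [← h4]
    simp only [← smul_sum]
    module
  · have hB : opB i j (monomial e (1 : K)) =
        - ∑ s ∈ range (e j - e i), monomial (mv e j i s) (1 : K) := by
      rw [opB, mkOp_monomial_one, Nat.sub_eq_zero_of_le h]
      simp
    have hA : ∃ Z : K, opA i j (monomial e (1 : K)) = Z • monomial e 1 +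
        ∑ s ∈ range (e j - e i), ((e j - e i - s : ℕ) : K) • monomial (mv e j i s) (1 : K) := by
      rw [opA, mkOp_monomial_one, Nat.sub_eq_zero_of_le h]
      rcases Nat.eq_zero_or_pos (e j - e i) with h0 | h0
      · refine ⟨-((min (e i) (e j) : ℕ) : K), ?_⟩
        rw [h0]
        simp
      · refine ⟨-((min (e i) (e j) : ℕ) : K) - ((e j - e i : ℕ) : K), ?_⟩
        obtain ⟨d, hd⟩ : ∃ d, e j - e i = d + 1 := ⟨e j - e i - 1, by omega⟩
        rw [hd, range_eq_Ico, sum_eq_sum_Ico_succ_bot (Nat.succ_pos d), mv_zero]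
        have h3 : Ioo 0 (d + 1) = Ico (0 + 1) (d + 1) := by
          ext x
          simp only [mem_Ioo, mem_Ico]
          omega
        rw [h3]
        simp only [Ioo_self, sum_empty, add_zero, Nat.sub_zero, sub_smul]
        abel
    obtain ⟨Z, hA⟩ := hA
    rw [hA, hB]
    simp only [map_add, map_sum, map_smul, map_neg, opT_monomial, smul_add, smul_sum, smul_smul,
      smul_neg]
    have key : ∀ x ∈ range (e j - e i),
        -((((mv e j i x i : ℕ) : K) * ((mv e j i x i : ℕ) : K)) • monomial (mv e j i x) (1 : K)) +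
        ((mv e j i x i : ℕ) : K) • monomial (mv e j i x) (1 : K) +
        ((e i : K) * (e i : K) - (e i : K)) • monomial (mv e j i x) (1 : K) +
        (-((((mv e j i x j : ℕ) : K) * ((mv e j i x j : ℕ) : K)) • monomial (mv e j i x) (1 : K)) +
        ((mv e j i x j : ℕ) : K) • monomial (mv e j i x) (1 : K) +
        ((e j : K) * (e j : K) - (e j : K)) • monomial (mv e j i x) (1 : K)) +
        (2 : K) • (((e i : K) * ((e j - e i - x : ℕ) : K)) • monomial (mv e j i x) (1 : K) -
        (((e j - e i - x : ℕ) : K) * ((mv e j i x i : ℕ) : K)) • monomial (mv e j i x) (1 : K)) =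
        0 := by
      intro x hx
      rw [mem_range] at hx
      rw [mv_left hij.symm, mv_right]
      have e1 : ((e j - x : ℕ) : K) = (e j : K) - x := by
        rw [Nat.cast_sub (by omega)]
      have e2 : ((e j - e i - x : ℕ) : K) = (e j : K) - e i - x := by
        rw [Nat.cast_sub (by omega), Nat.cast_sub h]
      rw [e1, e2]
      push_cast
      simp only [← neg_smul, ← sub_smul, ← add_smul, smul_smul]
      rw [smul_eq_zero]
      left
      ring
    have h4 := sum_eq_zero key
    simp only [sum_add_distrib, sum_sub_distrib, sum_neg_distrib, ← smul_sum] at h4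
    rw [← h4]
    simp only [← smul_sum]
    module

end Pool.Agent.Lib.MP_2558e3_co
end

section

/-!
Commutativity of `2 D` and `Δ`: assembly.
-/

namespace Pool.Agent.Lib.MP_2558e3_co

open Finset MvPolynomial

variable {K : Type} [Field K] {N : ℕ}

lemma pairs_split {M : Type*} [AddCommMonoid M] (C : Finset (Fin N)) (F : Fin N → Fin N → M)
    (hsymm : ∀ i j, F i j = F j i)
    (h2 : ∀ i j, i ≠ j → i ∉ C → j ∉ C → F i j = 0) :
    ∑ i, ∑ j ∈ univ.erase i, F i j = ∑ i ∈ C, ∑ j ∈ C.erase i, F i j +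
      2 • ∑ i ∈ C, ∑ j ∈ univ \ C, F i j := by
  rw [sum_split C]
  have e1 : ∀ i ∈ C, ∑ j ∈ univ.erase i, F i j =
      ∑ j ∈ C.erase i, F i j + ∑ j ∈ univ \ C, F i j := by
    intro i hi
    rw [← sum_union]
    · apply sum_congr _ (fun _ _ => rfl)
      ext x
      simp only [mem_erase, mem_univ, mem_union, mem_sdiff, true_and, and_true]
      by_cases hx : x ∈ C
      · simp [hx]
      · simp only [hx, and_false, not_false_iff, or_true, iff_true]
        rintro rfl
        exact hx hi
    · rw [disjoint_left]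
      intro x hx hx'
      rw [mem_erase] at hx
      rw [mem_sdiff] at hx'
      exact hx'.2 hx.2
  have e2 : ∀ i ∈ univ \ C, ∑ j ∈ univ.erase i, F i j = ∑ j ∈ C, F i j := by
    intro i hi
    rw [mem_sdiff] at hi
    have e3 : ∑ j ∈ univ.erase i, F i j = ∑ j ∈ C, F i j + ∑ j ∈ (univ \ C).erase i, F i j := by
      rw [← sum_union]
      · apply sum_congr _ (fun _ _ => rfl)
        ext x
        simp only [mem_erase, mem_univ, mem_union, mem_sdiff, true_and, and_true]
        by_cases hx : x ∈ C
        · simp only [hx, not_true_eq_false, and_false, or_false, iff_true]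
          rintro rfl
          exact hi.2 hx
        · simp [hx]
      · rw [disjoint_left]
        intro x hx hx'
        rw [mem_erase, mem_sdiff] at hx'
        exact hx'.2.2 hx
    rw [e3]
    have e4 : ∑ j ∈ (univ \ C).erase i, F i j = 0 := by
      apply sum_eq_zero
      intro j hj
      rw [mem_erase, mem_sdiff] at hj
      exact h2 i j hj.1.symm hi.2 hj.2.2
    rw [e4, add_zero]
  rw [sum_congr rfl e1, sum_congr rfl e2, sum_add_distrib, two_nsmul, add_assoc]
  congr 2
  rw [sum_comm]
  apply sum_congr rfl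
  intro i _
  apply sum_congr rfl
  intro j _
  exact hsymm j i

/-- the operator `α x_i ∂_i + ∑_{j ≠ i} B_ij` -/
noncomputable def opTT (α : K) (i : Fin N) : EN K N :=
  α • opT i + ∑ j ∈ univ.erase i, opB i j

lemma opD2_eq (α : K) : (opD2 α : EN K N) =
    α • ∑ l : Fin N, ((opT l : EN K N) * opT l - opT l) +
      ∑ l : Fin N, ∑ m ∈ univ.erase l, (opA l m : EN K N) := rfl

lemma lie_TT_T (l i : Fin N) :
    cmt ((opT l : EN K N) * opT l - opT l : EN K N) (opT i : EN K N) = 0 := by
  rw [cmt_sub_left, lie_T_T, sub_zero]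
  have h := lie_T_T (K := K) l i
  rw [cmt_def, sub_eq_zero] at h
  rw [cmt_def, mul_assoc, h, ← mul_assoc, h, mul_assoc, sub_self]

lemma lie_TT_B {i j l : Fin N} (hli : l ≠ i) (hlj : l ≠ j) :
    cmt ((opT l : EN K N) * opT l - opT l : EN K N) (opB i j : EN K N) = 0 := by
  rw [cmt_sub_left, lie_T_B hli hlj, sub_zero]
  have h := lie_T_B (K := K) hli hlj
  rw [cmt_def, sub_eq_zero] at h
  rw [cmt_def, mul_assoc, h, ← mul_assoc, h, mul_assoc, sub_self]

theorem lie_D2_TT (α : K) (i : Fin N) : cmt (opD2 α : EN K N) (opTT α i) = 0 := by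
  rw [opD2_eq, opTT, cmt_add_left, cmt_add_right, cmt_add_right, cmt_smul_left, cmt_smul_left, cmt_smul_right, cmt_smul_right, cmt_sum_left,
    cmt_sum_left]
  have p1 : ∑ l : Fin N, cmt ((opT l : EN K N) * opT l - opT l : EN K N) (opT i : EN K N) = 0 :=
    sum_eq_zero (fun l _ => lie_TT_T l i)
  have p2 : ∑ l : Fin N, cmt ((opT l : EN K N) * opT l - opT l : EN K N) (∑ j ∈ univ.erase i, opB i j : EN K N) =
      ∑ j ∈ univ.erase i, (cmt ((opT i : EN K N) * opT i - opT i : EN K N) (opB i j : EN K N) +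
        cmt ((opT j : EN K N) * opT j - opT j : EN K N) (opB i j : EN K N)) := by
    simp only [cmt_sum_right]
    rw [sum_comm]
    apply sum_congr rfl
    intro j hj
    rw [mem_erase] at hj
    rw [sum_two hj.1.symm, sum_eq_zero, add_zero]
    intro l hl
    rw [mem_erase, mem_erase] at hl
    exact lie_TT_B hl.2.1 hl.1
  have p3 : cmt (∑ l : Fin N, ∑ m ∈ univ.erase l, (opA l m : EN K N) : EN K N) (opT i : EN K N) =
      ∑ j ∈ univ.erase i, (2 : K) • cmt (opA i j : EN K N) (opT i : EN K N) := by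
    rw [cmt_sum_left]
    simp only [cmt_sum_left]
    rw [pairs_split {i} (fun l m => cmt (opA l m : EN K N) (opT i : EN K N))
      (fun l m => by rw [opA_symm])
      (fun l m _ hl hm => lie_A_T (fun h => hl (by rw [h]; exact mem_singleton_self _))
        (fun h => hm (by rw [h]; exact mem_singleton_self _)))]
    rw [sum_singleton, sum_singleton, erase_singleton, sum_empty, zero_add,
      sdiff_singleton_eq_erase, ← Nat.cast_smul_eq_nsmul K, smul_sum]
    rfl
  have p4 : cmt (∑ l : Fin N, ∑ m ∈ univ.erase l, (opA l m : EN K N) : EN K N) (∑ j ∈ univ.erase i, opB i j : EN K N) = 0 := by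
    rw [cmt_sum_right]
    have q1 : ∀ j ∈ univ.erase i, cmt (∑ l : Fin N, ∑ m ∈ univ.erase l, (opA l m : EN K N) : EN K N) (opB i j : EN K N) = 2 • ∑ m ∈ (univ.erase i).erase j,
          (cmt (opA i m : EN K N) (opB i j : EN K N) +
            cmt (opA j m : EN K N) (opB i j : EN K N)) := by
      intro j hj
      rw [mem_erase] at hj
      have hij : i ≠ j := hj.1.symm
      rw [cmt_sum_left]
      simp only [cmt_sum_left]
      rw [pairs_split {i, j} (fun l m => cmt (opA l m : EN K N) (opB i j : EN K N))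
        (fun l m => by rw [opA_symm])
        (fun l m hlm hl hm => by
          simp only [mem_insert, mem_singleton, not_or] at hl hm
          exact lie_c3 hij hlm (Ne.symm hl.1) (Ne.symm hm.1) (Ne.symm hl.2) (Ne.symm hm.2))]
      have q2 : ∑ l ∈ ({i, j} : Finset (Fin N)), ∑ m ∈ ({i, j} : Finset (Fin N)).erase l,
          cmt (opA l m : EN K N) (opB i j : EN K N) = 0 := by
        apply sum_eq_zero
        intro l hl
        apply sum_eq_zero
        intro m hm
        simp only [mem_insert, mem_singleton, mem_erase] at hl hm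
        rcases hl with rfl | rfl
        · rcases hm with ⟨h1, rfl | rfl⟩
          · exact absurd rfl h1
          · exact lie_c1 hij
        · rcases hm with ⟨h1, rfl | rfl⟩
          · rw [opA_symm]; exact lie_c1 hij
          · exact absurd rfl h1
      rw [q2, zero_add]
      congr 1
      rw [sum_pair hij, ← sum_add_distrib]
      apply sum_congr _ (fun _ _ => rfl)
      ext x
      simp only [mem_sdiff, mem_univ, mem_insert, mem_singleton, not_or, true_and, mem_erase,
        and_true]
      tauto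
    rw [sum_congr rfl q1, ← smul_sum, two_nsmul]
    have q3 : ∑ j ∈ univ.erase i, ∑ m ∈ (univ.erase i).erase j,
        (cmt (opA i m : EN K N) (opB i j : EN K N) + cmt (opA j m : EN K N) (opB i j : EN K N)) =
        ∑ j ∈ univ.erase i, ∑ m ∈ (univ.erase i).erase j,
        (cmt (opA i j : EN K N) (opB i m : EN K N) + cmt (opA m j : EN K N) (opB i m : EN K N)) := by
      apply sum_comm'
      intro x y
      simp only [mem_erase, mem_univ, and_true]
      tauto
    conv_lhs => rw [q3]; arg 2; rw [← q3]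
    rw [← sum_add_distrib]
    apply sum_eq_zero
    intro j hj
    rw [← sum_add_distrib]
    apply sum_eq_zero
    intro m hm
    simp only [mem_erase, mem_univ, and_true] at hj hm
    have := lie_c2 (K := K) (i := i) (j := j) (l := m) (Ne.symm hj) (Ne.symm hm.2) (Ne.symm hm.1)
    rw [← this, opA_symm m j]
    abel
  rw [p1, p2, p3, p4, smul_zero, smul_zero, zero_add, add_zero, ← smul_add, ← sum_add_distrib]
  rw [sum_eq_zero, smul_zero]
  intro j hj
  rw [mem_erase] at hj
  exact lie_c4 hj.1.symm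

end Pool.Agent.Lib.MP_2558e3_co
end

section

/-!
Existence of Jack superpolynomials.
-/

namespace Pool.Agent.Lib.MP_2558e3_co

open scoped TensorProduct
open Finset MvPolynomial

variable {K : Type} [Field K] {N : ℕ}

lemma opB_add {i j : Fin N} (hij : i ≠ j) (f : MvPolynomial (Fin N) K) :
    opB i j f + opB j i f = -(f - Ksw i j f) := by
  have h1 := opB_spec hij f
  have h2 := opB_spec hij.symm f
  rw [Ksw_comm j i] at h2
  apply mul_left_cancel₀ (X_sub_ne (R := K) hij)
  linear_combination h1 - h2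

lemma yg_swap {I : Finset (Fin N)} {i j : Fin N} (hi : i ∈ I) (hj : j ∈ I) :
    yg I (Equiv.swap ⟨i, hi⟩ ⟨j, hj⟩) 1 = Equiv.swap i j := by
  ext x
  by_cases hx : x ∈ I
  · rw [yg, Equiv.Perm.subtypeCongr.left_apply _ _ hx]
    by_cases hxi : x = i
    · subst hxi; simp
    · by_cases hxj : x = j
      · subst hxj; simp
      · rw [Equiv.swap_apply_of_ne_of_ne (a := (⟨i, hi⟩ : {i // i ∈ I})) (by simpa using hxi)
          (by simpa using hxj), Equiv.swap_apply_of_ne_of_ne hxi hxj]
  · rw [yg, Equiv.Perm.subtypeCongr.right_apply _ _ hx]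
    rw [Equiv.swap_apply_of_ne_of_ne (a := i) (b := j) (by rintro rfl; exact hx hi)
      (by rintro rfl; exact hx hj)]
    rfl

lemma SS_swap {I : Finset (Fin N)} {f : MvPolynomial (Fin N) K} (hf : f ∈ SS K I) {i j : Fin N}
    (hi : i ∈ I) (hj : j ∈ I) (hij : i ≠ j) : Ksw i j f = -f := by
  have h1 := hf (Equiv.swap ⟨i, hi⟩ ⟨j, hj⟩) 1
  rw [yg_swap hi hj, Equiv.Perm.sign_swap (by simpa using hij)] at h1
  rw [Ksw, h1]
  simp

lemma sum_erase_split {M : Type*} [AddCommMonoid M] {C : Finset (Fin N)} {i : Fin N}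
    (hi : i ∈ C) (F : Fin N → M) : ∑ j ∈ univ.erase i, F j =
      ∑ j ∈ C.erase i, F j + ∑ j ∈ univ \ C, F j := by
  rw [← sum_union]
  · apply sum_congr _ (fun _ _ => rfl)
    ext x
    simp only [mem_erase, mem_univ, mem_union, mem_sdiff, true_and, and_true]
    by_cases hx : x ∈ C
    · simp [hx]
    · simp only [hx, and_false, not_false_iff, or_true, iff_true]
      rintro rfl
      exact hx hi
  · rw [disjoint_left]
    intro x hx hx'
    rw [mem_erase] at hx
    rw [mem_sdiff] at hx'
    exact hx'.2 hx.2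

lemma two_choose (m : ℕ) : 2 * m.choose 2 = m * (m - 1) := by
  rw [Nat.choose_two_right]
  exact Nat.mul_div_cancel' (Nat.even_mul_pred_self _).two_dvd

lemma sum_pairs_in (C : Finset (Fin N)) {M : Type*} [AddCommMonoid M] (F : Fin N → Fin N → M) :
    ∑ i ∈ C, ∑ j ∈ C.erase i, F i j = ∑ i ∈ C, ∑ j ∈ C.erase i, F j i := by
  apply sum_comm'
  intro x y
  simp only [mem_erase]
  tauto

/-- on `SS` the operator `Δ` is a combination of the one-index operators -/
lemma opDel_eq [CharZero K] (α : K) {I : Finset (Fin N)} {f : MvPolynomial (Fin N) K}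
    (hf : f ∈ SS K I) :
    opDel α I f = ∑ i ∈ I, opTT α i f + ((I.card.choose 2 : ℕ) : K) • f := by
  have h1 : ∑ i ∈ I, ∑ j ∈ I.erase i, opB i j f = -((2 * I.card.choose 2 : ℕ) : K) • f := by
    have h2 : (2 : K) • ∑ i ∈ I, ∑ j ∈ I.erase i, opB i j f =
        (2 : K) • (-((2 * I.card.choose 2 : ℕ) : K) • f) := by
      rw [two_smul]
      conv_lhs => arg 2; rw [sum_pairs_in]
      rw [← sum_add_distrib]
      have h3 : ∀ i ∈ I, ∑ j ∈ I.erase i, opB i j f + ∑ j ∈ I.erase i, opB j i f =
          ((I.card - 1 : ℕ) : K) • (-(2 : K) • f) := by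
        intro i hi
        rw [← sum_add_distrib]
        have h4 : ∀ j ∈ I.erase i, opB i j f + opB j i f = -(2 : K) • f := by
          intro j hj
          rw [mem_erase] at hj
          rw [opB_add hj.1.symm, SS_swap hf hi hj.2 hj.1.symm]
          module
        rw [sum_congr rfl h4, sum_const, card_erase_of_mem hi, Nat.cast_smul_eq_nsmul]
      rw [sum_congr rfl h3, sum_const, ← Nat.cast_smul_eq_nsmul K, smul_smul, smul_smul,
        smul_smul, ← Nat.cast_mul, two_choose]
      congr 1
      ring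
    exact smul_right_injective _ (two_ne_zero (α := K)) h2
  have h5 : ∑ i ∈ I, opTT α i f = α • ∑ i ∈ I, opT i f + ∑ i ∈ I, ∑ j ∈ univ \ I, opB i j f +
      -((2 * I.card.choose 2 : ℕ) : K) • f := by
    rw [← h1, smul_sum, ← sum_add_distrib, ← sum_add_distrib]
    apply sum_congr rfl
    intro i hi
    rw [opTT, LinearMap.add_apply, LinearMap.smul_apply, LinearMap.sum_apply,
      sum_erase_split hi]
    abel
  rw [h5, opDel]
  simp only [LinearMap.add_apply, LinearMap.smul_apply, LinearMap.sum_apply,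
      LinearMap.sub_apply, LinearMap.id_apply]
  push_cast
  module

/-- commutativity on `SS` -/
theorem D2_Del_comm [CharZero K] (α : K) {I : Finset (Fin N)} {f : MvPolynomial (Fin N) K}
    (hf : f ∈ SS K I) : opD2 α (opDel α I f) = opDel α I (opD2 α f) := by
  rw [opDel_eq α hf, opDel_eq α (opD2_mem_SS α hf), map_add, map_sum, map_smul]
  congr 1
  apply sum_congr rfl
  intro i _
  have h := lie_D2_TT (K := K) (N := N) α i
  rw [cmt_def, sub_eq_zero] at h
  exact LinearMap.congr_fun h f

lemma aeval_comm {R : Type*} [CommRing R] (L : Module.End R (MvPolynomial (Fin N) R))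
    (p : Polynomial R) : L * Polynomial.aeval L p = Polynomial.aeval L p * L := by
  have e1 : Polynomial.aeval L (Polynomial.X * p) = L * Polynomial.aeval L p := by
    rw [map_mul, Polynomial.aeval_X]
  have e2 : Polynomial.aeval L (p * Polynomial.X) = Polynomial.aeval L p * L := by
    rw [map_mul, Polynomial.aeval_X]
  rw [← e1, ← e2, mul_comm]

/-- existence of joint eigenvectors -/
theorem exists_joint (I : Finset (Fin N)) {a : Fin N →₀ ℕ} (hinj : InjOnI I a) :
    ∃ P : MvPolynomial (Fin N) (RatFunc ℚ), Lead I a P ∧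
      (∃ x : RatFunc ℚ, opD2 (RatFunc.X : RatFunc ℚ) P = x • P) ∧
      ∃ x : RatFunc ℚ, opDel (RatFunc.X : RatFunc ℚ) I P = x • P := by
  set α : RatFunc ℚ := RatFunc.X with hα
  have hdif : dif α I a ≠ 0 := by
    have h3 := map_dif (algebraMap (Polynomial ℚ) (RatFunc ℚ)) Polynomial.X I a
    rw [RatFunc.algebraMap_X] at h3
    rw [hα, ← h3]
    intro h4
    have := (map_eq_zero_iff _ (IsFractionRing.injective (Polynomial ℚ) (RatFunc ℚ))).mp h4
    exact dif_ne_zero_generic this
  obtain ⟨m, hmSS, hm1, hmsupp⟩ := exists_mon (K := RatFunc ℚ) hinj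
  have hm : Lead I a m := ⟨hmSS, hm1, fun b hb => Or.inl (hmsupp b hb)⟩
  set S : Set (Fin N →₀ ℕ) := {b | Orb I b a ∨ Lt I b a} with hS
  have hdown : DownCl I S := by
    intro e he b hb
    right
    rcases he with h | h
    · obtain ⟨τ, ρ, hτ⟩ := h
      rw [hτ] at hb
      exact (Lt_comp_right (yg_mem_iff I τ ρ)).mp hb
    · exact hb.trans h
  have htop : ∀ e ∈ S, ¬ Lt I a e := by
    intro e he hlt
    have h1 := hlt.2.2
    rcases he with h | h
    · rw [h.Wt_eq] at h1
      exact lt_irrefl _ h1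
    · have := h.2.2
      omega
  -- the projected vector
  set q := proj α I a m with hq
  have hqSS : q ∈ SS (RatFunc ℚ) I := proj_mem_SS hmSS
  have hqS : q ∈ restrictSupport (RatFunc ℚ) S := by
    rw [hq, proj]
    apply aeval_mem (fun f hf => (tri_opH α I).support hdown hf)
    rw [mem_restr]
    intro b hb
    exact Or.inl (hmsupp b hb)
  have hqa : coeff a q = dif α I a := by
    rw [hq, proj, (tri_opH α I).coeff_aeval hdown htop _ (by
      rw [mem_restr]
      intro b hb
      exact Or.inl (hmsupp b hb)), hm1, mul_one, annP_eval, dif]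
  have hHq : opH α I q = evH α I a • q := by
    rw [← sub_eq_zero]
    have h1 : opH α I m - evH α I a • m ∈ SS (RatFunc ℚ) I :=
      Submodule.sub_mem _ (opH_mem_SS α hmSS) (Submodule.smul_mem _ _ hmSS)
    have h2 : opH α I m - evH α I a • m ∈ Low (RatFunc ℚ) I a := by
      rw [mem_Low]
      intro b hb
      have h3 : opH α I m - evH α I a • m ∈ restrictSupport (RatFunc ℚ) S := by
        have hmS : m ∈ restrictSupport (RatFunc ℚ) S := by
          rw [mem_restr]
          intro b hb
          exact Or.inl (hmsupp b hb)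
        exact Submodule.sub_mem _ ((tri_opH α I).support hdown hmS)
          (Submodule.smul_mem _ _ hmS)
      rcases mem_restr.mp h3 b hb with h4 | h4
      · exfalso
        apply hb
        apply coeff_SS_zero h1 h4
        rw [coeff_sub, coeff_smul, (tri_opH α I).coeff_top (f := m) (b := a) (by
          intro e he
          exact htop e (Or.inl (hmsupp e he))), smul_eq_mul, sub_self]
      · exact h4
    have h3 := (tri_opH α I).kill_Low (fun f hf => opH_mem_SS α hf) a h1 h2
    rw [map_sub, map_smul] at h3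
    rw [← h3]
    congr 1
    rw [hq, proj]
    have h4 : (opH α I) * Polynomial.aeval (opH α I)
        (annP (fun e : Fin N →₀ ℕ => evH α I e) (Below I a)) =
        Polynomial.aeval (opH α I)
        (annP (fun e : Fin N →₀ ℕ => evH α I e) (Below I a)) * (opH α I) := aeval_comm _ _
    exact LinearMap.congr_fun h4 m
  set P := (dif α I a)⁻¹ • q with hP
  have hPL : Lead I a P := by
    refine ⟨Submodule.smul_mem _ _ hqSS, ?_, ?_⟩
    · rw [hP, coeff_smul, hqa, smul_eq_mul, inv_mul_cancel₀ hdif]
    · intro b hb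
      rw [hP, coeff_smul] at hb
      exact mem_restr.mp hqS b (right_ne_zero_of_mul hb)
  have hPS : P ∈ restrictSupport (RatFunc ℚ) S := Submodule.smul_mem _ _ hqS
  have hHP : opH α I P = evH α I a • P := by
    rw [hP, map_smul, hHq, smul_comm]
  clear_value P
  -- the operator `2 D`
  have hZ : opD2 α P - evD α a • P = 0 := by
    set Z := opD2 α P - evD α a • P with hZdef
    have hZSS : Z ∈ SS (RatFunc ℚ) I :=
      Submodule.sub_mem _ (opD2_mem_SS α hPL.1) (Submodule.smul_mem _ _ hPL.1)
    have hZS : Z ∈ restrictSupport (RatFunc ℚ) S :=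
      Submodule.sub_mem _ ((tri_opD2 α I).support hdown hPS) (Submodule.smul_mem _ _ hPS)
    have hZL : Z ∈ Low (RatFunc ℚ) I a := by
      rw [mem_Low]
      intro b hb
      rcases mem_restr.mp hZS b hb with h4 | h4
      · exfalso
        apply hb
        apply coeff_SS_zero hZSS h4
        rw [hZdef, coeff_sub, coeff_smul, (tri_opD2 α I).coeff_top (f := P) (b := a) (by
          intro e he
          exact htop e (mem_restr.mp hPS e he)), smul_eq_mul, sub_self]
      · exact h4
    have hHD : opH α I (opD2 α P) = opD2 α (opH α I P) := by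
      rw [opH, LinearMap.add_apply, LinearMap.add_apply, map_add, D2_Del_comm α hPL.1]
    have hHZ : opH α I Z = evH α I a • Z := by
      rw [hZdef, map_sub, hHD, hHP, map_smul, map_smul, hHP, smul_sub, smul_comm]
    have h5 := (tri_opH α I).kill_Low (fun f hf => opH_mem_SS α hf) a hZSS hZL
    rw [aeval_eigen hHZ, annP_eval] at h5
    rcases smul_eq_zero.mp h5 with h6 | h6
    · exact absurd h6 hdif
    · exact h6
  refine ⟨P, hPL, ⟨evD α a, sub_eq_zero.mp hZ⟩, ⟨evH α I a - evD α a, ?_⟩⟩
  have h7 := hHP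
  rw [opH, LinearMap.add_apply, sub_eq_zero.mp hZ] at h7
  rw [sub_smul, ← h7]
  abel

end Pool.Agent.Lib.MP_2558e3_co
end

section

/-!
Existence of Jack superpolynomials: the superpolynomial level.
-/

namespace Pool.Agent.Lib.MP_2558e3_co

open scoped TensorProduct
open Finset MvPolynomial

variable {N : ℕ}

theorem jack_exists (Λ : SPart N) : ∃ c : SPart N →₀ RatFunc ℚ, IsJack RatFunc.X Λ c := by
  classical
  obtain ⟨P, hP, ⟨x, hx⟩, ⟨y, hy⟩⟩ := exists_joint (In N Λ.m) (a := Λ.ex) Λ.decr.inj
  set f : SPart N → RatFunc ℚ := fun Ω => if Ω.m = Λ.m then coeff Ω.ex P else 0 with hf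
  have hfin : (Function.support f).Finite := by
    apply Set.Finite.of_finite_image (f := SPart.ex)
    · apply Set.Finite.subset (P.support : Set (Fin N →₀ ℕ)).toFinite
      rintro _ ⟨Ω, hΩ, rfl⟩
      rw [Function.mem_support, hf] at hΩ
      simp only at hΩ
      split_ifs at hΩ with h
      · exact mem_coe.mpr (mem_support_iff.mpr hΩ)
      · exact absurd rfl hΩ
    · intro Ω hΩ Ω' hΩ' heq
      rw [Function.mem_support, hf] at hΩ hΩ'
      simp only at hΩ hΩ'
      split_ifs at hΩ with h
      · split_ifs at hΩ' with h'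
        · apply SPart.ext' (h.trans h'.symm)
          have := congrArg (fun e : Fin N →₀ ℕ => (e : Fin N → ℕ)) heq
          exact this
        · exact absurd rfl hΩ'
      · exact absurd rfl hΩ
  set c : SPart N →₀ RatFunc ℚ := Finsupp.ofSupportFinite f hfin with hc
  have hcf : ∀ Ω, c Ω = if Ω.m = Λ.m then coeff Ω.ex P else 0 := fun Ω => rfl
  have hcΛ : c Λ = 1 := by rw [hcf, if_pos rfl, hP.2.1]
  have hle : ∀ Ω, c Ω ≠ 0 → Ω.Le Λ := by
    intro Ω hΩ
    rw [hcf] at hΩ
    split_ifs at hΩ with h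
    · rcases hP.2.2 Ω.ex hΩ with h1 | h1
      · have h2 : Decr (In N Λ.m) Ω.part := by rw [← h]; exact Ω.decr
        have h3 := Decr.eq_of_orb Λ.decr h2 h1
        rw [SPart.ext' h h3]
        exact Λ.le_refl
      · exact SPart.le_of_lt h h1
    · exact absurd rfl hΩ
  have hcm : cm (In N Λ.m) (pol c) = P := by
    rw [← sub_eq_zero]
    apply SS_eq_zero (Submodule.sub_mem _ (cm_mem_SS (pol_sym c) (In N Λ.m)) hP.1)
    intro a ha
    have h5 : (SPart.mk' Λ.m Λ.hm a ha).ex = a := by
      ext i; rfl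
    have h6 := cf_pol c (SPart.mk' Λ.m Λ.hm a ha)
    have h7 : (SPart.mk' Λ.m Λ.hm a ha).m = Λ.m := rfl
    rw [hcf, if_pos h7, cf, h5] at h6
    change coeff a (cm (In N Λ.m) (pol c)) = coeff a P at h6
    rw [coeff_sub, h6, sub_self]
  -- all components
  have hcomp : ∀ S : Finset (Fin N), cm S (pol c) = 0 ∨
      ∃ (σ : Equiv.Perm (Fin N)) (t : RatFunc ℚ), (In N Λ.m).map σ.toEmbedding = S ∧
        cm S (pol c) = t • rename σ P := by
    intro S
    obtain ⟨σ, hσ, h1⟩ := cm_from_In (pol_sym c) S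
    by_cases h : S.card = Λ.m
    · right
      rw [h] at hσ h1
      exact ⟨σ, _, hσ, by rw [h1, hcm]⟩
    · left
      rw [h1, pol_cm_ne c hle (card_le_N S) h, map_zero, smul_zero]
  refine ⟨c, hcΛ, hle, ⟨x / 2, ?_⟩, ⟨y, ?_⟩⟩
  · apply (eigD_iff (pol_sym c) RatFunc.X (x / 2)).mpr
    intro S
    rw [mul_div_cancel₀ _ (two_ne_zero)]
    rcases hcomp S with h | ⟨σ, t, _, h⟩
    · rw [h, map_zero, smul_zero]
    · rw [h, map_smul, ← rename_opD2, hx, map_smul, smul_comm]
  · apply (eigDelta_iff (pol_sym c) RatFunc.X y).mpr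
    intro S
    rcases hcomp S with h | ⟨σ, t, hσ, h⟩
    · rw [h, map_zero, smul_zero]
    · rw [h, map_smul, ← hσ, ← rename_opDel, hy, map_smul, smul_comm]

end Pool.Agent.Lib.MP_2558e3_co
end

section

/-!
The specialized Jack superpolynomials form a basis of the clustering ideal.
-/

namespace Pool.Agent.Lib.MP_2558e3_co

open scoped TensorProduct
open Finset MvPolynomial

variable {N : ℕ}

/-- evaluation of a rational function given as a quotient -/
lemma eval_of_mul {D r : Polynomial ℚ} {x : RatFunc ℚ} {t : ℚ} (hD : D.eval t ≠ 0)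
    (h : algebraMap (Polynomial ℚ) (RatFunc ℚ) D * x = algebraMap (Polynomial ℚ) (RatFunc ℚ) r) :
    x.denom.eval t ≠ 0 ∧
      RatFunc.eval (algebraMap ℚ ℂ) (t : ℂ) x = ((r.eval t / D.eval t : ℚ) : ℂ) := by
  have hinj : Function.Injective (algebraMap (Polynomial ℚ) (RatFunc ℚ)) :=
    IsFractionRing.injective (Polynomial ℚ) (RatFunc ℚ)
  have hden : algebraMap (Polynomial ℚ) (RatFunc ℚ) x.denom ≠ 0 := by
    intro h0
    exact x.denom_ne_zero ((map_eq_zero_iff _ hinj).mp h0)
  have h1 : D * x.num = r * x.denom := by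
    apply hinj
    rw [map_mul, map_mul, ← h, mul_assoc]
    congr 1
    have := RatFunc.num_div_denom x
    rw [div_eq_iff hden] at this
    exact this
  have hdvd : x.denom ∣ D := by
    have h2 : x.denom ∣ D * x.num := by
      rw [h1]; exact Dvd.intro_left _ rfl
    exact (RatFunc.isCoprime_num_denom x).symm.dvd_of_dvd_mul_right h2
  have hx : x.denom.eval t ≠ 0 := by
    intro h0
    obtain ⟨q, hq⟩ := hdvd
    apply hD
    rw [hq, Polynomial.eval_mul, h0, zero_mul]
  refine ⟨hx, ?_⟩
  have h3 := congrArg (Polynomial.eval t) h1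
  rw [Polynomial.eval_mul, Polynomial.eval_mul] at h3
  have h4 : ∀ p : Polynomial ℚ, p.eval₂ (algebraMap ℚ ℂ) (t : ℂ) = ((p.eval t : ℚ) : ℂ) := by
    intro p
    have := Polynomial.eval₂_at_apply (p := p) (algebraMap ℚ ℂ) t
    simpa using this
  rw [RatFunc.eval, h4, h4]
  rw [← Rat.cast_div]
  congr 1
  rw [div_eq_div_iff hx hD, mul_comm, h3]

lemma cm_collapse (k : ℕ) (S : Finset (Fin N)) (F : SuperPoly ℂ N) :
    cm S (collapse k F) =
      rename (fun i : Fin N => if (i : ℕ) ≤ k then ⟨0, i.pos⟩ else i) (cm S F) := by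
  rw [collapse, cmp_map_id]
  rfl

/-- the clustering ideal in terms of components -/
theorem clust_iff {k : ℕ} {F : SuperPoly ℂ N} : F ∈ Clust N k ↔
    IsSym F ∧ ∀ m, m ≤ N → cm (In N m) F ∈ Van ℂ N k := by
  constructor
  · rintro ⟨hF, hc⟩
    refine ⟨hF, ?_⟩
    intro m _ g C hC hg
    have hkN : k + 1 ≤ N := by rw [← hC]; exact card_le_N C
    have hc' := hc hkN
    obtain ⟨σ, hσ⟩ := exists_map_eq (S := In N (k + 1)) (T := C) (by rw [card_In hkN, hC])
    have hS : ((In N m).map σ.symm.toEmbedding).map σ.toEmbedding = In N m := by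
      ext x
      simp
    have h1 := cm_sym (K := ℂ) hF σ ((In N m).map σ.symm.toEmbedding)
    rw [hS] at h1
    rw [h1, map_smul, rename_rename]
    have h2 : g ∘ σ = (g ∘ σ) ∘ (fun i : Fin N => if (i : ℕ) ≤ k then ⟨0, i.pos⟩ else i) := by
      ext i
      simp only [Function.comp_apply]
      by_cases hi : (i : ℕ) ≤ k
      · rw [if_pos hi]
        congr 1
        apply hg
        · rw [← hσ]
          exact mem_map_of_mem _ (mem_In.mpr (by omega))
        · rw [← hσ]
          exact mem_map_of_mem _ (mem_In.mpr (by simp))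
      · rw [if_neg hi]
    rw [h2, ← rename_rename, ← cm_collapse, hc', map_zero, map_zero, smul_zero]
  · rintro ⟨hF, hV⟩
    refine ⟨hF, ?_⟩
    intro hkN
    apply cmp_ext
    intro S
    change cm S (collapse k F) = cm S 0
    rw [cm_collapse, map_zero]
    obtain ⟨σ, _, h1⟩ := cm_from_In (K := ℂ) hF S
    have h2 : cm S F ∈ Van ℂ N k := by
      rw [h1]
      exact Submodule.smul_mem _ _ (rename_mem_Van (hV _ (card_le_N S)) σ)
    apply h2 _ (In N (k + 1)) (card_In hkN)
    intro i hi j hj
    rw [mem_In] at hi hj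
    rw [if_pos (by omega), if_pos (by omega)]

/-- the coefficients of a specialized expansion -/
lemma cf_specAt (z : ℂ) (c : SPart N →₀ RatFunc ℚ) (Ω : SPart N) :
    cf Ω (specAt z c) = RatFunc.eval (algebraMap ℚ ℂ) z (c Ω) := by
  classical
  rw [specAt, Finsupp.sum, cf_sum]
  have h : ∀ Ω' ∈ c.support, cf Ω (RatFunc.eval (algebraMap ℚ ℂ) z (c Ω') • Ω'.mono ℂ) =
      if Ω' = Ω then RatFunc.eval (algebraMap ℚ ℂ) z (c Ω) else 0 := by
    intro Ω' _
    rw [cf_smul]
    split_ifs with h
    · rw [h, cf_mono_self, mul_one]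
    · rw [cf_mono_ne (fun h' => h h'.symm), mul_zero]
  rw [sum_congr rfl h, sum_ite_eq']
  split_ifs with h1
  · rfl
  · rw [Finsupp.mem_support_iff, not_not] at h1
    rw [h1, RatFunc.eval_zero]

lemma specAt_sym (z : ℂ) (c : SPart N →₀ RatFunc ℚ) : IsSym (specAt z c) :=
  IsSym.sum _ _ (fun Ω _ => (mono_sym Ω).smul _)

lemma specAt_cm_ne (z : ℂ) (c : SPart N →₀ RatFunc ℚ) {Λ : SPart N}
    (hc : ∀ Ω, c Ω ≠ 0 → Ω.Le Λ) {m : ℕ}
    (hm : m ≤ N) (hne : m ≠ Λ.m) : cm (In N m) (specAt z c) = 0 := by
  rw [specAt, Finsupp.sum, map_sum]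
  apply sum_eq_zero
  intro Ω hΩ
  rw [Finsupp.mem_support_iff] at hΩ
  have h1 := (SPart.le_cases (hc Ω hΩ)).1
  rw [LinearMap.map_smul_of_tower, cm_mono_ne Ω hm (by rw [h1]; exact hne), smul_zero]

/-- regularity and the specialized component -/
theorem spec_super {k : ℕ} (hk : 1 ≤ k) {Λ : SPart N} (hadm : Λ.Admissible k 2)
    {c : SPart N →₀ RatFunc ℚ} (h : IsJack RatFunc.X Λ c) :
    (∀ Ω, (c Ω).denom.eval (-((k : ℚ) + 1)) ≠ 0) ∧
      Lead (In N Λ.m) Λ.ex (cm (In N Λ.m) (specAt (-((k : ℂ) + 1)) c)) ∧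
      cm (In N Λ.m) (specAt (-((k : ℂ) + 1)) c) ∈ Van ℂ N k := by
  obtain ⟨x, hx⟩ := jack_eigen h
  have hL := pol_lead c h.1 h.2.1
  obtain ⟨D, hD, p₀, hp₀, hV, hcoef⟩ := spec_main hk Λ.decr.inj ((adm_iff Λ).mp hadm) hL hx
  have hz : ((-((k : ℚ) + 1) : ℚ) : ℂ) = -((k : ℂ) + 1) := by push_cast; ring
  have hout : ∀ Ω : SPart N, Ω.m ≠ Λ.m → c Ω = 0 := by
    intro Ω hm
    by_contra hne
    exact hm (SPart.le_cases (h.2.1 Ω hne)).1
  have hin : ∀ Ω : SPart N, Ω.m = Λ.m → (c Ω).denom.eval (-((k : ℚ) + 1)) ≠ 0 ∧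
      RatFunc.eval (algebraMap ℚ ℂ) (-((k : ℂ) + 1)) (c Ω) = ((coeff Ω.ex p₀ : ℚ) : ℂ) := by
    intro Ω hm
    obtain ⟨r, h1, h2⟩ := hcoef Ω.ex
    have h3 : coeff Ω.ex (cm (In N Λ.m) (pol c)) = c Ω := by
      rw [← cf_pol c Ω, cf, hm]
    rw [h3] at h1
    have h4 := eval_of_mul hD h1
    rw [hz] at h4
    rw [h2]
    exact h4
  have hcm : cm (In N Λ.m) (specAt (-((k : ℂ) + 1)) c) =
      MvPolynomial.map (algebraMap ℚ ℂ) p₀ := by
    rw [← sub_eq_zero]
    apply SS_eq_zero (Submodule.sub_mem _ (cm_mem_SS (specAt_sym _ c) (In N Λ.m))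
      (map_mem_SS (algebraMap ℚ ℂ) hp₀.1))
    intro a ha
    have h5 : (SPart.mk' Λ.m Λ.hm a ha).ex = a := by
      ext i; rfl
    have h6 := (hin (SPart.mk' Λ.m Λ.hm a ha) rfl).2
    rw [← cf_specAt, cf, h5] at h6
    rw [coeff_sub, coeff_map]
    change coeff a (cm (In N Λ.m) (specAt (-((k : ℂ) + 1)) c)) = _ at h6
    rw [h6]
    simp
  refine ⟨?_, ?_, ?_⟩
  · intro Ω
    by_cases hm : Ω.m = Λ.m
    · exact (hin Ω hm).1
    · rw [hout Ω hm, RatFunc.denom_zero]
      simp
  · rw [hcm]
    exact map_lead _ hp₀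
  · rw [hcm]
    exact map_mem_Van _ hV

theorem spec_mem_clust {k : ℕ} (hk : 1 ≤ k) {Λ : SPart N} (hadm : Λ.Admissible k 2)
    {c : SPart N →₀ RatFunc ℚ} (h : IsJack RatFunc.X Λ c) :
    specAt (-((k : ℂ) + 1)) c ∈ Clust N k := by
  rw [clust_iff]
  refine ⟨specAt_sym _ c, ?_⟩
  intro m hm
  by_cases hmm : m = Λ.m
  · rw [hmm]
    exact (spec_super hk hadm h).2.2
  · rw [specAt_cm_ne _ c h.2.1 hm hmm]
    exact Submodule.zero_mem _

/-- the clustering ideal as a subspace -/
def clustSub (N k : ℕ) : Submodule ℂ (SuperPoly ℂ N) where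
  carrier := Clust N k
  add_mem' := by
    intro F G hF hG
    refine ⟨IsSym.add hF.1 hG.1, fun h => ?_⟩
    rw [map_add, hF.2 h, hG.2 h, add_zero]
  zero_mem' := ⟨IsSym.zero, fun _ => map_zero _⟩
  smul_mem' := by
    intro c F hF
    refine ⟨IsSym.smul c hF.1, fun h => ?_⟩
    rw [map_smul, hF.2 h, smul_zero]

section Basis

variable {k : ℕ} (hk : 1 ≤ k) {c : SPart N → (SPart N →₀ RatFunc ℚ)}
  (hc : ∀ Λ, IsJack RatFunc.X Λ (c Λ))

include hk hc

theorem span_eq : (Submodule.span ℂ (Set.range fun Λ : {Λ : SPart N // Λ.Admissible k 2} =>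
    specAt (-((k : ℂ) + 1)) (c Λ)) : Set (SuperPoly ℂ N)) = Clust N k := by
  classical
  apply Set.Subset.antisymm
  · have : Submodule.span ℂ (Set.range fun Λ : {Λ : SPart N // Λ.Admissible k 2} =>
        specAt (-((k : ℂ) + 1)) (c Λ)) ≤ clustSub N k := by
      rw [Submodule.span_le]
      rintro _ ⟨Λ, rfl⟩
      exact spec_mem_clust hk Λ.2 (hc Λ)
    exact this
  · intro F hF
    rw [clust_iff] at hF
    obtain ⟨hsym, hV⟩ := hF
    -- lifting a component
    have hlift : ∀ m, m ≤ N → ∃ G ∈ Submodule.span ℂ (Set.range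
        fun Λ : {Λ : SPart N // Λ.Admissible k 2} => specAt (-((k : ℂ) + 1)) (c Λ)),
        cm (In N m) G = cm (In N m) F ∧ ∀ m', m' ≤ N → m' ≠ m → cm (In N m') G = 0 := by
      intro m hm
      set p : (Fin N →₀ ℕ) → MvPolynomial (Fin N) ℂ := fun a =>
        if h : Decr (In N m) a then
          cm (In N m) (specAt (-((k : ℂ) + 1)) (c (SPart.mk' m hm a h))) else 0 with hp
      have hspan := span_main (k := k) (I := In N m) p (by
        intro a ha hadm
        have hpa : p a = cm (In N m) (specAt (-((k : ℂ) + 1)) (c (SPart.mk' m hm a ha))) := by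
          rw [hp]
          simp only
          rw [dif_pos ha]
        have h1 := spec_super hk (Λ := SPart.mk' m hm a ha)
          ((adm_iff (SPart.mk' m hm a ha)).mpr hadm) (hc (SPart.mk' m hm a ha))
        have h5 : (SPart.mk' m hm a ha).ex = a := by
          ext i; rfl
        rw [h5] at h1
        rw [hpa]
        exact ⟨h1.2.1, h1.2.2⟩)
        ((cm (In N m) F).support.sup (fun b : Fin N →₀ ℕ => Wt (In N m) b) + 1)
        (cm (In N m) F) (cm_mem_SS hsym _) (hV m hm) (by
          intro b hb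
          apply Nat.lt_succ_of_le
          exact le_sup (f := fun b : Fin N →₀ ℕ => Wt (In N m) b) (mem_support_iff.mpr hb))
      -- transfer
      have htrans : ∀ f ∈ Submodule.span ℂ (p '' {a | Decr (In N m) a ∧
          ∀ j, wcard (In N m) a j ≤ k}), ∃ G ∈ Submodule.span ℂ (Set.range
          fun Λ : {Λ : SPart N // Λ.Admissible k 2} => specAt (-((k : ℂ) + 1)) (c Λ)),
          cm (In N m) G = f ∧ ∀ m', m' ≤ N → m' ≠ m → cm (In N m') G = 0 := by
        intro f hf
        induction hf using Submodule.span_induction with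
        | mem f hf =>
          obtain ⟨a, ⟨ha, hadm⟩, rfl⟩ := hf
          have hpa : p a = cm (In N m) (specAt (-((k : ℂ) + 1)) (c (SPart.mk' m hm a ha))) := by
            rw [hp]
            simp only
            rw [dif_pos ha]
          refine ⟨specAt (-((k : ℂ) + 1)) (c (SPart.mk' m hm a ha)),
            Submodule.subset_span ⟨⟨SPart.mk' m hm a ha, (adm_iff _).mpr hadm⟩, rfl⟩, hpa.symm, ?_⟩
          intro m' hm' hne
          exact specAt_cm_ne _ _ (hc (SPart.mk' m hm a ha)).2.1 hm' hne
        | zero => exact ⟨0, Submodule.zero_mem _, map_zero _, fun _ _ _ => map_zero _⟩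
        | add f g _ _ hf hg =>
          obtain ⟨F', hF', h1, h2⟩ := hf
          obtain ⟨G', hG', h3, h4⟩ := hg
          refine ⟨F' + G', Submodule.add_mem _ hF' hG', by rw [map_add, h1, h3], ?_⟩
          intro m' hm' hne
          rw [map_add, h2 m' hm' hne, h4 m' hm' hne, add_zero]
        | smul x f _ hf =>
          obtain ⟨F', hF', h1, h2⟩ := hf
          refine ⟨x • F', Submodule.smul_mem _ _ hF', ?_, ?_⟩
          · rw [LinearMap.map_smul_of_tower, h1]
          · intro m' hm' hne
            rw [LinearMap.map_smul_of_tower, h2 m' hm' hne, smul_zero]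
      exact htrans _ hspan
    choose! G hG hG1 hG2 using hlift
    have hGsym : ∀ G ∈ Submodule.span ℂ (Set.range
        fun Λ : {Λ : SPart N // Λ.Admissible k 2} => specAt (-((k : ℂ) + 1)) (c Λ)),
        IsSym G := by
      intro G hG
      induction hG using Submodule.span_induction with
      | mem f hf =>
        obtain ⟨Λ, rfl⟩ := hf
        exact specAt_sym _ _
      | zero => exact IsSym.zero
      | add f g _ _ hf hg => exact hf.add hg
      | smul x f _ hf => exact hf.smul x
    have hF : F = ∑ m ∈ range (N + 1), G m := by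
      rw [← sub_eq_zero]
      apply sym_eq_zero
      · apply hsym.sub
        apply IsSym.sum
        intro m hm
        exact hGsym _ (hG m (by rw [mem_range] at hm; omega))
      · intro m hm
        rw [map_sub, map_sum, sub_eq_zero]
        symm
        rw [← hG1 m hm]
        apply sum_eq_single_of_mem m (mem_range.mpr (by omega))
        intro m' hm' hne
        exact hG2 m' (by rw [mem_range] at hm'; omega) m hm hne.symm
    rw [hF]
    apply Submodule.sum_mem
    intro m hm
    exact hG m (by rw [mem_range] at hm; omega)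

theorem lin_indep : LinearIndependent ℂ (fun Λ : {Λ : SPart N // Λ.Admissible k 2} =>
    specAt (-((k : ℂ) + 1)) (c Λ)) := by
  classical
  rw [linearIndependent_iff']
  intro s g hsum
  by_contra hcon
  simp only [not_forall] at hcon
  obtain ⟨Λ₀, hΛ₀, hg₀⟩ := hcon
  set T := s.filter (fun Λ => g Λ ≠ 0) with hT
  have hTne : T.Nonempty := ⟨Λ₀, by rw [hT, mem_filter]; exact ⟨hΛ₀, hg₀⟩⟩
  obtain ⟨Λ, hΛ, hmax⟩ := exists_max_image T
    (fun Λ => Wt (In N Λ.1.m) Λ.1.part) hTne
  rw [hT, mem_filter] at hΛ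
  apply hΛ.2
  have h1 := congrArg (cf Λ.1) hsum
  rw [cf_sum] at h1
  have h2 : ∀ Λ' ∈ s, cf Λ.1 (g Λ' • specAt (-((k : ℂ) + 1)) (c Λ')) =
      if Λ' = Λ then g Λ else 0 := by
    intro Λ' hΛ'
    rw [cf_smul, cf_specAt]
    split_ifs with h3
    · rw [h3, (hc Λ.1).1, RatFunc.eval_one, mul_one]
    · by_cases h4 : g Λ' = 0
      · rw [h4, zero_mul]
      · have h5 : c Λ'.1 Λ.1 = 0 := by
          by_contra h6
          have h7 := SPart.le_cases ((hc Λ'.1).2.1 Λ.1 h6)
          rcases h7.2 with h8 | h8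
          · exact h3 (Subtype.ext h8.symm)
          · have h9 := hmax Λ' (by rw [hT, mem_filter]; exact ⟨hΛ', h4⟩)
            have h10 := h8.2.2
            rw [h7.1] at h9
            omega
        rw [h5, RatFunc.eval_zero, mul_zero]
  rw [sum_congr rfl h2, sum_ite_eq', if_pos hΛ.1] at h1
  rw [h1, cf, map_zero, coeff_zero]

end Basis

end Pool.Agent.Lib.MP_2558e3_co
end
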