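import Pool.Agent.Lib.MP_2558e3_co.Eigen

/-!
Orbits, sorting and counting.
-/

namespace Pool.Agent.Lib.MP_2558e3_co

open Finset MvPolynomial

variable {N : ℕ}

lemma exists_perm_of_card {α β : Type*} [Fintype α] [DecidableEq β] (f g : α → β)
    (h : ∀ v, (univ.filter (fun i => f i = v)).card = (univ.filter (fun i => g i = v)).card) :
    ∃ σ : Equiv.Perm α, ∀ i, f i = g (σ i) := by
  classical
  have e : ∀ v, {i // f i = v} ≃ {i // g i = v} := by
    intro v
    apply Fintype.equivOfCardEq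
    rw [Fintype.card_subtype, Fintype.card_subtype, h v]
  exact ⟨Equiv.ofFiberEquiv e, fun i => (Equiv.ofFiberEquiv_map e i).symm⟩

lemma card_subtype_filter (I : Finset (Fin N)) (P : Fin N → Prop) [DecidablePred P] :
    (univ.filter (fun i : {i // i ∈ I} => P i)).card = (I.filter P).card := by
  rw [← card_map (Function.Embedding.subtype _)]
  congr 1
  ext x
  simp only [mem_map, mem_filter, mem_univ, true_and, Function.Embedding.subtype_apply]
  constructor
  · rintro ⟨y, hy, rfl⟩
    exact ⟨y.2, hy⟩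
  · rintro ⟨h1, h2⟩
    exact ⟨⟨x, h1⟩, h2, rfl⟩

lemma card_subtype_filter' (I : Finset (Fin N)) (P : Fin N → Prop) [DecidablePred P] :
    (univ.filter (fun i : {i // ¬ i ∈ I} => P i)).card = ((univ \ I).filter P).card := by
  rw [← card_map (Function.Embedding.subtype _)]
  congr 1
  ext x
  simp only [mem_map, mem_filter, mem_univ, true_and, Function.Embedding.subtype_apply, mem_sdiff]
  constructor
  · rintro ⟨y, hy, rfl⟩
    exact ⟨y.2, hy⟩
  · rintro ⟨h1, h2⟩
    exact ⟨⟨x, h1⟩, h2, rfl⟩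

lemma orb_of_card {I : Finset (Fin N)} {a b : Fin N → ℕ}
    (h1 : ∀ v, (I.filter (fun i => b i = v)).card = (I.filter (fun i => a i = v)).card)
    (h2 : ∀ v, ((univ \ I).filter (fun i => b i = v)).card =
      ((univ \ I).filter (fun i => a i = v)).card) : Orb I b a := by
  obtain ⟨τ, hτ⟩ := exists_perm_of_card (fun i : {i // i ∈ I} => b i)
    (fun i : {i // i ∈ I} => a i) (fun v => by
      rw [card_subtype_filter I (fun i => b i = v), card_subtype_filter I (fun i => a i = v), h1])
  obtain ⟨ρ, hρ⟩ := exists_perm_of_card (fun i : {i // ¬ i ∈ I} => b i)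
    (fun i : {i // ¬ i ∈ I} => a i) (fun v => by
      rw [card_subtype_filter' I (fun i => b i = v), card_subtype_filter' I (fun i => a i = v), h2])
  refine ⟨τ, ρ, ?_⟩
  ext i
  by_cases hi : i ∈ I
  · rw [Function.comp_apply, yg, Equiv.Perm.subtypeCongr.left_apply _ _ hi]
    exact hτ ⟨i, hi⟩
  · rw [Function.comp_apply, yg, Equiv.Perm.subtypeCongr.right_apply _ _ hi]
    exact hρ ⟨i, hi⟩

/-- the key of an exponent -/
def key (I : Finset (Fin N)) (a : Fin N → ℕ) (i : Fin N) : ℕ := 2 * a i + if i ∈ I then 1 else 0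

lemma key_div (I : Finset (Fin N)) (a : Fin N → ℕ) (i : Fin N) : key I a i / 2 = a i := by
  unfold key; split_ifs <;> omega

lemma key_div' (I : Finset (Fin N)) (a : Fin N → ℕ) (i : Fin N) :
    (key I a i + 1) / 2 = fl I a i := by
  unfold key fl; split_ifs <;> omega

/-- counting values -/
def nv (b : Fin N → ℕ) (v : ℕ) : ℕ := (univ.filter (fun i => b i = v)).card

lemma orb_of_key {I : Finset (Fin N)} {a b : Fin N → ℕ}
    (h : ∀ w, nv (key I b) w = nv (key I a) w) : Orb I b a := by
  apply orb_of_card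
  · intro v
    have e : ∀ c : Fin N → ℕ, (I.filter (fun i => c i = v)).card = nv (key I c) (2 * v + 1) := by
      intro c
      unfold nv
      congr 1
      ext i
      simp only [mem_filter, mem_univ, true_and]
      unfold key
      split_ifs with hi
      · simp only [hi, true_and]; omega
      · simp only [hi, false_and, false_iff]; omega
    rw [e, e, h]
  · intro v
    have e : ∀ c : Fin N → ℕ, ((univ \ I).filter (fun i => c i = v)).card =
        nv (key I c) (2 * v) := by
      intro c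
      unfold nv
      congr 1
      ext i
      simp only [mem_filter, mem_univ, true_and, mem_sdiff]
      unfold key
      split_ifs with hi
      · simp only [hi, not_true_eq_false, false_and, false_iff]; omega
      · simp only [hi, not_false_iff, true_and]; omega
    rw [e, e, h]

lemma nv_star (I : Finset (Fin N)) (a : Fin N → ℕ) (v : ℕ) :
    nv a v = nv (key I a) (2 * v) + nv (key I a) (2 * v + 1) := by
  unfold nv
  rw [← card_union_of_disjoint]
  · congr 1
    ext i
    simp only [mem_filter, mem_univ, true_and, mem_union]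
    unfold key
    split_ifs <;> omega
  · rw [disjoint_left]
    intro i
    simp only [mem_filter, mem_univ, true_and]
    omega

lemma nv_circ_zero (I : Finset (Fin N)) (a : Fin N → ℕ) :
    nv (fl I a) 0 = nv (key I a) 0 := by
  unfold nv
  congr 1
  ext i
  simp only [mem_filter, mem_univ, true_and]
  unfold key fl
  split_ifs
  · exact Iff.rfl
  · omega

lemma nv_circ (I : Finset (Fin N)) (a : Fin N → ℕ) (v : ℕ) :
    nv (fl I a) (v + 1) = nv (key I a) (2 * v + 1) + nv (key I a) (2 * v + 2) := by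
  unfold nv
  rw [← card_union_of_disjoint]
  · congr 1
    ext i
    simp only [mem_filter, mem_univ, true_and, mem_union]
    unfold key fl
    split_ifs <;> omega
  · rw [disjoint_left]
    intro i
    simp only [mem_filter, mem_univ, true_and]
    omega

lemma nv_key_of {I : Finset (Fin N)} {a b : Fin N → ℕ} (h1 : ∀ v, nv b v = nv a v)
    (h2 : ∀ v, nv (fl I b) v = nv (fl I a) v) (w : ℕ) : nv (key I b) w = nv (key I a) w := by
  have h : ∀ v, nv (key I b) (2 * v) = nv (key I a) (2 * v) ∧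
      nv (key I b) (2 * v + 1) = nv (key I a) (2 * v + 1) := by
    intro v
    induction v with
    | zero =>
      have e1 := h2 0
      rw [nv_circ_zero, nv_circ_zero] at e1
      have e2 := h1 0
      rw [nv_star I b, nv_star I a] at e2
      simp only [mul_zero, zero_add] at *
      omega
    | succ v ih =>
      have e1 := h2 (v + 1)
      rw [nv_circ, nv_circ] at e1
      have e2 := h1 (v + 1)
      rw [nv_star I b, nv_star I a] at e2
      rw [show 2 * (v + 1) = 2 * v + 2 by ring] at e2 ⊢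
      omega
  rcases Nat.even_or_odd' w with ⟨v, rfl | rfl⟩
  · exact (h v).1
  · exact (h v).2

/-- `b^2 = b + 2 ∑_{t ≥ 1} (b - t)` -/
lemma sq_eq_sum (b M : ℕ) (h : b ≤ M) : b ^ 2 = b + 2 * ∑ t ∈ range M, (b - (t + 1)) := by
  have h1 : ∀ M, b ≤ M → ∑ t ∈ range M, (b - (t + 1)) = ∑ t ∈ range b, (b - (t + 1)) := by
    intro M hM
    symm
    apply sum_subset
    · intro x hx
      rw [mem_range] at *
      omega
    · intro x _ hx
      rw [mem_range] at hx
      omega
  rw [h1 M h]
  have h2 : ∑ t ∈ range b, (b - (t + 1)) = ∑ t ∈ range b, t := by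
    rw [← sum_range_reflect (fun t => t) b]
    apply sum_congr rfl
    intro x _
    omega
  rw [h2, mul_comm 2, sum_range_id_mul_two]
  rcases Nat.eq_zero_or_pos b with h | h
  · subst h; rfl
  · obtain ⟨c, rfl⟩ : ∃ c, b = c + 1 := ⟨b - 1, by omega⟩
    simp only [Nat.add_sub_cancel]
    ring

lemma le_sum_univ (a : Fin N → ℕ) (i : Fin N) : a i ≤ ∑ j, a j :=
  single_le_sum (f := a) (fun _ _ => Nat.zero_le _) (mem_univ i)

lemma sum_sq_eq (a : Fin N → ℕ) (M : ℕ) (h : ∑ i, a i ≤ M) :
    ∑ i, a i ^ 2 = ∑ i, a i + 2 * ∑ t ∈ range M, ∑ i, (a i - (t + 1)) := by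
  rw [sum_comm, mul_sum, ← sum_add_distrib]
  apply sum_congr rfl
  intro i _
  exact sq_eq_sum (a i) M ((le_sum_univ a i).trans h)

lemma Maj.sq_le {a b : Fin N → ℕ} (h : Maj b a) : ∑ i, b i ^ 2 ≤ ∑ i, a i ^ 2 := by
  rw [sum_sq_eq a (∑ i, a i) le_rfl, sum_sq_eq b (∑ i, a i) h.1.le, h.1]
  have : ∑ t ∈ range (∑ i, a i), ∑ i, (b i - (t + 1)) ≤
      ∑ t ∈ range (∑ i, a i), ∑ i, (a i - (t + 1)) := sum_le_sum (fun t _ => h.2 (t + 1))
  omega

lemma Maj.eq_of_sq {a b : Fin N → ℕ} (h : Maj b a) (hsq : ∑ i, b i ^ 2 = ∑ i, a i ^ 2) (t : ℕ) :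
    ∑ i, (b i - t) = ∑ i, (a i - t) := by
  rcases Nat.eq_zero_or_pos t with h0 | h0
  · subst h0; simpa using h.1
  · obtain ⟨s, rfl⟩ : ∃ s, t = s + 1 := ⟨t - 1, by omega⟩
    have h1 : ∑ t ∈ range (∑ i, a i + s + 1), ∑ i, (b i - (t + 1)) =
        ∑ t ∈ range (∑ i, a i + s + 1), ∑ i, (a i - (t + 1)) := by
      have e1 := sum_sq_eq a (∑ i, a i + s + 1) (by omega)
      have e2 := sum_sq_eq b (∑ i, a i + s + 1) (by have := h.1; omega)
      have := h.1
      omega
    have h2 := (sum_eq_sum_iff_of_le (fun t _ => h.2 (t + 1))).mp h1 s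
      (by rw [mem_range]; omega)
    exact h2

lemma card_ge (a : Fin N → ℕ) (t : ℕ) :
    (univ.filter (fun i => t < a i)).card = ∑ i, (a i - t) - ∑ i, (a i - (t + 1)) := by
  have : ∑ i, (a i - t) = ∑ i, (a i - (t + 1)) + (univ.filter (fun i => t < a i)).card := by
    rw [card_filter, ← sum_add_distrib]
    apply sum_congr rfl
    intro i _
    split_ifs <;> omega
  omega

lemma nv_eq_card (a : Fin N → ℕ) (v : ℕ) :
    nv a v + (univ.filter (fun i => v < a i)).card = (univ.filter (fun i => v ≤ a i)).card := by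
  unfold nv
  rw [← card_union_of_disjoint]
  · congr 1
    ext i
    simp only [mem_filter, mem_univ, true_and, mem_union]
    omega
  · rw [disjoint_left]
    intro i
    simp only [mem_filter, mem_univ, true_and]
    omega

lemma nv_eq_of_sum {a b : Fin N → ℕ} (h : ∀ t, ∑ i, (b i - t) = ∑ i, (a i - t)) (v : ℕ) :
    nv b v = nv a v := by
  have h1 : ∀ t, (univ.filter (fun i => t < b i)).card = (univ.filter (fun i => t < a i)).card := by
    intro t
    rw [card_ge, card_ge, h, h]
  have e1 := nv_eq_card a v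
  have e2 := nv_eq_card b v
  rcases Nat.eq_zero_or_pos v with h0 | h0
  · subst h0
    have := h1 0
    simp only [Nat.zero_le, filter_true] at *
    omega
  · obtain ⟨s, rfl⟩ : ∃ s, v = s + 1 := ⟨v - 1, by omega⟩
    have e3 := h1 (s + 1)
    have e4 := h1 s
    simp only [Nat.lt_iff_add_one_le] at *
    omega

lemma two_Wt (I : Finset (Fin N)) (a : Fin N → ℕ) :
    2 * Wt I a + I.card = ∑ i, a i ^ 2 + ∑ i, fl I a i ^ 2 := by
  have : I.card = ∑ i : Fin N, if i ∈ I then 1 else 0 := by
    rw [← card_filter]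
    congr 1
    ext; simp
  rw [Wt_eq, this, mul_sum, ← sum_add_distrib, ← sum_add_distrib]
  apply sum_congr rfl
  intro i _
  unfold fl
  split_ifs <;> ring

lemma Wt_le_of_Maj {I : Finset (Fin N)} {a b : Fin N → ℕ} (h1 : Maj b a)
    (h2 : Maj (fl I b) (fl I a)) : Wt I b ≤ Wt I a := by
  have e1 := two_Wt I a
  have e2 := two_Wt I b
  have e3 := h1.sq_le
  have e4 := h2.sq_le
  omega

/-- key result: majorization plus equality of weights gives equality of orbits -/
lemma orb_of_Maj {I : Finset (Fin N)} {a b : Fin N → ℕ} (h1 : Maj b a)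
    (h2 : Maj (fl I b) (fl I a)) (hW : Wt I b = Wt I a) : Orb I b a := by
  have e1 := two_Wt I a
  have e2 := two_Wt I b
  have e3 := h1.sq_le
  have e4 := h2.sq_le
  apply orb_of_key
  apply nv_key_of
  · exact nv_eq_of_sum (h1.eq_of_sq (by omega))
  · exact nv_eq_of_sum (h2.eq_of_sq (by omega))

/-- two antitone rearrangements coincide -/
lemma antitone_perm_eq {α : Type*} [Fintype α] [LinearOrder α] {f g : α → ℕ} (hf : Antitone f)
    (hg : Antitone g) (σ : Equiv.Perm α) (h : ∀ i, g i = f (σ i)) : g = f := by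
  have key : ∀ v, univ.filter (fun i => v ≤ f i) = univ.filter (fun i => v ≤ g i) := by
    intro v
    have hcard : (univ.filter (fun i => v ≤ f i)).card = (univ.filter (fun i => v ≤ g i)).card := by
      symm
      apply card_bij (fun i _ => σ i)
      · intro i hi
        simp only [mem_filter, mem_univ, true_and] at hi ⊢
        rw [← h i]; exact hi
      · intro i _ j _ hij
        exact σ.injective hij
      · intro j hj
        simp only [mem_filter, mem_univ, true_and] at hj
        refine ⟨σ.symm j, ?_, Equiv.apply_symm_apply _ _⟩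
        simp only [mem_filter, mem_univ, true_and]
        rw [h, Equiv.apply_symm_apply]; exact hj
    by_cases hsub : univ.filter (fun i => v ≤ f i) ⊆ univ.filter (fun i => v ≤ g i)
    · exact eq_of_subset_of_card_le hsub hcard.ge
    · symm
      apply eq_of_subset_of_card_le _ hcard.le
      rw [not_subset] at hsub
      obtain ⟨x, hx, hx'⟩ := hsub
      intro y hy
      simp only [mem_filter, mem_univ, true_and] at *
      rcases le_total x y with hxy | hxy
      · exact absurd (hy.trans (hg hxy)) hx'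
      · exact hx.trans (hf hxy)
  ext i
  apply le_antisymm
  · have : i ∈ univ.filter (fun j => g i ≤ g j) := by simp
    rw [← key] at this
    simpa using this
  · have : i ∈ univ.filter (fun j => f i ≤ f j) := by simp
    rw [key] at this
    simpa using this

lemma exists_sort {α : Type*} [Fintype α] [LinearOrder α] (f : α → ℕ) :
    ∃ σ : Equiv.Perm α, Antitone (f ∘ σ) := by
  let e : Fin (Fintype.card α) ≃o α := (Fintype.orderIsoFinOfCardEq α rfl).symm.symm
  let s := Tuple.sort (fun i => OrderDual.toDual (f (e i)))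
  refine ⟨(e.symm.toEquiv.trans s).trans e.toEquiv, ?_⟩
  intro x y hxy
  have hm := Tuple.monotone_sort (fun i => OrderDual.toDual (f (e i)))
  have := hm (e.symm.monotone hxy)
  simpa using this

/-- decreasing exponents -/
def Decr (I : Finset (Fin N)) (a : Fin N → ℕ) : Prop :=
  (∀ i ∈ I, ∀ j ∈ I, i < j → a j < a i) ∧ (∀ i, i ∉ I → ∀ j, j ∉ I → i < j → a j ≤ a i)

lemma Decr.inj {I : Finset (Fin N)} {a : Fin N → ℕ} (h : Decr I a) : InjOnI I a := by
  intro i hi j hj hij
  rcases lt_or_gt_of_ne hij with h1 | h1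
  · exact (h.1 i hi j hj h1).ne'
  · exact (h.1 j hj i hi h1).ne

lemma exists_decr {I : Finset (Fin N)} {b : Fin N → ℕ} (hb : InjOnI I b) :
    ∃ a, Decr I a ∧ Orb I a b := by
  obtain ⟨τ, hτ⟩ := exists_sort (fun i : {i // i ∈ I} => b i)
  obtain ⟨ρ, hρ⟩ := exists_sort (fun i : {i // ¬ i ∈ I} => b i)
  refine ⟨b ∘ yg I τ ρ, ⟨?_, ?_⟩, τ, ρ, rfl⟩
  · intro i hi j hj hij
    rw [Function.comp_apply, Function.comp_apply, yg,
      Equiv.Perm.subtypeCongr.left_apply _ _ hi, Equiv.Perm.subtypeCongr.left_apply _ _ hj]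
    have h1 : (⟨i, hi⟩ : {i // i ∈ I}) ≤ ⟨j, hj⟩ := hij.le
    have h2 := hτ h1
    simp only [Function.comp_apply] at h2
    apply lt_of_le_of_ne h2
    apply hb _ (τ ⟨j, hj⟩).2 _ (τ ⟨i, hi⟩).2
    intro heq
    have := τ.injective (Subtype.ext heq)
    simp only [Subtype.mk.injEq] at this
    exact hij.ne' this
  · intro i hi j hj hij
    rw [Function.comp_apply, Function.comp_apply, yg,
      Equiv.Perm.subtypeCongr.right_apply _ _ hi, Equiv.Perm.subtypeCongr.right_apply _ _ hj]
    have h1 : (⟨i, hi⟩ : {i // ¬ i ∈ I}) ≤ ⟨j, hj⟩ := hij.le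
    have h2 := hρ h1
    simpa using h2

lemma Orb.symm {I : Finset (Fin N)} {a b : Fin N → ℕ} (h : Orb I b a) : Orb I a b := by
  obtain ⟨τ, ρ, rfl⟩ := h
  refine ⟨τ⁻¹, ρ⁻¹, ?_⟩
  ext i
  by_cases hi : i ∈ I
  · have e1 : yg I τ⁻¹ ρ⁻¹ i = τ⁻¹ ⟨i, hi⟩ := by
      rw [yg, Equiv.Perm.subtypeCongr.left_apply _ _ hi]
    have e2 : ((τ⁻¹ ⟨i, hi⟩ : {i // i ∈ I}) : Fin N) ∈ I := (τ⁻¹ ⟨i, hi⟩).2
    rw [Function.comp_apply, Function.comp_apply, e1, yg,
      Equiv.Perm.subtypeCongr.left_apply _ _ e2]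
    simp
  · have e1 : yg I τ⁻¹ ρ⁻¹ i = ρ⁻¹ ⟨i, hi⟩ := by
      rw [yg, Equiv.Perm.subtypeCongr.right_apply _ _ hi]
    have e2 : ((ρ⁻¹ ⟨i, hi⟩ : {i // ¬ i ∈ I}) : Fin N) ∉ I := (ρ⁻¹ ⟨i, hi⟩).2
    rw [Function.comp_apply, Function.comp_apply, e1, yg,
      Equiv.Perm.subtypeCongr.right_apply _ _ e2]
    simp

lemma Decr.eq_of_orb {I : Finset (Fin N)} {a b : Fin N → ℕ} (ha : Decr I a) (hb : Decr I b)
    (h : Orb I b a) : b = a := by
  obtain ⟨τ, ρ, hab⟩ := h
  have h1 : (fun i : {i // i ∈ I} => b i) = fun i : {i // i ∈ I} => a i := by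
    apply antitone_perm_eq (σ := τ)
    · intro x y hxy
      rcases hxy.lt_or_eq with h | h
      · exact (ha.1 x x.2 y y.2 h).le
      · rw [h]
    · intro x y hxy
      rcases hxy.lt_or_eq with h | h
      · exact (hb.1 x x.2 y y.2 h).le
      · rw [h]
    · intro i
      rw [hab, Function.comp_apply, yg, Equiv.Perm.subtypeCongr.left_apply _ _ i.2]
  have h2 : (fun i : {i // ¬ i ∈ I} => b i) = fun i : {i // ¬ i ∈ I} => a i := by
    apply antitone_perm_eq (σ := ρ)
    · intro x y hxy
      rcases hxy.lt_or_eq with h | h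
      · exact ha.2 x x.2 y y.2 h
      · rw [h]
    · intro x y hxy
      rcases hxy.lt_or_eq with h | h
      · exact hb.2 x x.2 y y.2 h
      · rw [h]
    · intro i
      rw [hab, Function.comp_apply, yg, Equiv.Perm.subtypeCongr.right_apply _ _ i.2]
  ext i
  by_cases hi : i ∈ I
  · exact congrFun h1 ⟨i, hi⟩
  · exact congrFun h2 ⟨i, hi⟩

/-- a polynomial in `SS` with vanishing decreasing coefficients vanishes -/
lemma SS_eq_zero {R : Type*} [CommRing R] [IsDomain R] [CharZero R] {I : Finset (Fin N)}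
    {f : MvPolynomial (Fin N) R} (hf : f ∈ SS R I)
    (h : ∀ a : Fin N →₀ ℕ, Decr I a → coeff a f = 0) : f = 0 := by
  ext b
  rw [coeff_zero]
  by_contra hne
  have hinj : InjOnI I b := coeff_SS_inj hf hne
  obtain ⟨a, ha, hab⟩ := exists_decr hinj
  apply hne
  have : (Finsupp.equivFunOnFinite.symm a : Fin N → ℕ) = a := rfl
  apply coeff_SS_zero (a := Finsupp.equivFunOnFinite.symm a) hf
  · rw [this]; exact hab.symm
  · exact h _ (by rw [this]; exact ha)

end Pool.Agent.Lib.MP_2558e3_co
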