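import Pool.Agent.Lib.MP_2558e3_co.Orbits
import Pool.Agent.Lib.MP_2558e3_co.Van

section

/-!
Rearrangement inequalities within colour classes.
-/

namespace Pool.Agent.Lib.MP_2558e3_co

open Finset

variable {N : ℕ}

/-- antitone on colour classes -/
def CA (cl pos u : Fin N → ℕ) : Prop := ∀ i j, cl i = cl j → pos i ≤ pos j → u j ≤ u i

/-- initial in each colour class -/
def Init (cl pos : Fin N → ℕ) (X : Finset (Fin N)) : Prop :=
  ∀ i ∈ X, ∀ j, cl j = cl i → pos j ≤ pos i → j ∈ X

section

variable {cl pos : Fin N → ℕ} {X Y : Finset (Fin N)} {w : Equiv.Perm (Fin N)}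

lemma class_card_le (hX : Init cl pos X) (hY : Init cl pos Y) (hw : ∀ i, cl (w i) = cl i)
    (c : ℕ) : ((X.filter (fun i => w i ∈ Y)).filter (fun i => cl i = c)).card ≤
      ((X ∩ Y).filter (fun i => cl i = c)).card := by
  by_cases h : ∀ x ∈ X, cl x = c → x ∈ Y
  · apply card_le_card
    intro x hx
    simp only [mem_filter, mem_inter] at hx ⊢
    exact ⟨⟨hx.1.1, h x hx.1.1 hx.2⟩, hx.2⟩
  · simp only [not_forall] at h
    obtain ⟨x, hxX, hxc, hxY⟩ := h
    apply card_le_card_of_injOn w
    · intro i hi
      simp only [coe_filter, mem_filter, Set.mem_ofPred_eq, mem_inter] at hi ⊢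
      refine ⟨⟨?_, hi.1.2⟩, by rw [hw]; exact hi.2⟩
      have hcl : cl (w i) = cl x := by rw [hw, hi.2, hxc]
      rcases le_total (pos (w i)) (pos x) with h1 | h1
      · exact hX x hxX _ hcl h1
      · exact absurd (hY _ hi.1.2 x hcl.symm h1) hxY
    · exact w.injective.injOn

lemma card_fiber (Z : Finset (Fin N)) (M : ℕ) (hM : ∀ i, cl i < M) :
    Z.card = ∑ c ∈ range M, (Z.filter (fun i => cl i = c)).card :=
  card_eq_sum_card_fiberwise (fun i _ => by
    rw [coe_range]; exact hM i)

lemma exists_bound (u : Fin N → ℕ) : ∃ M, ∀ i, u i < M :=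
  ⟨∑ i, u i + 1, fun i => Nat.lt_succ_of_le (le_sum_univ u i)⟩

lemma inc_card_le (hX : Init cl pos X) (hY : Init cl pos Y) (hw : ∀ i, cl (w i) = cl i) :
    (X.filter (fun i => w i ∈ Y)).card ≤ (X ∩ Y).card := by
  obtain ⟨M, hM⟩ := exists_bound cl
  rw [card_fiber (cl := cl) _ M hM, card_fiber (cl := cl) (X ∩ Y) M hM]
  exact sum_le_sum (fun c _ => class_card_le hX hY hw c)

lemma inc_card_eq (hX : Init cl pos X) (hY : Init cl pos Y) (hw : ∀ i, cl (w i) = cl i)
    (h : (X.filter (fun i => w i ∈ Y)).card = (X ∩ Y).card) (c : ℕ) :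
    ((X.filter (fun i => w i ∈ Y)).filter (fun i => cl i = c)).card =
      ((X ∩ Y).filter (fun i => cl i = c)).card := by
  obtain ⟨M, hM⟩ := exists_bound cl
  rw [card_fiber (cl := cl) _ M hM, card_fiber (cl := cl) (X ∩ Y) M hM] at h
  have h2 := (sum_eq_sum_iff_of_le (fun c _ => class_card_le hX hY hw c)).mp h
  by_cases hc : c < M
  · exact h2 c (mem_range.mpr hc)
  · have e1 : ∀ Z : Finset (Fin N), Z.filter (fun i => cl i = c) = ∅ := by
      intro Z
      apply filter_false_of_mem
      intro i _ hi
      exact hc (hi ▸ hM i)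
    rw [e1, e1]

end

lemma init_gt {cl pos u : Fin N → ℕ} (hu : CA cl pos u) (s : ℕ) :
    Init cl pos (univ.filter (fun i => s < u i)) := by
  intro i hi j hcl hp
  rw [mem_filter] at hi ⊢
  exact ⟨mem_univ _, hi.2.trans_le (hu j i hcl hp)⟩

lemma init_ge {cl pos u : Fin N → ℕ} (hu : CA cl pos u) (s t : ℕ) :
    Init cl pos (univ.filter (fun i => t ≤ s + u i)) := by
  intro i hi j hcl hp
  rw [mem_filter] at hi ⊢
  exact ⟨mem_univ _, hi.2.trans (Nat.add_le_add_left (hu j i hcl hp) s)⟩

lemma layer (x y t M : ℕ) (h : x ≤ M) :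
    x + y - t = (y - t) + ∑ s ∈ range M, if s < x ∧ t ≤ s + y then 1 else 0 := by
  have : ∑ s ∈ range M, (if s < x ∧ t ≤ s + y then 1 else 0) = x - (t - y) := by
    rw [← card_filter, ← Nat.card_Ico]
    congr 1
    ext s
    simp only [mem_filter, mem_range, mem_Ico]
    omega
  rw [this]
  omega

lemma layer_mul (x y M : ℕ) (hx : x ≤ M) (hy : y ≤ M) :
    x * y = ∑ s ∈ range M, ∑ r ∈ range M, if s < x ∧ r < y then 1 else 0 := by
  have h1 : ∀ z, z ≤ M → ∑ s ∈ range M, (if s < z then 1 else 0) = z := by
    intro z hz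
    rw [← card_filter]
    have : (range M).filter (fun s => s < z) = range z := by
      ext s
      simp only [mem_filter, mem_range]
      omega
    rw [this, card_range]
  have h2 : ∀ s, ∑ r ∈ range M, (if s < x ∧ r < y then 1 else 0) = if s < x then y else 0 := by
    intro s
    split_ifs with h
    · simp only [h, true_and]
      exact h1 y hy
    · simp [h]
  simp only [h2]
  rw [← h1 x hx, sum_mul]
  apply sum_congr rfl
  intro s _
  rw [h1 x hx]
  split_ifs <;> simp

lemma sum_layer (u δ : Fin N → ℕ) (w : Equiv.Perm (Fin N)) (P Q : ℕ → Prop) [DecidablePred P]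
    [DecidablePred Q] : ∑ i, (if P (u i) ∧ Q (δ (w i)) then 1 else 0) =
      ((univ.filter (fun i => P (u i))).filter
        (fun i => w i ∈ univ.filter (fun i => Q (δ i)))).card := by
  rw [← card_filter, filter_filter]
  congr 1
  ext i
  simp only [mem_filter, mem_univ, true_and]

/-- majorization of rearranged sums -/
lemma rearr_maj {cl pos u δ : Fin N → ℕ} (hu : CA cl pos u) (hδ : CA cl pos δ)
    {w : Equiv.Perm (Fin N)} (hw : ∀ i, cl (w i) = cl i) (t : ℕ) :
    ∑ i, (u i + δ (w i) - t) ≤ ∑ i, (u i + δ i - t) := by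
  obtain ⟨M, hM⟩ := exists_bound u
  have h : ∀ w : Equiv.Perm (Fin N), ∑ i, (u i + δ (w i) - t) = ∑ i, (δ i - t) +
      ∑ s ∈ range M, ((univ.filter (fun i => s < u i)).filter
        (fun i => w i ∈ univ.filter (fun i => t ≤ s + δ i))).card := by
    intro w
    rw [← Equiv.sum_comp w (fun i => δ i - t)]
    have e1 : ∀ s, ((univ.filter (fun i => s < u i)).filter
        (fun i => w i ∈ univ.filter (fun i => t ≤ s + δ i))).card =
        ∑ i, (if s < u i ∧ t ≤ s + δ (w i) then 1 else 0) := fun s =>
      (sum_layer u δ w (fun x => s < x) (fun x => t ≤ s + x)).symm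
    simp only [e1]
    rw [sum_comm, ← sum_add_distrib]
    apply sum_congr rfl
    intro i _
    exact layer (u i) (δ (w i)) t M (hM i).le
  have h1 := h 1
  simp only [Equiv.Perm.coe_one, id] at h1
  rw [h w, h1]
  apply Nat.add_le_add_left
  apply sum_le_sum
  intro s _
  have := inc_card_le (init_gt hu s) (init_ge hδ s t) hw
  refine this.trans (le_of_eq ?_)
  congr 1

/-- equality case of the rearrangement inequality -/
lemma rearr_eq {cl pos g δ : Fin N → ℕ} (hg : CA cl pos g) (hδ : CA cl pos δ)
    (hδ' : ∀ i j, cl i = cl j → pos i < pos j → δ j < δ i)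
    {w : Equiv.Perm (Fin N)} (hw : ∀ i, cl (w i) = cl i)
    (heq : ∑ i, g i * δ (w i) = ∑ i, g i * δ i) (i : Fin N) : g (w i) = g i := by
  obtain ⟨M₁, hM₁⟩ := exists_bound g
  obtain ⟨M₂, hM₂⟩ := exists_bound δ
  set M := M₁ + M₂ with hM
  have h : ∀ w : Equiv.Perm (Fin N), ∑ i, g i * δ (w i) =
      ∑ s ∈ range M, ∑ r ∈ range M, ((univ.filter (fun i => s < g i)).filter
        (fun i => w i ∈ univ.filter (fun i => r < δ i))).card := by
    intro w
    have e1 : ∀ s r, ((univ.filter (fun i => s < g i)).filter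
        (fun i => w i ∈ univ.filter (fun i => r < δ i))).card =
        ∑ i, (if s < g i ∧ r < δ (w i) then 1 else 0) := fun s r =>
      (sum_layer g δ w (fun x => s < x) (fun x => r < x)).symm
    simp only [e1]
    have e2 : ∀ s, ∑ r ∈ range M, ∑ i, (if s < g i ∧ r < δ (w i) then 1 else 0) =
        ∑ i, ∑ r ∈ range M, (if s < g i ∧ r < δ (w i) then 1 else 0) := fun s => sum_comm
    simp only [e2]
    rw [sum_comm]
    apply sum_congr rfl
    intro i _
    exact layer_mul (g i) (δ (w i)) M ((hM₁ i).le.trans (by omega)) ((hM₂ _).le.trans (by omega))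
  have h1 := h 1
  simp only [Equiv.Perm.coe_one, id] at h1
  rw [h w, h1] at heq
  have hle : ∀ s r, ((univ.filter (fun i => s < g i)).filter
        (fun i => w i ∈ univ.filter (fun i => r < δ i))).card ≤
      ((univ.filter (fun i => s < g i)).filter
        (fun i => i ∈ univ.filter (fun i => r < δ i))).card := by
    intro s r
    have := inc_card_le (init_gt hg s) (init_gt hδ r) hw
    refine this.trans (le_of_eq ?_)
    congr 1
  have heq2 : ∀ s, s < M → ∀ r, r < M → ((univ.filter (fun i => s < g i)).filter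
        (fun i => w i ∈ univ.filter (fun i => r < δ i))).card =
      ((univ.filter (fun i => s < g i)) ∩ (univ.filter (fun i => r < δ i))).card := by
    intro s hs r hr
    have h2 := (sum_eq_sum_iff_of_le (fun s _ => sum_le_sum (fun r _ => hle s r))).mp heq s
      (mem_range.mpr hs)
    have h3 := (sum_eq_sum_iff_of_le (fun r _ => hle s r)).mp h2 r (mem_range.mpr hr)
    rw [h3]
    congr 1
  -- `w` preserves superlevel sets
  have key : ∀ s i, s < g i → s < g (w i) := by
    intro s i hi
    by_contra hcon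
    set Xc := (univ.filter (fun j => s < g j)).filter (fun j => cl j = cl i) with hXc
    have hne : Xc.Nonempty := ⟨i, by
      rw [hXc, mem_filter, mem_filter]
      exact ⟨⟨mem_univ _, hi⟩, rfl⟩⟩
    obtain ⟨i₀, hi₀, hmax⟩ := exists_max_image Xc pos hne
    rw [hXc, mem_filter, mem_filter] at hi₀
    have hcl0 : cl (w i) = cl i₀ := by rw [hw, hi₀.2]
    have hlt : pos i₀ < pos (w i) := by
      by_contra hcon2
      rw [not_lt] at hcon2
      exact hcon (hi₀.1.2.trans_le (hg _ _ hcl0 hcon2))
    have hd := hδ' i₀ (w i) hcl0.symm hlt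
    obtain ⟨r, hr⟩ : ∃ r, δ i₀ = r + 1 := ⟨δ i₀ - 1, by omega⟩
    have hsM : s < M := by have := hM₁ i; omega
    have hrM : r < M := by have := hM₂ i₀; omega
    have h4 := inc_card_eq (init_gt hg s) (init_gt hδ r) hw (heq2 s hsM r hrM) (cl i)
    have h5 : ((univ.filter (fun j => s < g j)) ∩ (univ.filter (fun j => r < δ j))).filter
        (fun j => cl j = cl i) = Xc := by
      rw [hXc]
      ext j
      simp only [mem_filter, mem_inter, mem_univ, true_and]
      constructor
      · rintro ⟨⟨h1, _⟩, h2⟩
        exact ⟨h1, h2⟩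
      · rintro ⟨h1, h2⟩
        refine ⟨⟨h1, ?_⟩, h2⟩
        have h6 := hmax j (by rw [hXc, mem_filter, mem_filter]; exact ⟨⟨mem_univ _, h1⟩, h2⟩)
        have h7 := hδ j i₀ (h2.trans hi₀.2.symm) h6
        omega
    rw [h5] at h4
    have h6 : ((univ.filter (fun j => s < g j)).filter
        (fun j => w j ∈ univ.filter (fun j => r < δ j))).filter (fun j => cl j = cl i) = Xc := by
      apply eq_of_subset_of_card_le
      · intro j hj
        rw [mem_filter, mem_filter] at hj
        rw [hXc, mem_filter]
        exact ⟨hj.1.1, hj.2⟩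
      · exact h4.ge
    have h7 : i ∈ Xc := by
      rw [hXc, mem_filter, mem_filter]
      exact ⟨⟨mem_univ _, hi⟩, rfl⟩
    rw [← h6, mem_filter, mem_filter] at h7
    have := (mem_filter.mp h7.1.2).2
    omega
  -- hence equality
  have hle : ∀ i, g i ≤ g (w i) := by
    intro i
    rcases Nat.eq_zero_or_pos (g i) with h0 | h0
    · omega
    · have := key (g i - 1) i (by omega)
      omega
  have hsum : ∑ i, g i = ∑ i, g (w i) := (Equiv.sum_comp w g).symm
  exact ((sum_eq_sum_iff_of_le (fun i _ => hle i)).mp hsum i (mem_univ i)).symm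

end Pool.Agent.Lib.MP_2558e3_co
end

section

/-!
Upper bound: exponents of maximal weight in the vanishing ideal are admissible.
-/

namespace Pool.Agent.Lib.MP_2558e3_co

open Finset MvPolynomial

variable {N : ℕ} {R : Type*} [CommRing R]

/-- number of keys in the window `2j, 2j+1, 2j+2` -/
def wcard (I : Finset (Fin N)) (a : Fin N → ℕ) (j : ℕ) : ℕ :=
  (univ.filter (fun i => 2 * j ≤ key I a i ∧ key I a i ≤ 2 * j + 2)).card

lemma coeff_rename_sum (g : Fin N → Fin N) (f : MvPolynomial (Fin N) R) (d : Fin N →₀ ℕ) :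
    coeff d (rename g f) =
      ∑ b ∈ f.support, if Finsupp.mapDomain g b = d then coeff b f else 0 := by
  classical
  conv_lhs => rw [f.as_sum]
  rw [map_sum, coeff_sum]
  apply sum_congr rfl
  intro b _
  rw [rename_monomial, coeff_monomial]

/-- the cost of a value -/
def cost (I : Finset (Fin N)) (i : Fin N) (x : ℕ) : ℤ := (x : ℤ) ^ 2 + if i ∈ I then (x : ℤ) else 0

lemma Wt_cost (I : Finset (Fin N)) (a : Fin N → ℕ) : (Wt I a : ℤ) = ∑ i, cost I i (a i) := by
  rw [Wt_eq]
  push_cast
  rfl

theorem upper [IsDomain R] [CharZero R] {k : ℕ} {I : Finset (Fin N)}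
    {f : MvPolynomial (Fin N) R} (hf : f ∈ SS R I) (hV : f ∈ Van R N k) {a : Fin N →₀ ℕ}
    (ha : coeff a f ≠ 0) (hmax : ∀ b : Fin N →₀ ℕ, coeff b f ≠ 0 → Wt I b ≤ Wt I a) (j : ℕ) :
    wcard I a j ≤ k := by
  classical
  by_contra hcon
  rw [not_le] at hcon
  obtain ⟨C, hCsub, hC⟩ := exists_subset_card_eq (Nat.succ_le_of_lt hcon)
  obtain ⟨c, hc⟩ : C.Nonempty := by rw [← card_pos, hC]; omega
  have hwin : ∀ i ∈ C, 2 * j ≤ key I a i ∧ key I a i ≤ 2 * j + 2 := by
    intro i hi
    have := hCsub hi
    rw [mem_filter] at this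
    exact this.2
  have h0 : rename (coll C c) f = 0 := hV _ C hC (fun x hx y hy => by
    rw [coll_mem hx, coll_mem hy])
  have hkey : ∀ b ∈ f.support, Finsupp.mapDomain (coll C c) b = Finsupp.mapDomain (coll C c) a →
      coeff b f = coeff a f := by
    intro b hb hba
    rw [mem_support_iff] at hb
    have hout : ∀ l, l ∉ C → b l = a l := by
      intro l hl
      have := DFunLike.congr_fun hba l
      rw [mapDomain_apply_sum, mapDomain_apply_sum, filter_coll' hc hl, sum_singleton,
        sum_singleton] at this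
      exact this
    have hsumC : ∑ i ∈ C, b i = ∑ i ∈ C, a i := by
      have := DFunLike.congr_fun hba c
      rw [mapDomain_apply_sum, mapDomain_apply_sum, filter_coll hc] at this
      exact this
    have hW := hmax b hb
    have hWC : ∑ i ∈ C, cost I i (b i) ≤ ∑ i ∈ C, cost I i (a i) := by
      have h1 : (Wt I b : ℤ) ≤ Wt I a := by exact_mod_cast hW
      rw [Wt_cost, Wt_cost, sum_split C, sum_split C (fun i => cost I i (a i))] at h1
      have h2 : ∑ i ∈ univ \ C, cost I i (b i) = ∑ i ∈ univ \ C, cost I i (a i) := by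
        apply sum_congr rfl
        intro i hi
        rw [mem_sdiff] at hi
        rw [hout i hi.2]
      linarith
    have hterm : ∀ i ∈ C, cost I i (a i) - (2 * j + 1) * (a i : ℤ) ≤
        cost I i (b i) - (2 * j + 1) * (b i : ℤ) := by
      intro i hi
      have hw := hwin i hi
      unfold key at hw
      unfold cost
      split_ifs at hw ⊢ with hiI
      · have : a i = j := by omega
        rw [this]
        nlinarith [sq_nonneg ((b i : ℤ) - j)]
      · have hb' : (0 : ℤ) ≤ ((b i : ℤ) - j) * ((b i : ℤ) - j - 1) := by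
          rcases le_or_gt (b i) j with h | h
          · have : (b i : ℤ) ≤ j := by exact_mod_cast h
            nlinarith
          · have : (j : ℤ) + 1 ≤ b i := by exact_mod_cast h
            nlinarith
        have ha' : ((a i : ℤ) - j) * ((a i : ℤ) - j - 1) = 0 := by
          rcases (by omega : a i = j ∨ a i = j + 1) with h | h
          · rw [h]; ring
          · rw [h]; push_cast; ring
        nlinarith
    have hsumC' : ∑ i ∈ C, (b i : ℤ) = ∑ i ∈ C, (a i : ℤ) := by exact_mod_cast hsumC
    have heqs : ∑ i ∈ C, (cost I i (a i) - (2 * j + 1) * (a i : ℤ)) =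
        ∑ i ∈ C, (cost I i (b i) - (2 * j + 1) * (b i : ℤ)) := by
      apply le_antisymm (sum_le_sum hterm)
      rw [sum_sub_distrib, sum_sub_distrib, ← mul_sum, ← mul_sum, hsumC']
      linarith
    have heq := (sum_eq_sum_iff_of_le hterm).mp heqs
    -- consequences
    have hI : ∀ i ∈ C, i ∈ I → b i = j ∧ a i = j := by
      intro i hi hiI
      have hw := hwin i hi
      have h1 := heq i hi
      unfold key at hw
      unfold cost at h1
      rw [if_pos hiI] at hw
      rw [if_pos hiI, if_pos hiI] at h1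
      have ha' : a i = j := by omega
      rw [ha'] at h1
      have h2 : ((b i : ℤ) - j) ^ 2 = 0 := by nlinarith
      have h3 := pow_eq_zero_iff (two_ne_zero) |>.mp h2
      exact ⟨by omega, ha'⟩
    have hJ : ∀ i ∈ C, i ∉ I → (b i = j ∨ b i = j + 1) ∧ (a i = j ∨ a i = j + 1) := by
      intro i hi hiI
      have hw := hwin i hi
      have h1 := heq i hi
      unfold key at hw
      unfold cost at h1
      rw [if_neg hiI] at hw
      rw [if_neg hiI, if_neg hiI] at h1
      have ha' : a i = j ∨ a i = j + 1 := by omega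
      have ha'' : ((a i : ℤ) - j) * ((a i : ℤ) - j - 1) = 0 := by
        rcases ha' with h | h
        · rw [h]; ring
        · rw [h]; push_cast; ring
      have h2 : ((b i : ℤ) - j) * ((b i : ℤ) - j - 1) = 0 := by nlinarith
      refine ⟨?_, ha'⟩
      rcases mul_eq_zero.mp h2 with h | h
      · left; omega
      · right; omega
    have hbI : ∀ i ∈ I, b i = a i := by
      intro i hi
      by_cases hiC : i ∈ C
      · rw [(hI i hiC hi).1, (hI i hiC hi).2]
      · exact hout i hiC
    have htot : ∑ i ∈ univ \ I, ((b i : ℤ) - a i) = 0 := by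
      have h1 : ∑ i, ((b i : ℤ) - a i) = 0 := by
        rw [sum_split C, sum_sub_distrib, hsumC', sub_self, zero_add]
        apply sum_eq_zero
        intro i hi
        rw [mem_sdiff] at hi
        rw [hout i hi.2, sub_self]
      rw [sum_split I, sum_eq_zero (s := I), zero_add] at h1
      · exact h1
      · intro i hi
        rw [hbI i hi, sub_self]
    obtain ⟨ρ, hρ⟩ := exists_perm_of_card (fun i : {i // ¬ i ∈ I} => b i)
      (fun i : {i // ¬ i ∈ I} => a i) (fun v => by
        rw [card_subtype_filter' I (fun i => b i = v), card_subtype_filter' I (fun i => a i = v)]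
        have h1 : (((univ \ I).filter (fun i => b i = v)).card : ℤ) -
            (((univ \ I).filter (fun i => a i = v)).card : ℤ) =
            ((if v = j + 1 then 1 else 0) - (if v = j then 1 else 0)) *
              ∑ i ∈ univ \ I, ((b i : ℤ) - a i) := by
          rw [card_filter, card_filter]
          push_cast
          rw [← sum_sub_distrib, mul_sum]
          apply sum_congr rfl
          intro i hi
          rw [mem_sdiff] at hi
          by_cases hiC : i ∈ C
          · obtain ⟨h2, h3⟩ := hJ i hiC hi.2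
            rcases h2 with h2 | h2 <;> rcases h3 with h3 | h3 <;> rw [h2, h3] <;>
              split_ifs <;> first | (exfalso; omega) | (push_cast; ring)
          · rw [hout i hiC]; simp
        rw [htot, mul_zero] at h1
        omega)
    have hmap : Finsupp.mapDomain (yg I 1 ρ) b = a := by
      ext l
      obtain ⟨l, rfl⟩ := (yg I 1 ρ).surjective l
      rw [mapDomain_perm]
      by_cases hl : l ∈ I
      · rw [yg, Equiv.Perm.subtypeCongr.left_apply _ _ hl]
        exact hbI l hl
      · rw [yg, Equiv.Perm.subtypeCongr.right_apply _ _ hl]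
        exact hρ ⟨l, hl⟩
    have h5 := coeff_SS hf 1 ρ b
    rw [hmap] at h5
    rw [h5]
    simp
  have h1 := coeff_rename_sum (coll C c) f (Finsupp.mapDomain (coll C c) a)
  rw [h0, coeff_zero, ← sum_filter] at h1
  have hkey' : ∀ b ∈ f.support.filter
      (fun b => Finsupp.mapDomain (coll C c) b = Finsupp.mapDomain (coll C c) a),
      coeff b f = coeff a f := by
    intro b hb
    rw [mem_filter] at hb
    exact hkey b hb.1 hb.2
  rw [sum_congr rfl hkey', sum_const, nsmul_eq_mul] at h1
  rcases mul_eq_zero.mp h1.symm with h2 | h2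
  · rw [Nat.cast_eq_zero, card_eq_zero] at h2
    have : a ∈ f.support.filter
        (fun b => Finsupp.mapDomain (coll C c) b = Finsupp.mapDomain (coll C c) a) := by
      rw [mem_filter, mem_support_iff]
      exact ⟨ha, rfl⟩
    rw [h2] at this
    exact absurd this (notMem_empty _)
  · exact ha h2

end Pool.Agent.Lib.MP_2558e3_co
end
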